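import Pool.Agent.H209R3.Poly

set_option autoImplicit false

namespace Pool.Agent.H209R3

open Polynomial

variable {k : Type*} [Field k]

/-- constant matrix acting on triples of polynomials -/
noncomputable def mv (t : Fin 3 → Fin 3 → k) (v : Fin 3 → k[X]) : Fin 3 → k[X] :=
  fun i => C (t i 0) * v 0 + C (t i 1) * v 1 + C (t i 2) * v 2

/-- transposed action -/
noncomputable def mvT (t : Fin 3 → Fin 3 → k) (v : Fin 3 → k[X]) : Fin 3 → k[X] :=
  fun i => C (t 0 i) * v 0 + C (t 1 i) * v 1 + C (t 2 i) * v 2

lemma dt_mv (t : Fin 3 → Fin 3 → k) (n v : Fin 3 → k[X]) : dt n (mv t v) = dt (mvT t n) v := by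
  simp only [dt, mv, mvT]; ring

lemma mv_Sb (t : Fin 3 → Fin 3 → k) (q : ℕ) (v : Fin 3 → k[X]) :
    mv t (Sb q v) = Sb q (mv t v) := by
  funext i
  simp only [mv, Sb, map_add, map_mul, expand_C]

lemma mvT_Sb (t : Fin 3 → Fin 3 → k) (q : ℕ) (v : Fin 3 → k[X]) :
    mvT t (Sb q v) = Sb q (mvT t v) := by
  funext i
  simp only [mvT, Sb, map_add, map_mul, expand_C]

lemma ht_le_of_par {y w : Fin 3 → k[X]} (hy : Prim y) (h : Par w y) (hw : w ≠ 0) :
    ht y ≤ ht w := by
  obtain ⟨l, hl⟩ := prim_par hy h
  have hl0 : l ≠ 0 := by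
    rintro rfl
    apply hw
    funext i
    rw [hl i]; simp
  apply ht_le
  intro i
  by_cases hyi : y i = 0
  · rw [hyi]; simp
  · have := le_ht w i
    rw [hl i, natDegree_mul hl0 hyi] at this
    omega

lemma ht_cr_le (a b : Fin 3 → k[X]) : ht (cr a b) ≤ ht a + ht b := by
  have key : ∀ i j l m : Fin 3, (a i * b j - a l * b m).natDegree ≤ ht a + ht b := by
    intro i j l m
    apply le_trans (natDegree_sub_le _ _)
    apply max_le
    · exact le_trans natDegree_mul_le (add_le_add (le_ht a i) (le_ht b j))
    · exact le_trans natDegree_mul_le (add_le_add (le_ht a l) (le_ht b m))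
  apply ht_le
  intro i
  fin_cases i
  · exact key 1 2 2 1
  · exact key 2 0 0 2
  · exact key 0 1 1 0

lemma exists_prim {w : Fin 3 → k[X]} (hw : w ≠ 0) :
    ∃ (G : k[X]) (m : Fin 3 → k[X]), G ≠ 0 ∧ Prim m ∧ ∀ i, w i = G * m i := by
  obtain ⟨g, hg⟩ := (IsPrincipalIdealRing.principal (Ideal.span (Set.range w))).principal
  have hg' : Ideal.span (Set.range w) = Ideal.span {g} := hg
  have hdiv : ∀ i, g ∣ w i := by
    intro i
    rw [← Ideal.mem_span_singleton, ← hg']
    exact Ideal.subset_span ⟨i, rfl⟩
  choose m hm using hdiv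
  have hg0 : g ≠ 0 := by
    rintro rfl
    apply hw
    funext i
    rw [hm i]; simp
  have h1 : g ∈ Ideal.span (Set.range w) := by
    rw [hg']; exact Ideal.mem_span_singleton_self g
  obtain ⟨c, hc⟩ := Ideal.mem_span_range_iff_exists_fun.1 h1
  refine ⟨g, m, hg0, ⟨c, ?_⟩, hm⟩
  rw [Fin.sum_univ_three, hm 0, hm 1, hm 2] at hc
  apply mul_left_cancel₀ hg0
  simp only [dt]
  linear_combination hc

lemma ht_scale {w m : Fin 3 → k[X]} {G : k[X]} (hG : G ≠ 0) (h : ∀ i, w i = G * m i) :
    ht m ≤ ht w := by
  apply ht_le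
  intro i
  by_cases hmi : m i = 0
  · rw [hmi]; simp
  · have := le_ht w i
    rw [h i, natDegree_mul hG hmi] at this
    omega

lemma indep3 {q : ℕ} (hq : 3 ≤ q) {a0 a1 a2 : k[X]}
    (h : X ^ 2 * expand k q a2 + X * expand k q a1 + expand k q a0 = 0) :
    a0 = 0 ∧ a1 = 0 ∧ a2 = 0 := by
  have hq0 : 0 < q := by omega
  have d1 : ∀ n : ℕ, ¬ q ∣ q * n + 1 := by
    intro n hd
    have := (Nat.dvd_add_right (Dvd.intro n rfl)).1 hd
    have := Nat.le_of_dvd (by norm_num) this
    omega
  have d2 : ∀ n : ℕ, ¬ q ∣ q * n + 2 := by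
    intro n hd
    have := (Nat.dvd_add_right (Dvd.intro n rfl)).1 hd
    have := Nat.le_of_dvd (by norm_num) this
    omega
  have h2 : a2 = 0 := by
    ext n
    have := congrArg (fun f => coeff f (q * n + 2)) h
    simp only [coeff_add, coeff_zero] at this
    rw [coeff_X_pow_mul, show q * n + 2 = (q * n + 1) + 1 from rfl, coeff_X_mul,
      coeff_expand hq0, coeff_expand hq0, coeff_expand hq0] at this
    rw [if_pos (Dvd.intro n rfl), if_neg (d1 n), if_neg (d2 n), Nat.mul_div_cancel_left n hq0] at this
    simpa using this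
  subst h2
  have h1 : a1 = 0 := by
    ext n
    have := congrArg (fun f => coeff f (q * n + 1)) h
    simp only [coeff_add, coeff_zero, map_zero, mul_zero, zero_add] at this
    rw [coeff_X_mul, coeff_expand hq0, coeff_expand hq0] at this
    rw [if_pos (Dvd.intro n rfl), if_neg (d1 n), Nat.mul_div_cancel_left n hq0] at this
    simpa using this
  subst h1
  simp only [map_zero, mul_zero, zero_add] at h
  exact ⟨(expand_eq_zero hq0).1 h, rfl, rfl⟩

/-- adjugate of `X - t` applied to `v` -/
noncomputable def Adj (t : Fin 3 → Fin 3 → k) (v : Fin 3 → k[X]) : Fin 3 → k[X] :=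
  fun i => X ^ 2 * v i + X * (mv t v i - C (t 0 0 + t 1 1 + t 2 2) * v i) +
    (mv t (mv t v) i - C (t 0 0 + t 1 1 + t 2 2) * mv t v i +
      C (t 0 0 * t 1 1 - t 0 1 * t 1 0 + t 0 0 * t 2 2 - t 0 2 * t 2 0 + t 1 1 * t 2 2
        - t 1 2 * t 2 1) * v i)

/-- characteristic polynomial -/
noncomputable def chi (t : Fin 3 → Fin 3 → k) : k[X] :=
  X ^ 3 - C (t 0 0 + t 1 1 + t 2 2) * X ^ 2 +
    C (t 0 0 * t 1 1 - t 0 1 * t 1 0 + t 0 0 * t 2 2 - t 0 2 * t 2 0 + t 1 1 * t 2 2
        - t 1 2 * t 2 1) * X -
    C (t 0 0 * (t 1 1 * t 2 2 - t 1 2 * t 2 1) - t 0 1 * (t 1 0 * t 2 2 - t 1 2 * t 2 0)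
        + t 0 2 * (t 1 0 * t 2 1 - t 1 1 * t 2 0))

lemma adj_mul (t : Fin 3 → Fin 3 → k) (x : Fin 3 → k[X]) (i : Fin 3) :
    Adj t (fun j => mv t x j - X * x j) i = - (chi t * x i) := by
  fin_cases i <;> simp only [Adj, chi, mv, map_add, map_mul, map_sub] <;> simp <;> ring

lemma chi_ne_zero (t : Fin 3 → Fin 3 → k) : chi t ≠ 0 := by
  intro h
  have := congrArg (fun f => coeff f 3) h
  simp only [chi, coeff_add, coeff_sub, coeff_C_mul, coeff_X_pow, coeff_X, coeff_C,
    coeff_zero] at this
  norm_num at this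

/-- scaling in the first slot of the dot product -/
lemma dt_scale_right {n w m : Fin 3 → k[X]} {G : k[X]} (h : ∀ i, w i = G * m i) :
    dt n w = G * dt n m := by
  simp only [dt, h]; ring

lemma dt_scale_left {n w m : Fin 3 → k[X]} {G : k[X]} (h : ∀ i, w i = G * m i) :
    dt w n = G * dt m n := by
  simp only [dt, h]; ring

/-- linear independence of the coordinates over the constants -/
def Indep (x : Fin 3 → k[X]) : Prop := ∀ c : Fin 3 → k, dt (fun i => C (c i)) x = 0 → c = 0

lemma no_const {x v : Fin 3 → k[X]} (hx : Indep x) (hv : v ≠ 0) (h0 : ht v = 0)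
    (hd : dt v x = 0) : False := by
  have hvc : v = fun i => C ((v i).coeff 0) := by
    funext i
    exact eq_C_of_natDegree_eq_zero (by have := le_ht v i; omega)
  have := hx (fun i => (v i).coeff 0) (by rw [← hvc]; exact hd)
  apply hv
  rw [hvc]
  funext i
  have h2 := congrFun this i
  simp only [Pi.zero_apply] at h2 ⊢
  rw [h2, C_0]

lemma ht_pos_of_indep {x : Fin 3 → k[X]} (hx : Indep x) : 1 ≤ ht x := by
  by_contra hcon
  have h0 : ht x = 0 := by omega
  have hxc : ∀ i, x i = C ((x i).coeff 0) := fun i =>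
    eq_C_of_natDegree_eq_zero (by have := le_ht x i; omega)
  have h1 := hx ![(x 1).coeff 0, -(x 0).coeff 0, 0] (by
    simp only [dt]
    simp
    rw [← hxc 0, ← hxc 1]
    ring)
  have h10 : (x 1).coeff 0 = 0 := by simpa using congrFun h1 0
  have h2 := hx ![0, 1, 0] (by
    simp only [dt]
    simp
    rw [hxc 1, h10, C_0])
  have : (1 : k) = 0 := by simpa using congrFun h2 1
  exact one_ne_zero this

lemma par_S_ht {q : ℕ} (hq : 2 ≤ q) {v : Fin 3 → k[X]} (hv : Prim v)
    (h : Par v (Sb q v)) : ht v = 0 := by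
  have h1 := ht_le_of_par (prim_Sb q hv) h (prim_ne_zero hv)
  rw [ht_Sb] at h1
  by_contra hne
  nlinarith [Nat.pos_of_ne_zero hne]

/-- two unimodular parallel triples: the first is in the image of the substitution when
the second one is. -/
lemma im_of_par {q : ℕ} {x y : Fin 3 → k[X]} (hx : Prim x) (hy : Prim y)
    (h : Par x (Sb q y)) : ∃ w, x = Sb q w := by
  obtain ⟨l, hl⟩ := prim_par (prim_Sb q hy) h
  have hlu : IsUnit l := by
    obtain ⟨c, hc⟩ := hx
    rw [dt_scale_right hl] at hc
    exact IsUnit.of_mul_eq_one _ hc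
  obtain ⟨a, ha, hla⟩ := Polynomial.isUnit_iff.1 hlu
  refine ⟨fun i => C a * y i, ?_⟩
  funext i
  rw [hl i, ← hla]
  simp only [Sb, map_mul, expand_C]

lemma mv_scale (t : Fin 3 → Fin 3 → k) {w v : Fin 3 → k[X]} {l : k[X]}
    (h : ∀ i, w i = l * v i) (i : Fin 3) : mv t w i = l * mv t v i := by
  simp only [mv, h]; ring

theorem core (p : ℕ) [hp : Fact p.Prime] [CharP k p] (e : ℕ) (hq : 3 ≤ p ^ e)
    (x : Fin 3 → k[X]) (hx : Prim x) (hind : Indep x) (t : Fin 3 → Fin 3 → k)
    (c g δ : k[X]) (hc : c ≠ 0) (hδ : δ ≠ 0)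
    (h : ∀ i, c * (mv t x i - X * x i) = g * Sb (p ^ e) x i
      + δ * Sb (p ^ e) (Sb (p ^ e) x) i) : False := by
  obtain ⟨q, hqdef⟩ : ∃ q, q = p ^ e := ⟨_, rfl⟩
  rw [← hqdef] at h hq
  have hq0 : 0 < q := by omega
  have hepos : ∃ j, e = j + 1 := by
    rcases e with _ | j
    · simp at hqdef; omega
    · exact ⟨j, rfl⟩
  obtain ⟨B, hBdef⟩ : ∃ B : Fin 3 → k[X], B = fun i => mv t x i - X * x i := ⟨_, rfl⟩
  have hB : ∀ i, c * B i = g * Sb q x i + δ * Sb q (Sb q x) i := by
    intro i; rw [hBdef]; exact h i
  have hD := ht_pos_of_indep hind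
  have hx0 := prim_ne_zero hx
  -- x and Sx are not parallel
  have hxS : ¬ Par x (Sb q x) := by
    intro hpar
    have := par_S_ht (by omega) hx hpar
    omega
  have hw0 : cr x (Sb q x) ≠ 0 := fun h0 => hxS ((par_iff_cr _ _).2 h0)
  obtain ⟨G, m, hG, hm, hGm⟩ := exists_prim hw0
  have hmx : dt m x = 0 := by
    have h1 := dt_cr_left x (Sb q x)
    rw [dt_comm, dt_scale_left hGm] at h1
    exact (mul_eq_zero.1 h1).resolve_left hG
  have hmSx : dt m (Sb q x) = 0 := by
    have h1 := dt_cr_right x (Sb q x)
    rw [dt_comm, dt_scale_left hGm] at h1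
    exact (mul_eq_zero.1 h1).resolve_left hG
  have hm0 := prim_ne_zero hm
  have hH : 1 ≤ ht m := by
    by_contra hcon
    exact no_const hind hm0 (by omega) hmx
  have hSmSx : dt (Sb q m) (Sb q x) = 0 := dt_Sb_of_zero q hmx
  have hSmSSx : dt (Sb q m) (Sb q (Sb q x)) = 0 := dt_Sb_of_zero q hmSx
  have hSmB : dt (Sb q m) B = 0 := by
    have : c * dt (Sb q m) B = g * dt (Sb q m) (Sb q x) + δ * dt (Sb q m) (Sb q (Sb q x)) := by
      simp only [dt]
      linear_combination (Sb q m 0) * hB 0 + (Sb q m 1) * hB 1 + (Sb q m 2) * hB 2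
    rw [hSmSx, hSmSSx, mul_zero, mul_zero, add_zero] at this
    exact (mul_eq_zero.1 this).resolve_left hc
  -- B is not parallel to Sx
  have hSx0 : Sb q x ≠ 0 := prim_ne_zero (prim_Sb q hx)
  have hBS : ¬ Par B (Sb q x) := by
    intro hpar
    have h1 : Par (Sb q (Sb q x)) (Sb q x) := by
      intro i j
      have e1 := hB i
      have e2 := hB j
      have e3 := hpar i j
      apply mul_left_cancel₀ hδ
      linear_combination -(Sb q x j) * e1 + (Sb q x i) * e2 + c * e3
    have h2 : Par x (Sb q x) := by
      intro i j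
      have e1 := h1 j i
      apply expand_injective hq0
      simp only [map_mul]
      simp only [Sb] at e1 ⊢
      linear_combination e1
    exact hxS h2
  have hB0 : B ≠ 0 := by
    rintro h0
    apply hBS
    intro i j
    rw [h0]; simp
  obtain ⟨b, B', hb, hB', hbB⟩ := exists_prim hB0
  have hSmB' : dt (Sb q m) B' = 0 := by
    rw [dt_scale_right hbB] at hSmB
    exact (mul_eq_zero.1 hSmB).resolve_left hb
  have hB'ht : ht B' ≤ ht x + 1 := by
    apply le_trans (ht_scale hb hbB)
    apply ht_le
    intro i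
    rw [hBdef]
    apply le_trans (natDegree_sub_le _ _)
    apply max_le
    · simp only [mv]
      have e0 : (C (t i 0) * x 0).natDegree ≤ ht x + 1 :=
        le_trans (natDegree_C_mul_le _ _) (by have := le_ht x 0; omega)
      have e1 : (C (t i 1) * x 1).natDegree ≤ ht x + 1 :=
        le_trans (natDegree_C_mul_le _ _) (by have := le_ht x 1; omega)
      have e2 : (C (t i 2) * x 2).natDegree ≤ ht x + 1 :=
        le_trans (natDegree_C_mul_le _ _) (by have := le_ht x 2; omega)
      apply le_trans (natDegree_add_le _ _)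
      apply max_le
      · apply le_trans (natDegree_add_le _ _)
        exact max_le e0 e1
      · exact e2
    · apply le_trans natDegree_mul_le
      have := le_ht x i
      have h1 : (X : k[X]).natDegree ≤ 1 := natDegree_X_le
      omega
  -- x is not in the image of S
  have hxim : ¬ ∃ y, x = Sb q y := by
    rintro ⟨y, hy⟩
    have h1 : dt (Sb q m) x = 0 := by
      have e1 : dt (Sb q m) B = expand k q (dt m (mv t y)) - X * expand k q (dt m y) := by
        rw [← dt_Sb, ← dt_Sb, hBdef, hy]
        rw [mv_Sb]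
        simp only [dt]
        ring
      rw [hSmB] at e1
      have e2 := congrArg derivative e1
      obtain ⟨j, hj⟩ := hepos
      have hz : ((q : ℕ) : k[X]) = 0 := by
        rw [hqdef, hj, Nat.cast_pow, CharP.cast_eq_zero k[X] p, zero_pow (Nat.succ_ne_zero j)]
      simp only [derivative_sub, derivative_mul, derivative_expand, derivative_X, hz,
        derivative_zero] at e2
      have e3 : expand k q (dt m y) = 0 := by linear_combination e2
      rw [← dt_Sb, ← hy] at e3
      exact e3
    have h2 : Par m (Sb q m) := par_of_perp hxS hmx hmSx h1 hSmSx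
    have := par_S_ht (by omega) hm h2
    omega
  -- the inequality for m
  have hα : (¬ ∃ w, m = Sb q w) → q * ht x + 2 ≤ 2 * ht m := by
    intro hns
    rw [hqdef] at hns ⊢
    exact wron p e hm hx (by rw [← hqdef]; exact hmSx) hns
  have hβ : (¬ ∃ w, B' = Sb q w) → q * ht m + 2 ≤ 2 * ht B' := by
    intro hns
    rw [hqdef] at hns ⊢
    exact wron p e hB' hm (by rw [← hqdef, dt_comm]; exact hSmB') hns
  have hxB' : ¬ Par B' (Sb q x) := by
    intro hpar
    apply hBS
    intro i j
    rw [hbB i, hbB j]
    linear_combination b * hpar i j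
  by_cases hmim : ∃ n, m = Sb q n
  · obtain ⟨n, hn⟩ := hmim
    have hnp : Prim n := prim_of_Sb q hq0 (by rw [← hn]; exact hm)
    have hnx : dt n x = 0 := dt_Sb_eq_zero hq0 (by rw [← hn]; exact hmSx)
    have hSnx : dt (Sb q n) x = 0 := by rw [← hn]; exact hmx
    have hn1 : 1 ≤ ht n := by
      by_contra hcon
      exact no_const hind (prim_ne_zero hnp) (by omega) hnx
    have hnn : ¬ Par n (Sb q n) := by
      intro hpar
      have := par_S_ht (by omega) hnp hpar
      omega
    have hHn : ht m = q * ht n := by rw [hn, ht_Sb]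
    have hDn : ht x ≤ ht n + q * ht n := by
      have h1 := ht_le_of_par hx (cr_par hnx hSnx)
        (fun h0 => hnn ((par_iff_cr _ _).2 h0))
      have h2 := ht_cr_le n (Sb q n)
      rw [ht_Sb] at h2
      omega
    by_cases hBim : ∃ u, B' = Sb q u
    · obtain ⟨u, hu⟩ := hBim
      have hup : Prim u := prim_of_Sb q hq0 (by rw [← hu]; exact hB')
      have hmu : dt m u = 0 := dt_Sb_eq_zero hq0 (by rw [← hu]; exact hSmB')
      have hhu : q * ht u ≤ ht x + 1 := by
        rw [← ht_Sb, ← hu]; exact hB'ht
      by_cases huim : ∃ y, u = Sb q y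
      · obtain ⟨y, hy⟩ := huim
        have hyp : Prim y := prim_of_Sb q hq0 (by rw [← hy]; exact hup)
        -- B = b * S²y
        obtain ⟨z, hz⟩ : ∃ z, z = Sb q y := ⟨_, rfl⟩
        have hzp : Prim z := by rw [hz]; exact prim_Sb q hyp
        have hBz : ∀ i, B i = b * Sb q z i := by
          intro i; rw [hbB i, hu, hy, hz]
        have hkey : ∀ i, b * Adj t (Sb q z) i = - (chi t * x i) := by
          intro i
          rw [← adj_mul t x i]
          have : (fun j => mv t x j - X * x j) = fun j => b * Sb q z j := by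
            funext j
            rw [← hBz j, hBdef]
          rw [this]
          simp only [Adj, mv]
          ring
        have hxz : ¬ Par x (Sb q z) := fun hpar => hxim (im_of_par hx hzp hpar)
        have hSnA : dt (Sb q n) (Adj t (Sb q z)) = 0 := by
          have : b * dt (Sb q n) (Adj t (Sb q z)) = - (chi t * dt (Sb q n) x) := by
            simp only [dt]
            linear_combination (Sb q n 0) * hkey 0 + (Sb q n 1) * hkey 1 + (Sb q n 2) * hkey 2
          rw [hSnx, mul_zero, neg_zero] at this
          exact (mul_eq_zero.1 this).resolve_left hb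
        obtain ⟨e1, he1⟩ : ∃ e1 : k, e1 = t 0 0 + t 1 1 + t 2 2 := ⟨_, rfl⟩
        obtain ⟨e2, he2⟩ : ∃ e2 : k, e2 = t 0 0 * t 1 1 - t 0 1 * t 1 0 + t 0 0 * t 2 2
          - t 0 2 * t 2 0 + t 1 1 * t 2 2 - t 1 2 * t 2 1 := ⟨_, rfl⟩
        have hexp : X ^ 2 * expand k q (dt n z) +
            X * expand k q (dt n (mv t z) - C e1 * dt n z) +
            expand k q (dt n (mv t (mv t z)) - C e1 * dt n (mv t z) + C e2 * dt n z) = 0 := by
          rw [← hSnA]
          simp only [map_sub, map_add, map_mul, expand_C, ← dt_Sb]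
          simp only [← mv_Sb]
          simp only [dt, Adj, ← he1, ← he2]
          ring
        obtain ⟨ha0, ha1, ha2⟩ := indep3 hq hexp
        rw [ha2, mul_zero, sub_zero] at ha1
        rw [ha2, ha1, mul_zero, mul_zero, sub_zero, add_zero] at ha0
        by_cases hpar : Par (mv t z) z
        · obtain ⟨l, hl⟩ := prim_par hzp hpar
          apply hxz
          have hl2 : ∀ i, mv t (Sb q z) i = expand k q l * Sb q z i := by
            intro i
            rw [mv_Sb]
            simp only [Sb]
            rw [hl i, map_mul]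
          have hl3 : ∀ i, mv t (mv t (Sb q z)) i = expand k q l * (expand k q l * Sb q z i) := by
            intro i
            rw [mv_scale t hl2 i, hl2]
          intro i j
          apply mul_left_cancel₀ (chi_ne_zero t)
          have k1 := hkey i
          have k2 := hkey j
          simp only [Adj, hl2, hl3] at k1 k2
          linear_combination (Sb q z j) * k1 - (Sb q z i) * k2
        · have hnt : Par (mvT t n) n := by
            apply par_of_perp hpar
            · rw [← dt_mv]; exact ha0
            · rw [← dt_mv]; exact ha1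
            · exact ha1
            · exact ha2
          obtain ⟨l, hl⟩ := prim_par hnp hnt
          have hnB : dt n B = 0 := by
            have : dt n B = dt (mvT t n) x - X * dt n x := by
              rw [← dt_mv, hBdef]
              simp only [dt]
              ring
            rw [this, dt_scale_left hl, hnx]
            ring
          have hSnB : dt (Sb q n) B = 0 := by
            have e3 : dt (Sb q n) B = dt (mvT t (Sb q n)) x - X * dt (Sb q n) x := by
              rw [← dt_mv, hBdef]
              simp only [dt]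
              ring
            have e4 : ∀ i, mvT t (Sb q n) i = expand k q l * Sb q n i := by
              intro i
              rw [mvT_Sb]
              simp only [Sb]
              rw [hl i, map_mul]
            rw [e3, dt_scale_left e4, hSnx]
            ring
          apply hxz
          have hBx : Par x B := par_of_perp hnn (by rw [dt_comm]; exact hnx)
            (by rw [dt_comm]; exact hSnx) (by rw [dt_comm]; exact hnB)
            (by rw [dt_comm]; exact hSnB)
          intro i j
          have := hBx i j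
          rw [hBz i, hBz j] at this
          apply mul_left_cancel₀ hb
          linear_combination this
      · have h1 : q * ht n + 2 ≤ 2 * ht u := by
          have hns := huim
          rw [hqdef] at hns ⊢
          refine wron p e hup hnp ?_ hns
          rw [← hqdef, dt_comm, ← hn]
          exact hmu
        nlinarith [Nat.mul_le_mul_left q h1, Nat.mul_le_mul_right (ht n) (Nat.mul_le_mul hq hq),
          Nat.mul_le_mul_right (ht n) hq]
    · have h1 := hβ hBim
      rw [hHn] at h1
      have h2 : q * (q * ht n) + 2 ≤ 2 * (ht n + q * ht n + 1) := by omega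
      nlinarith [Nat.mul_le_mul_right (ht n) (Nat.mul_le_mul hq hq),
        Nat.mul_le_mul_right (ht n) hq]
  · have h1 := hα hmim
    by_cases hBim : ∃ u, B' = Sb q u
    · obtain ⟨u, hu⟩ := hBim
      have hup : Prim u := prim_of_Sb q hq0 (by rw [← hu]; exact hB')
      have hmu : dt m u = 0 := dt_Sb_eq_zero hq0 (by rw [← hu]; exact hSmB')
      have hhu : q * ht u ≤ ht x + 1 := by
        rw [← ht_Sb, ← hu]; exact hB'ht
      have hxu : ¬ Par x u := by
        intro hpar
        apply hxB'
        rw [hu]
        intro i j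
        have := hpar j i
        have h3 := congrArg (expand k q) this
        simp only [map_mul] at h3
        simp only [Sb]
        linear_combination h3
      have hle : ht m ≤ ht x + ht u := by
        have h2 := ht_le_of_par hm (cr_par (a := x) (b := u) (w := m)
          (by rw [dt_comm]; exact hmx) (by rw [dt_comm]; exact hmu))
          (fun h0 => hxu ((par_iff_cr _ _).2 h0))
        have h3 := ht_cr_le x u
        omega
      nlinarith [Nat.mul_le_mul_left q h1, Nat.mul_le_mul_left q hle,
        Nat.mul_le_mul_right (ht x) (Nat.mul_le_mul hq hq), Nat.mul_le_mul_right (ht x) hq]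
    · have h2 := hβ hBim
      have h3 : q * ht m ≤ 2 * ht x := by omega
      nlinarith [Nat.mul_le_mul_left q h1, Nat.mul_le_mul_right (ht x) (Nat.mul_le_mul hq hq)]

end Pool.Agent.H209R3
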