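import Pool.Agent.H209R3.Gen2

set_option autoImplicit false

namespace Pool.Agent.H209R3.Fun

open Pool.Agent.H209R3.Gen

/-- size filtration on a field with endomorphism, with contraction operators -/
structure SizeData (L : Type*) [Field L] (F : L →+* L) (q : ℕ) where
  B : ℕ → AddSubgroup L
  mono : ∀ m n, m ≤ n → B m ≤ B n
  s0 : L
  s0_ne : s0 ≠ 0
  c0 : ℕ
  mul : ∀ m n a b, a ∈ B m → b ∈ B n → s0 * (a * b) ∈ B (m + n + c0)
  exh : ∀ S : Finset L, ∃ l : L, l ≠ 0 ∧ ∃ n, ∀ a ∈ S, l * a ∈ B n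
  J : ℕ
  E : Fin J → L →+ L
  θ : Fin J → L
  E_mul : ∀ j g f, E j (F g * f) = g * E j f
  E_sum : ∀ f, ∑ j, F (E j f) * θ j = f
  s1 : L
  s1_ne : s1 ≠ 0
  c1 : ℕ
  E_size : ∀ n f, f ∈ B n → ∀ j, s1 * E j f ∈ B (n / q + c1)
  s2 : L
  s2_ne : s2 ≠ 0
  c2 : ℕ
  F_size : ∀ n f, f ∈ B n → s2 * F f ∈ B (q * n + c2)

variable {L : Type*} [Field L] {F : L →+* L} {q : ℕ} (A : SizeData L F q)

/-- the projective point `v` has a representative in `B n` -/
def Sz {κ : Type*} (v : κ → L) (n : ℕ) : Prop := ∃ l : L, l ≠ 0 ∧ ∀ i, l * v i ∈ A.B n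

variable {A}

lemma Sz.mono' {κ : Type*} {v : κ → L} {m n : ℕ} (h : Sz A v m) (hmn : m ≤ n) : Sz A v n := by
  obtain ⟨l, hl, h⟩ := h
  exact ⟨l, hl, fun i => A.mono m n hmn (h i)⟩

lemma exists_Sz {κ : Type*} [Fintype κ] (v : κ → L) : ∃ n, Sz A v n := by
  classical
  obtain ⟨l, hl, n, h⟩ := A.exh (Finset.univ.image v)
  exact ⟨n, l, hl, fun i => h _ (Finset.mem_image_of_mem v (Finset.mem_univ i))⟩

lemma exists_scale_of_par {κ : Type*} {v w : κ → L} (hv : v ≠ 0) (h : ParF w v) :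
    ∃ c : L, ∀ i, w i = c * v i := by
  obtain ⟨k, hk⟩ : ∃ k, v k ≠ 0 := by
    by_contra hcon
    push Not at hcon
    exact hv (funext hcon)
  refine ⟨w k / v k, fun i => ?_⟩
  have := h i k
  rw [div_mul_eq_mul_div, eq_div_iff hk]
  linear_combination this

lemma Sz_of_par {κ : Type*} {v w : κ → L} {n : ℕ} (hv : v ≠ 0) (h : ParF w v)
    (hs : Sz A v n) : Sz A w n := by
  obtain ⟨c, hc⟩ := exists_scale_of_par hv h
  obtain ⟨l, hl, hs⟩ := hs
  by_cases hc0 : c = 0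
  · refine ⟨1, one_ne_zero, fun i => ?_⟩
    rw [hc i, hc0]; simp
  · refine ⟨l / c, div_ne_zero hl hc0, fun i => ?_⟩
    rw [hc i]
    have : l / c * (c * v i) = l * v i := by field_simp
    rw [this]; exact hs i

variable (A) in
/-- `v` is projectively in the image of `F` -/
def Im {κ : Type*} (F : L →+* L) (v : κ → L) : Prop := ∃ (c : L) (u : κ → L), ∀ a, v a = c * F (u a)

lemma dichotomy {κ : Type*} {y : κ → L} (l : L) (hl : l ≠ 0) (hy : ¬ Im F y) :
    ∃ i j, ¬ ParF (fun a => A.E i (l * y a)) (fun a => A.E j (l * y a)) := by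
  by_contra hcon
  push Not at hcon
  apply hy
  by_cases h0 : ∀ j, (fun a => A.E j (l * y a)) = 0
  · refine ⟨0, fun _ => 0, fun a => ?_⟩
    have h1 := A.E_sum (l * y a)
    have h2 : ∀ j, A.E j (l * y a) = 0 := fun j => congrFun (h0 j) a
    simp only [h2, map_zero, zero_mul, Finset.sum_const_zero] at h1
    have h3 := (mul_eq_zero.1 h1.symm).resolve_left hl
    rw [h3]; simp
  · push Not at h0
    obtain ⟨i, hi⟩ := h0
    have h1 : ∀ j, ∃ c : L, ∀ a, A.E j (l * y a) = c * A.E i (l * y a) := fun j =>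
      exists_scale_of_par hi (hcon j i)
    choose c hc using h1
    refine ⟨l⁻¹ * ∑ j, F (c j) * A.θ j, fun a => A.E i (l * y a), fun a => ?_⟩
    have h2 := A.E_sum (l * y a)
    have h3 : ∀ j, F (A.E j (l * y a)) * A.θ j
        = F (c j) * A.θ j * F (A.E i (l * y a)) := by
      intro j
      rw [hc j a, map_mul]; ring
    simp only [h3] at h2
    rw [← Finset.sum_mul] at h2
    rw [mul_assoc, h2, inv_mul_cancel_left₀ hl]

lemma inP_E {ι : Type*} {x : ι → L} {w : ι × ι → L} (l : L) (j : Fin A.J)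
    (h : InP x (fun a => F (w a))) : InP (fun i => A.E j (l * x i)) w := by
  intro a b c
  have h1 := congrArg (fun f => A.E j (l * f)) (h a b c)
  simp only [mul_zero, map_zero] at h1
  have e1 : l * (x a * F (w (b, c)) - x b * F (w (a, c)) + x c * F (w (a, b)))
      = F (w (b, c)) * (l * x a) - F (w (a, c)) * (l * x b) + F (w (a, b)) * (l * x c) := by ring
  rw [e1, map_add, map_sub, A.E_mul, A.E_mul, A.E_mul] at h1
  show A.E j (l * x a) * w (b, c) - A.E j (l * x b) * w (a, c) + A.E j (l * x c) * w (a, b) = 0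
  linear_combination h1

lemma inP_E2 {ι : Type*} {x : ι → L} {w : ι × ι → L} (l : L) (j : Fin A.J)
    (h : InP (fun i => F (x i)) w) : InP x (fun a => A.E j (l * w a)) := by
  intro a b c
  have h1 := congrArg (fun f => A.E j (l * f)) (h a b c)
  simp only [mul_zero, map_zero] at h1
  have e1 : l * (F (x a) * w (b, c) - F (x b) * w (a, c) + F (x c) * w (a, b))
      = F (x a) * (l * w (b, c)) - F (x b) * (l * w (a, c)) + F (x c) * (l * w (a, b)) := by ring
  rw [e1, map_add, map_sub, A.E_mul, A.E_mul, A.E_mul] at h1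
  exact h1

lemma Sz_wd {ι : Type*} {u v : ι → L} {σ τ : L} (hσ : σ ≠ 0) (hτ : τ ≠ 0) {m n : ℕ}
    (hu : ∀ i, σ * u i ∈ A.B m) (hv : ∀ i, τ * v i ∈ A.B n) :
    Sz A (wd u v) (m + n + A.c0) := by
  refine ⟨A.s0 * (σ * τ), mul_ne_zero A.s0_ne (mul_ne_zero hσ hτ), ?_⟩
  rintro ⟨i, j⟩
  have h1 := A.mul m n _ _ (hu i) (hv j)
  have h2 := A.mul m n _ _ (hu j) (hv i)
  have h3 := (A.B (m + n + A.c0)).sub_mem h1 h2
  have e : A.s0 * (σ * τ) * wd u v (i, j)
      = A.s0 * (σ * u i * (τ * v j)) - A.s0 * (σ * u j * (τ * v i)) := by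
    simp only [wd]; ring
  rw [e]; exact h3

lemma Sz_minor {ι : Type*} {x : ι → L} (hx0 : ∀ i, x i ≠ 0) {u v : ι × ι → L} (i0 : ι)
    (hu : InP x u) (hv : InP x v) (huv : ¬ ParF u v) {σ τ : L} (hσ : σ ≠ 0) (hτ : τ ≠ 0)
    {m n : ℕ} (hum : ∀ a, σ * u a ∈ A.B m) (hvn : ∀ a, τ * v a ∈ A.B n) :
    Sz A x (m + n + A.c0) := by
  obtain ⟨i, j, l, hne⟩ := exists_minor hx0 hu hv i0 huv
  obtain ⟨M, hM⟩ : ∃ M : ι → L, M = fun a => v (a, l) * u (i, j) - v (a, j) * u (i, l)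
      + v (a, i) * u (j, l) := ⟨_, rfl⟩
  have hvii : v (i, i) = 0 := by
    have h1 := hv i i i
    have h2 : x i * v (i, i) = 0 := by linear_combination h1
    exact (mul_eq_zero.1 h2).resolve_left (hx0 i)
  have hMi : M i ≠ 0 := by
    rw [hM]
    simp only [hvii]
    intro h0
    apply hne
    linear_combination h0
  have hM0 : M ≠ 0 := fun h0 => hMi (congrFun h0 i)
  have hpar : ParF x M := by
    intro a b
    rw [hM]
    have e1 := hv a b l
    have e2 := hv a b j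
    have e3 := hv a b i
    have e4 := hu i j l
    linear_combination (u (i, j)) * e1 - (u (i, l)) * e2 + (u (j, l)) * e3 - (v (a, b)) * e4
  apply Sz_of_par hM0 hpar
  refine ⟨A.s0 * (σ * τ), mul_ne_zero A.s0_ne (mul_ne_zero hσ hτ), ?_⟩
  intro a
  have h1 := A.mul m n _ _ (hum (i, j)) (hvn (a, l))
  have h2 := A.mul m n _ _ (hum (i, l)) (hvn (a, j))
  have h3 := A.mul m n _ _ (hum (j, l)) (hvn (a, i))
  have h4 := (A.B (m + n + A.c0)).add_mem ((A.B (m + n + A.c0)).sub_mem h1 h2) h3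
  have e : A.s0 * (σ * τ) * M a
      = A.s0 * (σ * u (i, j) * (τ * v (a, l))) - A.s0 * (σ * u (i, l) * (τ * v (a, j)))
        + A.s0 * (σ * u (j, l) * (τ * v (a, i))) := by
    rw [hM]; ring
  rw [e]; exact h4

/-- first inequality -/
lemma boundA {ι : Type*} {x : ι → L} (hx0 : ∀ i, x i ≠ 0) (i0 : ι) {w : ι × ι → L}
    (hin : InP (fun i => F (x i)) w) (hns : ¬ Im F w) {H : ℕ} (hw : Sz A w H) :
    Sz A x ((H / q + A.c1) + (H / q + A.c1) + A.c0) := by
  obtain ⟨l, hl, hw⟩ := hw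
  obtain ⟨i, j, hij⟩ := dichotomy (A := A) l hl hns
  exact Sz_minor hx0 i0 (inP_E2 l i hin) (inP_E2 l j hin) hij A.s1_ne A.s1_ne
    (fun a => A.E_size H _ (hw a) i) (fun a => A.E_size H _ (hw a) j)

/-- second inequality -/
lemma boundB {ι : Type*} {y : ι → L} {w : ι × ι → L}
    (hin : InP y (fun a => F (w a))) (hns : ¬ Im F y) {M : ℕ} (hy : Sz A y M) :
    Sz A w ((M / q + A.c1) + (M / q + A.c1) + A.c0) := by
  obtain ⟨l, hl, hy⟩ := hy
  obtain ⟨i, j, hij⟩ := dichotomy (A := A) l hl hns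
  have h1 := par_wd_of_inP (inP_E l i hin) (inP_E l j hin)
  exact Sz_of_par (wd_ne_zero hij) (parF_symm h1)
    (Sz_wd A.s1_ne A.s1_ne (fun a => A.E_size M _ (hy a) i) (fun a => A.E_size M _ (hy a) j))

/-- descent of sizes along `F` -/
lemma bound_im {κ : Type*} {y u : κ → L} {c : L} (hy0 : y ≠ 0) (h : ∀ a, y a = c * F (u a))
    {n : ℕ} (hy : Sz A y n) : Sz A u (n / q + A.c1) := by
  obtain ⟨l, hl, hy⟩ := hy
  have hc : c ≠ 0 := by
    rintro rfl
    apply hy0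
    funext a
    rw [h a]; simp
  obtain ⟨j, hj⟩ : ∃ j, A.E j (l * c) ≠ 0 := by
    by_contra hcon
    push Not at hcon
    have h1 := A.E_sum (l * c)
    simp only [hcon, map_zero, zero_mul, Finset.sum_const_zero] at h1
    exact mul_ne_zero hl hc h1.symm
  refine ⟨A.s1 * A.E j (l * c), mul_ne_zero A.s1_ne hj, fun a => ?_⟩
  have h1 := A.E_size n _ (hy a) j
  have e : l * y a = F (u a) * (l * c) := by rw [h a]; ring
  rw [e, A.E_mul] at h1
  have e2 : A.s1 * A.E j (l * c) * u a = A.s1 * (u a * A.E j (l * c)) := by ring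
  rw [e2]; exact h1

lemma Sz_F {κ : Type*} {u : κ → L} {n : ℕ} (hu : Sz A u n) :
    Sz A (fun a => F (u a)) (q * n + A.c2) := by
  obtain ⟨l, hl, hu⟩ := hu
  refine ⟨A.s2 * F l, mul_ne_zero A.s2_ne ((map_ne_zero F).2 hl), fun a => ?_⟩
  have := A.F_size n _ (hu a)
  rw [map_mul] at this
  rw [mul_assoc]; exact this

end Pool.Agent.H209R3.Fun
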