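import Pool.Agent.H209R3.Gen7

set_option autoImplicit false

namespace Pool.Agent.H209R3.Gen

open Polynomial Module

lemma boundAC {L : Type*} [Field L] [IsAlgClosed L] (p : ℕ) [Fact p.Prime] [CharP L p] (e : ℕ)
    (hq : 3 ≤ p ^ e) (g D : RatFunc L) (hD : D ≠ 0) (f : RatFunc L → RatFunc L)
    (hf : ∀ y, f y = RatFunc.X * y + g * y ^ p ^ e + D * (y ^ p ^ e) ^ p ^ e) :
    {x : RatFunc L | ∃ m n : ℕ, m < n ∧ f^[m] x = f^[n] x}.encard
      ≤ (((p ^ e) ^ 2 : ℕ) : ℕ∞) := by
  by_contra hcon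
  rw [not_le] at hcon
  obtain ⟨V, hfin, hV, c, g', δ, hc, hδ, h⟩ := stageA p e (by omega) X 1 one_ne_zero g D hD 2 f
    (by intro y; rw [hf y, RatFunc.algebraMap_X, map_one, div_one]) hcon
  refine stageB p e hq V hV c g' δ hc hδ ?_
  intro v hv
  obtain ⟨u, hu, h1⟩ := h v hv
  exact ⟨u, hu, by rw [one_mul] at h1; exact h1⟩

/-- embedding of rational function fields induced by a field embedding -/
lemma exists_emb (k L : Type*) [Field k] [Field L] [Algebra k L] :
    ∃ j : RatFunc k →+* RatFunc L, j RatFunc.X = RatFunc.X := by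
  let g : k[X] →+* RatFunc L :=
    (algebraMap L[X] (RatFunc L)).comp (Polynomial.mapRingHom (algebraMap k L))
  have hg : Function.Injective g := by
    apply Function.Injective.comp (IsFractionRing.injective L[X] (RatFunc L))
    exact Polynomial.map_injective _ (algebraMap k L).injective
  refine ⟨IsFractionRing.lift hg, ?_⟩
  rw [← RatFunc.algebraMap_X, IsFractionRing.lift_algebraMap]
  simp only [g, RingHom.comp_apply, coe_mapRingHom, map_X]
  exact RatFunc.algebraMap_X

lemma boundLin {k : Type*} [Field k] (p : ℕ) [Fact p.Prime] [CharP k p] (e : ℕ)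
    (hq : 3 ≤ p ^ e) (g D : RatFunc k) (hD : D ≠ 0) (f : RatFunc k → RatFunc k)
    (hf : ∀ y, f y = RatFunc.X * y + g * y ^ p ^ e + D * (y ^ p ^ e) ^ p ^ e) :
    {x : RatFunc k | ∃ m n : ℕ, m < n ∧ f^[m] x = f^[n] x}.encard
      ≤ (((p ^ e) ^ 2 : ℕ) : ℕ∞) := by
  obtain ⟨j, hj⟩ := exists_emb k (AlgebraicClosure k)
  have hchar2 : CharP (AlgebraicClosure k) p :=
    charP_of_injective_algebraMap (algebraMap k (AlgebraicClosure k)).injective p
  let f' : RatFunc (AlgebraicClosure k) → RatFunc (AlgebraicClosure k) := fun y =>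
    RatFunc.X * y + j g * y ^ p ^ e + j D * (y ^ p ^ e) ^ p ^ e
  have hsemi : ∀ y, j (f y) = f' (j y) := by
    intro y
    simp only [hf, f', map_add, map_mul, map_pow, hj]
  have hiter : ∀ (n : ℕ) (y : RatFunc k), j (f^[n] y) = f'^[n] (j y) := by
    intro n
    induction n with
    | zero => intro y; rfl
    | succ n ih =>
      intro y
      rw [Function.iterate_succ_apply, Function.iterate_succ_apply, ih, hsemi]
  have hjinj : Function.Injective j := j.injective
  have h1 := boundAC (L := AlgebraicClosure k) p e hq (j g) (j D)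
    (fun h0 => hD (hjinj (h0.trans (map_zero j).symm))) f' (fun y => rfl)
  rw [← hjinj.encard_image]
  refine le_trans (Set.encard_le_encard ?_) h1
  rintro _ ⟨x, ⟨m, n, hmn, hx⟩, rfl⟩
  exact ⟨m, n, hmn, by rw [← hiter, ← hiter, hx]⟩

/-- adding a constant term does not increase the number of preperiodic points -/
lemma bound_affine {K : Type*} [AddCommGroup K] (f F : K → K)
    (hF : ∀ x y, F x - F y = f (x - y)) (B : ℕ∞)
    (hB : {x : K | ∃ m n : ℕ, m < n ∧ f^[m] x = f^[n] x}.encard ≤ B) :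
    {x : K | ∃ m n : ℕ, m < n ∧ F^[m] x = F^[n] x}.encard ≤ B := by
  rcases Set.eq_empty_or_nonempty {x : K | ∃ m n : ℕ, m < n ∧ F^[m] x = F^[n] x} with h0 | ⟨x0, hx0⟩
  · rw [h0, Set.encard_empty]; exact zero_le
  · have hiter : ∀ (n : ℕ) (x y : K), F^[n] x - F^[n] y = f^[n] (x - y) := by
      intro n
      induction n with
      | zero => intro x y; rfl
      | succ n ih =>
        intro x y
        rw [Function.iterate_succ_apply, Function.iterate_succ_apply,
          Function.iterate_succ_apply, ih, hF]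
    have hinj : Function.Injective (fun x : K => x - x0) := fun a b h => sub_left_injective h
    rw [← hinj.encard_image]
    refine le_trans (Set.encard_le_encard ?_) hB
    rintro _ ⟨x, ⟨m, n, hmn, hx⟩, rfl⟩
    obtain ⟨m', n', hmn', hx'⟩ := hx0
    have h1 := orbit_finite F x m n hmn hx
    have h2 := orbit_finite F x0 m' n' hmn' hx'
    have h3 : (Set.range (fun i => (F^[i] x, F^[i] x0))).Finite := by
      apply (h1.prod h2).subset
      rintro _ ⟨i, rfl⟩
      exact ⟨⟨i, rfl⟩, ⟨i, rfl⟩⟩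
    have h4 : ¬ Function.Injective (fun i : ℕ => (F^[i] x, F^[i] x0)) := fun hi =>
      Set.infinite_range_of_injective hi h3
    simp only [Function.Injective, not_forall] at h4
    obtain ⟨a, b, hab, hne⟩ := h4
    have hab1 : F^[a] x = F^[b] x := congrArg Prod.fst hab
    have hab2 : F^[a] x0 = F^[b] x0 := congrArg Prod.snd hab
    rcases Nat.lt_or_gt_of_ne hne with hlt | hlt
    · exact ⟨a, b, hlt, by rw [← hiter, ← hiter, hab1, hab2]⟩
    · exact ⟨b, a, hlt, by rw [← hiter, ← hiter, hab1, hab2]⟩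

theorem boundAff {k : Type*} [Field k] (p : ℕ) [Fact p.Prime] [CharP k p] (e : ℕ)
    (hq : 3 ≤ p ^ e) (c g D : RatFunc k) (hD : D ≠ 0) :
    {x : RatFunc k | ∃ m n : ℕ, m < n ∧
        (fun y : RatFunc k => c + RatFunc.X * y + g * y ^ p ^ e + D * y ^ ((p ^ e) ^ 2))^[m] x
          = (fun y : RatFunc k => c + RatFunc.X * y + g * y ^ p ^ e
            + D * y ^ ((p ^ e) ^ 2))^[n] x}.encard
      ≤ (((p ^ e) ^ 2 : ℕ) : ℕ∞) := by
  apply bound_affine (fun y => RatFunc.X * y + g * y ^ p ^ e + D * (y ^ p ^ e) ^ p ^ e)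
  · intro x y
    have hpow : ∀ z : RatFunc k, z ^ ((p ^ e) ^ 2) = (z ^ p ^ e) ^ p ^ e := by
      intro z; rw [pow_two, pow_mul]
    simp only [hpow]
    have hsub : ∀ a b : RatFunc k, (a - b) ^ p ^ e = a ^ p ^ e - b ^ p ^ e := by
      intro a b
      exact sub_pow_char_pow a b e
    rw [hsub, hsub]
    ring
  · exact boundLin p e hq g D hD _ (fun y => rfl)

end Pool.Agent.H209R3.Gen
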