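import Pool.Agent.H209R3.Fun9
import Pool.Agent.H209R3.Gen8

set_option autoImplicit false

namespace Pool.Agent.H209R3.Fun

open Pool.Agent.H209R3 Pool.Agent.H209R3.Gen Polynomial Module

section RatAC
variable {k : Type*} [Field k] (p : ℕ) [Fact p.Prime] [CharP k p]

lemma sep_not_pow {u v : k[X]} (hv0 : v ≠ 0)
    (hsep : derivative u * v - u * derivative v ≠ 0) (b : RatFunc k) :
    b ^ p ≠ algebraMap k[X] (RatFunc k) u / algebraMap k[X] (RatFunc k) v := by
  intro hb
  have hinj : Function.Injective (algebraMap k[X] (RatFunc k)) :=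
    IsFractionRing.injective k[X] (RatFunc k)
  have hv' : algebraMap k[X] (RatFunc k) v ≠ 0 := fun h0 => hv0 (hinj (h0.trans (map_zero _).symm))
  have hden' : algebraMap k[X] (RatFunc k) b.denom ≠ 0 := by
    intro h0
    exact b.denom_ne_zero (hinj (h0.trans (map_zero _).symm))
  have h1 : b.num ^ p * v = b.denom ^ p * u := by
    apply hinj
    rw [map_mul, map_mul, map_pow, map_pow, (div_eq_iff hden').1 (RatFunc.num_div_denom b),
      mul_pow, hb]
    field_simp
  have hp0 : ((p : ℕ) : k[X]) = 0 := by rw [CharP.cast_eq_zero]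
  have hder : ∀ f : k[X], derivative (f ^ p) = 0 := by
    intro f
    rw [derivative_pow, CharP.cast_eq_zero k p]
    simp
  have h2 : b.num ^ p * derivative v = b.denom ^ p * derivative u := by
    have := congrArg derivative h1
    rw [derivative_mul, derivative_mul, hder, hder] at this
    linear_combination this
  have hden0 : b.denom ^ p ≠ 0 := pow_ne_zero _ b.denom_ne_zero
  by_cases hnum : b.num = 0
  · rw [hnum, zero_pow (Fact.out : p.Prime).ne_zero, zero_mul] at h1
    have hu : u = 0 := (mul_eq_zero.1 h1.symm).resolve_left hden0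
    apply hsep
    rw [hu]; simp
  · apply hsep
    have hnum0 : b.num ^ p ≠ 0 := pow_ne_zero _ hnum
    apply mul_left_cancel₀ (mul_ne_zero hnum0 hden0)
    linear_combination b.denom ^ p * derivative u * h1 - b.denom ^ p * u * h2

lemma gzAC [IsAlgClosed k] (e : ℕ) (hq : 3 ≤ p ^ e) (d : ℕ) (u v : k[X])
    (hu : u.natDegree ≤ d) (hv : v.natDegree ≤ d) (hv0 : v ≠ 0)
    (hsep : derivative u * v - u * derivative v ≠ 0) (g D : RatFunc k) (hD : D ≠ 0)
    (f : RatFunc k → RatFunc k)
    (hf : ∀ y, f y = algebraMap k[X] (RatFunc k) u / algebraMap k[X] (RatFunc k) v * y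
      + g * y ^ p ^ e + D * (y ^ p ^ e) ^ p ^ e) :
    {x : RatFunc k | ∃ m n : ℕ, m < n ∧ f^[m] x = f^[n] x}.encard
      ≤ (((p ^ e) ^ (2 * (8 * d + 1) * (8 * d + 1) + 2) : ℕ) : ℕ∞) := by
  classical
  obtain ⟨A, hA, h0, h1, h2⟩ := rat_sizeData k p e
  obtain ⟨T, hTdef⟩ : ∃ T, T = algebraMap k[X] (RatFunc k) u / algebraMap k[X] (RatFunc k) v :=
    ⟨_, rfl⟩
  have hT : ∀ a : RatFunc k, a ^ p ≠ T := by
    intro a; rw [hTdef]; exact sep_not_pow p hv0 hsep a
  have hinj : Function.Injective (algebraMap k[X] (RatFunc k)) :=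
    IsFractionRing.injective k[X] (RatFunc k)
  have hv' : algebraMap k[X] (RatFunc k) v ≠ 0 := fun h0 => hv0 (hinj (h0.trans (map_zero _).symm))
  -- fixed elements are constants
  have hbot : algebraicClosure k (RatFunc k) = ⊥ :=
    IntermediateField.eq_bot_of_isAlgClosed_of_isAlgebraic _
  have halg : ∀ c : RatFunc k, IsAlgebraic k c → ∃ a : k, algebraMap k (RatFunc k) a = c := by
    intro c hc
    have h3 : c ∈ algebraicClosure k (RatFunc k) := mem_algebraicClosure_iff.2 hc
    rw [hbot, IntermediateField.mem_bot] at h3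
    exact h3
  have hfix : ∀ c : RatFunc k, iterateFrobenius (RatFunc k) p e c = c →
      ∃ a : k, algebraMap k (RatFunc k) a = c := by
    intro c hc
    rw [iterateFrobenius_def] at hc
    apply halg
    refine ⟨X ^ p ^ e - X, FiniteField.X_pow_card_sub_X_ne_zero k (by omega), ?_⟩
    simp [hc]
  by_contra hcon
  rw [not_le] at hcon
  obtain ⟨n, hn, x, hind, t, ht, hrel⟩ := stageL p e (by omega) T g D
    (2 * (8 * d + 1) * (8 * d + 1) + 2) f (by rw [hTdef]; exact hf) hcon
  have hcard : 3 ≤ Fintype.card (Fin n) := by rw [Fintype.card_fin]; omega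
  have hne : Nonempty (Fin n) := ⟨⟨0, by omega⟩⟩
  obtain ⟨l, hl, hxl⟩ := coreL0 A hq 1 one_ne_zero 0 (by
      intro c hc
      obtain ⟨a, rfl⟩ := hfix c hc
      rw [hA, one_mul]
      exact ⟨C a, by rw [natDegree_C], rfl⟩) d T (by
      rw [hA]
      refine ⟨algebraMap k[X] (RatFunc k) v, hv', ⟨v, hv, rfl⟩, ⟨u, hu, ?_⟩⟩
      rw [hTdef, mul_div_cancel₀ _ hv'])
    (T_not_F p hq hT) (T_quadratic p hq hT) (Fin n) (exists_third hcard) x hind t ht g D hD hrel
  have hconst : 8 * (0 + d + A.c0 + A.c0) + 36 * (2 * A.c1 + A.c0)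
        + 9 * ((p ^ e + 1) * (2 * A.c1 + A.c0)) + 9 * A.c2 + 9 * A.c0 = 8 * d := by
    rw [h0, h1, h2]; ring
  rw [hconst, hA] at hxl
  have hFl : iterateFrobenius (RatFunc k) p e l ≠ 0 := (_root_.map_ne_zero _).2 hl
  have hFFl : iterateFrobenius (RatFunc k) p e (iterateFrobenius (RatFunc k) p e l) ≠ 0 :=
    (_root_.map_ne_zero _).2 hFl
  let X0 : Submodule k (RatFunc k) := Submodule.span k (Set.range (fun j : Fin (8 * d + 1) =>
    algebraMap k[X] (RatFunc k) (X ^ (j : ℕ))))
  have hXfin : FiniteDimensional k X0 :=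
    FiniteDimensional.span_of_finite _ (Set.finite_range _)
  have hX0fr : finrank k X0 ≤ 8 * d + 1 := by
    have h3 := finrank_range_le_card (R := k) (fun j : Fin (8 * d + 1) =>
      algebraMap k[X] (RatFunc k) (X ^ (j : ℕ)))
    rw [Fintype.card_fin] at h3
    exact h3
  have hmem : ∀ y ∈ Pn k (8 * d), y ∈ X0 := by
    rintro _ ⟨P, hP, rfl⟩
    have h3 := as_sum_range_C_mul_X_pow' P (Nat.lt_succ_of_le hP)
    rw [h3, map_sum]
    apply Submodule.sum_mem
    intro j hj
    have h4 : algebraMap k[X] (RatFunc k) (Polynomial.C (P.coeff j) * X ^ j)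
        = P.coeff j • algebraMap k[X] (RatFunc k) (X ^ j) := by
      rw [Algebra.smul_def, map_mul]
      rfl
    rw [h4]
    apply Submodule.smul_mem
    apply Submodule.subset_span
    exact ⟨⟨j, Finset.mem_range.1 hj⟩, rfl⟩
  have hb := dimBound (k := k) (iterateFrobenius (RatFunc k) p e)
    (iterateFrobenius k p e) ?_ hfix T ?_ (Fin n) (fun i => l * x i) ?_ t ht
    (l * g / iterateFrobenius (RatFunc k) p e l)
    (l * D / iterateFrobenius (RatFunc k) p e (iterateFrobenius (RatFunc k) p e l)) ?_ X0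
    (fun i => hmem _ (hxl i))
  · rw [Fintype.card_fin] at hb
    have h5 : 2 * finrank k X0 * finrank k X0 ≤ 2 * (8 * d + 1) * (8 * d + 1) :=
      Nat.mul_le_mul (Nat.mul_le_mul_left 2 hX0fr) hX0fr
    omega
  · intro a
    rw [iterateFrobenius_def, iterateFrobenius_def, map_pow]
  · intro h3
    obtain ⟨a, ha⟩ := halg T h3
    obtain ⟨b, hb⟩ := IsAlgClosed.exists_pow_nat_eq a (Fact.out : p.Prime).pos
    apply hT (algebraMap k (RatFunc k) b)
    rw [← map_pow, hb, ha]
  · intro c hc hsum
    apply hind c hc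
    have h3 : l * ∑ i, c i * x i = 0 := by
      rw [Finset.mul_sum, ← hsum]
      apply Finset.sum_congr rfl
      intro i _; ring
    exact (mul_eq_zero.1 h3).resolve_left hl
  · intro i
    have h3 : ∑ j, t i j * (l * x j) - T * (l * x i) = l * (∑ j, t i j * x j - T * x i) := by
      rw [mul_sub, Finset.mul_sum]
      congr 1
      · apply Finset.sum_congr rfl
        intro j _; ring
      · ring
    rw [h3, hrel i, map_mul, map_mul]
    field_simp

end RatAC

/-- embedding of rational function fields induced by a field embedding -/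
lemma exists_emb2 (k L : Type*) [Field k] [Field L] [Algebra k L] :
    ∃ j : RatFunc k →+* RatFunc L, ∀ P : k[X], j (algebraMap k[X] (RatFunc k) P)
      = algebraMap L[X] (RatFunc L) (P.map (algebraMap k L)) := by
  let g : k[X] →+* RatFunc L :=
    (algebraMap L[X] (RatFunc L)).comp (Polynomial.mapRingHom (algebraMap k L))
  have hg : Function.Injective g := by
    apply Function.Injective.comp (IsFractionRing.injective L[X] (RatFunc L))
    exact Polynomial.map_injective _ (algebraMap k L).injective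
  refine ⟨IsFractionRing.lift hg, fun P => ?_⟩
  rw [IsFractionRing.lift_algebraMap]
  rfl

/-- uniform bound for rational function fields: any field of constants, explicit bound in the
degree of the linear coefficient -/
theorem gz {k : Type*} [Field k] (p : ℕ) [Fact p.Prime] [CharP k p] (e : ℕ) (hq : 3 ≤ p ^ e)
    (d : ℕ) (u v : k[X]) (hu : u.natDegree ≤ d) (hv : v.natDegree ≤ d) (hv0 : v ≠ 0)
    (hsep : derivative u * v - u * derivative v ≠ 0) (c g D : RatFunc k) (hD : D ≠ 0)
    (f : RatFunc k → RatFunc k)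
    (hf : ∀ y, f y = c + algebraMap k[X] (RatFunc k) u / algebraMap k[X] (RatFunc k) v * y
      + g * y ^ p ^ e + D * y ^ ((p ^ e) ^ 2)) :
    {x : RatFunc k | ∃ m n : ℕ, m < n ∧ f^[m] x = f^[n] x}.encard
      ≤ (((p ^ e) ^ (2 * (8 * d + 1) * (8 * d + 1) + 2) : ℕ) : ℕ∞) := by
  obtain ⟨j, hj⟩ := exists_emb2 k (AlgebraicClosure k)
  have hchar2 : CharP (AlgebraicClosure k) p :=
    charP_of_injective_algebraMap (algebraMap k (AlgebraicClosure k)).injective p
  let ι := algebraMap k (AlgebraicClosure k)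
  have hι : Function.Injective ι := ι.injective
  obtain ⟨fl, hfl⟩ : ∃ fl : RatFunc k → RatFunc k, ∀ y, fl y
    = algebraMap k[X] (RatFunc k) u / algebraMap k[X] (RatFunc k) v * y
      + g * y ^ p ^ e + D * (y ^ p ^ e) ^ p ^ e := ⟨_, fun _ => rfl⟩
  have hmain : {x : RatFunc k | ∃ m n : ℕ, m < n ∧ fl^[m] x = fl^[n] x}.encard
      ≤ (((p ^ e) ^ (2 * (8 * d + 1) * (8 * d + 1) + 2) : ℕ) : ℕ∞) := by
    let f' : RatFunc (AlgebraicClosure k) → RatFunc (AlgebraicClosure k) := fun y =>
      algebraMap _ (RatFunc (AlgebraicClosure k)) (u.map ι)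
        / algebraMap _ (RatFunc (AlgebraicClosure k)) (v.map ι) * y
        + j g * y ^ p ^ e + j D * (y ^ p ^ e) ^ p ^ e
    have hsemi : ∀ y, j (fl y) = f' (j y) := by
      intro y
      rw [hfl, map_add, map_add, map_mul, map_div₀, hj, hj, map_mul, map_mul, map_pow, map_pow,
        map_pow]
    have hiter : ∀ (n : ℕ) (y : RatFunc k), j (fl^[n] y) = f'^[n] (j y) := by
      intro n
      induction n with
      | zero => intro y; rfl
      | succ n ih =>
        intro y
        rw [Function.iterate_succ_apply, Function.iterate_succ_apply, ih, hsemi]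
    have hjinj : Function.Injective j := j.injective
    have h1 := gzAC (k := AlgebraicClosure k) p e hq d (u.map ι) (v.map ι)
      (by rw [natDegree_map]; exact hu) (by rw [natDegree_map]; exact hv)
      ((Polynomial.map_ne_zero_iff hι).2 hv0)
      (by
        rw [derivative_map, derivative_map, ← Polynomial.map_mul, ← Polynomial.map_mul,
          ← Polynomial.map_sub]
        exact (Polynomial.map_ne_zero_iff hι).2 hsep) (j g) (j D)
      (fun h0 => hD (hjinj (h0.trans (map_zero j).symm))) f' (fun y => rfl)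
    rw [← hjinj.encard_image]
    refine le_trans (Set.encard_le_encard ?_) h1
    rintro _ ⟨x, ⟨m, n, hmn, hx⟩, rfl⟩
    exact ⟨m, n, hmn, by rw [← hiter, ← hiter, hx]⟩
  refine bound_affine fl f ?_ _ hmain
  intro x y
  have hpow : ∀ z : RatFunc k, z ^ ((p ^ e) ^ 2) = (z ^ p ^ e) ^ p ^ e := by
    intro z; rw [pow_two, pow_mul]
  rw [hf, hf, hfl]
  simp only [hpow]
  have hsub : ∀ a b : RatFunc k, (a - b) ^ p ^ e = a ^ p ^ e - b ^ p ^ e := by
    intro a b
    exact sub_pow_char_pow a b e
  rw [hsub, hsub]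
  ring

end Pool.Agent.H209R3.Fun
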