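import Pool.Agent.H209R3.Fun1

set_option autoImplicit false

namespace Pool.Agent.H209R3.Fun

open Pool.Agent.H209R3.Gen

variable {L : Type*} [Field L] {F : L →+* L} {q : ℕ}

lemma inP_of_par {ι : Type*} {a : ι → L} {n w : ι × ι → L} (hn : n ≠ 0) (h : ParF w n)
    (ha : InP a n) : InP a w := by
  obtain ⟨c, hc⟩ := exists_scale_of_par hn h
  intro i j l
  rw [hc, hc, hc]
  have := ha i j l
  linear_combination c * this

/-- two nonparallel vectors span the plane -/
lemma span2 {ι : Type*} {a b v : ι → L} {n : ι × ι → L} (hn : n ≠ 0) (ha : InP a n)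
    (hb : InP b n) (hv : InP v n) (hab : ¬ ParF a b) : ∃ ρ σ : L, ∀ l, v l = ρ * a l + σ * b l := by
  have h1 : InP a (wd b v) := inP_of_par hn (par_wd_of_inP hb hv) ha
  simp only [ParF, not_forall] at hab
  obtain ⟨i, j, hij⟩ := hab
  have hd : a i * b j - a j * b i ≠ 0 := fun h0 => hij (by linear_combination h0)
  refine ⟨(v i * b j - v j * b i) / (a i * b j - a j * b i),
    (a i * v j - a j * v i) / (a i * b j - a j * b i), fun l => ?_⟩
  have h2 := h1 i j l
  simp only [wd] at h2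
  rw [div_mul_eq_mul_div, div_mul_eq_mul_div, ← add_div, eq_div_iff hd]
  linear_combination h2

lemma s10L {ι : Type*} [Fintype ι] (A : SizeData L F q) {x z : ι → L} {n : ι × ι → L} {b T : L}
    (t : ι → ι → L) (ht : ∀ i j, F (t i j) = t i j) (hn : n ≠ 0)
    (hxn : InP x (fun a => F (n a))) (hz : ¬ InP z n) (hxim : ¬ Im F x)
    (hT : ∀ a b : L, T ^ 2 + F a * T + F b ≠ 0)
    (hB : ∀ i, ∑ j, t i j * x j - T * x i = b * F (z i)) : False := by
  have h1 : ∀ (m : Fin A.J) (h : L), InP (fun i => A.E m (h * x i)) n := fun m h => inP_E h m hxn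
  have h2 : ∀ (m : Fin A.J) (h : L) (i : ι), ∑ l, t i l * A.E m (h * x l)
      = A.E m (T * h * x i) + A.E m (h * b) * z i := by
    intro m h i
    have h3 := congrArg (fun f => A.E m (h * f)) (hB i)
    try simp only at h3
    have e1 : h * (∑ j, t i j * x j - T * x i) = ∑ j, t i j * (h * x j) - T * h * x i := by
      rw [mul_sub, Finset.mul_sum]
      congr 1
      · apply Finset.sum_congr rfl
        intro j _; ring
      · ring
    have e2 : h * (b * F (z i)) = F (z i) * (h * b) := by ring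
    rw [e1, e2, map_sub, map_sum, A.E_mul] at h3
    have e3 : ∀ j, A.E m (t i j * (h * x j)) = t i j * A.E m (h * x j) := by
      intro j
      conv_lhs => rw [← ht i j]
      exact A.E_mul m _ _
    simp only [e3] at h3
    linear_combination h3
  obtain ⟨j, l, hjl⟩ := dichotomy (A := A) 1 one_ne_zero hxim
  obtain ⟨a, ha⟩ : ∃ a : ι → L, a = fun i => A.E j (1 * x i) := ⟨_, rfl⟩
  obtain ⟨c, hc⟩ : ∃ c : ι → L, c = fun i => A.E l (1 * x i) := ⟨_, rfl⟩
  obtain ⟨a1, ha1⟩ : ∃ a1 : ι → L, a1 = fun i => A.E j (T * 1 * x i) := ⟨_, rfl⟩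
  obtain ⟨c1, hc1⟩ : ∃ c1 : ι → L, c1 = fun i => A.E l (T * 1 * x i) := ⟨_, rfl⟩
  have han : InP a n := by rw [ha]; exact h1 j 1
  have hcn : InP c n := by rw [hc]; exact h1 l 1
  have ha1n : InP a1 n := by rw [ha1]; exact h1 j (T * 1)
  have hc1n : InP c1 n := by rw [hc1]; exact h1 l (T * 1)
  have hac : ¬ ParF a c := by rw [ha, hc]; exact hjl
  obtain ⟨α, β, hαβ⟩ := span2 hn han hcn ha1n hac
  obtain ⟨γ, δ, hγδ⟩ := span2 hn han hcn hc1n hac
  -- (5)
  have h5 : ∀ (m : Fin A.J) (h ρ σ : L), (∀ i, A.E m (h * x i) = ρ * a i + σ * c i) →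
      ∀ i, A.E m (T * h * x i) = ρ * a1 i + σ * c1 i := by
    intro m h ρ σ hρσ
    obtain ⟨κ, hκ⟩ : ∃ κ, κ = ρ * A.E j (1 * b) + σ * A.E l (1 * b) - A.E m (h * b) := ⟨_, rfl⟩
    have e1 : ∀ i, A.E m (T * h * x i) - ρ * a1 i - σ * c1 i = κ * z i := by
      intro i
      have k1 := h2 m h i
      have k2 := h2 j 1 i
      have k3 := h2 l 1 i
      have k4 : ∑ l', t i l' * A.E m (h * x l')
          = ρ * ∑ l', t i l' * A.E j (1 * x l') + σ * ∑ l', t i l' * A.E l (1 * x l') := by
        rw [Finset.mul_sum, Finset.mul_sum, ← Finset.sum_add_distrib]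
        apply Finset.sum_congr rfl
        intro l' _
        rw [hρσ l', ha, hc]; ring
      rw [k1, k2, k3] at k4
      rw [ha1, hc1, hκ]
      linear_combination k4
    have hPin : InP (fun i => A.E m (T * h * x i) - ρ * a1 i - σ * c1 i) n := by
      intro i1 i2 i3
      have k1 := h1 m (T * h) i1 i2 i3
      have k2 := ha1n i1 i2 i3
      have k3 := hc1n i1 i2 i3
      simp only at k1 ⊢
      linear_combination k1 - ρ * k2 - σ * k3
    by_cases hκ0 : κ = 0
    · intro i
      have := e1 i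
      rw [hκ0, zero_mul] at this
      linear_combination this
    · exact absurd (inP_scale_vec hκ0 e1 hPin) hz
  -- (6), (7)
  obtain ⟨i, hi⟩ : ∃ i, x i ≠ 0 := by
    by_contra hcon
    push Not at hcon
    exact hxim ⟨0, fun _ => 0, fun i => by rw [hcon i]; simp⟩
  obtain ⟨r, hr⟩ : ∃ r, r = T ^ 2 + F (-(α + δ)) * T + F (α * δ - β * γ) := ⟨_, rfl⟩
  have hr0 : r ≠ 0 := by rw [hr]; exact hT _ _
  have h7 : ∀ m, A.E m (r * x i) = 0 := by
    intro m
    obtain ⟨ρ, σ, hρσ⟩ := span2 hn han hcn (h1 m 1) hac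
    have k1 := h5 m 1 ρ σ hρσ
    have k2 : ∀ i, A.E m (T * 1 * x i) = (ρ * α + σ * γ) * a i + (ρ * β + σ * δ) * c i := by
      intro i
      rw [k1 i, hαβ i, hγδ i]; ring
    have k3 := h5 m (T * 1) _ _ k2
    have e1 : r * x i = T * (T * 1) * x i + F (-(α + δ)) * (T * 1 * x i)
        + F (α * δ - β * γ) * (1 * x i) := by rw [hr]; ring
    rw [e1, map_add, map_add, A.E_mul, A.E_mul, k3 i, k2 i]
    have k4 := hρσ i
    try simp only at k4
    rw [k4, hαβ i, hγδ i]
    ring
  have h8 := A.E_sum (r * x i)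
  simp only [h7, map_zero, zero_mul, Finset.sum_const_zero] at h8
  exact mul_ne_zero hr0 hi h8.symm

/-- independence of the coordinates over the constants fixed by `F` -/
def IndL {ι : Type*} [Fintype ι] (F : L →+* L) (x : ι → L) : Prop :=
  ∀ c : ι → L, (∀ i, F (c i) = c i) → ∑ i, c i * x i = 0 → c = 0

lemma rel3L {ι : Type*} [Fintype ι] {x : ι → L} (h : IndL F x)
    {i j l : ι} (hli : l ≠ i) (hlj : l ≠ j) {a b : L} (ha : F a = a) (hb : F b = b)
    (hr : a * x i + b * x j + x l = 0) : False := by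
  classical
  have hs : ∀ (i m : ι) (a : L), F a = a →
      F ((Pi.single i a : ι → L) m) = (Pi.single i a : ι → L) m := by
    intro i m a ha
    by_cases him : m = i
    · subst him; simpa using ha
    · simp [Pi.single_eq_of_ne him]
  have h1 := h (Pi.single i a + Pi.single j b + Pi.single l 1) (by
    intro m
    simp only [Pi.add_apply]
    rw [map_add, map_add, hs i m a ha, hs j m b hb, hs l m 1 (map_one F)])
    (by
      have hsum : ∀ (i : ι) (a : L), ∑ m, ((Pi.single i a : ι → L) m) * x m = a * x i := by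
        intro i a
        rw [Finset.sum_eq_single i]
        · simp
        · intro m _ hm
          simp [Pi.single_eq_of_ne hm]
        · intro hi
          exact absurd (Finset.mem_univ i) hi
      simp only [Pi.add_apply, add_mul, Finset.sum_add_distrib, hsum]
      simpa using hr)
  have h2 := congrFun h1 l
  simp [Pi.single_eq_of_ne hli, Pi.single_eq_of_ne hlj] at h2

lemma const_of_parL {κ : Type*} {v : κ → L} (hv : v ≠ 0) (h : ParF v (fun a => F (v a))) :
    ∃ (r : κ → L) (a : κ) (u : L), u ≠ 0 ∧ r a = 1 ∧ (∀ b, F (r b) = r b) ∧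
      ∀ b, v b = u * r b := by
  obtain ⟨a, ha⟩ : ∃ a, v a ≠ 0 := by
    by_contra hcon
    push Not at hcon
    exact hv (funext hcon)
  have hFa : F (v a) ≠ 0 := (map_ne_zero F).2 ha
  refine ⟨fun b => v b / v a, a, v a, ha, div_self ha, ?_, ?_⟩
  · intro b
    have h2 := h b a
    rw [map_div₀, div_eq_div_iff hFa ha]
    linear_combination -h2
  · intro b
    rw [mul_div_cancel₀ _ ha]

lemma s0L {ι : Type*} [Fintype ι] (hN : ∀ i j : ι, ∃ l, l ≠ i ∧ l ≠ j)
    {x : ι → L} (hx : x ≠ 0) (hind : IndL F x) : ¬ ParF x (fun i => F (x i)) := by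
  intro hpar
  obtain ⟨r, a, u, hu, hra, hr, hv⟩ := const_of_parL hx hpar
  obtain ⟨l, hl, -⟩ := hN a a
  apply rel3L hind (i := a) (j := a) (l := l) hl hl (a := - r l) (b := 0)
  · rw [map_neg, hr l]
  · exact map_zero F
  · rw [hv l, hv a, hra]; ring

lemma s2L {ι : Type*} [Fintype ι] (hN : ∀ i j : ι, ∃ l, l ≠ i ∧ l ≠ j)
    {x : ι → L} (hind : IndL F x) {w : ι × ι → L} (hw : w ≠ 0)
    (hin : InP x w) : ¬ ParF w (fun a => F (w a)) := by
  intro hpar
  obtain ⟨r, ⟨i, j⟩, u, hu, hra, hr, hv⟩ := const_of_parL hw hpar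
  obtain ⟨l, hli, hlj⟩ := hN i j
  have h1 := hin i j l
  rw [hv, hv, hv, hra] at h1
  apply rel3L hind (i := i) (j := j) (l := l) hli hlj (a := r (j, l)) (b := - r (i, l))
  · exact hr _
  · rw [map_neg, hr]
  · apply mul_left_cancel₀ hu
    linear_combination h1

end Pool.Agent.H209R3.Fun
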