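import Pool.Agent.H209R3.Fun2

set_option autoImplicit false

namespace Pool.Agent.H209R3.Fun

open Pool.Agent.H209R3.Gen

variable {L : Type*} [Field L] {F : L →+* L} {q : ℕ}

lemma three_div {q M : ℕ} (hq : 3 ≤ q) : 3 * (M / q) ≤ M := by
  have h1 := Nat.div_mul_le_self M q
  nlinarith [Nat.mul_le_mul_left (M / q) hq]

theorem coreL0 (A : SizeData L F q) (hq : 3 ≤ q) (σ0 : L) (hσ0 : σ0 ≠ 0) (m0 : ℕ)
    (hm0 : ∀ c : L, F c = c → σ0 * c ∈ A.B m0) (n1 : ℕ) :
    ∀ T : L, (∃ l : L, l ≠ 0 ∧ l ∈ A.B n1 ∧ l * T ∈ A.B n1) → (∀ a, F a ≠ T) →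
      (∀ a b : L, T ^ 2 + F a * T + F b ≠ 0) →
      ∀ (ι : Type) [Fintype ι] [Nonempty ι], (∀ i j : ι, ∃ l, l ≠ i ∧ l ≠ j) →
      ∀ (x : ι → L), IndL F x → ∀ (t : ι → ι → L), (∀ i j, F (t i j) = t i j) →
      ∀ (g δ : L), δ ≠ 0 →
      (∀ i, ∑ j, t i j * x j - T * x i = g * F (x i) + δ * F (F (x i))) →
      Sz A x (8 * (m0 + n1 + A.c0 + A.c0) + 36 * (2 * A.c1 + A.c0)
        + 9 * ((q + 1) * (2 * A.c1 + A.c0)) + 9 * A.c2 + 9 * A.c0) := by
  classical
  obtain ⟨n0, hn0⟩ : ∃ n0, n0 = m0 + n1 + A.c0 := ⟨_, rfl⟩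
  obtain ⟨K, hK⟩ : ∃ K, K = 2 * A.c1 + A.c0 := ⟨_, rfl⟩
  obtain ⟨c3, hc3⟩ : ∃ c3, c3 = n0 + A.c0 := ⟨_, rfl⟩
  have hCeq : 8 * (m0 + n1 + A.c0 + A.c0) + 36 * (2 * A.c1 + A.c0)
        + 9 * ((q + 1) * (2 * A.c1 + A.c0)) + 9 * A.c2 + 9 * A.c0
        = 8 * c3 + 36 * K + 9 * ((q + 1) * K) + 9 * A.c2 + 9 * A.c0 := by
    rw [hc3, hn0, hK]
  rw [hCeq]
  rintro T ⟨l0, hl0, hl0B, hl0T⟩ hTF hT2
  obtain ⟨σ, hσdef⟩ : ∃ σ, σ = A.s0 * (σ0 * l0) := ⟨_, rfl⟩
  have hσ : σ ≠ 0 := by
    rw [hσdef]; exact mul_ne_zero A.s0_ne (mul_ne_zero hσ0 hl0)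
  have hσT : σ * T ∈ A.B n0 := by
    have h1 : σ0 * 1 ∈ A.B m0 := hm0 1 (map_one F)
    have h2 := A.mul m0 n1 _ _ h1 hl0T
    rw [← hn0] at h2
    have e1 : σ * T = A.s0 * (σ0 * 1 * (l0 * T)) := by rw [hσdef]; ring
    rw [e1]; exact h2
  have hσκ : ∀ c, F c = c → σ * c ∈ A.B n0 := by
    intro c hc
    have h1 : σ0 * c ∈ A.B m0 := hm0 c hc
    have h2 := A.mul m0 n1 _ _ h1 hl0B
    rw [← hn0] at h2
    have e1 : σ * c = A.s0 * (σ0 * c * l0) := by rw [hσdef]; ring
    rw [e1]; exact h2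
  intro ι _ _ hN x hind t ht g δ hδ h
  -- nonvanishing of coordinates
  have hx0 : ∀ i, x i ≠ 0 := by
    intro i h0
    obtain ⟨a, ha, -⟩ := hN i i
    exact rel3L hind (i := a) (j := a) (l := i) (Ne.symm ha) (Ne.symm ha) (a := 0) (b := 0)
      (map_zero F) (map_zero F) (by rw [h0]; ring)
  obtain ⟨i0⟩ := ‹Nonempty ι›
  have hx : x ≠ 0 := fun h0 => hx0 i0 (congrFun h0 i0)
  have hFinj : Function.Injective F := F.injective
  -- minimal size
  have hex : ∃ n, Sz A x n := exists_Sz x
  obtain ⟨D, hD, hDmin⟩ : ∃ D, Sz A x D ∧ ∀ n, Sz A x n → D ≤ n :=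
    ⟨Nat.find hex, Nat.find_spec hex, fun n hn => Nat.find_min' hex hn⟩
  suffices hDC : D ≤ 8 * c3 + 36 * K + 9 * ((q + 1) * K) + 9 * A.c2 + 9 * A.c0 from hD.mono' hDC
  obtain ⟨B, hBdef⟩ : ∃ B : ι → L, B = fun i => ∑ j, t i j * x j - T * x i := ⟨_, rfl⟩
  have hB : ∀ i, B i = g * F (x i) + δ * F (F (x i)) := by
    intro i; rw [hBdef]; exact h i
  obtain ⟨w, hwdef⟩ : ∃ w, w = wd x (fun i => F (x i)) := ⟨_, rfl⟩
  have hxF : ¬ ParF x (fun i => F (x i)) := s0L hN hx hind
  have hw : w ≠ 0 := by rw [hwdef]; exact wd_ne_zero hxF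
  have hxw : InP x w := by rw [hwdef]; exact inP_wd_left _ _
  have hFxw : InP (fun i => F (x i)) w := by rw [hwdef]; exact inP_wd_right _ _
  have inP_F : ∀ {y : ι → L} {v : ι × ι → L}, InP y v →
      InP (fun i => F (y i)) (fun a => F (v a)) := by
    intro y v hyv a b c
    have := congrArg F (hyv a b c)
    simp only [map_add, map_sub, map_mul, map_zero] at this
    exact this
  have inP_F' : ∀ {y : ι → L} {v : ι × ι → L}, InP (fun i => F (y i)) (fun a => F (v a)) →
      InP y v := by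
    intro y v hyv a b c
    apply hFinj
    have := hyv a b c
    simp only [map_add, map_sub, map_mul, map_zero]
    exact this
  have hs4 : ¬ InP x (fun a => F (w a)) := by
    intro hcon
    have h1 : ParF (wd x (fun i => F (x i))) (fun a => F (w a)) :=
      par_wd_of_inP hcon (inP_F hxw)
    rw [← hwdef] at h1
    exact s2L hN hind hw hxw h1
  have hBFw : InP B (fun a => F (w a)) := by
    have k1 := inP_F hxw
    have k2 := inP_F hFxw
    intro a b c
    have e1 := k1 a b c
    have e2 := k2 a b c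
    rw [hB a, hB b, hB c]
    linear_combination g * e1 + δ * e2
  -- x is not in the image
  have hxim : ¬ Im F x := by
    rintro ⟨μ, y, hy⟩
    have hμ : μ ≠ 0 := by
      rintro rfl
      apply hx0 i0
      rw [hy i0]; simp
    apply hs4
    obtain ⟨S, hS⟩ : ∃ S : ι → L, S = fun i => ∑ j, t i j * y j := ⟨_, rfl⟩
    have hBi : ∀ i, B i = μ * (F (S i) - T * F (y i)) := by
      intro i
      rw [hBdef, hS]
      simp only [map_sum, map_mul, ht, hy]
      rw [mul_sub, Finset.mul_sum]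
      congr 1
      · apply Finset.sum_congr rfl
        intro j _; ring
      · ring
    intro i j l
    have h1 := hBFw i j l
    rw [hBi, hBi, hBi] at h1
    have h2 : F (S i * w (j, l) - S j * w (i, l) + S l * w (i, j))
        = T * F (y i * w (j, l) - y j * w (i, l) + y l * w (i, j)) := by
      apply mul_left_cancel₀ hμ
      simp only [map_add, map_sub, map_mul]
      linear_combination h1
    by_cases hβ : y i * w (j, l) - y j * w (i, l) + y l * w (i, j) = 0
    · have h3 := congrArg F hβ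
      simp only [map_add, map_sub, map_mul, map_zero] at h3
      rw [hy i, hy j, hy l]
      linear_combination μ * h3
    · exfalso
      apply hTF ((S i * w (j, l) - S j * w (i, l) + S l * w (i, j))
        / (y i * w (j, l) - y j * w (i, l) + y l * w (i, j)))
      rw [map_div₀, div_eq_iff ((map_ne_zero F).2 hβ)]
      exact h2
  have hBF : ¬ ParF B (fun i => F (x i)) := by
    intro hpar
    apply hxF
    intro i j
    apply hFinj
    apply mul_left_cancel₀ hδ
    have e1 := hB i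
    have e2 := hB j
    have e3 := hpar i j
    simp only [map_mul] at e3 ⊢
    linear_combination (F (x j)) * e1 - (F (x i)) * e2 - e3
  have hB0 : B ≠ 0 := by
    rintro h0
    apply hBF
    intro i j
    rw [h0]; simp
  -- size of B
  have hBsz : Sz A B (D + c3) := by
    obtain ⟨l, hl, hxl⟩ := hD
    refine ⟨A.s0 * (σ * l), mul_ne_zero A.s0_ne (mul_ne_zero hσ hl), fun i => ?_⟩
    have hm : n0 + D + A.c0 = D + c3 := by rw [hc3]; ring
    have k1 : ∀ c, σ * c ∈ A.B n0 → ∀ j, A.s0 * (σ * c * (l * x j)) ∈ A.B (D + c3) := by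
      intro c hc j
      rw [← hm]
      exact A.mul n0 D _ _ hc (hxl j)
    have e : A.s0 * (σ * l) * B i = ∑ j, A.s0 * (σ * t i j * (l * x j))
        - A.s0 * (σ * T * (l * x i)) := by
      rw [hBdef]
      simp only
      rw [mul_sub, Finset.mul_sum]
      congr 1
      · apply Finset.sum_congr rfl
        intro j _; ring
      · ring
    rw [e]
    apply (A.B (D + c3)).sub_mem
    · apply AddSubgroup.sum_mem
      intro j _
      exact k1 _ (hσκ _ (ht i j)) j
    · exact k1 _ hσT i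
  obtain ⟨Z, hZ⟩ : ∃ Z, Z = (D + c3) / q := ⟨_, rfl⟩
  have hZ3 : 3 * Z ≤ D + c3 := by rw [hZ]; exact three_div hq
  by_cases hwim : Im F w
  · obtain ⟨cw, n, hn⟩ := hwim
    have hcw : cw ≠ 0 := by
      rintro rfl
      apply hw
      funext a
      rw [hn a]; simp
    have hn0' : n ≠ 0 := by
      rintro rfl
      apply hw
      funext a
      rw [hn a]; simp
    have hxFn : InP x (fun a => F (n a)) := inP_of_scale hcw hn hxw
    have hxn : InP x n := inP_F' (inP_of_scale hcw hn hFxw)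
    have hnn : ¬ ParF n (fun a => F (n a)) := s2L hN hind hn0' hxn
    -- from sizes of n to D
    have hnD : ∀ h, Sz A n h → D ≤ h + (q * h + A.c2) + A.c0 := by
      intro h hh
      have hFh := Sz_F hh
      obtain ⟨l, hl, hh⟩ := hh
      obtain ⟨l', hl', hFh⟩ := hFh
      exact hDmin _ (Sz_minor hx0 i0 hxn hxFn hnn hl hl' hh hFh)
    by_cases hBim : Im F B
    · obtain ⟨cB, u, hu⟩ := hBim
      have hcB : cB ≠ 0 := by
        rintro rfl
        apply hB0
        funext a
        rw [hu a]; simp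
      have hUsz : Sz A u (Z + A.c1) := by
        have := bound_im hB0 hu hBsz
        rw [← hZ] at this
        exact this
      have huw : InP u w := inP_F' (inP_scale_vec hcB hu hBFw)
      have hun : InP u (fun a => F (n a)) := inP_of_scale hcw hn huw
      by_cases huim : Im F u
      · exfalso
        obtain ⟨cu, y, hy⟩ := huim
        have hcu : cu ≠ 0 := by
          rintro rfl
          apply hB0
          funext a
          rw [hu a, hy a]; simp
        have hyn : InP y n := inP_F' (inP_scale_vec hcu hy hun)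
        have hFyn : InP (fun i => F (y i)) (fun a => F (n a)) := inP_F hyn
        have hz : ¬ InP (fun i => F (y i)) n := by
          intro hcon
          by_cases hpar : ParF x (fun i => F (y i))
          · apply hxim
            have hFy0 : (fun i => F (y i)) ≠ 0 := by
              intro h0
              apply hB0
              funext a
              rw [hu a, hy a]
              have := congrFun h0 a
              simp only [Pi.zero_apply] at this
              rw [this]; simp
            obtain ⟨c, hc⟩ := exists_scale_of_par hFy0 hpar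
            exact ⟨c, y, hc⟩
          · have h1 := par_wd_of_inP hxn hcon
            have h2 := par_wd_of_inP hxFn hFyn
            exact hnn (parF_trans (wd_ne_zero hpar) (parF_symm h1) (parF_symm h2))
        refine s10L A (x := x) (z := fun i => F (y i)) (n := n) (b := cB * F cu) (T := T) t ht
          hn0' hxFn hz hxim hT2 ?_
        intro i
        have := hu i
        rw [hy i, map_mul] at this
        rw [hBdef] at this
        simp only at this
        rw [this]; ring
      · have h2 := hnD _ (boundB hun huim hUsz)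
        obtain ⟨Y, hY⟩ : ∃ Y, Y = (Z + A.c1) / q := ⟨_, rfl⟩
        have hY3 : 3 * Y ≤ Z + A.c1 := by rw [hY]; exact three_div hq
        have hYq : q * Y ≤ Z + A.c1 := by rw [hY, mul_comm]; exact Nat.div_mul_le_self _ _
        rw [← hY] at h2
        have e1 : q * (Y + A.c1 + (Y + A.c1) + A.c0) = 2 * (q * Y) + q * K := by
          rw [hK]; ring
        have e2 : (q + 1) * K = q * K + K := by ring
        rw [e1] at h2
        rw [e2]
        omega
    · have h1 := boundB hBFw hBim hBsz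
      rw [← hZ] at h1
      have h2 := bound_im hw hn h1
      have h3 := hnD _ h2
      obtain ⟨H, hH⟩ : ∃ H, H = Z + A.c1 + (Z + A.c1) + A.c0 := ⟨_, rfl⟩
      rw [← hH] at h3
      obtain ⟨Y, hY⟩ : ∃ Y, Y = H / q := ⟨_, rfl⟩
      have hY3 : 3 * Y ≤ H := by rw [hY]; exact three_div hq
      have hYq : q * Y ≤ H := by rw [hY, mul_comm]; exact Nat.div_mul_le_self _ _
      rw [← hY] at h3
      have e1 : q * (Y + A.c1) = q * Y + q * A.c1 := by ring
      have e2 : (q + 1) * K = 2 * (q * A.c1) + q * A.c0 + K := by rw [hK]; ring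
      rw [e1] at h3
      rw [e2]
      have e3 : 0 ≤ q * A.c0 := Nat.zero_le _
      omega
  · by_cases hBim : Im F B
    · obtain ⟨cB, u, hu⟩ := hBim
      have hcB : cB ≠ 0 := by
        rintro rfl
        apply hB0
        funext a
        rw [hu a]; simp
      have hUsz : Sz A u (Z + A.c1) := by
        have := bound_im hB0 hu hBsz
        rw [← hZ] at this
        exact this
      have huw : InP u w := inP_F' (inP_scale_vec hcB hu hBFw)
      have hxu : ¬ ParF x u := by
        intro hpar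
        apply hBF
        intro i j
        have := congrArg F (hpar j i)
        simp only [map_mul] at this
        rw [hu i, hu j]
        linear_combination cB * this
      have hwsz : Sz A w (D + (Z + A.c1) + A.c0) := by
        have h1 := par_wd_of_inP hxw huw
        obtain ⟨l, hl, hxl⟩ := hD
        obtain ⟨l', hl', hul⟩ := hUsz
        exact Sz_of_par (wd_ne_zero hxu) (parF_symm h1) (Sz_wd hl hl' hxl hul)
      have h2 := hDmin _ (boundA hx0 i0 hFxw hwim hwsz)
      obtain ⟨H, hH⟩ : ∃ H, H = D + (Z + A.c1) + A.c0 := ⟨_, rfl⟩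
      rw [← hH] at h2
      obtain ⟨Y, hY⟩ : ∃ Y, Y = H / q := ⟨_, rfl⟩
      have hY3 : 3 * Y ≤ H := by rw [hY]; exact three_div hq
      rw [← hY] at h2
      omega
    · have h1 := boundB hBFw hBim hBsz
      rw [← hZ] at h1
      have h2 := hDmin _ (boundA hx0 i0 hFxw hwim h1)
      obtain ⟨H, hH⟩ : ∃ H, H = Z + A.c1 + (Z + A.c1) + A.c0 := ⟨_, rfl⟩
      rw [← hH] at h2
      obtain ⟨Y, hY⟩ : ∃ Y, Y = H / q := ⟨_, rfl⟩
      have hY3 : 3 * Y ≤ H := by rw [hY]; exact three_div hq
      rw [← hY] at h2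
      omega

theorem coreL (A : SizeData L F q) (hq : 3 ≤ q) (hκ : {c : L | F c = c}.Finite) (n1 : ℕ) :
    ∃ C : ℕ, ∀ T : L, (∃ l : L, l ≠ 0 ∧ l ∈ A.B n1 ∧ l * T ∈ A.B n1) → (∀ a, F a ≠ T) →
      (∀ a b : L, T ^ 2 + F a * T + F b ≠ 0) →
      ∀ (ι : Type) [Fintype ι] [Nonempty ι], (∀ i j : ι, ∃ l, l ≠ i ∧ l ≠ j) →
      ∀ (x : ι → L), IndL F x → ∀ (t : ι → ι → L), (∀ i j, F (t i j) = t i j) →
      ∀ (g δ : L), δ ≠ 0 →
      (∀ i, ∑ j, t i j * x j - T * x i = g * F (x i) + δ * F (F (x i))) → Sz A x C := by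
  obtain ⟨σ0, hσ0, m0, hm0⟩ := A.exh hκ.toFinset
  exact ⟨_, coreL0 A hq σ0 hσ0 m0 (fun c hc => hm0 c (hκ.mem_toFinset.2 hc)) n1⟩

end Pool.Agent.H209R3.Fun
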