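import Pool.Agent.H209R3.Gen2

set_option autoImplicit false

namespace Pool.Agent.H209R3.Gen

open Polynomial

section Cartier
variable {k : Type*} [Field k] (p : ℕ) [Fact p.Prime] [CharP k p] [PerfectField k]

/-- existence of an additive left inverse of the iterated Frobenius, semilinear over it -/
lemma exists_cartier (e : ℕ) : ∃ E : k[X] →+ k[X],
    ∀ g f : k[X], E (ph p e g * f) = g * E f ∧ E (ph p e g) = g := by
  haveI : PerfectRing k p := PerfectField.toPerfectRing p
  have hq : p ^ e ≠ 0 := pow_ne_zero e (Fact.out : p.Prime).ne_zero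
  let σ : k →+* k := ((iterateFrobeniusEquiv k p e).symm : k →+* k)
  have h1 : ∀ g : k[X], ph p e g = expand k (p ^ e) (g.map (iterateFrobenius k p e)) := by
    intro g
    rw [ph_def, ← map_iterateFrobenius_expand, map_expand]
  have h2 : ∀ g : k[X], (g.map (iterateFrobenius k p e)).map σ = g := by
    intro g
    rw [Polynomial.map_map]
    have : σ.comp (iterateFrobenius k p e) = RingHom.id k := by
      ext a
      simp only [σ, RingHom.comp_apply, RingHom.id_apply, RingHom.coe_coe]
      rw [← coe_iterateFrobeniusEquiv, RingEquiv.symm_apply_apply]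
    rw [this, Polynomial.map_id]
  refine ⟨{ toFun := fun f => (contract (p ^ e) f).map σ
            map_zero' := ?_
            map_add' := ?_ }, ?_⟩
  · have : contract (p ^ e) (0 : k[X]) = 0 := by
      ext n
      rw [coeff_contract hq]; simp
    simp only [this, Polynomial.map_zero]
  · intro a b
    rw [contract_add hq, Polynomial.map_add]
  · intro g f
    constructor
    · show (contract (p ^ e) (ph p e g * f)).map σ = g * (contract (p ^ e) f).map σ
      rw [h1, mul_comm, contract_mul_expand hq, Polynomial.map_mul, h2, mul_comm]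
    · show (contract (p ^ e) (ph p e g)).map σ = g
      rw [h1, contract_expand _ hq, h2]

end Cartier

section Rel
variable {ι : Type*} [Fintype ι] {k : Type*} [Field k]

/-- independence of the coordinates over the fixed constants -/
def IndF (q : ℕ) (x : ι → k[X]) : Prop :=
  ∀ c : ι → k, (∀ i, c i ^ q = c i) → ∑ i, C (c i) * x i = 0 → c = 0

lemma rel3 (p : ℕ) [Fact p.Prime] [CharP k p] (e : ℕ) {x : ι → k[X]} (h : IndF (p ^ e) x)
    {i j l : ι} (hli : l ≠ i) (hlj : l ≠ j) {a b : k} (ha : a ^ p ^ e = a) (hb : b ^ p ^ e = b)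
    (hr : C a * x i + C b * x j + x l = 0) : False := by
  classical
  have hq : p ^ e ≠ 0 := pow_ne_zero e (Fact.out : p.Prime).ne_zero
  have hs : ∀ (i m : ι) (a : k), a ^ p ^ e = a →
      (Pi.single i a : ι → k) m ^ p ^ e = (Pi.single i a : ι → k) m := by
    intro i m a ha
    by_cases him : m = i
    · subst him; simpa using ha
    · simp [Pi.single_eq_of_ne him, zero_pow hq]
  have h1 := h (Pi.single i a + Pi.single j b + Pi.single l 1) (by
    intro m
    simp only [Pi.add_apply]
    rw [add_pow_char_pow, add_pow_char_pow, hs i m a ha, hs j m b hb, hs l m 1 (one_pow _)])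
    (by
      have hsum : ∀ (i : ι) (a : k), ∑ m, C ((Pi.single i a : ι → k) m) * x m = C a * x i := by
        intro i a
        rw [Finset.sum_eq_single i]
        · simp
        · intro m _ hm
          simp [Pi.single_eq_of_ne hm]
        · intro hi
          exact absurd (Finset.mem_univ i) hi
      simp only [Pi.add_apply, C_add, add_mul, Finset.sum_add_distrib, hsum]
      simpa using hr)
  have h2 := congrFun h1 l
  simp [Pi.single_eq_of_ne hli, Pi.single_eq_of_ne hlj] at h2

lemma const_of_par (p : ℕ) [Fact p.Prime] [CharP k p] (e : ℕ) (hq : 2 ≤ p ^ e)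
    {κ : Type*} [Fintype κ] [Nonempty κ] {v : κ → k[X]} (hv : PrimF v)
    (h : ParF v (Fr p e v)) :
    ∃ (r : κ → k) (a : κ) (u : k[X]), u ≠ 0 ∧ r a = 1 ∧ (∀ b, r b ^ p ^ e = r b) ∧
      ∀ b, v b = u * C (r b) := by
  have hFv := primF_Fr p e hv
  have h1 := htF_le_of_par hFv h (primF_ne_zero hv)
  rw [htF_Fr] at h1
  have h0 : htF v = 0 := by
    by_contra hne
    nlinarith [Nat.pos_of_ne_zero hne]
  have hc : ∀ b, v b = C ((v b).coeff 0) := fun b =>
    eq_C_of_natDegree_eq_zero (by have := le_htF v b; omega)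
  obtain ⟨a, ha⟩ : ∃ a, v a ≠ 0 := by
    by_contra hcon
    push Not at hcon
    exact primF_ne_zero hv (funext hcon)
  have hva : (v a).coeff 0 ≠ 0 := by
    intro h0
    apply ha
    rw [hc a, h0, C_0]
  refine ⟨fun b => (v b).coeff 0 / (v a).coeff 0, a, C ((v a).coeff 0), ?_, ?_, ?_, ?_⟩
  · rwa [Ne, C_eq_zero]
  · exact div_self hva
  · intro b
    have h2 := h b a
    simp only [Fr] at h2
    rw [hc b, hc a, ph_C, ph_C, ← C_mul, ← C_mul] at h2
    have h3 := C_injective h2
    rw [div_pow, div_eq_div_iff (pow_ne_zero _ hva) hva]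
    linear_combination -h3
  · intro b
    conv_lhs => rw [hc b]
    rw [← C_mul, mul_div_cancel₀ _ hva]

end Rel

section S
variable {ι : Type*} [Fintype ι] {k : Type*} [Field k] (p : ℕ) [Fact p.Prime] [CharP k p]

lemma s0 [Nonempty ι] (e : ℕ) (hq : 2 ≤ p ^ e) (hN : ∀ i j : ι, ∃ l, l ≠ i ∧ l ≠ j)
    {x : ι → k[X]} (hx : PrimF x) (hind : IndF (p ^ e) x) : ¬ ParF x (Fr p e x) := by
  intro hpar
  obtain ⟨r, a, u, hu, hra, hr, hv⟩ := const_of_par p e hq hx hpar
  obtain ⟨l, hl, -⟩ := hN a a
  have hqz : p ^ e ≠ 0 := by omega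
  by_cases hrl : r l = 0
  · exact rel3 p e hind (i := a) (j := a) (l := l) hl hl (a := 0) (b := 0) (zero_pow hqz)
      (zero_pow hqz) (by rw [hv l, hrl]; simp)
  · apply rel3 p e hind (i := a) (j := a) (l := l) hl hl (a := - r l) (b := 0)
    · have := hr l
      have h2 : (- r l) ^ p ^ e = - (r l ^ p ^ e) := by
        have h3 : (r l + (- r l)) ^ p ^ e = 0 := by rw [add_neg_cancel, zero_pow hqz]
        rw [add_pow_char_pow] at h3
        linear_combination h3
      rw [h2, this]
    · exact zero_pow hqz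
    · rw [hv l, hv a, hra]; simp; ring

lemma s2 [Nonempty ι] (e : ℕ) (hq : 2 ≤ p ^ e) (hN : ∀ i j : ι, ∃ l, l ≠ i ∧ l ≠ j)
    {x : ι → k[X]} (hind : IndF (p ^ e) x) {w : ι × ι → k[X]} (hw : PrimF w)
    (hin : InP x w) : ¬ ParF w (Fr p e w) := by
  intro hpar
  obtain ⟨r, ⟨i, j⟩, u, hu, hra, hr, hv⟩ := const_of_par p e hq hw hpar
  obtain ⟨l, hli, hlj⟩ := hN i j
  have hqz : p ^ e ≠ 0 := by omega
  have h1 := hin i j l
  rw [hv, hv, hv, hra] at h1
  apply rel3 p e hind (i := i) (j := j) (l := l) hli hlj (a := r (j, l)) (b := - r (i, l))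
  · exact hr _
  · have := hr (i, l)
    have h2 : (- r (i, l)) ^ p ^ e = - (r (i, l) ^ p ^ e) := by
      have h3 : (r (i, l) + (- r (i, l))) ^ p ^ e = 0 := by rw [add_neg_cancel, zero_pow hqz]
      rw [add_pow_char_pow] at h3
      linear_combination h3
    rw [h2, this]
  · apply mul_left_cancel₀ hu
    rw [C_neg]
    rw [C_1] at h1
    linear_combination h1

end S

end Pool.Agent.H209R3.Gen
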