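import Pool.Agent.H209R3.Fun3
import Pool.Agent.H209R3.Gen3

set_option autoImplicit false

namespace Pool.Agent.H209R3.Fun

open Pool.Agent.H209R3.Gen Polynomial Module

section Decomp
variable {k : Type*} [Field k] (p : ℕ) [Fact p.Prime] [CharP k p] [PerfectField k]

/-- decomposition of a polynomial along the powers of X over the image of Frobenius -/
lemma exists_decomp (e : ℕ) (n : ℕ) (P : k[X]) (hP : P.natDegree ≤ n) :
    ∃ Q : ℕ → k[X], (∀ j, (Q j).natDegree ≤ n / p ^ e) ∧
      P = ∑ j ∈ Finset.range (p ^ e), X ^ j * ph p e (Q j) := by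
  have : PerfectRing k p := PerfectField.toPerfectRing p
  have hq : 0 < p ^ e := Nat.pow_pos (Fact.out : p.Prime).pos
  refine Polynomial.induction_with_natDegree_le (fun P => ∃ Q : ℕ → k[X],
    (∀ j, (Q j).natDegree ≤ n / p ^ e) ∧
      P = ∑ j ∈ Finset.range (p ^ e), X ^ j * ph p e (Q j)) n ?_ ?_ ?_ P hP
  · exact ⟨fun _ => 0, fun j => by simp, by simp⟩
  · intro m r hr hm
    refine ⟨fun j => if j = m % p ^ e then
      C ((iterateFrobeniusEquiv k p e).symm r) * X ^ (m / p ^ e) else 0, ?_, ?_⟩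
    · intro j
      by_cases hj : j = m % p ^ e
      · simp only [hj, if_true]
        apply le_trans (natDegree_C_mul_X_pow_le _ _)
        exact Nat.div_le_div_right hm
      · simp only [hj, if_false, natDegree_zero]; exact Nat.zero_le _
    · rw [Finset.sum_eq_single (m % p ^ e)]
      · simp only [if_true, map_mul, ph_C]
        rw [← iterateFrobeniusEquiv_def, RingEquiv.apply_symm_apply, ph_def, ← pow_mul]
        rw [mul_left_comm, ← pow_add]
        congr 2
        rw [mul_comm (m / p ^ e)]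
        exact (Nat.mod_add_div m (p ^ e)).symm
      · intro j _ hj
        simp only [hj, if_false, map_zero, mul_zero]
      · intro hj
        exact absurd (Finset.mem_range.2 (Nat.mod_lt _ hq)) hj
  · rintro f g - - ⟨Q1, h1, h1'⟩ ⟨Q2, h2, h2'⟩
    refine ⟨fun j => Q1 j + Q2 j, fun j => le_trans (natDegree_add_le _ _)
      (max_le (h1 j) (h2 j)), ?_⟩
    simp only [map_add, mul_add, Finset.sum_add_distrib]
    rw [← h1', ← h2']

end Decomp

/-- the field as a vector space over itself through an endomorphism -/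
def Tw {L : Type*} [Field L] (_F : L →+* L) : Type _ := L

instance {L : Type*} [Field L] (F : L →+* L) : AddCommGroup (Tw F) :=
  inferInstanceAs (AddCommGroup L)

instance {L : Type*} [Field L] (F : L →+* L) : Module L (Tw F) := Module.compHom L F

lemma Tw_smul {L : Type*} [Field L] (F : L →+* L) (a f : L) :
    (a • (show Tw F from f) : Tw F) = (show Tw F from F a * f) := rfl

section Size
variable (k : Type*) [Field k] (L : Type*) [Field L] [Algebra (RatFunc k) L]
  [FiniteDimensional (RatFunc k) L]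

/-- polynomials inside L -/
noncomputable def io : k[X] →+* L := (algebraMap (RatFunc k) L).comp (algebraMap k[X] (RatFunc k))

lemma io_inj : Function.Injective (io k L) :=
  (algebraMap (RatFunc k) L).injective.comp (IsFractionRing.injective k[X] (RatFunc k))

/-- the ball of size n -/
noncomputable def Bn (n : ℕ) : AddSubgroup L where
  carrier := {a | ∀ i, ∃ P : k[X], P.natDegree ≤ n ∧
    (finBasis (RatFunc k) L).repr a i = algebraMap k[X] (RatFunc k) P}
  zero_mem' := fun i => ⟨0, by simp, by simp⟩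
  add_mem' := by
    intro a b ha hb i
    obtain ⟨P, hP, hP'⟩ := ha i
    obtain ⟨Q, hQ, hQ'⟩ := hb i
    refine ⟨P + Q, le_trans (natDegree_add_le _ _) (max_le hP hQ), ?_⟩
    rw [map_add, Finsupp.add_apply, hP', hQ', map_add]
  neg_mem' := by
    intro a ha i
    obtain ⟨P, hP, hP'⟩ := ha i
    refine ⟨-P, by rwa [natDegree_neg], ?_⟩
    rw [map_neg, Finsupp.neg_apply, hP', map_neg]

variable {k L}

lemma Bn_mono {m n : ℕ} (h : m ≤ n) : Bn k L m ≤ Bn k L n := by
  intro a ha i
  obtain ⟨P, hP, hP'⟩ := ha i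
  exact ⟨P, hP.trans h, hP'⟩

lemma Bn_mul {m n : ℕ} {Q : k[X]} (hQ : Q.natDegree ≤ m) {a : L} (ha : a ∈ Bn k L n) :
    io k L Q * a ∈ Bn k L (m + n) := by
  intro i
  obtain ⟨P, hP, hP'⟩ := ha i
  refine ⟨Q * P, le_trans natDegree_mul_le (add_le_add hQ hP), ?_⟩
  have : io k L Q * a = (algebraMap k[X] (RatFunc k) Q) • a := by
    rw [Algebra.smul_def]; rfl
  rw [this, map_smul, Finsupp.smul_apply, hP', smul_eq_mul, map_mul]

lemma exh1 (a : L) : ∃ Q : k[X], Q ≠ 0 ∧ ∃ n, io k L Q * a ∈ Bn k L n := by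
  obtain ⟨d, hd⟩ := IsLocalization.exist_integer_multiples_of_finite (nonZeroDivisors k[X])
    (fun i => (finBasis (RatFunc k) L).repr a i)
  choose P hP using hd
  refine ⟨d, nonZeroDivisors.coe_ne_zero d, Finset.univ.sup (fun i => (P i).natDegree), ?_⟩
  intro i
  refine ⟨P i, Finset.le_sup (f := fun i => (P i).natDegree) (Finset.mem_univ i), ?_⟩
  have : io k L (d : k[X]) * a = (algebraMap k[X] (RatFunc k) (d : k[X])) • a := by
    rw [Algebra.smul_def]; rfl
  rw [this, map_smul, Finsupp.smul_apply, hP i, smul_eq_mul, Algebra.smul_def]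

lemma exhF (S : Finset L) : ∃ Q : k[X], Q ≠ 0 ∧ ∃ n, ∀ a ∈ S, io k L Q * a ∈ Bn k L n := by
  classical
  induction S using Finset.induction_on with
  | empty => exact ⟨1, one_ne_zero, 0, by simp⟩
  | insert a S _ ih =>
    obtain ⟨Q1, hQ1, n1, h1⟩ := ih
    obtain ⟨Q2, hQ2, n2, h2⟩ := exh1 (k := k) a
    refine ⟨Q1 * Q2, mul_ne_zero hQ1 hQ2, (Q2.natDegree + n1) + (Q1.natDegree + n2), ?_⟩
    intro b hb
    rcases Finset.mem_insert.1 hb with rfl | hb
    · have := Bn_mul (k := k) (L := L) (le_refl Q1.natDegree) h2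
      rw [map_mul, mul_assoc]
      exact Bn_mono (by omega) this
    · have := Bn_mul (k := k) (L := L) (le_refl Q2.natDegree) (h1 b hb)
      rw [map_mul, mul_comm (io k L Q1), mul_assoc]
      exact Bn_mono (by omega) this

lemma Bn_expand {n : ℕ} {a : L} (ha : a ∈ Bn k L n) :
    ∃ P : Fin (finrank (RatFunc k) L) → k[X], (∀ i, (P i).natDegree ≤ n) ∧
      a = ∑ i, io k L (P i) * finBasis (RatFunc k) L i := by
  choose P hP hP' using ha
  refine ⟨P, hP, ?_⟩
  have h1 := (finBasis (RatFunc k) L).sum_repr a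
  refine h1.symm.trans ?_
  apply Finset.sum_congr rfl
  intro i _
  rw [hP' i, Algebra.smul_def]
  rfl

end Size

end Pool.Agent.H209R3.Fun
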