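import Pool.Agent.H209R3.Fun4

set_option autoImplicit false

namespace Pool.Agent.H209R3.Fun

open Pool.Agent.H209R3.Gen Polynomial Module

variable {k : Type*} [Field k] {L : Type*} [Field L] [Algebra (RatFunc k) L]
  [FiniteDimensional (RatFunc k) L] (p : ℕ) [Fact p.Prime] [CharP k p] [CharP L p]

lemma F_io (e : ℕ) (P : k[X]) : iterateFrobenius L p e (io k L P) = io k L (ph p e P) := by
  rw [iterateFrobenius_def, ph_def, map_pow]

/-- explicit generators of L over the image of Frobenius -/
noncomputable def gens (k : Type*) [Field k] (L : Type*) [Field L] [Algebra (RatFunc k) L]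
    [FiniteDimensional (RatFunc k) L] (q : ℕ) : Fin (finrank (RatFunc k) L) × Fin q → L :=
  fun a => io k L (X ^ (a.2 : ℕ)) * finBasis (RatFunc k) L a.1

variable [PerfectField k]

lemma decompL (e : ℕ) {n : ℕ} {f : L} (hf : f ∈ Bn k L n) :
    ∃ Q : Fin (finrank (RatFunc k) L) × Fin (p ^ e) → k[X],
      (∀ a, (Q a).natDegree ≤ n / p ^ e) ∧
      f = ∑ a, iterateFrobenius L p e (io k L (Q a)) * gens k L (p ^ e) a := by
  obtain ⟨P, hP, hfP⟩ := Bn_expand hf
  have h1 : ∀ i, ∃ Q : ℕ → k[X], (∀ j, (Q j).natDegree ≤ n / p ^ e) ∧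
      P i = ∑ j ∈ Finset.range (p ^ e), X ^ j * ph p e (Q j) := fun i =>
    exists_decomp p e n (P i) (hP i)
  choose Q hQ hQ' using h1
  refine ⟨fun a => Q a.1 a.2, fun a => hQ a.1 a.2, ?_⟩
  rw [hfP, Fintype.sum_prod_type]
  apply Finset.sum_congr rfl
  intro i _
  conv_lhs => rw [hQ' i]
  rw [map_sum, Finset.sum_mul, ← Fin.sum_univ_eq_sum_range
    (fun j => io k L (X ^ j * ph p e (Q i j)) * finBasis (RatFunc k) L i) (p ^ e)]
  apply Finset.sum_congr rfl
  intro j _
  simp only [gens, F_io]
  rw [map_mul]; ring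

lemma Tw_span (e : ℕ) : (⊤ : Submodule L (Tw (iterateFrobenius L p e))) ≤
    Submodule.span L (Set.range (fun a => (show Tw (iterateFrobenius L p e) from
      gens k L (p ^ e) a))) := by
  have hq : 0 < p ^ e := Nat.pow_pos (Fact.out : p.Prime).pos
  intro f _
  let f' : L := f
  obtain ⟨Q, hQ, n, hn⟩ := exh1 (k := k) f'
  have hQ0 : io k L Q ≠ 0 := fun h0 => hQ (io_inj k L (h0.trans (map_zero (io k L)).symm))
  -- multiply up to a Frobenius power
  have h1 : io k L (Q ^ (p ^ e - 1)) * (io k L Q * f') ∈ Bn k L ((Q ^ (p ^ e - 1)).natDegree + n) :=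
    Bn_mul (le_refl _) hn
  have h2 : io k L (Q ^ (p ^ e - 1)) * (io k L Q * f') = iterateFrobenius L p e (io k L Q) * f' := by
    rw [iterateFrobenius_def, map_pow, ← mul_assoc, ← pow_succ]
    congr 2
    omega
  rw [h2] at h1
  obtain ⟨R, -, hR⟩ := decompL p e h1
  have h3 : f' = ∑ a, iterateFrobenius L p e ((io k L Q)⁻¹ * io k L (R a))
      * gens k L (p ^ e) a := by
    have hF0 : iterateFrobenius L p e (io k L Q) ≠ 0 := (_root_.map_ne_zero _).2 hQ0
    apply mul_left_cancel₀ hF0
    rw [hR, Finset.mul_sum]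
    apply Finset.sum_congr rfl
    intro a _
    rw [map_mul, map_inv₀, ← mul_assoc, mul_inv_cancel_left₀ hF0]
  have h4 : f = ∑ a, ((io k L Q)⁻¹ * io k L (R a)) • (show Tw (iterateFrobenius L p e) from
      gens k L (p ^ e) a) := h3
  rw [h4]
  apply Submodule.sum_mem
  intro a _
  apply Submodule.smul_mem
  exact Submodule.subset_span ⟨a, rfl⟩

include k in
lemma Tw_finite (e : ℕ) : Module.Finite L (Tw (iterateFrobenius L p e)) := by
  refine ⟨?_⟩
  have h := Tw_span (k := k) (L := L) p e
  rw [top_le_iff] at h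
  rw [← h]
  exact Submodule.fg_span (Set.finite_range _)

include k in
/-- coordinate operators -/
lemma exists_ops (e : ℕ) : ∃ (J : ℕ) (E : Fin J → L →+ L) (θ : Fin J → L),
    (∀ j g f, E j (iterateFrobenius L p e g * f) = g * E j f) ∧
    (∀ f, ∑ j, iterateFrobenius L p e (E j f) * θ j = f) := by
  haveI := Tw_finite (k := k) (L := L) p e
  let b := finBasis L (Tw (iterateFrobenius L p e))
  refine ⟨finrank L (Tw (iterateFrobenius L p e)), fun j =>
    { toFun := fun f => b.repr (show Tw (iterateFrobenius L p e) from f) j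
      map_zero' := by
        show b.repr 0 j = 0
        rw [map_zero]; rfl
      map_add' := fun f g => by
        show b.repr ((show Tw (iterateFrobenius L p e) from f)
          + (show Tw (iterateFrobenius L p e) from g)) j = _
        rw [map_add]; rfl }, fun j => b j, ?_, ?_⟩
  · intro j g f
    show b.repr (g • (show Tw (iterateFrobenius L p e) from f)) j = g * b.repr f j
    rw [map_smul]; rfl
  · intro f
    exact b.sum_repr (show Tw (iterateFrobenius L p e) from f)

variable (k L) in
theorem exists_sizeData (e : ℕ) : ∃ A : SizeData L (iterateFrobenius L p e) (p ^ e),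
    A.B = Bn k L := by
  classical
  obtain ⟨J, E, θ, hE, hθ⟩ := exists_ops (k := k) (L := L) p e
  obtain ⟨Q0, hQ0, n0, h0⟩ := exhF (k := k) (Finset.univ.image
    (fun a : Fin (finrank (RatFunc k) L) × Fin (finrank (RatFunc k) L) =>
      finBasis (RatFunc k) L a.1 * finBasis (RatFunc k) L a.2))
  obtain ⟨Q1, hQ1, n1, h1⟩ := exhF (k := k) (Finset.univ.image
    (fun a : Fin J × (Fin (finrank (RatFunc k) L) × Fin (p ^ e)) =>
      E a.1 (gens k L (p ^ e) a.2)))
  obtain ⟨Q2, hQ2, n2, h2⟩ := exhF (k := k) (Finset.univ.image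
    (fun a : Fin (finrank (RatFunc k) L) => iterateFrobenius L p e (finBasis (RatFunc k) L a)))
  have hio : ∀ Q : k[X], Q ≠ 0 → io k L Q ≠ 0 := fun Q hQ h =>
    hQ (io_inj k L (h.trans (map_zero (io k L)).symm))
  refine ⟨{ B := Bn k L
            mono := fun m n h => Bn_mono h
            s0 := io k L Q0
            s0_ne := hio Q0 hQ0
            c0 := n0
            mul := ?_
            exh := ?_
            J := J
            E := E
            θ := θ
            E_mul := hE
            E_sum := hθ
            s1 := io k L Q1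
            s1_ne := hio Q1 hQ1
            c1 := n1
            E_size := ?_
            s2 := io k L Q2
            s2_ne := hio Q2 hQ2
            c2 := n2
            F_size := ?_ }, rfl⟩
  · intro m n a b ha hb
    obtain ⟨P, hP, haP⟩ := Bn_expand ha
    obtain ⟨R, hR, hbR⟩ := Bn_expand hb
    have e1 : io k L Q0 * (a * b) = ∑ i, ∑ j, io k L (P i * R j) *
        (io k L Q0 * (finBasis (RatFunc k) L i * finBasis (RatFunc k) L j)) := by
      rw [haP, hbR, Finset.sum_mul_sum, Finset.mul_sum]
      apply Finset.sum_congr rfl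
      intro i _
      rw [Finset.mul_sum]
      apply Finset.sum_congr rfl
      intro j _
      rw [map_mul]; ring
    rw [e1]
    apply AddSubgroup.sum_mem
    intro i _
    apply AddSubgroup.sum_mem
    intro j _
    exact Bn_mul (le_trans natDegree_mul_le (add_le_add (hP i) (hR j)))
      (h0 _ (Finset.mem_image_of_mem _ (Finset.mem_univ (i, j))))
  · intro S
    obtain ⟨Q, hQ, n, hn⟩ := exhF (k := k) S
    exact ⟨io k L Q, hio Q hQ, n, hn⟩
  · intro n f hf j
    obtain ⟨R, hR, hfR⟩ := decompL p e hf
    have e1 : io k L Q1 * E j f = ∑ a, io k L (R a) * (io k L Q1 * E j (gens k L (p ^ e) a)) := by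
      conv_lhs => rw [hfR]
      rw [map_sum, Finset.mul_sum]
      apply Finset.sum_congr rfl
      intro a _
      rw [hE]; ring
    rw [e1]
    apply AddSubgroup.sum_mem
    intro a _
    exact Bn_mul (hR a) (h1 _ (Finset.mem_image_of_mem _ (Finset.mem_univ (j, a))))
  · intro n f hf
    obtain ⟨P, hP, hfP⟩ := Bn_expand hf
    have e1 : io k L Q2 * iterateFrobenius L p e f = ∑ i, io k L (ph p e (P i)) *
        (io k L Q2 * iterateFrobenius L p e (finBasis (RatFunc k) L i)) := by
      conv_lhs => rw [hfP]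
      rw [map_sum, Finset.mul_sum]
      apply Finset.sum_congr rfl
      intro i _
      rw [map_mul, F_io]; ring
    rw [e1]
    apply AddSubgroup.sum_mem
    intro i _
    refine Bn_mul ?_ (h2 _ (Finset.mem_image_of_mem _ (Finset.mem_univ i)))
    rw [natDegree_ph]
    exact Nat.mul_le_mul_left _ (hP i)

end Pool.Agent.H209R3.Fun
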