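import Pool.Agent.H209R3.Fun5

set_option autoImplicit false

namespace Pool.Agent.H209R3.Fun

open Pool.Agent.H209R3.Gen Polynomial Module

/-- a nonzero Frobenius-stable subspace of `k^ι` contains a nonzero fixed vector -/
lemma exists_fixed {k : Type*} [Field k] (s : k →+* k) {ι : Type*} [Fintype ι]
    (W : Submodule k (ι → k)) (hW : W ≠ ⊥) (hs : ∀ a ∈ W, (fun i => s (a i)) ∈ W) :
    ∃ c ∈ W, c ≠ 0 ∧ ∀ i, s (c i) = c i := by
  classical
  -- minimal support
  obtain ⟨a0, ha0, ha0'⟩ := W.exists_mem_ne_zero_of_ne_bot hW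
  have hex : ∃ n, ∃ a ∈ W, a ≠ 0 ∧ (Finset.univ.filter (fun i => a i ≠ 0)).card = n :=
    ⟨_, a0, ha0, ha0', rfl⟩
  obtain ⟨a, haW, ha0, hcard⟩ := Nat.find_spec hex
  have hmin : ∀ b ∈ W, b ≠ 0 → (Finset.univ.filter (fun i => a i ≠ 0)).card ≤
      (Finset.univ.filter (fun i => b i ≠ 0)).card := by
    intro b hb hb0
    rw [hcard]
    exact Nat.find_min' hex ⟨b, hb, hb0, rfl⟩
  obtain ⟨i0, hi0⟩ : ∃ i, a i ≠ 0 := by
    by_contra hcon
    push Not at hcon
    exact ha0 (funext hcon)
  obtain ⟨c, hc⟩ : ∃ c : ι → k, c = (a i0)⁻¹ • a := ⟨_, rfl⟩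
  have hcW : c ∈ W := by rw [hc]; exact W.smul_mem _ haW
  have hci : ∀ i, c i = (a i0)⁻¹ * a i := by intro i; rw [hc]; rfl
  have hci0 : c i0 = 1 := by rw [hci, inv_mul_cancel₀ hi0]
  have hc0 : c ≠ 0 := by
    intro h0
    have := congrFun h0 i0
    rw [hci0] at this
    exact one_ne_zero this
  refine ⟨c, hcW, hc0, ?_⟩
  have hd : (fun i => s (c i)) - c ∈ W := W.sub_mem (hs c hcW) hcW
  by_contra hcon
  push Not at hcon
  obtain ⟨j, hj⟩ := hcon
  have hd0 : (fun i => s (c i)) - c ≠ 0 := by
    intro h0
    have := congrFun h0 j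
    simp only [Pi.sub_apply, Pi.zero_apply] at this
    exact hj (by linear_combination this)
  have hlt : (Finset.univ.filter (fun i => ((fun i => s (c i)) - c) i ≠ 0)).card <
      (Finset.univ.filter (fun i => a i ≠ 0)).card := by
    apply Finset.card_lt_card
    refine ⟨?_, ?_⟩
    · intro i hi
      rw [Finset.mem_filter] at hi ⊢
      refine ⟨Finset.mem_univ i, ?_⟩
      intro h0
      apply hi.2
      have : c i = 0 := by rw [hci, h0, mul_zero]
      simp only [Pi.sub_apply, this, map_zero, sub_zero]
    · intro hsub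
      have hmem : i0 ∈ Finset.univ.filter (fun i => a i ≠ 0) :=
        Finset.mem_filter.2 ⟨Finset.mem_univ _, hi0⟩
      have := (Finset.mem_filter.1 (hsub hmem)).2
      apply this
      simp only [Pi.sub_apply, hci0, map_one, sub_self]
  exact absurd (hmin _ hd hd0) (by omega)

variable {k L : Type*} [Field k] [Field L] [Algebra k L]

/-- dimension bound: the number of F-independent coordinates is bounded in terms of the
dimension of their k-span -/
theorem dimBound (F : L →+* L) (s : k →+* k) (hF : ∀ a : k, F (algebraMap k L a)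
    = algebraMap k L (s a)) (hκ : ∀ c : L, F c = c → ∃ a : k, algebraMap k L a = c)
    (T : L) (hT : Transcendental k T) (ι : Type) [Fintype ι] (x : ι → L) (hind : IndL F x)
    (t : ι → ι → L) (ht : ∀ i j, F (t i j) = t i j) (g δ : L)
    (h : ∀ i, ∑ j, t i j * x j - T * x i = g * F (x i) + δ * F (F (x i)))
    (X0 : Submodule k L) [FiniteDimensional k X0] (hX0 : ∀ i, x i ∈ X0) :
    Fintype.card ι ≤ 2 * finrank k X0 * finrank k X0 := by
  classical
  by_contra hcon
  push Not at hcon
  obtain ⟨r, hr⟩ : ∃ r, r = finrank k X0 := ⟨_, rfl⟩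
  rw [← hr] at hcon
  -- iterates of F
  have hFi : ∀ (i : ℕ) (a : k) (y : L), F^[i] (algebraMap k L a * y)
      = algebraMap k L (s^[i] a) * F^[i] y := by
    intro i
    induction i with
    | zero => intro a y; rfl
    | succ i ih =>
      intro a y
      rw [Function.iterate_succ_apply, map_mul, hF, ih, Function.iterate_succ_apply,
        Function.iterate_succ_apply]
  have hFsum : ∀ (i : ℕ) (κ : Type) (S : Finset κ) (f : κ → L), F^[i] (∑ j ∈ S, f j)
      = ∑ j ∈ S, F^[i] (f j) := by
    intro i κ S f
    have : ∀ y, F^[i] y = (F ^ i) y := fun y => by rw [RingHom.coe_pow]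
    simp only [this, map_sum]
  have hFmul : ∀ (i : ℕ) (a b : L), F^[i] (a * b) = F^[i] a * F^[i] b := by
    intro i a b
    have : ∀ y, F^[i] y = (F ^ i) y := fun y => by rw [RingHom.coe_pow]
    simp only [this, map_mul]
  have hFadd : ∀ (i : ℕ) (a b : L), F^[i] (a + b) = F^[i] a + F^[i] b := by
    intro i a b
    have : ∀ y, F^[i] y = (F ^ i) y := fun y => by rw [RingHom.coe_pow]
    simp only [this, map_add]
  have htk : ∀ i j, ∃ a : k, algebraMap k L a = t i j := fun i j => hκ _ (ht i j)
  choose tk htk using htk
  have htF : ∀ m i j, F^[m] (t i j) = t i j := by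
    intro m i j
    exact Function.iterate_fixed (ht i j) m
  -- the spaces A m and Ξ m
  let ev : ℕ → ((ι → k) →ₗ[k] L) := fun i => Fintype.linearCombination k (fun l => F^[i] (x l))
  have hev : ∀ i a, ev i a = ∑ l, algebraMap k L (a l) * F^[i] (x l) := by
    intro i a
    simp only [ev, Fintype.linearCombination_apply, Algebra.smul_def]
  let A : ℕ → Submodule k (ι → k) := fun m => ⨅ i : Fin m, LinearMap.ker (ev (i + 1))
  have hA : ∀ m a, a ∈ A m ↔ ∀ i, i < m → ev (i + 1) a = 0 := by
    intro m a
    simp only [A, Submodule.mem_iInf, LinearMap.mem_ker]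
    constructor
    · intro h i hi
      exact h ⟨i, hi⟩
    · intro h i
      exact h i i.2
  let Ξ : ℕ → Submodule k L := fun m => (A m).map (ev 0)
  have hev0 : ∀ a, ev 0 a = ∑ l, algebraMap k L (a l) * x l := fun a => hev 0 a
  have hΞX : ∀ m, Ξ m ≤ X0 := by
    rintro m _ ⟨a, -, rfl⟩
    rw [hev0]
    apply Submodule.sum_mem
    intro l _
    rw [← Algebra.smul_def]
    exact X0.smul_mem _ (hX0 l)
  have hΞfin : ∀ m, FiniteDimensional k (Ξ m) := fun m =>
    Submodule.finiteDimensional_of_le (hΞX m)
  have hΞmono : ∀ m n, m ≤ n → Ξ n ≤ Ξ m := by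
    intro m n hmn
    apply Submodule.map_mono
    intro a ha
    rw [hA] at ha ⊢
    exact fun i hi => ha i (by omega)
  -- key: T maps Ξ (m+2) to Ξ m
  have hkey : ∀ m y, y ∈ Ξ (m + 2) → T * y ∈ Ξ m := by
    rintro m _ ⟨a, ha, rfl⟩
    have ha' := (hA _ _).1 ha
    refine ⟨fun j => ∑ l, a l * tk l j, ?_, ?_⟩
    · rw [SetLike.mem_coe, hA]
      intro i hi
      rw [hev]
      have e1 : ∀ j, algebraMap k L (∑ l, a l * tk l j) = ∑ l, algebraMap k L (a l) * t l j := by
        intro j
        rw [map_sum]
        apply Finset.sum_congr rfl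
        intro l _
        rw [map_mul, htk]
      simp only [e1, Finset.sum_mul]
      rw [Finset.sum_comm]
      have e2 : ∀ l, ∑ j, algebraMap k L (a l) * t l j * F^[i + 1] (x j)
          = algebraMap k L (a l) * (F^[i + 1] T * F^[i + 1] (x l) + F^[i + 1] g * F^[i + 2] (x l)
            + F^[i + 1] δ * F^[i + 3] (x l)) := by
        intro l
        have h1 : ∑ j, t l j * x j = T * x l + g * F (x l) + δ * F (F (x l)) := by
          linear_combination h l
        have h2 := congrArg (F^[i + 1]) h1
        rw [hFsum, hFadd, hFadd, hFmul, hFmul, hFmul] at h2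
        have h3 : F^[i + 1] (F (x l)) = F^[i + 2] (x l) := by
          rw [← Function.iterate_succ_apply]
        have h4 : F^[i + 1] (F (F (x l))) = F^[i + 3] (x l) := by
          rw [← Function.iterate_succ_apply, ← Function.iterate_succ_apply]
        rw [h3, h4] at h2
        rw [← h2, Finset.mul_sum]
        apply Finset.sum_congr rfl
        intro j _
        rw [hFmul, htF]; ring
      simp only [e2]
      have k1 := ha' i (by omega)
      have k2 := ha' (i + 1) (by omega)
      have k3 := ha' (i + 2) (by omega)
      rw [hev] at k1 k2 k3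
      have e3 : ∀ l, algebraMap k L (a l) * (F^[i + 1] T * F^[i + 1] (x l)
            + F^[i + 1] g * F^[i + 2] (x l) + F^[i + 1] δ * F^[i + 3] (x l))
          = F^[i + 1] T * (algebraMap k L (a l) * F^[i + 1] (x l))
            + F^[i + 1] g * (algebraMap k L (a l) * F^[i + 1 + 1] (x l))
            + F^[i + 1] δ * (algebraMap k L (a l) * F^[i + 2 + 1] (x l)) := by
        intro l; ring
      simp only [e3, Finset.sum_add_distrib, ← Finset.mul_sum]
      rw [k1, k2, k3]
      simp
    · rw [hev0, hev0]
      have k1 := ha' 0 (by omega)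
      have k2 := ha' 1 (by omega)
      rw [hev] at k1 k2
      have e1 : ∀ j, algebraMap k L (∑ l, a l * tk l j) = ∑ l, algebraMap k L (a l) * t l j := by
        intro j
        rw [map_sum]
        apply Finset.sum_congr rfl
        intro l _
        rw [map_mul, htk]
      simp only [e1, Finset.sum_mul]
      rw [Finset.sum_comm]
      have e2 : ∀ l, ∑ j, algebraMap k L (a l) * t l j * x j
          = T * (algebraMap k L (a l) * x l) + g * (algebraMap k L (a l) * F^[0 + 1] (x l))
            + δ * (algebraMap k L (a l) * F^[1 + 1] (x l)) := by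
        intro l
        have h1 : ∑ j, t l j * x j = T * x l + g * F (x l) + δ * F (F (x l)) := by
          linear_combination h l
        have h2 : F^[0 + 1] (x l) = F (x l) := rfl
        have h3 : F^[1 + 1] (x l) = F (F (x l)) := rfl
        rw [h2, h3]
        have h4 : ∑ j, algebraMap k L (a l) * t l j * x j
            = algebraMap k L (a l) * ∑ j, t l j * x j := by
          rw [Finset.mul_sum]
          apply Finset.sum_congr rfl
          intro j _; ring
        rw [h4, h1]; ring
      simp only [e2, Finset.sum_add_distrib, ← Finset.mul_sum]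
      rw [k1, k2]
      simp
  -- no nonzero finite-dimensional T-stable subspace
  have hstab : ∀ m, Ξ m ≤ Ξ (m + 2) → Ξ m = ⊥ := by
    intro m hm
    by_contra hne
    obtain ⟨y, hy, hy0⟩ := (Ξ m).exists_mem_ne_zero_of_ne_bot hne
    apply hT
    -- powers of T times y stay in Ξ m
    have hpow : ∀ n, T ^ n * y ∈ Ξ m := by
      intro n
      induction n with
      | zero => simpa using hy
      | succ n ih =>
        have := hkey m _ (hm ih)
        rw [pow_succ', mul_assoc]
        exact this
    have hfd := hΞfin m
    have hdep : ¬ LinearIndependent k (fun n : ℕ => (⟨T ^ n * y, hpow n⟩ : Ξ m)) := by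
      intro hli
      exact absurd hli.finite (by simpa using (inferInstance : Infinite ℕ))
    rw [linearIndependent_iff'] at hdep
    push Not at hdep
    obtain ⟨S, c, hsum, n, hn, hcn⟩ := hdep
    refine ⟨∑ i ∈ S, C (c i) * X ^ i, ?_, ?_⟩
    · intro h0
      have := congrArg (fun P => coeff P n) h0
      simp only [finsetSum_coeff, coeff_C_mul, coeff_X_pow, coeff_zero] at this
      rw [Finset.sum_eq_single n] at this
      · simp at this; exact hcn this
      · intro b _ hb
        simp [Ne.symm hb]
      · intro hn'; exact absurd hn hn'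
    · have h1 := congrArg (Subtype.val) hsum
      simp only [Submodule.coe_sum, Submodule.coe_smul, Submodule.coe_zero] at h1
      have h2 : (∑ i ∈ S, c i • T ^ i) * y = 0 := by
        rw [Finset.sum_mul, ← h1]
        apply Finset.sum_congr rfl
        intro i _
        rw [smul_mul_assoc]
      have h3 := (mul_eq_zero.1 h2).resolve_right hy0
      simp only [map_sum, map_mul, aeval_C, map_pow, aeval_X]
      rw [← h3]
      apply Finset.sum_congr rfl
      intro i _
      rw [Algebra.smul_def]
  -- dimension drops every two steps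
  have hdrop : ∀ n, Ξ (2 * n) = ⊥ ∨ finrank k (Ξ (2 * n)) + n ≤ r := by
    intro n
    induction n with
    | zero =>
      right
      rw [hr]
      simpa using Submodule.finrank_mono (hΞX 0)
    | succ n ih =>
      rcases ih with h0 | h1
      · left
        have := hΞmono (2 * n) (2 * (n + 1)) (by omega)
        rw [h0] at this
        exact le_bot_iff.1 this
      · by_cases hbot : Ξ (2 * n) = ⊥
        · left
          have := hΞmono (2 * n) (2 * (n + 1)) (by omega)
          rw [hbot] at this
          exact le_bot_iff.1 this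
        · right
          have hlt : Ξ (2 * (n + 1)) < Ξ (2 * n) := by
            refine lt_of_le_of_ne (hΞmono _ _ (by omega)) ?_
            intro heq
            exact hbot (hstab (2 * n) (le_of_eq heq.symm))
          have hfd := hΞfin (2 * n)
          have := Submodule.finrank_lt_finrank_of_lt hlt
          omega
  have hend : Ξ (2 * r) = ⊥ := by
    rcases hdrop r with h | h
    · exact h
    · have hfd := hΞfin (2 * r)
      rw [← Submodule.finrank_eq_zero]
      omega
  -- A (2r) is nonzero
  have hAne : A (2 * r) ≠ ⊥ := by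
    -- target space
    let bX := finBasis k X0
    let Y : ℕ → Submodule k L := fun i => Submodule.span k (Set.range (fun j =>
      F^[i] ((bX j : X0) : L)))
    have hY : ∀ i a, ev i a ∈ Y i := by
      intro i a
      rw [hev]
      apply Submodule.sum_mem
      intro l _
      rw [← Algebra.smul_def]
      apply Submodule.smul_mem
      have h1 := bX.sum_repr ⟨x l, hX0 l⟩
      have h2 := congrArg (Subtype.val) h1
      simp only [Submodule.coe_sum, Submodule.coe_smul] at h2
      rw [← h2, hFsum]
      apply Submodule.sum_mem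
      intro j _
      rw [Algebra.smul_def, hFi, ← Algebra.smul_def]
      apply Submodule.smul_mem
      exact Submodule.subset_span ⟨j, rfl⟩
    have hYfr : ∀ i, finrank k (Y i) ≤ r := by
      intro i
      have h1 := finrank_range_le_card (R := k) (fun j => F^[i] ((bX j : X0) : L))
      rw [Fintype.card_fin] at h1
      exact h1.trans hr.symm.le
    let Φ : (ι → k) →ₗ[k] ((i : Fin (2 * r)) → Y (i + 1)) :=
      LinearMap.pi (fun i => (ev (i + 1)).codRestrict (Y (i + 1)) (hY (i + 1)))
    have hfdY : ∀ i, FiniteDimensional k (Y i) := fun i =>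
      FiniteDimensional.span_of_finite k (Set.finite_range _)
    have hdim : finrank k ((i : Fin (2 * r)) → Y (i + 1)) ≤ 2 * r * r := by
      rw [finrank_pi_fintype]
      calc ∑ i : Fin (2 * r), finrank k (Y (i + 1)) ≤ ∑ i : Fin (2 * r), r :=
            Finset.sum_le_sum (fun i _ => hYfr _)
        _ = 2 * r * r := by simp
    have hker : LinearMap.ker Φ ≠ ⊥ := by
      apply LinearMap.ker_ne_bot_of_finrank_lt
      rw [Module.finrank_fintype_fun_eq_card]
      exact lt_of_le_of_lt hdim hcon
    intro hbot
    apply hker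
    rw [← le_bot_iff, ← hbot]
    intro a ha
    rw [LinearMap.mem_ker] at ha
    rw [hA]
    intro i hi
    have h1 := congrFun ha ⟨i, hi⟩
    have h2 := congrArg Subtype.val h1
    exact h2
  have hstable : ∀ a ∈ A (2 * r), (fun i => s (a i)) ∈ A (2 * r) := by
    intro a ha
    have h0 : ev 0 a = 0 := by
      have : ev 0 a ∈ Ξ (2 * r) := ⟨a, ha, rfl⟩
      rw [hend] at this
      exact (Submodule.mem_bot k).1 this
    have ha' := (hA _ _).1 ha
    rw [hA]
    intro i hi
    have h1 : ev i a = 0 := by
      rcases i with _ | i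
      · exact h0
      · exact ha' i (by omega)
    have h2 := congrArg F h1
    rw [hev, map_sum, map_zero] at h2
    rw [hev, ← h2]
    apply Finset.sum_congr rfl
    intro l _
    rw [map_mul, hF, Function.iterate_succ_apply']
  obtain ⟨c, hc, hc0, hcs⟩ := exists_fixed s (A (2 * r)) hAne hstable
  have hc1 : ev 0 c = 0 := by
    have : ev 0 c ∈ Ξ (2 * r) := ⟨c, hc, rfl⟩
    rw [hend] at this
    exact (Submodule.mem_bot k).1 this
  rw [hev0] at hc1
  have := hind (fun i => algebraMap k L (c i)) (fun i => by rw [hF, hcs i]) hc1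
  apply hc0
  funext i
  have h3 := congrFun this i
  simp only [Pi.zero_apply] at h3 ⊢
  exact (map_eq_zero_iff _ (algebraMap k L).injective).1 h3

end Pool.Agent.H209R3.Fun
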