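import Pool.Agent.H209R3.Red

set_option autoImplicit false

namespace Pool.Agent.H209R3

open Polynomial Module

/-- the operator as a linear map -/
noncomputable def phi (K : Type*) [Field K] [Fintype K] (g D : RatFunc K) :
    RatFunc K →ₗ[K] RatFunc K where
  toFun y := RatFunc.X * y + g * y ^ Fintype.card K + D * y ^ (Fintype.card K ^ 2)
  map_add' a b := by
    have h1 : ∀ a b : RatFunc K, (a + b) ^ Fintype.card K
        = a ^ Fintype.card K + b ^ Fintype.card K := by
      intro a b
      exact map_add (FiniteField.frobeniusAlgHom K (RatFunc K)) a b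
    rw [pow_two, pow_mul, pow_mul, pow_mul, h1, h1]
    ring
  map_smul' c a := by
    have h1 : ∀ a : RatFunc K, (c • a) ^ Fintype.card K = c • a ^ Fintype.card K := by
      intro a
      exact map_smul (FiniteField.frobeniusAlgHom K (RatFunc K)) c a
    rw [pow_two, pow_mul, pow_mul, h1, h1]
    simp only [RingHom.id_apply, smul_add, mul_smul_comm]

lemma orbit_finite {α : Type*} (f : α → α) (x : α) (m n : ℕ) (hmn : m < n)
    (h : f^[m] x = f^[n] x) : (Set.range (fun i => f^[i] x)).Finite := by
  have key : ∀ i, ∃ j, j < n ∧ f^[i] x = f^[j] x := by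
    intro i
    induction i using Nat.strong_induction_on with
    | _ i ih =>
      rcases Nat.lt_or_ge i n with h1 | h1
      · exact ⟨i, h1, rfl⟩
      · obtain ⟨j, hj, hj2⟩ := ih (i - n + m) (by omega)
        refine ⟨j, hj, ?_⟩
        rw [← hj2, Function.iterate_add_apply, h, ← Function.iterate_add_apply]
        congr 1
        omega
  apply ((Set.finite_Iio n).image (fun i => f^[i] x)).subset
  rintro _ ⟨i, rfl⟩
  obtain ⟨j, hj, hj2⟩ := key i
  exact ⟨j, hj, hj2.symm⟩

lemma stage0 {K : Type*} [Field K] [Fintype K] (g D : RatFunc K) (hD : D ≠ 0)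
    (V : Submodule K (RatFunc K)) [FiniteDimensional K V] (hV : 3 ≤ finrank K V)
    (hs : ∀ v ∈ V, phi K g D v ∈ V) :
    ∃ (x : Fin 3 → (AlgebraicClosure K)[X]) (t : Fin 3 → Fin 3 → AlgebraicClosure K)
      (c' g' δ' : (AlgebraicClosure K)[X]), Prim x ∧ Indep x ∧
      c' ≠ 0 ∧ δ' ≠ 0 ∧ ∀ i, c' * (mv t x i - X * x i) = g' * Sb (Fintype.card K) x i
        + δ' * Sb (Fintype.card K) (Sb (Fintype.card K) x) i := by
  let n := finrank K V
  let q := Fintype.card K
  have hq2 : 2 ≤ q := Fintype.one_lt_card
  let b : Basis (Fin n) K V := finBasis K V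
  obtain ⟨d, hd⟩ := IsLocalization.exist_integer_multiples_of_finite (nonZeroDivisors K[X])
    (fun j : Fin n => (b j : RatFunc K))
  choose y hy using hd
  obtain ⟨e, he⟩ := IsLocalization.exist_integer_multiples_of_finite (nonZeroDivisors K[X])
    (![g, D] : Fin 2 → RatFunc K)
  obtain ⟨g0, hg0⟩ := he 0
  obtain ⟨D0, hD0⟩ := he 1
  simp only [Matrix.cons_val_zero, Matrix.cons_val_one] at hg0 hD0
  let A := algebraMap K[X] (RatFunc K)
  have hA : Function.Injective A := IsFractionRing.injective K[X] (RatFunc K)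
  have hd0 : (d : K[X]) ≠ 0 := nonZeroDivisors.coe_ne_zero d
  have he0 : (e : K[X]) ≠ 0 := nonZeroDivisors.coe_ne_zero e
  have hy' : ∀ j, A (y j) = A d * (b j : RatFunc K) := by
    intro j
    have := hy j
    simp only [Algebra.smul_def] at this
    exact this
  have hg0' : A g0 = A e * g := by
    simp only [Algebra.smul_def] at hg0
    exact hg0
  have hD0' : A D0 = A e * D := by
    simp only [Algebra.smul_def] at hD0
    exact hD0
  have hD0ne : D0 ≠ 0 := by
    rintro rfl
    rw [map_zero] at hD0'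
    have h1 : A e ≠ 0 := fun h0 => he0 (hA (h0.trans (map_zero A).symm))
    exact (mul_ne_zero h1 hD) hD0'.symm
  have hlin : LinearIndependent K y := by
    rw [Fintype.linearIndependent_iff]
    intro a ha i
    have h1 : ∑ j, a j • b j = 0 := by
      apply Subtype.ext
      have h2 : A d * (∑ j, a j • (b j : RatFunc K)) = 0 := by
        rw [Finset.mul_sum]
        have h3 := congrArg A ha
        rw [map_sum, map_zero] at h3
        rw [← h3]
        apply Finset.sum_congr rfl
        intro j _
        rw [mul_smul_comm, ← hy' j, Polynomial.smul_eq_C_mul, map_mul, Algebra.smul_def]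
        congr 1
      have h4 : A d ≠ 0 := fun h0 => hd0 (hA (h0.trans (map_zero A).symm))
      have h5 := (mul_eq_zero.1 h2).resolve_left h4
      simpa using h5
    exact Fintype.linearIndependent_iff.1 b.linearIndependent a h1 i
  let M : Fin n → Fin n → K := fun i j => b.repr ⟨phi K g D (b j), hs _ (b j).2⟩ i
  have hM : ∀ j, phi K g D (b j) = ∑ i, M i j • (b i : RatFunc K) := by
    intro j
    have h1 := b.sum_repr ⟨phi K g D (b j), hs _ (b j).2⟩
    have h2 := congrArg (Subtype.val) h1
    simp only [Submodule.coe_sum, Submodule.coe_smul] at h2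
    exact h2.symm
  refine stage1 (L := AlgebraicClosure K) q (by omega) n hV y hlin M
    ((e : K[X]) * (d : K[X]) ^ (q ^ 2 - 1)) (g0 * (d : K[X]) ^ (q ^ 2 - q)) D0
    (mul_ne_zero he0 (pow_ne_zero _ hd0)) hD0ne ?_
  intro j
  apply hA
  rw [FiniteField.expand_card, FiniteField.expand_card]
  have hC : ∀ a : K, A (C a) = algebraMap K (RatFunc K) a := by
    intro a; rfl
  have h1 : A (∑ i, C (M i j) * y i) = A d * phi K g D (b j) := by
    rw [hM j, map_sum, Finset.mul_sum]
    apply Finset.sum_congr rfl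
    intro i _
    rw [map_mul, hC, hy' i, Algebra.smul_def]
    ring
  have hX : A X = RatFunc.X := RatFunc.algebraMap_X
  have hphi : phi K g D (b j) = RatFunc.X * (b j : RatFunc K) + g * (b j : RatFunc K) ^ q
      + D * (b j : RatFunc K) ^ (q ^ 2) := rfl
  rw [map_mul, map_sub, h1, map_mul, map_mul, map_add, map_mul, map_mul, map_mul, map_pow,
    map_pow, map_pow, map_pow, map_pow, hy' j, hX, hphi, hg0', hD0', ← pow_mul, ← pow_two]
  have e1 : A d ^ (q ^ 2) = A d ^ (q ^ 2 - 1) * A d := by
    rw [← pow_succ]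
    congr 1
    have : 0 < q ^ 2 := by positivity
    omega
  have e2 : A d ^ (q ^ 2) = A d ^ (q ^ 2 - q) * A d ^ q := by
    rw [← pow_add]
    congr 1
    have : q ≤ q ^ 2 := by nlinarith
    omega
  have e3 : (A d * (b j : RatFunc K)) ^ (q ^ 2) = A d ^ (q ^ 2) * (b j : RatFunc K) ^ (q ^ 2) :=
    mul_pow _ _ _
  have e4 : (A d * (b j : RatFunc K)) ^ q = A d ^ q * (b j : RatFunc K) ^ q := mul_pow _ _ _
  rw [e3, e4]
  linear_combination (-(A e * (g * (b j : RatFunc K) ^ q
    + D * (b j : RatFunc K) ^ (q ^ 2)))) * e1 + (A e * g * (b j : RatFunc K) ^ q) * e2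

theorem stage00 {K : Type*} [Field K] [Fintype K] (g D : RatFunc K) (hD : D ≠ 0)
    (hbig : ¬ {x : RatFunc K | ∃ m n : ℕ, m < n ∧
          (fun y : RatFunc K => RatFunc.X * y + g * y ^ Fintype.card K
              + D * y ^ (Fintype.card K ^ 2))^[m] x
            = (fun y : RatFunc K => RatFunc.X * y + g * y ^ Fintype.card K
              + D * y ^ (Fintype.card K ^ 2))^[n] x}.encard
        ≤ ((Fintype.card K ^ 2 : ℕ) : ℕ∞)) :
    ∃ (x : Fin 3 → (AlgebraicClosure K)[X]) (t : Fin 3 → Fin 3 → AlgebraicClosure K)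
      (c' g' δ' : (AlgebraicClosure K)[X]), Prim x ∧ Indep x ∧
      c' ≠ 0 ∧ δ' ≠ 0 ∧ ∀ i, c' * (mv t x i - X * x i) = g' * Sb (Fintype.card K) x i
        + δ' * Sb (Fintype.card K) (Sb (Fintype.card K) x) i := by
  let f : RatFunc K → RatFunc K := fun y : RatFunc K => RatFunc.X * y + g * y ^ Fintype.card K
              + D * y ^ (Fintype.card K ^ 2)
  have hf : ∀ y, phi K g D y = f y := fun y => rfl
  have hlt : ((Fintype.card K ^ 2 + 1 : ℕ) : ℕ∞) ≤ {x : RatFunc K | ∃ m n : ℕ, m < n ∧
      f^[m] x = f^[n] x}.encard := by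
    rw [not_le] at hbig
    have := Order.add_one_le_of_lt hbig
    simpa using this
  obtain ⟨A, hA, hAc⟩ := Set.exists_subset_encard_eq hlt
  have hAfin : A.Finite := by
    apply Set.finite_of_encard_eq_coe hAc
  let Gs : Set (RatFunc K) := ⋃ x ∈ A, Set.range (fun i => f^[i] x)
  have hGs : Gs.Finite := by
    apply hAfin.biUnion
    intro x hx
    obtain ⟨m, n, hmn, h⟩ := hA hx
    exact orbit_finite f x m n hmn h
  let V := Submodule.span K Gs
  have : FiniteDimensional K V := FiniteDimensional.span_of_finite K hGs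
  have hstab : ∀ v ∈ V, phi K g D v ∈ V := by
    have : V ≤ V.comap (phi K g D) := by
      apply Submodule.span_le.2
      intro v hv
      simp only [Gs, Set.mem_iUnion, Set.mem_range] at hv
      obtain ⟨x, hx, i, rfl⟩ := hv
      apply Submodule.subset_span
      simp only [Gs, Set.mem_iUnion, Set.mem_range]
      refine ⟨x, hx, i + 1, ?_⟩
      rw [Function.iterate_succ_apply', hf]
    exact this
  have hAV : A ⊆ (V : Set (RatFunc K)) := by
    intro x hx
    apply Submodule.subset_span
    simp only [Gs, Set.mem_iUnion, Set.mem_range]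
    exact ⟨x, hx, 0, rfl⟩
  have hfr : 3 ≤ finrank K V := by
    by_contra hcon
    have : Finite V := Module.finite_of_finite K
    have : Fintype V := Fintype.ofFinite V
    have h1 : Nat.card V = Nat.card K ^ finrank K V := Module.natCard_eq_pow_finrank
    have h2 : A.encard ≤ (V : Set (RatFunc K)).encard := Set.encard_le_encard hAV
    have h3 : (V : Set (RatFunc K)).encard = (Nat.card V : ℕ∞) := by
      have hfin : (V : Set (RatFunc K)).Finite := Set.toFinite _
      rw [← hfin.cast_ncard_eq]
      rfl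
    rw [h3, hAc, h1, Nat.card_eq_fintype_card] at h2
    have h4 : Fintype.card K ^ 2 + 1 ≤ Fintype.card K ^ finrank K V := by exact_mod_cast h2
    have h5 : Fintype.card K ^ finrank K V ≤ Fintype.card K ^ 2 :=
      Nat.pow_le_pow_right Fintype.card_pos (by omega)
    omega
  exact stage0 g D hD V hfr hstab

end Pool.Agent.H209R3
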