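import Pool.Agent.H209R3.Gen6
import Pool.Agent.H209R3.Red2

set_option autoImplicit false

namespace Pool.Agent.H209R3.Gen

open Polynomial Module

section StageA
variable {L : Type*} [Field L] (p : ℕ) [Fact p.Prime] [CharP L p] (e : ℕ)

lemma card_Fix (hq : 1 < p ^ e) : Finite (Fix L p e) ∧ Nat.card (Fix L p e) ≤ p ^ e := by
  classical
  have hP : (X ^ (p ^ e) - X : L[X]) ≠ 0 := FiniteField.X_pow_card_sub_X_ne_zero L hq
  have hdeg : (X ^ (p ^ e) - X : L[X]).natDegree = p ^ e :=
    FiniteField.X_pow_card_sub_X_natDegree_eq L hq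
  have hsub : ((Fix L p e : Subfield L) : Set L) ⊆
      ((X ^ (p ^ e) - X : L[X]).roots.toFinset : Set L) := by
    intro c hc
    have hc' : c ^ p ^ e = c := hc
    simp only [Finset.mem_coe, Multiset.mem_toFinset, mem_roots hP, IsRoot.def, eval_sub,
      eval_pow, eval_X, hc', sub_self]
  have hfin : ((Fix L p e : Subfield L) : Set L).Finite :=
    Set.Finite.subset (Finset.finite_toSet _) hsub
  refine ⟨hfin.to_subtype, ?_⟩
  have h1 : Nat.card (Fix L p e) = ((Fix L p e : Subfield L) : Set L).ncard := rfl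
  rw [h1]
  apply le_trans (Set.ncard_le_ncard hsub (Finset.finite_toSet _))
  rw [Set.ncard_coe_finset]
  apply le_trans (Multiset.toFinset_card_le _)
  apply le_trans (card_roots' _)
  rw [hdeg]

lemma smul_FixR (c : Fix L p e) (x : RatFunc L) :
    c • x = algebraMap L[X] (RatFunc L) (C (c : L)) * x := by
  rw [Subfield.smul_def, Algebra.smul_def]
  rfl

/-- the operator as a linear map over the fixed constants -/
noncomputable def phiF (a g D : RatFunc L) : RatFunc L →ₗ[Fix L p e] RatFunc L where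
  toFun y := a * y + g * y ^ p ^ e + D * (y ^ p ^ e) ^ p ^ e
  map_add' x y := by
    rw [add_pow_char_pow, add_pow_char_pow]
    ring
  map_smul' c x := by
    have h1 : ∀ x : RatFunc L, (c • x) ^ p ^ e = c • x ^ p ^ e := by
      intro x
      rw [smul_FixR, smul_FixR, mul_pow, ← map_pow, ← C_pow, (mem_Fix p e).1 c.2]
    rw [h1, h1]
    simp only [RingHom.id_apply, smul_FixR]
    ring

lemma stageA (hq : 1 < p ^ e) (a1 a2 : L[X]) (ha2 : a2 ≠ 0) (g D : RatFunc L) (hD : D ≠ 0)
    (r : ℕ) (f : RatFunc L → RatFunc L)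
    (hf : ∀ y, f y = algebraMap L[X] (RatFunc L) a1 / algebraMap L[X] (RatFunc L) a2 * y
      + g * y ^ p ^ e + D * (y ^ p ^ e) ^ p ^ e)
    (hbig : (((p ^ e) ^ r : ℕ) : ℕ∞) < {x : RatFunc L | ∃ m n : ℕ, m < n ∧
          f^[m] x = f^[n] x}.encard) :
    ∃ V : Submodule (Fix L p e) L[X], FiniteDimensional (Fix L p e) V ∧
      r + 1 ≤ finrank (Fix L p e) V ∧ ∃ c g' δ : L[X], c ≠ 0 ∧ δ ≠ 0 ∧
      ∀ v ∈ V, ∃ u ∈ V, c * (a2 * u - a1 * v) = g' * ph p e v + δ * ph p e (ph p e v) := by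
  classical
  obtain ⟨q, hqdef⟩ : ∃ q, q = p ^ e := ⟨_, rfl⟩
  let A := algebraMap L[X] (RatFunc L)
  have hA : Function.Injective A := IsFractionRing.injective L[X] (RatFunc L)
  have hA0 : ∀ P : L[X], P ≠ 0 → A P ≠ 0 := fun P hP h0 => hP (hA (h0.trans (map_zero A).symm))
  let κ := Fix L p e
  obtain ⟨hκfin, hκcard⟩ := card_Fix (L := L) p e hq
  have hphif : ∀ y, phiF p e (A a1 / A a2) g D y = f y := fun y => (hf y).symm
  have hlt : (((p ^ e) ^ r + 1 : ℕ) : ℕ∞) ≤ {x : RatFunc L | ∃ m n : ℕ, m < n ∧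
      f^[m] x = f^[n] x}.encard := by
    have := Order.add_one_le_of_lt hbig
    simpa using this
  obtain ⟨Z, hZ, hZc⟩ := Set.exists_subset_encard_eq hlt
  have hZfin : Z.Finite := Set.finite_of_encard_eq_coe hZc
  let Gs : Set (RatFunc L) := ⋃ x ∈ Z, Set.range (fun i => f^[i] x)
  have hGs : Gs.Finite := by
    apply hZfin.biUnion
    intro x hx
    obtain ⟨m, n, hmn, h⟩ := hZ hx
    exact orbit_finite f x m n hmn h
  let W := Submodule.span κ Gs
  have hWfin : FiniteDimensional κ W := FiniteDimensional.span_of_finite κ hGs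
  have hstab : ∀ v ∈ W, phiF p e (A a1 / A a2) g D v ∈ W := by
    have : W ≤ W.comap (phiF p e (A a1 / A a2) g D) := by
      apply Submodule.span_le.2
      intro v hv
      simp only [Gs, Set.mem_iUnion, Set.mem_range] at hv
      obtain ⟨x, hx, i, rfl⟩ := hv
      apply Submodule.subset_span
      simp only [Gs, Set.mem_iUnion, Set.mem_range]
      refine ⟨x, hx, i + 1, ?_⟩
      rw [Function.iterate_succ_apply', hphif]
    exact this
  have hZW : Z ⊆ (W : Set (RatFunc L)) := by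
    intro x hx
    apply Submodule.subset_span
    simp only [Gs, Set.mem_iUnion, Set.mem_range]
    exact ⟨x, hx, 0, rfl⟩
  have hfr : r + 1 ≤ finrank κ W := by
    by_contra hcon
    have : Finite W := Module.finite_of_finite κ
    have h1 : Nat.card W = Nat.card κ ^ finrank κ W := Module.natCard_eq_pow_finrank
    have h2 : Z.encard ≤ (W : Set (RatFunc L)).encard := Set.encard_le_encard hZW
    have h3 : (W : Set (RatFunc L)).encard = (Nat.card W : ℕ∞) := by
      have hfin : (W : Set (RatFunc L)).Finite := Set.toFinite _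
      rw [← hfin.cast_ncard_eq]
      rfl
    rw [h3, hZc, h1] at h2
    have h4 : (p ^ e) ^ r + 1 ≤ Nat.card κ ^ finrank κ W := by exact_mod_cast h2
    have h5 : Nat.card κ ^ finrank κ W ≤ (p ^ e) ^ finrank κ W :=
      Nat.pow_le_pow_left hκcard _
    have h6 : (p ^ e) ^ finrank κ W ≤ (p ^ e) ^ r :=
      Nat.pow_le_pow_right (by omega) (by omega)
    omega
  -- clear denominators
  let b := finBasis κ W
  obtain ⟨d, hd⟩ := IsLocalization.exist_integer_multiples_of_finite (nonZeroDivisors L[X])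
    (fun j => (b j : RatFunc L))
  obtain ⟨s, hs⟩ := IsLocalization.exist_integer_multiples_of_finite (nonZeroDivisors L[X])
    (![g, D] : Fin 2 → RatFunc L)
  obtain ⟨g0, hg0⟩ := hs 0
  obtain ⟨D0, hD0⟩ := hs 1
  simp only [Matrix.cons_val_zero, Matrix.cons_val_one] at hg0 hD0
  have hd0 : (d : L[X]) ≠ 0 := nonZeroDivisors.coe_ne_zero d
  have hs0 : (s : L[X]) ≠ 0 := nonZeroDivisors.coe_ne_zero s
  have hAd : A (d : L[X]) ≠ 0 := hA0 _ hd0
  have hg0' : A g0 = A s * g := by
    simp only [Algebra.smul_def] at hg0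
    exact hg0
  have hD0' : A D0 = A s * D := by
    simp only [Algebra.smul_def] at hD0
    exact hD0
  have hD0ne : D0 ≠ 0 := by
    rintro rfl
    rw [map_zero] at hD0'
    exact (mul_ne_zero (hA0 _ hs0) hD) hD0'.symm
  let μ : L[X] →ₗ[κ] RatFunc L :=
    { toFun := fun P => A P / A (d : L[X])
      map_add' := fun P Q => by rw [map_add, add_div]
      map_smul' := fun c P => by
        rw [RingHom.id_apply, smul_Fix, smul_FixR, map_mul, mul_div_assoc] }
  have hμ : ∀ P, μ P = A P / A (d : L[X]) := fun P => rfl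
  have hμinj : Function.Injective μ := by
    intro P Q hPQ
    rw [hμ, hμ] at hPQ
    apply hA
    field_simp at hPQ
    exact hPQ
  have hWr : W ≤ LinearMap.range μ := by
    intro v hv
    have h1 := b.sum_repr ⟨v, hv⟩
    have h2 := congrArg (Subtype.val) h1
    simp only [Submodule.coe_sum, Submodule.coe_smul] at h2
    rw [← h2]
    apply Submodule.sum_mem
    intro i _
    apply Submodule.smul_mem
    obtain ⟨P, hP⟩ := hd i
    refine ⟨P, ?_⟩
    rw [hμ]
    simp only [Algebra.smul_def] at hP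
    rw [div_eq_iff hAd]
    calc A P = _ := hP
      _ = _ := mul_comm _ _
  let V := W.comap μ
  have hmap : V.map μ = W := Submodule.map_comap_eq_of_le hWr
  let E : V ≃ₗ[κ] V.map μ := Submodule.equivMapOfInjective μ hμinj V
  have hfin2 : FiniteDimensional κ (V.map μ) := by rw [hmap]; exact hWfin
  have hVfin : FiniteDimensional κ V := E.symm.finiteDimensional
  have hVfr : finrank κ V = finrank κ W := by
    rw [E.finrank_eq, hmap]
  refine ⟨V, hVfin, by rw [hVfr]; exact hfr, (s : L[X]) * (d : L[X]) ^ (q * q - 1),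
    a2 * (g0 * (d : L[X]) ^ (q * q - q)), a2 * D0, mul_ne_zero hs0 (pow_ne_zero _ hd0),
    mul_ne_zero ha2 hD0ne, ?_⟩
  intro v hv
  have h1 : phiF p e (A a1 / A a2) g D (μ v) ∈ W := hstab _ hv
  obtain ⟨u, hu⟩ := hWr h1
  refine ⟨u, by show μ u ∈ W; rw [hu]; exact h1, ?_⟩
  have hphi : phiF p e (A a1 / A a2) g D (μ v) = A a1 / A a2 * (μ v) + g * (μ v) ^ q
      + D * ((μ v) ^ q) ^ q := by
    rw [hqdef]; rfl
  rw [hphi, hμ, hμ] at hu
  apply hA
  rw [ph_def, ph_def, ← hqdef]
  simp only [map_mul, map_sub, map_add, map_pow, hg0', hD0']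
  rw [div_pow, div_pow] at hu
  have hq1 : 1 < q := by rw [hqdef]; exact hq
  have hqq : 1 ≤ q * q := Nat.one_le_iff_ne_zero.2 (by positivity)
  have hqq2 : q ≤ q * q := Nat.le_mul_of_pos_left q (by omega)
  have e1 : (A d ^ q) ^ q = A d ^ (q * q - 1) * A d := by
    rw [← pow_mul, ← pow_succ]
    congr 1
    omega
  have e2 : (A d ^ q) ^ q = A d ^ (q * q - q) * A d ^ q := by
    rw [← pow_mul, ← pow_add]
    congr 1
    omega
  have hAa2 : A a2 ≠ 0 := hA0 _ ha2
  have hAdq : A (d : L[X]) ^ q ≠ 0 := pow_ne_zero _ hAd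
  have hAdqq : (A (d : L[X]) ^ q) ^ q ≠ 0 := pow_ne_zero _ hAdq
  have hu2 : A a2 * A u - A a1 * A v = A a2 * A d * (g * (A v ^ q / A d ^ q)
      + D * ((A v ^ q) ^ q / (A d ^ q) ^ q)) := by
    have h3 : A u = A d * (A a1 / A a2 * (A v / A d) + g * (A v ^ q / A d ^ q)
      + D * ((A v ^ q) ^ q / (A d ^ q) ^ q)) := by
      rw [← hu, mul_div_cancel₀ _ hAd]
    rw [h3]
    field_simp
    ring
  rw [hu2]
  have e3 : A d ^ (q * q - 1) * (A a2 * A d * (g * (A v ^ q / A d ^ q)
      + D * ((A v ^ q) ^ q / (A d ^ q) ^ q)))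
      = A a2 * (g * (A d ^ (q * q - q) * A v ^ q) + D * (A v ^ q) ^ q) := by
    have e4 : A d ^ (q * q - 1) * (A a2 * A d * (g * (A v ^ q / A d ^ q)
      + D * ((A v ^ q) ^ q / (A d ^ q) ^ q)))
      = A a2 * (g * (((A d ^ (q * q - 1) * A d) / A d ^ q) * A v ^ q)
        + D * (((A d ^ (q * q - 1) * A d) / (A d ^ q) ^ q) * (A v ^ q) ^ q)) := by ring
    rw [e4, ← e1, div_self hAdqq]
    conv_lhs => rw [e2]
    rw [mul_div_assoc, div_self hAdq]
    ring
  linear_combination (A s) * e3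

end StageA

end Pool.Agent.H209R3.Gen
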