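import Pool.Agent.H209R3.Fun6
import Pool.Agent.H209R3.Gen7

set_option autoImplicit false

namespace Pool.Agent.H209R3.Fun

open Pool.Agent.H209R3 Pool.Agent.H209R3.Gen Polynomial Module

section T
variable {L : Type*} [Field L] (p : ℕ) [Fact p.Prime] [CharP L p]

lemma T_not_F {e : ℕ} (hq : 3 ≤ p ^ e) {T : L} (hT : ∀ a : L, a ^ p ≠ T) (a : L) :
    iterateFrobenius L p e a ≠ T := by
  rcases e with _ | e
  · simp at hq
  · rw [iterateFrobenius_def, pow_succ, pow_mul]
    exact hT _

lemma T_quadratic {e : ℕ} (hq : 3 ≤ p ^ e) {T : L} (hT : ∀ a : L, a ^ p ≠ T) (a b : L) :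
    T ^ 2 + iterateFrobenius L p e a * T + iterateFrobenius L p e b ≠ 0 := by
  intro h
  obtain ⟨F, hF⟩ : ∃ F, F = iterateFrobenius L p e := ⟨_, rfl⟩
  have hFT : ∀ a, F a ≠ T := by rw [hF]; exact T_not_F p hq hT
  rw [← hF] at h
  rcases (Fact.out : p.Prime).eq_two_or_odd with h2 | hodd
  · subst h2
    have he : ∃ j, e = j + 2 := by
      rcases e with _ | _ | j
      · simp at hq
      · simp at hq
      · exact ⟨j, rfl⟩
    obtain ⟨j, hj⟩ := he
    have hsq : ∀ z : L, F z = (z ^ 2 ^ (j + 1)) ^ 2 := by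
      intro z
      rw [hF, iterateFrobenius_def, hj, ← pow_mul, ← pow_succ]
    have hsq2 : ∀ z : L, F z = ((z ^ 2 ^ j) ^ 2) ^ 2 := by
      intro z
      rw [hF, iterateFrobenius_def, hj, ← pow_mul, ← pow_mul]
      congr 1
      ring
    have hch : (2 : L) = 0 := by
      have := CharP.cast_eq_zero L 2
      exact_mod_cast this
    have hinj : ∀ z w : L, z ^ 2 = w ^ 2 → z = w := by
      intro z w hzw
      have h3 : (z - w) ^ 2 = 0 := by linear_combination hzw + (w ^ 2 - z * w) * hch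
      exact sub_eq_zero.1 (pow_eq_zero_iff (two_ne_zero) |>.1 h3)
    by_cases ha : a = 0
    · rw [ha, map_zero, zero_mul, add_zero, hsq2 b] at h
      apply hT (b ^ 2 ^ j)
      symm
      apply hinj
      linear_combination h - ((b ^ 2 ^ j) ^ 2) ^ 2 * hch
    · have hFa : F a ≠ 0 := (_root_.map_ne_zero F).2 ha
      apply hT ((T + b ^ 2 ^ (j + 1)) / a ^ 2 ^ (j + 1))
      rw [div_pow, ← hsq a, div_eq_iff hFa]
      rw [hsq b] at h
      linear_combination h + (T * b ^ 2 ^ (j + 1) - F a * T) * hch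
  · have h2 : (2 : L) ≠ 0 := by
      intro h0
      have h1 : ((2 : ℕ) : L) = 0 := by exact_mod_cast h0
      have h3 := (CharP.cast_eq_zero_iff L p 2).1 h1
      have h4 := Nat.le_of_dvd (by norm_num) h3
      have h5 := (Fact.out : p.Prime).two_le
      omega
    have hF2 : F 2 = 2 := map_ofNat F 2
    have hFhalf : F (2⁻¹) = 2⁻¹ := by rw [map_inv₀, hF2]
    obtain ⟨u, hu⟩ : ∃ u, u = T + F a * 2⁻¹ := ⟨_, rfl⟩
    obtain ⟨v, hv⟩ : ∃ v, v = (a * 2⁻¹) ^ 2 - b := ⟨_, rfl⟩
    have huv : u ^ 2 = F v := by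
      rw [hu, hv, map_sub, map_pow, map_mul, hFhalf]
      have h3 : (2 : L) * 2⁻¹ = 1 := mul_inv_cancel₀ h2
      linear_combination h + F a * T * h3
    by_cases hu0 : u = 0
    · apply hFT (- (a * 2⁻¹))
      rw [map_neg, map_mul, hFhalf]
      rw [hu0] at hu
      linear_combination hu
    · have hqodd : Odd (p ^ e) := by
        apply Odd.pow
        exact Nat.odd_iff.2 hodd
      obtain ⟨m, hm⟩ := hqodd
      have hFu : F u = u ^ (2 * m + 1) := by rw [hF, iterateFrobenius_def, hm]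
      have hFu0 : F u ≠ 0 := (_root_.map_ne_zero F).2 hu0
      have h4 : F (v ^ (m + 1) / u) = u := by
        rw [map_div₀, map_pow, ← huv, hFu, div_eq_iff (pow_ne_zero _ hu0)]
        ring
      apply hFT (v ^ (m + 1) / u - a * 2⁻¹)
      rw [map_sub, h4, map_mul, hFhalf, hu]
      ring

end T

section Stage
variable {L : Type*} [Field L] (p : ℕ) [Fact p.Prime] [CharP L p] (e : ℕ)

lemma stageL (hq : 1 < p ^ e) (T g D : L) (r : ℕ) (f : L → L)
    (hf : ∀ y, f y = T * y + g * y ^ p ^ e + D * (y ^ p ^ e) ^ p ^ e)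
    (hbig : (((p ^ e) ^ r : ℕ) : ℕ∞) < {x : L | ∃ m n : ℕ, m < n ∧
          f^[m] x = f^[n] x}.encard) :
    ∃ n : ℕ, r + 1 ≤ n ∧ ∃ x : Fin n → L, IndL (iterateFrobenius L p e) x ∧
      ∃ t : Fin n → Fin n → L, (∀ i j, iterateFrobenius L p e (t i j) = t i j) ∧
      ∀ i, ∑ j, t i j * x j - T * x i = g * iterateFrobenius L p e (x i)
        + D * iterateFrobenius L p e (iterateFrobenius L p e (x i)) := by
  classical
  let κ := Fix L p e
  obtain ⟨hκfin, hκcard⟩ := card_Fix (L := L) p e hq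
  have hsm : ∀ (c : κ) (y : L), c • y = (c : L) * y := fun c y => rfl
  have hcq : ∀ c : κ, (c : L) ^ p ^ e = c := fun c => c.2
  let φ : L →ₗ[κ] L :=
    { toFun := f
      map_add' := by
        intro x y
        rw [hf, hf, hf, add_pow_char_pow, add_pow_char_pow]
        ring
      map_smul' := by
        intro c x
        rw [RingHom.id_apply, hsm, hsm, hf, hf, mul_pow, mul_pow, hcq, hcq]
        ring }
  have hlt : (((p ^ e) ^ r + 1 : ℕ) : ℕ∞) ≤ {x : L | ∃ m n : ℕ, m < n ∧
      f^[m] x = f^[n] x}.encard := by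
    have := Order.add_one_le_of_lt hbig
    simpa using this
  obtain ⟨Z, hZ, hZc⟩ := Set.exists_subset_encard_eq hlt
  have hZfin : Z.Finite := Set.finite_of_encard_eq_coe hZc
  let Gs : Set L := ⋃ x ∈ Z, Set.range (fun i => f^[i] x)
  have hGs : Gs.Finite := by
    apply hZfin.biUnion
    intro x hx
    obtain ⟨m, n, hmn, h⟩ := hZ hx
    exact orbit_finite f x m n hmn h
  let W := Submodule.span κ Gs
  have hWfin : FiniteDimensional κ W := FiniteDimensional.span_of_finite κ hGs
  have hstab : ∀ v ∈ W, φ v ∈ W := by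
    have : W ≤ W.comap φ := by
      apply Submodule.span_le.2
      intro v hv
      simp only [Gs, Set.mem_iUnion, Set.mem_range] at hv
      obtain ⟨x, hx, i, rfl⟩ := hv
      apply Submodule.subset_span
      simp only [Gs, Set.mem_iUnion, Set.mem_range]
      refine ⟨x, hx, i + 1, ?_⟩
      rw [Function.iterate_succ_apply']
      rfl
    exact this
  have hZW : Z ⊆ (W : Set L) := by
    intro x hx
    apply Submodule.subset_span
    simp only [Gs, Set.mem_iUnion, Set.mem_range]
    exact ⟨x, hx, 0, rfl⟩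
  have hfr : r + 1 ≤ finrank κ W := by
    by_contra hcon
    have : Finite W := Module.finite_of_finite κ
    have h1 : Nat.card W = Nat.card κ ^ finrank κ W := Module.natCard_eq_pow_finrank
    have h2 : Z.encard ≤ (W : Set L).encard := Set.encard_le_encard hZW
    have h3 : (W : Set L).encard = (Nat.card W : ℕ∞) := by
      have hfin : (W : Set L).Finite := Set.toFinite _
      rw [← hfin.cast_ncard_eq]
      rfl
    rw [h3, hZc, h1] at h2
    have h4 : (p ^ e) ^ r + 1 ≤ Nat.card κ ^ finrank κ W := by exact_mod_cast h2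
    have h5 : Nat.card κ ^ finrank κ W ≤ (p ^ e) ^ finrank κ W :=
      Nat.pow_le_pow_left hκcard _
    have h6 : (p ^ e) ^ finrank κ W ≤ (p ^ e) ^ r :=
      Nat.pow_le_pow_right (by omega) (by omega)
    omega
  let b := finBasis κ W
  refine ⟨finrank κ W, hfr, fun i => (b i : L), ?_, ?_⟩
  · intro c hc hsum
    have hc' : ∀ i, c i ∈ κ := fun i => hc i
    have h1 : ∑ i, (⟨c i, hc' i⟩ : κ) • b i = 0 := by
      apply Subtype.ext
      rw [Submodule.coe_sum, Submodule.coe_zero, ← hsum]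
      rfl
    have h3 := Fintype.linearIndependent_iff.1 b.linearIndependent
      (fun i => (⟨c i, hc' i⟩ : κ)) h1
    funext i
    have := congrArg (fun z : κ => (z : L)) (h3 i)
    simpa using this
  · refine ⟨fun i j => (b.repr ⟨φ (b i), hstab _ (b i).2⟩ j : L), fun i j =>
      (b.repr ⟨φ (b i), hstab _ (b i).2⟩ j).2, ?_⟩
    intro i
    have h1 := b.sum_repr ⟨φ (b i), hstab _ (b i).2⟩
    have h2 := congrArg (Subtype.val) h1
    simp only [Submodule.coe_sum, Submodule.coe_smul, hsm] at h2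
    rw [h2]
    have h3 : φ (b i) = T * (b i : L) + g * (b i : L) ^ p ^ e + D * ((b i : L) ^ p ^ e) ^ p ^ e :=
      hf _
    rw [h3, iterateFrobenius_def, iterateFrobenius_def]
    ring

end Stage

end Pool.Agent.H209R3.Fun
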