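import Pool.Agent.H209R3.Fun7

set_option autoImplicit false

namespace Pool.Agent.H209R3.Fun

open Pool.Agent.H209R3 Pool.Agent.H209R3.Gen Polynomial Module

section Final
variable (k : Type*) [Field k] [PerfectField k] (L : Type*) [Field L] [Algebra (RatFunc k) L]
  [FiniteDimensional (RatFunc k) L] [Algebra k L] [IsScalarTower k (RatFunc k) L]
  (p : ℕ) [Fact p.Prime] [CharP k p] [CharP L p] (e : ℕ)

/-- span of a ball over the constants of L -/
noncomputable def XC (C : ℕ) : Submodule (algebraicClosure k L) L :=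
  Submodule.span _ (Set.range (fun a : Fin (finrank (RatFunc k) L) × Fin (C + 1) =>
    io k L (X ^ (a.2 : ℕ)) * finBasis (RatFunc k) L a.1))

omit [PerfectField k] in
lemma XC_finrank (C : ℕ) : finrank (algebraicClosure k L) (XC k L C)
    ≤ finrank (RatFunc k) L * (C + 1) := by
  have h1 := finrank_range_le_card (R := algebraicClosure k L)
    (fun a : Fin (finrank (RatFunc k) L) × Fin (C + 1) =>
    io k L (X ^ (a.2 : ℕ)) * finBasis (RatFunc k) L a.1)
  rw [Fintype.card_prod, Fintype.card_fin, Fintype.card_fin] at h1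
  exact h1

omit [PerfectField k] in
lemma mem_XC {c : ℕ} {y : L} (hy : y ∈ Bn k L c) : y ∈ XC k L c := by
  obtain ⟨P, hP, hyP⟩ := Bn_expand hy
  rw [hyP]
  apply Submodule.sum_mem
  intro i _
  have h1 := as_sum_range_C_mul_X_pow' (P i) (Nat.lt_succ_of_le (hP i))
  rw [h1, map_sum, Finset.sum_mul]
  apply Submodule.sum_mem
  intro j hj
  have h2 : io k L (C ((P i).coeff j) * X ^ j) * finBasis (RatFunc k) L i
      = (algebraMap k (algebraicClosure k L) ((P i).coeff j)) •
        (io k L (X ^ j) * finBasis (RatFunc k) L i) := by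
    rw [Algebra.smul_def, map_mul, mul_assoc]
    congr 1
    have h3 : algebraMap (algebraicClosure k L) L (algebraMap k (algebraicClosure k L)
      ((P i).coeff j)) = algebraMap k L ((P i).coeff j) := rfl
    rw [h3, IsScalarTower.algebraMap_apply k (RatFunc k) L]
    rfl
  rw [h2]
  apply Submodule.smul_mem
  apply Submodule.subset_span
  exact ⟨(i, ⟨j, Finset.mem_range.1 hj⟩), rfl⟩

omit [PerfectField k] in
lemma exists_ball (U : Submodule k L) [FiniteDimensional k U] :
    ∃ Q : k[X], Q ≠ 0 ∧ ∃ n, ∀ u ∈ U, io k L Q * u ∈ Bn k L n := by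
  classical
  let b := finBasis k U
  obtain ⟨Q, hQ, n, hn⟩ := exhF (k := k) (Finset.univ.image (fun i => (b i : L)))
  refine ⟨Q, hQ, n, ?_⟩
  intro u hu
  have h1 := b.sum_repr ⟨u, hu⟩
  have h2 := congrArg (Subtype.val) h1
  simp only [Submodule.coe_sum, Submodule.coe_smul] at h2
  rw [← h2, Finset.mul_sum]
  apply AddSubgroup.sum_mem
  intro i _
  have h3 : io k L Q * (b.repr ⟨u, hu⟩ i • (b i : L))
      = io k L (C (b.repr ⟨u, hu⟩ i)) * (io k L Q * (b i : L)) := by
    rw [Algebra.smul_def, IsScalarTower.algebraMap_apply k (RatFunc k) L]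
    have h4 : io k L (C (b.repr ⟨u, hu⟩ i)) = algebraMap (RatFunc k) L
      (algebraMap k (RatFunc k) (b.repr ⟨u, hu⟩ i)) := rfl
    rw [h4]; ring
  rw [h3]
  have h5 := Bn_mul (k := k) (L := L) (m := 0) (Q := C (b.repr ⟨u, hu⟩ i))
    (by rw [natDegree_C]) (hn _ (Finset.mem_image_of_mem _ (Finset.mem_univ i)))
  rwa [zero_add] at h5

theorem ubpL (hq : 3 ≤ p ^ e) (U : Submodule k L) [FiniteDimensional k U] :
    ∃ Bd : ℕ, ∀ T : L, (∀ a : L, a ^ p ≠ T) → (∃ u ∈ U, ∃ v ∈ U, v ≠ 0 ∧ T = u / v) →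
      ∀ g D : L, D ≠ 0 → ∀ f : L → L,
      (∀ y, f y = T * y + g * y ^ p ^ e + D * (y ^ p ^ e) ^ p ^ e) →
      {x : L | ∃ m n : ℕ, m < n ∧ f^[m] x = f^[n] x}.encard ≤ (Bd : ℕ∞) := by
  classical
  obtain ⟨A, hA⟩ := exists_sizeData k L p e
  have hκfin : {c : L | iterateFrobenius L p e c = c}.Finite := by
    have := (card_Fix (L := L) p e (by omega)).1
    exact Set.toFinite ((Fix L p e : Subfield L) : Set L)
  obtain ⟨Q, hQ, n1, hn1⟩ := exists_ball k L U
  obtain ⟨C, hC⟩ := coreL A hq hκfin n1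
  obtain ⟨R, hR⟩ : ∃ R, R = finrank (RatFunc k) L * (C + 1) := ⟨_, rfl⟩
  refine ⟨(p ^ e) ^ (2 * R * R + 2), ?_⟩
  rintro T hT ⟨u, hu, v, hv, hv0, hTuv⟩ g D hD f hf
  have hQ0 : io k L Q ≠ 0 := fun h => hQ (io_inj k L (h.trans (map_zero (io k L)).symm))
  have hTball : ∃ l : L, l ≠ 0 ∧ l ∈ A.B n1 ∧ l * T ∈ A.B n1 := by
    rw [hA]
    refine ⟨io k L Q * v, mul_ne_zero hQ0 hv0, hn1 v hv, ?_⟩
    have : io k L Q * v * T = io k L Q * u := by
      rw [hTuv]; field_simp
    rw [this]; exact hn1 u hu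
  by_contra hcon
  rw [not_le] at hcon
  obtain ⟨n, hn, x, hind, t, ht, hrel⟩ := stageL p e (by omega) T g D (2 * R * R + 2) f hf hcon
  have hcard : 3 ≤ Fintype.card (Fin n) := by rw [Fintype.card_fin]; omega
  haveI : Nonempty (Fin n) := ⟨⟨0, by omega⟩⟩
  obtain ⟨l, hl, hxl⟩ := hC T hTball (T_not_F p hq hT) (T_quadratic p hq hT) (Fin n)
    (exists_third hcard) x hind t ht g D hD hrel
  rw [hA] at hxl
  -- constants
  haveI hcharp : CharP (algebraicClosure k L) p :=
    charP_of_injective_algebraMap (algebraMap k (algebraicClosure k L)).injective p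
  haveI hperf : PerfectField (algebraicClosure k L) := Algebra.IsAlgebraic.perfectField k
  haveI hperf2 : PerfectRing (algebraicClosure k L) p := PerfectField.toPerfectRing p
  have hFl : iterateFrobenius L p e l ≠ 0 := (_root_.map_ne_zero _).2 hl
  have hFFl : iterateFrobenius L p e (iterateFrobenius L p e l) ≠ 0 :=
    (_root_.map_ne_zero _).2 hFl
  have hXfin : FiniteDimensional (algebraicClosure k L) (XC k L C) :=
    FiniteDimensional.span_of_finite _ (Set.finite_range _)
  have hb := dimBound (k := algebraicClosure k L) (iterateFrobenius L p e)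
    (iterateFrobenius (algebraicClosure k L) p e) ?_ ?_ T ?_ (Fin n) (fun i => l * x i) ?_ t ht
    (l * g / iterateFrobenius L p e l)
    (l * D / iterateFrobenius L p e (iterateFrobenius L p e l)) ?_ (XC k L C)
    (fun i => mem_XC k L (hxl i))
  · have h1 := XC_finrank k L C
    rw [← hR] at h1
    rw [Fintype.card_fin] at hb
    have h2 : 2 * finrank (algebraicClosure k L) (XC k L C)
        * finrank (algebraicClosure k L) (XC k L C) ≤ 2 * R * R :=
      Nat.mul_le_mul (Nat.mul_le_mul_left 2 h1) h1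
    omega
  · intro a
    rw [iterateFrobenius_def, iterateFrobenius_def, map_pow]
  · intro c hc
    rw [iterateFrobenius_def] at hc
    refine ⟨⟨c, mem_algebraicClosure_iff.2 ⟨X ^ p ^ e - X,
      FiniteField.X_pow_card_sub_X_ne_zero k (by omega), ?_⟩⟩, rfl⟩
    simp [hc]
  · intro halg
    have h1 : IsAlgebraic k T := halg.restrictScalars k
    have h2 : T ∈ algebraicClosure k L := mem_algebraicClosure_iff.2 h1
    obtain ⟨b, hb⟩ := (frobeniusEquiv (algebraicClosure k L) p).surjective ⟨T, h2⟩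
    apply hT (b : L)
    have h3 : b ^ p = (⟨T, h2⟩ : algebraicClosure k L) := by
      rw [← hb]; rfl
    have h4 := congrArg (fun z : algebraicClosure k L => (z : L)) h3
    simpa using h4
  · intro c hc hsum
    apply hind c hc
    have h1 : l * ∑ i, c i * x i = 0 := by
      rw [Finset.mul_sum, ← hsum]
      apply Finset.sum_congr rfl
      intro i _; ring
    exact (mul_eq_zero.1 h1).resolve_left hl
  · intro i
    have h1 : ∑ j, t i j * (l * x j) - T * (l * x i) = l * (∑ j, t i j * x j - T * x i) := by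
      rw [mul_sub, Finset.mul_sum]
      congr 1
      · apply Finset.sum_congr rfl
        intro j _; ring
      · ring
    rw [h1, hrel i, map_mul, map_mul]
    field_simp

end Final

end Pool.Agent.H209R3.Fun
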