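import Pool.Agent.H209R3.Fun8

set_option autoImplicit false

namespace Pool.Agent.H209R3.Fun

open Pool.Agent.H209R3 Pool.Agent.H209R3.Gen Polynomial Module

section Rat
variable {k : Type*} [Field k] (p : ℕ) [Fact p.Prime] [CharP k p]

lemma polyIndep (e : ℕ) (P : Fin (p ^ e) → k[X])
    (h : ∑ j, ph p e (P j) * X ^ (j : ℕ) = 0) : ∀ j, P j = 0 := by
  have hq : 0 < p ^ e := Nat.pow_pos (Fact.out : p.Prime).pos
  intro j0
  have hinj : Function.Injective (iterateFrobenius k p e) := iterateFrobenius_inj k p e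
  apply (Polynomial.map_eq_zero_iff hinj).1
  ext m
  have h1 := congrArg (fun f => coeff f (p ^ e * m + j0)) h
  simp only [finsetSum_coeff, coeff_zero, coeff_mul_X_pow'] at h1
  have h2 : ∀ g : k[X], ph p e g = expand k (p ^ e) (g.map (iterateFrobenius k p e)) := by
    intro g
    rw [ph_def, ← map_iterateFrobenius_expand, map_expand]
  rw [Finset.sum_eq_single j0] at h1
  · rw [if_pos (Nat.le_add_left _ _), Nat.add_sub_cancel, h2, coeff_expand hq,
      if_pos (Dvd.intro m rfl), Nat.mul_div_cancel_left m hq] at h1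
    rw [coeff_zero]; exact h1
  · intro j _ hj
    by_cases hle : (j : ℕ) ≤ p ^ e * m + j0
    · rw [if_pos hle, h2, coeff_expand hq, if_neg]
      intro hd
      apply hj
      apply Fin.ext
      have h3 : (p ^ e * m + j0) ≡ (j : ℕ) [MOD p ^ e] := (Nat.modEq_iff_dvd' hle).2 hd |>.symm
      have h4 : (j0 : ℕ) ≡ (j : ℕ) [MOD p ^ e] := by
        have h5 : p ^ e * m + (j0 : ℕ) ≡ j0 [MOD p ^ e] := by
          unfold Nat.ModEq
          rw [Nat.mul_add_mod]
        exact h5.symm.trans h3
      have h6 : (j0 : ℕ) % p ^ e = (j : ℕ) % p ^ e := h4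
      rw [Nat.mod_eq_of_lt j0.2, Nat.mod_eq_of_lt j.2] at h6
      exact h6.symm
    · rw [if_neg hle]
  · intro hj
    exact absurd (Finset.mem_univ j0) hj

/-- the ball of polynomials of degree at most n in k(X) -/
noncomputable def Pn (k : Type*) [Field k] (n : ℕ) : AddSubgroup (RatFunc k) where
  carrier := {a | ∃ P : k[X], P.natDegree ≤ n ∧ a = algebraMap k[X] (RatFunc k) P}
  zero_mem' := ⟨0, by simp, by simp⟩
  add_mem' := by
    rintro a b ⟨P, hP, rfl⟩ ⟨Q, hQ, rfl⟩
    exact ⟨P + Q, le_trans (natDegree_add_le _ _) (max_le hP hQ), by rw [map_add]⟩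
  neg_mem' := by
    rintro a ⟨P, hP, rfl⟩
    exact ⟨-P, by rwa [natDegree_neg], by rw [map_neg]⟩

lemma F_alg (e : ℕ) (P : k[X]) : iterateFrobenius (RatFunc k) p e (algebraMap k[X] (RatFunc k) P)
    = algebraMap k[X] (RatFunc k) (ph p e P) := by
  rw [iterateFrobenius_def, ph_def, map_pow]

lemma rat_indep (e : ℕ) : LinearIndependent (RatFunc k) (fun j : Fin (p ^ e) =>
    (show Tw (iterateFrobenius (RatFunc k) p e) from
      algebraMap k[X] (RatFunc k) (X ^ (j : ℕ)))) := by
  rw [Fintype.linearIndependent_iff]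
  intro c hc
  have hc' : ∑ j, iterateFrobenius (RatFunc k) p e (c j)
      * algebraMap k[X] (RatFunc k) (X ^ (j : ℕ)) = 0 := hc
  obtain ⟨d, hd⟩ := IsLocalization.exist_integer_multiples_of_finite (nonZeroDivisors k[X]) c
  choose P hP using hd
  have hP' : ∀ j, algebraMap k[X] (RatFunc k) (P j) = algebraMap k[X] (RatFunc k) d * c j := by
    intro j
    have := hP j
    rw [Algebra.smul_def] at this
    exact this
  have hinj : Function.Injective (algebraMap k[X] (RatFunc k)) :=
    IsFractionRing.injective k[X] (RatFunc k)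
  have hd0 : algebraMap k[X] (RatFunc k) d ≠ 0 := fun h0 =>
    nonZeroDivisors.coe_ne_zero d (hinj (h0.trans (map_zero _).symm))
  have h1 : ∑ j, ph p e (P j) * X ^ (j : ℕ) = 0 := by
    apply hinj
    rw [map_sum, map_zero]
    have h2 : ∀ j, algebraMap k[X] (RatFunc k) (ph p e (P j) * X ^ (j : ℕ))
        = iterateFrobenius (RatFunc k) p e (algebraMap k[X] (RatFunc k) d)
          * (iterateFrobenius (RatFunc k) p e (c j)
            * algebraMap k[X] (RatFunc k) (X ^ (j : ℕ))) := by
      intro j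
      rw [map_mul, ← F_alg, hP' j, map_mul]; ring
    simp only [h2]
    rw [← Finset.mul_sum, hc', mul_zero]
  intro j
  have h3 := polyIndep p e P h1 j
  have h4 := hP' j
  rw [h3, map_zero] at h4
  exact (mul_eq_zero.1 h4.symm).resolve_left hd0

variable [PerfectField k]

lemma decompR (e : ℕ) {n : ℕ} {P : k[X]} (hP : P.natDegree ≤ n) :
    ∃ Q : Fin (p ^ e) → k[X], (∀ j, (Q j).natDegree ≤ n / p ^ e) ∧
      algebraMap k[X] (RatFunc k) P = ∑ j, iterateFrobenius (RatFunc k) p e
        (algebraMap k[X] (RatFunc k) (Q j)) * algebraMap k[X] (RatFunc k) (X ^ (j : ℕ)) := by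
  obtain ⟨Q, hQ, hPQ⟩ := exists_decomp p e n P hP
  refine ⟨fun j => Q j, fun j => hQ j, ?_⟩
  conv_lhs => rw [hPQ]
  rw [map_sum, ← Fin.sum_univ_eq_sum_range
    (fun j => algebraMap k[X] (RatFunc k) (X ^ j * ph p e (Q j))) (p ^ e)]
  apply Finset.sum_congr rfl
  intro j _
  rw [F_alg, map_mul, mul_comm]

lemma rat_span (e : ℕ) : (⊤ : Submodule (RatFunc k) (Tw (iterateFrobenius (RatFunc k) p e))) ≤
    Submodule.span (RatFunc k) (Set.range (fun j : Fin (p ^ e) =>
    (show Tw (iterateFrobenius (RatFunc k) p e) from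
      algebraMap k[X] (RatFunc k) (X ^ (j : ℕ))))) := by
  have hq : 0 < p ^ e := Nat.pow_pos (Fact.out : p.Prime).pos
  intro f _
  let f' : RatFunc k := f
  have hinj : Function.Injective (algebraMap k[X] (RatFunc k)) :=
    IsFractionRing.injective k[X] (RatFunc k)
  obtain ⟨Q, hQ, R, hR⟩ : ∃ Q : k[X], Q ≠ 0 ∧ ∃ R : k[X],
      algebraMap k[X] (RatFunc k) Q * f' = algebraMap k[X] (RatFunc k) R := by
    refine ⟨f'.denom, f'.denom_ne_zero, f'.num, ?_⟩
    have hden' : algebraMap k[X] (RatFunc k) f'.denom ≠ 0 := by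
      intro h0
      exact f'.denom_ne_zero (hinj (h0.trans (map_zero _).symm))
    rw [mul_comm]
    exact ((div_eq_iff hden').1 (RatFunc.num_div_denom f')).symm
  have hQ0 : algebraMap k[X] (RatFunc k) Q ≠ 0 := fun h0 => hQ (hinj (h0.trans (map_zero _).symm))
  have hF0 : iterateFrobenius (RatFunc k) p e (algebraMap k[X] (RatFunc k) Q) ≠ 0 :=
    (_root_.map_ne_zero _).2 hQ0
  obtain ⟨S, -, hS⟩ := decompR p e (le_refl (Q ^ (p ^ e - 1) * R).natDegree)
  have h2 : algebraMap k[X] (RatFunc k) (Q ^ (p ^ e - 1) * R)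
      = iterateFrobenius (RatFunc k) p e (algebraMap k[X] (RatFunc k) Q) * f' := by
    rw [map_mul, map_pow, ← hR, iterateFrobenius_def, ← mul_assoc, ← pow_succ]
    congr 2
    omega
  have h3 : f' = ∑ j, iterateFrobenius (RatFunc k) p e ((algebraMap k[X] (RatFunc k) Q)⁻¹
      * algebraMap k[X] (RatFunc k) (S j)) * algebraMap k[X] (RatFunc k) (X ^ (j : ℕ)) := by
    apply mul_left_cancel₀ hF0
    rw [← h2, hS, Finset.mul_sum]
    apply Finset.sum_congr rfl
    intro a _
    rw [map_mul, map_inv₀, ← mul_assoc, mul_inv_cancel_left₀ hF0]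
  have h4 : f = ∑ j : Fin (p ^ e), ((algebraMap k[X] (RatFunc k) Q)⁻¹
      * algebraMap k[X] (RatFunc k) (S j)) •
      (show Tw (iterateFrobenius (RatFunc k) p e) from
      algebraMap k[X] (RatFunc k) (X ^ (j : ℕ))) := h3
  rw [h4]
  apply Submodule.sum_mem
  intro a _
  apply Submodule.smul_mem
  exact Submodule.subset_span ⟨a, rfl⟩

variable (k) in
/-- explicit size data for k(X), with all constants zero -/
theorem rat_sizeData (e : ℕ) : ∃ A : SizeData (RatFunc k) (iterateFrobenius (RatFunc k) p e)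
    (p ^ e), A.B = Pn k ∧ A.c0 = 0 ∧ A.c1 = 0 ∧ A.c2 = 0 := by
  classical
  let b := Basis.mk (rat_indep (k := k) p e) (rat_span (k := k) p e)
  have hb : ∀ j, b j = (show Tw (iterateFrobenius (RatFunc k) p e) from
      algebraMap k[X] (RatFunc k) (X ^ (j : ℕ))) := fun j => Basis.mk_apply _ _ j
  let E : Fin (p ^ e) → RatFunc k →+ RatFunc k := fun j =>
    { toFun := fun f => b.repr (show Tw (iterateFrobenius (RatFunc k) p e) from f) j
      map_zero' := by
        show b.repr 0 j = 0
        rw [map_zero]; rfl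
      map_add' := fun f g => by
        show b.repr ((show Tw (iterateFrobenius (RatFunc k) p e) from f)
          + (show Tw (iterateFrobenius (RatFunc k) p e) from g)) j = _
        rw [map_add]; rfl }
  refine ⟨{ B := Pn k
            mono := ?_
            s0 := 1
            s0_ne := one_ne_zero
            c0 := 0
            mul := ?_
            exh := ?_
            J := p ^ e
            E := E
            θ := fun j => b j
            E_mul := ?_
            E_sum := ?_
            s1 := 1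
            s1_ne := one_ne_zero
            c1 := 0
            E_size := ?_
            s2 := 1
            s2_ne := one_ne_zero
            c2 := 0
            F_size := ?_ }, rfl, rfl, rfl, rfl⟩
  · rintro m n h a ⟨P, hP, rfl⟩
    exact ⟨P, hP.trans h, rfl⟩
  · rintro m n _ _ ⟨P, hP, rfl⟩ ⟨Q, hQ, rfl⟩
    refine ⟨P * Q, ?_, by rw [one_mul, map_mul]⟩
    rw [add_zero]
    exact le_trans natDegree_mul_le (add_le_add hP hQ)
  · intro S
    obtain ⟨d, hd⟩ := IsLocalization.exist_integer_multiples_of_finset (nonZeroDivisors k[X]) S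
    have hinj : Function.Injective (algebraMap k[X] (RatFunc k)) :=
      IsFractionRing.injective k[X] (RatFunc k)
    refine ⟨algebraMap k[X] (RatFunc k) d, fun h0 =>
      nonZeroDivisors.coe_ne_zero d (hinj (h0.trans (map_zero _).symm)), ?_⟩
    choose! P hP using hd
    refine ⟨S.sup (fun a => (P a).natDegree), fun a ha => ⟨P a,
      Finset.le_sup (f := fun a => (P a).natDegree) ha, ?_⟩⟩
    rw [hP a ha, Algebra.smul_def]
  · intro j g f
    show b.repr (g • (show Tw (iterateFrobenius (RatFunc k) p e) from f)) j = g * b.repr f j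
    rw [map_smul]; rfl
  · intro f
    exact b.sum_repr (show Tw (iterateFrobenius (RatFunc k) p e) from f)
  · rintro n _ ⟨P, hP, rfl⟩ j
    obtain ⟨Q, hQ, hPQ⟩ := decompR p e hP
    refine ⟨Q j, by rw [add_zero]; exact hQ j, ?_⟩
    rw [one_mul]
    show b.repr (show Tw (iterateFrobenius (RatFunc k) p e) from
      algebraMap k[X] (RatFunc k) P) j = _
    have h1 : (show Tw (iterateFrobenius (RatFunc k) p e) from algebraMap k[X] (RatFunc k) P)
        = ∑ j, (algebraMap k[X] (RatFunc k) (Q j)) • b j := by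
      simp only [hb]
      exact hPQ
    rw [h1, b.repr_sum_self]
  · rintro n _ ⟨P, hP, rfl⟩
    refine ⟨ph p e P, ?_, by rw [one_mul, F_alg]⟩
    rw [natDegree_ph, add_zero]
    exact Nat.mul_le_mul_left _ hP

end Rat

end Pool.Agent.H209R3.Fun
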