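import Mathlib

set_option autoImplicit false

namespace Pool.Agent.H209R3.Gen

open Polynomial

section Alg
variable {κ : Type*} [Fintype κ] {R : Type*} [CommRing R]

/-- unimodular family -/
def PrimF (v : κ → R) : Prop := ∃ c : κ → R, ∑ i, c i * v i = 1

/-- parallel families -/
def ParF (v w : κ → R) : Prop := ∀ i j, v i * w j = v j * w i

omit [Fintype κ] in
lemma parF_symm {a b : κ → R} (h : ParF a b) : ParF b a := by
  intro i j
  have := h i j
  linear_combination -this

omit [Fintype κ] in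
lemma parF_trans [IsDomain R] {a b c : κ → R} (hc : c ≠ 0) (h1 : ParF a c) (h2 : ParF b c) :
    ParF a b := by
  obtain ⟨k, hk⟩ : ∃ k, c k ≠ 0 := by
    by_contra hcon
    push Not at hcon
    exact hc (funext hcon)
  intro i j
  have hk2 : c k * c k ≠ 0 := mul_ne_zero hk hk
  apply mul_right_cancel₀ hk2
  have e1 := h1 i k
  have e2 := h1 j k
  have e3 := h2 i k
  have e4 := h2 j k
  linear_combination (b j * c k) * e1 + (a k * c i) * e4 - (b i * c k) * e2 - (a k * c j) * e3

lemma primF_ne_zero [Nontrivial R] {a : κ → R} (h : PrimF a) : a ≠ 0 := by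
  rintro rfl
  obtain ⟨c, hc⟩ := h
  simp at hc

lemma primF_par {m w : κ → R} (hm : PrimF m) (h : ParF w m) :
    ∃ l : R, ∀ i, w i = l * m i := by
  obtain ⟨c, hc⟩ := hm
  refine ⟨∑ j, c j * w j, fun i => ?_⟩
  calc w i = w i * ∑ j, c j * m j := by rw [hc, mul_one]
    _ = ∑ j, c j * w j * m i := by
      rw [Finset.mul_sum]
      apply Finset.sum_congr rfl
      intro j _
      have := h i j
      linear_combination (c j) * this
    _ = (∑ j, c j * w j) * m i := by rw [Finset.sum_mul]

/-- a family that is a unit times a unimodular one, both unimodular -/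
lemma unit_of_primF {m w : κ → R} {l : R} (hw : PrimF w) (h : ∀ i, w i = l * m i) : IsUnit l := by
  obtain ⟨c, hc⟩ := hw
  apply IsUnit.of_mul_eq_one (∑ i, c i * m i)
  rw [← hc, Finset.mul_sum]
  apply Finset.sum_congr rfl
  intro i _
  rw [h i]; ring

end Alg

section Bez
variable {κ : Type*} [Fintype κ] {k : Type*} [Field k]

lemma exists_primF {w : κ → k[X]} (hw : w ≠ 0) :
    ∃ (G : k[X]) (m : κ → k[X]), G ≠ 0 ∧ PrimF m ∧ ∀ i, w i = G * m i := by
  obtain ⟨g, hg⟩ := (IsPrincipalIdealRing.principal (Ideal.span (Set.range w))).principal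
  have hg' : Ideal.span (Set.range w) = Ideal.span {g} := hg
  have hdiv : ∀ i, g ∣ w i := by
    intro i
    rw [← Ideal.mem_span_singleton, ← hg']
    exact Ideal.subset_span ⟨i, rfl⟩
  choose m hm using hdiv
  have hg0 : g ≠ 0 := by
    rintro rfl
    apply hw
    funext i
    rw [hm i]; simp
  have h1 : g ∈ Ideal.span (Set.range w) := by
    rw [hg']; exact Ideal.mem_span_singleton_self g
  obtain ⟨c, hc⟩ := Ideal.mem_span_range_iff_exists_fun.1 h1
  refine ⟨g, m, hg0, ⟨c, ?_⟩, hm⟩
  apply mul_left_cancel₀ hg0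
  rw [mul_one, Finset.mul_sum]
  conv_rhs => rw [← hc]
  apply Finset.sum_congr rfl
  intro i _
  conv_rhs => rw [hm i]
  ring

/-- height -/
def htF (v : κ → k[X]) : ℕ := Finset.univ.sup (fun i => (v i).natDegree)

lemma le_htF (v : κ → k[X]) (i : κ) : (v i).natDegree ≤ htF v :=
  Finset.le_sup (f := fun i => (v i).natDegree) (Finset.mem_univ i)

lemma exists_htF [Nonempty κ] (v : κ → k[X]) : ∃ i, (v i).natDegree = htF v := by
  obtain ⟨i, _, hi⟩ := Finset.exists_mem_eq_sup (Finset.univ : Finset κ)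
    Finset.univ_nonempty (fun i => (v i).natDegree)
  exact ⟨i, hi.symm⟩

lemma htF_le {v : κ → k[X]} {n : ℕ} (h : ∀ i, (v i).natDegree ≤ n) : htF v ≤ n :=
  Finset.sup_le (fun i _ => h i)

lemma htF_scale {w m : κ → k[X]} {G : k[X]} (hG : G ≠ 0) (h : ∀ i, w i = G * m i) :
    htF m ≤ htF w := by
  apply htF_le
  intro i
  by_cases hmi : m i = 0
  · rw [hmi]; simp
  · have := le_htF w i
    rw [h i, natDegree_mul hG hmi] at this
    omega

lemma htF_le_of_par {y w : κ → k[X]} (hy : PrimF y) (h : ParF w y) (hw : w ≠ 0) :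
    htF y ≤ htF w := by
  obtain ⟨l, hl⟩ := primF_par hy h
  have hl0 : l ≠ 0 := by
    rintro rfl
    apply hw
    funext i
    rw [hl i]; simp
  exact htF_scale hl0 hl

/-- derivative -/
noncomputable def DF (v : κ → k[X]) : κ → k[X] := fun i => derivative (v i)

lemma natDegree_wrF {f g : k[X]} {d : ℕ} (hd : 1 ≤ d) (hf : f.natDegree ≤ d)
    (hg : g.natDegree ≤ d) : (f * derivative g - g * derivative f).natDegree ≤ 2 * d - 2 := by
  rw [natDegree_le_iff_coeff_eq_zero]
  intro N hN
  have hf' : (derivative f).natDegree ≤ d - 1 := le_trans (natDegree_derivative_le f) (by omega)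
  have hg' : (derivative g).natDegree ≤ d - 1 := le_trans (natDegree_derivative_le g) (by omega)
  rcases Nat.lt_or_ge (2 * d - 1) N with h1 | h1
  · apply coeff_eq_zero_of_natDegree_lt
    have : (f * derivative g - g * derivative f).natDegree ≤ d + (d - 1) := by
      apply le_trans (natDegree_sub_le _ _)
      apply max_le
      · exact le_trans natDegree_mul_le (by omega)
      · exact le_trans natDegree_mul_le (by omega)
    omega
  · have hNe : N = d + (d - 1) := by omega
    rw [hNe, coeff_sub, coeff_mul_add_eq_of_natDegree_le hf hg',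
      coeff_mul_add_eq_of_natDegree_le hg hf', coeff_derivative, coeff_derivative]
    have : d - 1 + 1 = d := by omega
    rw [this]
    ring

lemma ne_par_deriv {n : κ → k[X]} (hn : PrimF n) (hn' : DF n ≠ 0) : ¬ ParF n (DF n) := by
  intro hpar
  obtain ⟨i0, hi0⟩ : ∃ i, DF n i ≠ 0 := by
    by_contra hcon
    push Not at hcon
    exact hn' (funext hcon)
  obtain ⟨m, hm⟩ := primF_par hn (parF_symm hpar)
  have hmi := hm i0
  have hm0 : m ≠ 0 := by
    rintro rfl
    rw [zero_mul] at hmi
    exact hi0 hmi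
  have hni0 : n i0 ≠ 0 := by
    intro h0
    apply hi0
    simp only [DF]
    rw [h0]; simp
  have hd : (DF n i0).natDegree = m.natDegree + (n i0).natDegree := by
    rw [hmi, natDegree_mul hm0 hni0]
  have hd2 : (n i0).natDegree ≠ 0 := by
    intro h0
    apply hi0
    simp only [DF]
    rw [eq_C_of_natDegree_eq_zero h0, derivative_C]
  have hd3 : (DF n i0).natDegree < (n i0).natDegree := natDegree_derivative_lt hd2
  omega

lemma htF_pos_of_deriv {n : κ → k[X]} (hn' : DF n ≠ 0) : 1 ≤ htF n := by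
  obtain ⟨i0, hi0⟩ : ∃ i, DF n i ≠ 0 := by
    by_contra hcon
    push Not at hcon
    exact hn' (funext hcon)
  have : (n i0).natDegree ≠ 0 := by
    intro h0
    apply hi0
    simp only [DF]
    rw [eq_C_of_natDegree_eq_zero h0, derivative_C]
  have := le_htF n i0
  omega

end Bez

section Frob
variable {κ : Type*} [Fintype κ] {k : Type*} [Field k] (p : ℕ) [Fact p.Prime] [CharP k p]

/-- iterated Frobenius of k[X] -/
noncomputable abbrev ph (s : ℕ) : k[X] →+* k[X] := iterateFrobenius k[X] p s

lemma ph_def (s : ℕ) (f : k[X]) : ph p s f = f ^ p ^ s := iterateFrobenius_def p s f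

lemma ph_inj (s : ℕ) : Function.Injective (ph (k := k) p s) := iterateFrobenius_inj k[X] p s

lemma ph_ph (m n : ℕ) (f : k[X]) : ph p m (ph p n f) = ph p (m + n) f :=
  (iterateFrobenius_add_apply k[X] p m n f).symm

lemma natDegree_ph (s : ℕ) (f : k[X]) : (ph p s f).natDegree = p ^ s * f.natDegree := by
  rw [ph_def, natDegree_pow]

lemma deriv_ph (s : ℕ) (f : k[X]) : derivative (ph p (s + 1) f) = 0 := by
  rw [ph_def, derivative_pow]
  have : ((p ^ (s + 1) : ℕ) : k) = 0 := by
    rw [Nat.cast_pow, CharP.cast_eq_zero k p, zero_pow (Nat.succ_ne_zero s)]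
  rw [this]; simp

lemma ph_C (s : ℕ) (a : k) : ph p s (C a) = C (a ^ p ^ s) := by
  rw [ph_def, C_pow]

/-- Frobenius on families -/
noncomputable def Fr (s : ℕ) (v : κ → k[X]) : κ → k[X] := fun i => ph p s (v i)

omit [Fintype κ] in
lemma Fr_zero (v : κ → k[X]) : Fr p 0 v = v := by
  funext i; simp [Fr, iterateFrobenius_def]

omit [Fintype κ] in
lemma Fr_Fr (m n : ℕ) (v : κ → k[X]) : Fr p m (Fr p n v) = Fr p (m + n) v := by
  funext i; exact ph_ph p m n (v i)

lemma htF_Fr (s : ℕ) (v : κ → k[X]) [Nonempty κ] : htF (Fr p s v) = p ^ s * htF v := by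
  apply le_antisymm
  · apply htF_le
    intro i
    simp only [Fr, natDegree_ph]
    exact Nat.mul_le_mul_left _ (le_htF v i)
  · obtain ⟨i, hi⟩ := exists_htF v
    have := le_htF (Fr p s v) i
    simp only [Fr, natDegree_ph] at this
    rw [← hi]
    exact this

lemma primF_Fr (s : ℕ) {v : κ → k[X]} (h : PrimF v) : PrimF (Fr p s v) := by
  obtain ⟨c, hc⟩ := h
  refine ⟨Fr p s c, ?_⟩
  have := congrArg (ph p s) hc
  simp only [map_sum, map_mul, map_one] at this
  exact this

lemma unit_of_ph (s : ℕ) {g : k[X]} (h : IsUnit (ph p s g)) : IsUnit g := by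
  rw [ph_def] at h
  exact (isUnit_pow_iff (pow_ne_zero s (Fact.out : p.Prime).ne_zero)).1 h

lemma primF_of_Fr (s : ℕ) {v : κ → k[X]} (h : PrimF (Fr p s v)) : PrimF v := by
  obtain ⟨g, hg⟩ := (IsPrincipalIdealRing.principal (Ideal.span (Set.range v))).principal
  have hg' : Ideal.span (Set.range v) = Ideal.span {g} := hg
  have hdiv : ∀ i, g ∣ v i := by
    intro i
    rw [← Ideal.mem_span_singleton, ← hg']
    exact Ideal.subset_span ⟨i, rfl⟩
  obtain ⟨c, hc⟩ := h
  have hd : ph p s g ∣ (1 : k[X]) := by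
    rw [← hc]
    apply Finset.dvd_sum
    intro i _
    obtain ⟨r, hr⟩ := hdiv i
    refine ⟨c i * ph p s r, ?_⟩
    simp only [Fr]
    rw [hr, map_mul]; ring
  have hu : IsUnit g := unit_of_ph p s (isUnit_of_dvd_one hd)
  have h1 : (1 : k[X]) ∈ Ideal.span (Set.range v) := by
    rw [hg', Ideal.mem_span_singleton]
    exact hu.dvd
  exact Ideal.mem_span_range_iff_exists_fun.1 h1

variable [PerfectField k]

omit [Fintype κ] in
lemma exists_ph_of_deriv {f : k[X]} (h : derivative f = 0) : ∃ g, f = ph p 1 g := by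
  haveI : PerfectRing k p := PerfectField.toPerfectRing p
  have hf := expand_contract p h (Fact.out : p.Prime).ne_zero
  refine ⟨(contract p f).map ((frobeniusEquiv k p).symm : k →+* k), ?_⟩
  rw [ph_def, pow_one]
  set c := contract p f with hc
  have h2 : c = (c.map ((frobeniusEquiv k p).symm : k →+* k)).map (frobenius k p) := by
    rw [Polynomial.map_map]
    have : (frobenius k p).comp ((frobeniusEquiv k p).symm : k →+* k) = RingHom.id k := by
      ext a
      simp
    rw [this, Polynomial.map_id]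
  conv_lhs => rw [← hf, h2]
  rw [← map_expand, Polynomial.map_frobenius_expand]

omit [Fintype κ] in
lemma decompF (e : ℕ) (v : κ → k[X]) :
    (∃ w, v = Fr p e w) ∨ ∃ s, s < e ∧ ∃ n, v = Fr p s n ∧ DF n ≠ 0 := by
  induction e generalizing v with
  | zero => left; exact ⟨v, by rw [Fr_zero]⟩
  | succ e ih =>
    by_cases hv : DF v = 0
    · have hw : ∀ i, ∃ g, v i = ph p 1 g := fun i => exists_ph_of_deriv p (congrFun hv i)
      choose w hw using hw
      have hvw : v = Fr p 1 w := funext hw
      rcases ih w with ⟨u, hu⟩ | ⟨s, hs, n, hn, hn'⟩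
      · left
        refine ⟨u, ?_⟩
        rw [hvw, hu, Fr_Fr, add_comm]
      · right
        refine ⟨s + 1, by omega, n, ?_, hn'⟩
        rw [hvw, hn, Fr_Fr, add_comm]
    · right
      exact ⟨0, by omega, v, by rw [Fr_zero], hv⟩

end Frob

end Pool.Agent.H209R3.Gen
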