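import Pool.Agent.H209R3.Gen1

set_option autoImplicit false

namespace Pool.Agent.H209R3.Gen

open Polynomial

section Biv
variable {ι : Type*} {R : Type*} [CommRing R]

/-- wedge of two vectors -/
def wd (x y : ι → R) : ι × ι → R := fun a => x a.1 * y a.2 - x a.2 * y a.1

/-- `x ∧ w = 0` -/
def InP (x : ι → R) (w : ι × ι → R) : Prop :=
  ∀ i j l, x i * w (j, l) - x j * w (i, l) + x l * w (i, j) = 0

lemma inP_wd_left (x y : ι → R) : InP x (wd x y) := by
  intro i j l; simp only [wd]; ring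

lemma inP_wd_right (x y : ι → R) : InP y (wd x y) := by
  intro i j l; simp only [wd]; ring

lemma wd_self_eq (x y : ι → R) (i : ι) : wd x y (i, i) = 0 := by
  simp only [wd]; ring

lemma inP_of_scale [IsDomain R] {x : ι → R} {w m : ι × ι → R} {G : R} (hG : G ≠ 0)
    (h : ∀ a, w a = G * m a) (hx : InP x w) : InP x m := by
  intro i j l
  have := hx i j l
  rw [h, h, h] at this
  apply mul_left_cancel₀ hG
  linear_combination this

lemma inP_scale_vec [IsDomain R] {x y : ι → R} {w : ι × ι → R} {G : R} (hG : G ≠ 0)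
    (h : ∀ a, x a = G * y a) (hx : InP x w) : InP y w := by
  intro i j l
  have := hx i j l
  rw [h, h, h] at this
  apply mul_left_cancel₀ hG
  linear_combination this

lemma par_wd_of_inP {n n' : ι → R} {w : ι × ι → R} (h1 : InP n w) (h2 : InP n' w) :
    ParF (wd n n') w := by
  rintro ⟨i, j⟩ ⟨l, m⟩
  simp only [wd]
  have e1 := h1 i l m
  have e2 := h1 j l m
  have e3 := h2 i j m
  have e4 := h2 i j l
  linear_combination (n' j) * e1 - (n' i) * e2 - (n l) * e3 + (n m) * e4

lemma par_of_wd_eq_zero {x y : ι → R} (h : wd x y = 0) : ParF x y := by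
  intro i j
  have := congrFun h (i, j)
  simp only [wd, Pi.zero_apply] at this
  linear_combination this

lemma wd_ne_zero {x y : ι → R} (h : ¬ ParF x y) : wd x y ≠ 0 :=
  fun h0 => h (par_of_wd_eq_zero h0)

lemma minor_dvd [Fintype ι] {x : ι → R} (hx : PrimF x) {u v : ι × ι → R} (hu : InP x u)
    (hv : InP x v) (i j l : ι) : x i ∣ u (i, j) * v (i, l) - u (i, l) * v (i, j) := by
  obtain ⟨c, hc⟩ := hx
  have key : ∀ (w : ι × ι → R), InP x w → ∀ a b, w (a, b) =
      x a * (∑ m, c m * w (m, b)) - x b * (∑ m, c m * w (m, a)) := by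
    intro w hw a b
    calc w (a, b) = (∑ m, c m * x m) * w (a, b) := by rw [hc, one_mul]
      _ = ∑ m, (x a * (c m * w (m, b)) - x b * (c m * w (m, a))) := by
        rw [Finset.sum_mul]
        apply Finset.sum_congr rfl
        intro m _
        have := hw m a b
        linear_combination (c m) * this
      _ = _ := by rw [Finset.sum_sub_distrib, Finset.mul_sum, Finset.mul_sum]
  rw [key u hu i j, key v hv i l, key u hu i l, key v hv i j]
  refine ⟨x i * ((∑ m, c m * u (m, j)) * (∑ m, c m * v (m, l))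
      - (∑ m, c m * u (m, l)) * (∑ m, c m * v (m, j)))
      - x l * ((∑ m, c m * u (m, j)) * (∑ m, c m * v (m, i))
        - (∑ m, c m * v (m, j)) * (∑ m, c m * u (m, i)))
      - x j * ((∑ m, c m * u (m, i)) * (∑ m, c m * v (m, l))
        - (∑ m, c m * v (m, i)) * (∑ m, c m * u (m, l))), ?_⟩
  ring

lemma exists_minor [IsDomain R] {x : ι → R} (hx0 : ∀ i, x i ≠ 0) {u v : ι × ι → R}
    (hu : InP x u) (hv : InP x v) (i0 : ι) (huv : ¬ ParF u v) :
    ∃ i j l, u (i, j) * v (i, l) - u (i, l) * v (i, j) ≠ 0 := by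
  by_contra hcon
  push Not at hcon
  apply huv
  rintro ⟨j, l⟩ ⟨m, n⟩
  have h0 : x i0 * x i0 ≠ 0 := mul_ne_zero (hx0 i0) (hx0 i0)
  apply mul_left_cancel₀ h0
  have a1 := hu i0 j l
  have a2 := hu i0 m n
  have b1 := hv i0 j l
  have b2 := hv i0 m n
  have m1 := hcon i0 l n
  have m2 := hcon i0 l m
  have m3 := hcon i0 j n
  have m4 := hcon i0 j m
  linear_combination (x i0 * v (m, n)) * a1 + (x j * u (i0, l) - x l * u (i0, j)) * b2
    - (x i0 * v (j, l)) * a2 - (x m * u (i0, n) - x n * u (i0, m)) * b1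
    + (x j * x m) * m1 - (x j * x n) * m2 - (x l * x m) * m3 + (x l * x n) * m4

end Biv

section Wron
variable {ι : Type*} [Fintype ι] {k : Type*} [Field k] (p : ℕ) [Fact p.Prime] [CharP k p]

omit [Fintype ι] in
lemma inP_Fr (s : ℕ) {x : ι → k[X]} {w : ι × ι → k[X]} (h : InP x w) :
    InP (Fr p s x) (Fr p s w) := by
  intro i j l
  have := congrArg (ph p s) (h i j l)
  simp only [map_add, map_sub, map_mul, map_zero] at this
  exact this

omit [Fintype ι] in
lemma inP_of_Fr (s : ℕ) {x : ι → k[X]} {w : ι × ι → k[X]} (h : InP (Fr p s x) (Fr p s w)) :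
    InP x w := by
  intro i j l
  apply ph_inj p s
  have := h i j l
  simp only [Fr] at this
  simp only [map_add, map_sub, map_mul, map_zero]
  exact this

omit [Fintype ι] in
lemma DF_Fr (s : ℕ) (κ : Type*) (v : κ → k[X]) : DF (Fr p (s + 1) v) = 0 := by
  funext i
  exact deriv_ph p s (v i)

omit [Fintype ι] in
lemma inP_deriv_right {y : ι → k[X]} {n : ι × ι → k[X]} (hy : DF y = 0) (h : InP y n) :
    InP y (DF n) := by
  intro i j l
  have := congrArg derivative (h i j l)
  have hz : ∀ i, derivative (y i) = 0 := fun i => congrFun hy i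
  simp only [derivative_add, derivative_sub, derivative_mul, hz, derivative_zero] at this
  simp only [DF]
  linear_combination this

omit [Fintype ι] in
lemma inP_deriv_left {n : ι → k[X]} {y : ι × ι → k[X]} (hy : DF y = 0) (h : InP n y) :
    InP (DF n) y := by
  intro i j l
  have := congrArg derivative (h i j l)
  have hz : ∀ i, derivative (y i) = 0 := fun i => congrFun hy i
  simp only [derivative_add, derivative_sub, derivative_mul, hz, derivative_zero] at this
  simp only [DF]
  linear_combination this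

variable [PerfectField k]

lemma wronA [Nonempty ι] (e : ℕ) {w : ι × ι → k[X]} {x : ι → k[X]} {D : ℕ} (hw : PrimF w)
    (hx : PrimF x) (hx0 : ∀ i, x i ≠ 0) (hD : ∀ i, (x i).natDegree = D)
    (hin : InP (Fr p e x) w) (hns : ¬ ∃ n, w = Fr p e n) :
    p ^ e * D + 2 ≤ 2 * htF w := by
  rcases decompF p e w with h | ⟨s, hs, n, hn, hn'⟩
  · exact absurd h hns
  have hps : 0 < p ^ s := Nat.pow_pos (Fact.out : p.Prime).pos
  obtain ⟨j, hj⟩ : ∃ j, e = s + (j + 1) := ⟨e - s - 1, by omega⟩
  set y : ι → k[X] := Fr p (j + 1) x with hy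
  have hyx : Fr p e x = Fr p s y := by rw [hy, Fr_Fr, hj]
  have hnprim : PrimF n := primF_of_Fr p s (by rw [← hn]; exact hw)
  have hyprim : PrimF y := primF_Fr p _ hx
  have h1 : InP y n := inP_of_Fr p s (by rw [← hn, ← hyx]; exact hin)
  have h2 : InP y (DF n) := inP_deriv_right (DF_Fr p j ι x) h1
  have hnp := ne_par_deriv hnprim hn'
  have hy0 : ∀ i, y i ≠ 0 := by
    intro i h0
    apply hx0 i
    apply ph_inj p (j + 1)
    rw [map_zero]; exact h0
  obtain ⟨i, a, b, hne⟩ := exists_minor hy0 h1 h2 (Classical.arbitrary ι) hnp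
  have hdv := minor_dvd hyprim h1 h2 i a b
  have hdeg := natDegree_le_of_dvd hdv hne
  have hn1 := htF_pos_of_deriv hn'
  have hdeg2 := natDegree_wrF hn1 (le_htF n (i, a)) (le_htF n (i, b))
  have hyd : (y i).natDegree = p ^ (j + 1) * D := by
    rw [hy]; simp only [Fr, natDegree_ph, hD]
  have hB : p ^ (j + 1) * D + 2 ≤ 2 * htF n := by
    have : (y i).natDegree ≤ 2 * htF n - 2 := le_trans hdeg hdeg2
    omega
  have hC : htF w = p ^ s * htF n := by rw [hn, htF_Fr]
  rw [hC]
  have hD' : p ^ e * D = p ^ s * (p ^ (j + 1) * D) := by rw [hj, pow_add]; ring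
  rw [hD']
  nlinarith [Nat.mul_le_mul_left (p ^ s) hB]

lemma wronB [Nonempty ι] (e : ℕ) {b : ι → k[X]} {w : ι × ι → k[X]} (hb : PrimF b)
    (hw : PrimF w) (hin : InP b (Fr p e w)) (hns : ¬ ∃ n, b = Fr p e n) :
    p ^ e * htF w + 2 ≤ 2 * htF b := by
  rcases decompF p e b with h | ⟨s, hs, n, hn, hn'⟩
  · exact absurd h hns
  have hps : 0 < p ^ s := Nat.pow_pos (Fact.out : p.Prime).pos
  obtain ⟨j, hj⟩ : ∃ j, e = s + (j + 1) := ⟨e - s - 1, by omega⟩
  set y : ι × ι → k[X] := Fr p (j + 1) w with hy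
  have hyx : Fr p e w = Fr p s y := by rw [hy, Fr_Fr, hj]
  have hnprim : PrimF n := primF_of_Fr p s (by rw [← hn]; exact hb)
  have hyprim : PrimF y := primF_Fr p _ hw
  have h1 : InP n y := inP_of_Fr p s (by rw [← hn, ← hyx]; exact hin)
  have h2 : InP (DF n) y := inP_deriv_left (DF_Fr p j (ι × ι) w) h1
  have hnp := ne_par_deriv hnprim hn'
  have hle := htF_le_of_par hyprim (par_wd_of_inP h1 h2) (wd_ne_zero hnp)
  have hn1 := htF_pos_of_deriv hn'
  have hwr : htF (wd n (DF n)) ≤ 2 * htF n - 2 := by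
    apply htF_le
    rintro ⟨i, j⟩
    exact natDegree_wrF hn1 (le_htF n i) (le_htF n j)
  have hyd : htF y = p ^ (j + 1) * htF w := by rw [hy, htF_Fr]
  have hB : p ^ (j + 1) * htF w + 2 ≤ 2 * htF n := by
    rw [hyd] at hle
    omega
  have hC : htF b = p ^ s * htF n := by rw [hn, htF_Fr]
  rw [hC]
  have hD' : p ^ e * htF w = p ^ s * (p ^ (j + 1) * htF w) := by rw [hj, pow_add]; ring
  rw [hD']
  nlinarith [Nat.mul_le_mul_left (p ^ s) hB]

end Wron

end Pool.Agent.H209R3.Gen
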