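import Pool.Agent.H209R3.Gen3
import Pool.Agent.H209R3.Core

set_option autoImplicit false

namespace Pool.Agent.H209R3.Gen

open Polynomial

section Final
variable {ι : Type*} [Fintype ι] {k : Type*} [Field k] (p : ℕ) [Fact p.Prime] [CharP k p]

lemma indepF3 (e : ℕ) (hq : 3 ≤ p ^ e) {a0 a1 a2 : k[X]}
    (h : ph p e a0 + ph p e a1 * X + ph p e a2 * X ^ 2 = 0) : a0 = 0 ∧ a1 = 0 ∧ a2 = 0 := by
  have h1 : ∀ g : k[X], ph p e g = expand k (p ^ e) (g.map (iterateFrobenius k p e)) := by
    intro g
    rw [ph_def, ← map_iterateFrobenius_expand, map_expand]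
  have hinj : Function.Injective (iterateFrobenius k p e) := iterateFrobenius_inj k p e
  rw [h1, h1, h1] at h
  obtain ⟨h0, h1, h2⟩ := indep3 (k := k) hq (a0 := a0.map (iterateFrobenius k p e))
    (a1 := a1.map (iterateFrobenius k p e)) (a2 := a2.map (iterateFrobenius k p e))
    (by linear_combination h)
  exact ⟨(Polynomial.map_eq_zero_iff hinj).1 h0, (Polynomial.map_eq_zero_iff hinj).1 h1,
    (Polynomial.map_eq_zero_iff hinj).1 h2⟩

variable [PerfectField k]

lemma s10 (e : ℕ) (hq : 3 ≤ p ^ e) {x z : ι → k[X]} {n : ι × ι → k[X]} {b : k[X]}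
    (t : ι → ι → k) (ht : ∀ i j, t i j ^ p ^ e = t i j) (hn : n ≠ 0)
    (hxn : InP x (Fr p e n)) (hz : ¬ InP z n) (hx : x ≠ 0)
    (hB : ∀ i, ∑ j, C (t i j) * x j - X * x i = b * Fr p e z i) : False := by
  have : PerfectRing k p := PerfectField.toPerfectRing p
  obtain ⟨E, hE⟩ := exists_cartier (k := k) p e
  have hE1 : ∀ g f : k[X], E (ph p e g * f) = g * E f := fun g f => (hE g f).1
  have hE2 : ∀ g : k[X], E (ph p e g) = g := fun g => (hE g 0).2
  have hCt : ∀ i j, C (t i j) = ph p e (C (t i j)) := by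
    intro i j; rw [ph_C, ht]
  -- (1)
  have h1 : ∀ h : k[X], InP (fun i => E (h * x i)) n := by
    intro h i j l
    have := congrArg (fun f => E (h * f)) (hxn i j l)
    simp only [Fr, mul_zero, map_zero] at this
    have e1 : h * (x i * ph p e (n (j, l)) - x j * ph p e (n (i, l)) + x l * ph p e (n (i, j)))
        = ph p e (n (j, l)) * (h * x i) - ph p e (n (i, l)) * (h * x j)
          + ph p e (n (i, j)) * (h * x l) := by ring
    rw [e1, map_add, map_sub, hE1, hE1, hE1] at this
    show E (h * x i) * n (j, l) - E (h * x j) * n (i, l) + E (h * x l) * n (i, j) = 0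
    linear_combination this
  -- (2)
  have h2 : ∀ (h : k[X]) (i : ι), ∑ j, C (t i j) * E (h * x j)
      = E (X * h * x i) + E (h * b) * z i := by
    intro h i
    have := congrArg (fun f => E (h * f)) (hB i)
    simp only [Fr] at this
    have e1 : h * (∑ j, C (t i j) * x j - X * x i)
        = ∑ j, C (t i j) * (h * x j) - X * h * x i := by
      rw [mul_sub, Finset.mul_sum]
      congr 1
      · apply Finset.sum_congr rfl
        intro j _; ring
      · ring
    have e2 : h * (b * ph p e (z i)) = ph p e (z i) * (h * b) := by ring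
    rw [e1, e2, map_sub, map_sum, hE1] at this
    have e3 : ∀ j, E (C (t i j) * (h * x j)) = C (t i j) * E (h * x j) := by
      intro j
      conv_lhs => rw [hCt i j]
      exact hE1 _ _
    simp only [e3] at this
    linear_combination this
  -- (3)
  have h3 : ∀ h : k[X], (∀ i, E (h * x i) = 0) → ∀ i, E (X * h * x i) = 0 := by
    intro h hh
    have e1 : ∀ i, E (X * h * x i) = (- E (h * b)) * z i := by
      intro i
      have := h2 h i
      simp only [hh, mul_zero, Finset.sum_const_zero] at this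
      linear_combination -this
    by_cases hb : E (h * b) = 0
    · intro i
      rw [e1 i, hb]; simp
    · exact absurd (inP_scale_vec (neg_ne_zero.2 hb) e1 (h1 (X * h))) hz
  -- (4)
  have h4 : ∀ h : k[X], (∀ i, E (h * x i) = 0) → ∀ (f : k[X]) (i : ι), E (f * h * x i) = 0 := by
    intro h hh f
    induction f using Polynomial.induction_on with
    | C a =>
      intro i
      obtain ⟨a', ha'⟩ : ∃ a' : k, a' ^ p ^ e = a :=
        ⟨(iterateFrobeniusEquiv k p e).symm a, by
          rw [← iterateFrobeniusEquiv_def, RingEquiv.apply_symm_apply]⟩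
      have e1 : C a * h * x i = ph p e (C a') * (h * x i) := by
        rw [ph_C, ha']; ring
      rw [e1, hE1, hh, mul_zero]
    | add f g hf hg =>
      intro i
      rw [add_mul, add_mul, map_add, hf, hg, add_zero]
    | monomial m a hm =>
      intro i
      have := h3 (C a * X ^ m * h) hm i
      have e1 : C a * X ^ (m + 1) * h * x i = X * (C a * X ^ m * h) * x i := by ring
      rw [e1]; exact this
  -- (5)
  have h5 : ∀ h : k[X], (∀ i, E (h * x i) = 0) → h = 0 := by
    intro h hh
    obtain ⟨i, hi⟩ : ∃ i, x i ≠ 0 := by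
      by_contra hcon
      push Not at hcon
      exact hx (funext hcon)
    have e1 := h4 h hh ((h * x i) ^ (p ^ e - 1)) i
    have e2 : (h * x i) ^ (p ^ e - 1) * h * x i = ph p e (h * x i) := by
      rw [ph_def, mul_assoc, ← pow_succ]
      congr 1
      omega
    rw [e2, hE2] at e1
    exact (mul_eq_zero.1 e1).resolve_right hi
  -- (6)
  have h6 : ∀ a0 a1 a2 : k[X], (∀ i, a0 * E (1 * x i) + a1 * E (X * x i) + a2 * E (X ^ 2 * x i) = 0)
      → a0 = 0 ∧ a1 = 0 ∧ a2 = 0 := by
    intro a0 a1 a2 h
    apply indepF3 p e hq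
    apply h5
    intro i
    have e1 : (ph p e a0 + ph p e a1 * X + ph p e a2 * X ^ 2) * x i
        = ph p e a0 * (1 * x i) + ph p e a1 * (X * x i) + ph p e a2 * (X ^ 2 * x i) := by ring
    rw [e1, map_add, map_add, hE1, hE1, hE1]
    exact h i
  -- (7)
  obtain ⟨⟨i, j⟩, hij⟩ : ∃ a, n a ≠ 0 := by
    by_contra hcon
    push Not at hcon
    exact hn (funext hcon)
  obtain ⟨A, hA⟩ : ∃ A : ι → k[X], A = fun i => E (1 * x i) := ⟨_, rfl⟩
  obtain ⟨B, hB'⟩ : ∃ B : ι → k[X], B = fun i => E (X * x i) := ⟨_, rfl⟩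
  obtain ⟨G, hG⟩ : ∃ G : ι → k[X], G = fun i => E (X ^ 2 * x i) := ⟨_, rfl⟩
  have hAn : InP A n := by rw [hA]; exact h1 1
  have hBn : InP B n := by rw [hB']; exact h1 X
  have hGn : InP G n := by rw [hG]; exact h1 (X ^ 2)
  have h6' : ∀ a0 a1 a2 : k[X], (∀ i, a0 * A i + a1 * B i + a2 * G i = 0)
      → a0 = 0 ∧ a1 = 0 ∧ a2 = 0 := by
    intro a0 a1 a2 h
    apply h6
    rw [hA, hB', hG] at h
    exact h
  obtain ⟨r1, -, -⟩ := h6' (B i * G j - B j * G i) (G i * A j - G j * A i) (A i * B j - A j * B i)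
    (by
      intro l
      apply mul_left_cancel₀ hij
      have a1 := hAn i j l
      have a2 := hBn i j l
      have a3 := hGn i j l
      linear_combination (B i * G j - B j * G i) * a1 + (G i * A j - G j * A i) * a2
        + (A i * B j - A j * B i) * a3)
  obtain ⟨-, r2, r3⟩ := h6' 0 (- G i) (B i) (by
    intro l
    apply mul_left_cancel₀ hij
    have a2 := hBn i j l
    have a3 := hGn i j l
    linear_combination (- G i) * a2 + (B i) * a3 + n (i, l) * r1)
  obtain ⟨-, r4, r5⟩ := h6' 0 (- G j) (B j) (by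
    intro l
    apply mul_left_cancel₀ hij
    have a2 := hBn i j l
    have a3 := hGn i j l
    linear_combination (- G j) * a2 + (B j) * a3 + n (j, l) * r1)
  obtain ⟨-, r6, -⟩ := h6' 0 1 0 (by
    intro l
    apply mul_left_cancel₀ hij
    have a2 := hBn i j l
    linear_combination a2 - n (j, l) * r3 + n (i, l) * r5)
  exact one_ne_zero r6

end Final

end Pool.Agent.H209R3.Gen
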