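import Pool.Agent.H209R3.Gen4

set_option autoImplicit false

namespace Pool.Agent.H209R3.Gen

open Polynomial

section Final
variable {ι : Type*} [Fintype ι] {k : Type*} [Field k] (p : ℕ) [Fact p.Prime] [CharP k p]

lemma ph_eq_zero (e : ℕ) {f : k[X]} (h : ph p e f = 0) : f = 0 := by
  apply ph_inj p e
  rw [h, map_zero]

/-- unimodular parallel families: constant ratio -/
lemma im_of_parF [PerfectField k] (e : ℕ) {x y : ι → k[X]} (hx : PrimF x) (hy : PrimF y)
    (h : ParF x (Fr p e y)) : ∃ w, x = Fr p e w := by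
  have : PerfectRing k p := PerfectField.toPerfectRing p
  obtain ⟨l, hl⟩ := primF_par (primF_Fr p e hy) h
  have hlu : IsUnit l := unit_of_primF hx hl
  obtain ⟨a, ha, hla⟩ := Polynomial.isUnit_iff.1 hlu
  obtain ⟨a', ha'⟩ : ∃ a' : k, a' ^ p ^ e = a :=
    ⟨(iterateFrobeniusEquiv k p e).symm a, by
      rw [← iterateFrobeniusEquiv_def, RingEquiv.apply_symm_apply]⟩
  refine ⟨fun i => C a' * y i, ?_⟩
  funext i
  rw [hl i, ← hla]
  simp only [Fr, map_mul, ph_C, ha']

omit [Fact p.Prime] [CharP k p] in
lemma inP_comb {x y : ι → k[X]} {w : ι × ι → k[X]} {B : ι → k[X]} {c g δ : k[X]} (hc : c ≠ 0)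
    (h : ∀ i, c * B i = g * x i + δ * y i) (hx : InP x w) (hy : InP y w) : InP B w := by
  intro i j l
  apply mul_left_cancel₀ hc
  have a1 := hx i j l
  have a2 := hy i j l
  linear_combination (w (j, l)) * h i - (w (i, l)) * h j + (w (i, j)) * h l + g * a1 + δ * a2

variable [PerfectField k]

theorem coreN [Nonempty ι] (e : ℕ) (hq : 3 ≤ p ^ e) (hN : ∀ i j : ι, ∃ l, l ≠ i ∧ l ≠ j)
    (x : ι → k[X]) (D : ℕ) (hx : PrimF x) (hx0 : ∀ i, x i ≠ 0) (hD : ∀ i, (x i).natDegree = D)
    (hind : IndF (p ^ e) x) (t : ι → ι → k) (ht : ∀ i j, t i j ^ p ^ e = t i j)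
    (c g δ : k[X]) (hc : c ≠ 0) (hδ : δ ≠ 0)
    (h : ∀ i, c * (∑ j, C (t i j) * x j - X * x i) = g * Fr p e x i
      + δ * Fr p e (Fr p e x) i) : False := by
  obtain ⟨q, hqdef⟩ : ∃ q, q = p ^ e := ⟨_, rfl⟩
  have hq2 : 2 ≤ p ^ e := by omega
  have hepos : ∃ j, e = j + 1 := by
    rcases e with _ | j
    · simp at hq
    · exact ⟨j, rfl⟩
  have hperf : PerfectRing k p := PerfectField.toPerfectRing p
  have hCt : ∀ i j, C (t i j) = ph p e (C (t i j)) := by
    intro i j; rw [ph_C, ht]
  obtain ⟨B, hBdef⟩ : ∃ B : ι → k[X], B = fun i => ∑ j, C (t i j) * x j - X * x i := ⟨_, rfl⟩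
  have hB : ∀ i, c * B i = g * Fr p e x i + δ * Fr p e (Fr p e x) i := by
    intro i; rw [hBdef]; exact h i
  -- s0
  have hxF : ¬ ParF x (Fr p e x) := s0 p e hq2 hN hx hind
  obtain ⟨G, w, hG, hw, hGw⟩ := exists_primF (wd_ne_zero hxF)
  have hxw : InP x w := inP_of_scale hG hGw (inP_wd_left x (Fr p e x))
  have hFxw : InP (Fr p e x) w := inP_of_scale hG hGw (inP_wd_right x (Fr p e x))
  have hwdw : ParF (wd x (Fr p e x)) w := by
    intro a b
    rw [hGw a, hGw b]; ring
  -- s2
  have hs2 : ∀ v : ι × ι → k[X], PrimF v → InP x v → ¬ ParF v (Fr p e v) := fun v hv hv2 =>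
    s2 p e hq2 hN hind hv hv2
  -- s4
  have hs4 : ¬ InP x (Fr p e w) := by
    intro hcon
    have h1 : ParF (wd x (Fr p e x)) (Fr p e w) := par_wd_of_inP hcon (inP_Fr p e hxw)
    exact hs2 w hw hxw (parF_trans (wd_ne_zero hxF) (parF_symm hwdw) (parF_symm h1))
  -- s5
  have hBFw : InP B (Fr p e w) := inP_comb hc hB (inP_Fr p e hxw) (inP_Fr p e hFxw)
  -- s8
  have hxim : ¬ ∃ y, x = Fr p e y := by
    rintro ⟨y, hy⟩
    apply hs4
    have hxi : ∀ i, x i = ph p e (y i) := fun i => congrFun hy i
    intro i j l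
    have h1 := hBFw i j l
    obtain ⟨S, hS⟩ : ∃ S : ι → k[X], S = fun i => ∑ j, C (t i j) * y j := ⟨_, rfl⟩
    have hBi : ∀ i, B i = ph p e (S i) - X * ph p e (y i) := by
      intro i
      rw [hBdef, hS]
      simp only [map_sum, map_mul]
      rw [← hxi i]
      congr 1
      apply Finset.sum_congr rfl
      intro j _
      rw [← hxi j, ← hCt i j]
    have h2 : ph p e (S i * w (j, l) - S j * w (i, l) + S l * w (i, j))
        - X * ph p e (y i * w (j, l) - y j * w (i, l) + y l * w (i, j)) = 0 := by
      rw [← h1, hBi, hBi, hBi]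
      simp only [Fr, map_add, map_sub, map_mul]
      ring
    obtain ⟨e', he'⟩ := hepos
    have h3 := congrArg derivative h2
    rw [he'] at h3
    simp only [derivative_sub, derivative_mul, deriv_ph, derivative_X, derivative_zero] at h3
    have h4 : ph p e (y i * w (j, l) - y j * w (i, l) + y l * w (i, j)) = 0 := by
      rw [he']
      linear_combination -h3
    simp only [Fr]
    rw [hxi i, hxi j, hxi l, ← h4]
    simp only [map_add, map_sub, map_mul]
  have hD1 : 1 ≤ D := by
    by_contra hcon
    apply hxim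
    refine ⟨fun i => C ((iterateFrobeniusEquiv k p e).symm ((x i).coeff 0)), ?_⟩
    funext i
    simp only [Fr]
    rw [ph_C, ← iterateFrobeniusEquiv_def, RingEquiv.apply_symm_apply]
    exact eq_C_of_natDegree_eq_zero (by rw [hD i]; omega)
  have hxht : htF x = D := by
    apply le_antisymm (htF_le (fun i => (hD i).le))
    obtain ⟨i⟩ := ‹Nonempty ι›
    rw [← hD i]; exact le_htF x i
  -- s6
  have hBF : ¬ ParF B (Fr p e x) := by
    intro hpar
    apply hxF
    intro i j
    apply ph_inj p e
    apply mul_left_cancel₀ hδ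
    have e1 := hB i
    have e2 := hB j
    have e3 := hpar i j
    simp only [Fr] at e1 e2 e3 ⊢
    simp only [map_mul]
    linear_combination (ph p e (x j)) * e1 - (ph p e (x i)) * e2 - c * e3
  have hB0 : B ≠ 0 := by
    rintro h0
    apply hBF
    intro i j
    rw [h0]; simp
  obtain ⟨b, B', hb, hB', hbB⟩ := exists_primF hB0
  have hB'Fw : InP B' (Fr p e w) := inP_scale_vec hb hbB hBFw
  have hB'ht : htF B' ≤ D + 1 := by
    apply le_trans (htF_scale hb hbB)
    apply htF_le
    intro i
    rw [hBdef]
    apply le_trans (natDegree_sub_le _ _)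
    apply max_le
    · apply natDegree_sum_le_of_forall_le
      intro j _
      apply le_trans (natDegree_C_mul_le _ _)
      rw [hD j]; omega
    · apply le_trans natDegree_mul_le
      have h1 : (X : k[X]).natDegree ≤ 1 := natDegree_X_le
      rw [hD i]; omega
  have hB'F : ¬ ParF B' (Fr p e x) := by
    intro hpar
    apply hBF
    intro i j
    rw [hbB i, hbB j]
    linear_combination b * hpar i j
  have hα : (¬ ∃ n, w = Fr p e n) → q * D + 2 ≤ 2 * htF w := by
    intro hns
    rw [hqdef]
    exact wronA p e hw hx hx0 hD hFxw hns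
  have hβ : (¬ ∃ u, B' = Fr p e u) → q * htF w + 2 ≤ 2 * htF B' := by
    intro hns
    rw [hqdef]
    exact wronB p e hB' hw hB'Fw hns
  by_cases hwim : ∃ n, w = Fr p e n
  · obtain ⟨n, hn⟩ := hwim
    have hnp : PrimF n := primF_of_Fr p e (by rw [← hn]; exact hw)
    have hxn : InP x n := inP_of_Fr p e (by rw [← hn]; exact hFxw)
    have hxFn : InP x (Fr p e n) := by rw [← hn]; exact hxw
    have hnn : ¬ ParF n (Fr p e n) := hs2 n hnp hxn
    have hHn : htF w = q * htF n := by rw [hn, htF_Fr, hqdef]
    have hDn : D ≤ htF n + q * htF n := by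
      obtain ⟨i, j, l, hne⟩ := exists_minor hx0 hxn hxFn (Classical.arbitrary ι) hnn
      have hdv := natDegree_le_of_dvd (minor_dvd hx hxn hxFn i j l) hne
      rw [hD i] at hdv
      apply le_trans hdv
      have hF : ∀ a, (Fr p e n a).natDegree ≤ q * htF n := by
        intro a
        have := le_htF (Fr p e n) a
        rwa [htF_Fr, ← hqdef] at this
      apply le_trans (natDegree_sub_le _ _)
      apply max_le
      · exact le_trans natDegree_mul_le (add_le_add (le_htF n _) (hF _))
      · exact le_trans natDegree_mul_le (add_le_add (le_htF n _) (hF _))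
    have hn1 : 1 ≤ htF n := by
      by_contra hcon
      have : htF n = 0 := by omega
      rw [this] at hDn
      omega
    by_cases hBim : ∃ u, B' = Fr p e u
    · obtain ⟨u, hu⟩ := hBim
      have hup : PrimF u := primF_of_Fr p e (by rw [← hu]; exact hB')
      have hun : InP u (Fr p e n) := by
        rw [← hn]; exact inP_of_Fr p e (by rw [← hu]; exact hB'Fw)
      have hhu : q * htF u ≤ D + 1 := by
        rw [hqdef, ← htF_Fr, ← hu]; exact hB'ht
      by_cases huim : ∃ y, u = Fr p e y
      · obtain ⟨y, hy⟩ := huim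
        have hyp : PrimF y := primF_of_Fr p e (by rw [← hy]; exact hup)
        have hyn : InP y n := inP_of_Fr p e (by rw [← hy]; exact hun)
        have hFyn : InP (Fr p e y) (Fr p e n) := inP_Fr p e hyn
        have hz : ¬ InP (Fr p e y) n := by
          intro hcon
          apply hxim
          apply im_of_parF p e hx hyp
          -- both planes contain x and Fy
          by_contra hpar
          have h1 := par_wd_of_inP hxn hcon
          have h2 := par_wd_of_inP hxFn hFyn
          exact hnn (parF_trans (wd_ne_zero hpar) (parF_symm h1) (parF_symm h2))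
        refine s10 p e hq (x := x) (z := Fr p e y) (n := n) (b := b) t ht (primF_ne_zero hnp)
          hxFn hz (primF_ne_zero hx) ?_
        intro i
        have := hbB i
        rw [hu, hy] at this
        rw [← this, hBdef]
      · have h1 : q * htF n + 2 ≤ 2 * htF u := by
          rw [hqdef]
          exact wronB p e hup hnp hun huim
        rw [← hqdef] at hq
        nlinarith [Nat.mul_le_mul_left q h1, Nat.mul_le_mul_right (htF n) (Nat.mul_le_mul hq hq),
          Nat.mul_le_mul_right (htF n) hq]
    · have h1 := hβ hBim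
      rw [hHn] at h1
      rw [← hqdef] at hq
      have h2 : q * (q * htF n) + 2 ≤ 2 * (htF n + q * htF n + 1) := by omega
      nlinarith [Nat.mul_le_mul_right (htF n) (Nat.mul_le_mul hq hq),
        Nat.mul_le_mul_right (htF n) hq]
  · have h1 := hα hwim
    rw [← hqdef] at hq
    by_cases hBim : ∃ u, B' = Fr p e u
    · obtain ⟨u, hu⟩ := hBim
      have hup : PrimF u := primF_of_Fr p e (by rw [← hu]; exact hB')
      have huw : InP u w := inP_of_Fr p e (by rw [← hu]; exact hB'Fw)
      have hhu : q * htF u ≤ D + 1 := by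
        rw [hqdef, ← htF_Fr, ← hu]; exact hB'ht
      have hxu : ¬ ParF x u := by
        intro hpar
        apply hB'F
        rw [hu]
        intro i j
        have := hpar j i
        have h3 := congrArg (ph p e) this
        simp only [map_mul] at h3
        simp only [Fr]
        linear_combination h3
      have hle : htF w ≤ D + htF u := by
        have h2 := htF_le_of_par hw (par_wd_of_inP hxw huw) (wd_ne_zero hxu)
        apply le_trans h2
        apply htF_le
        rintro ⟨i, j⟩
        apply le_trans (natDegree_sub_le _ _)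
        apply max_le
        · exact le_trans natDegree_mul_le (add_le_add (hD _).le (le_htF u _))
        · exact le_trans natDegree_mul_le (add_le_add (hD _).le (le_htF u _))
      nlinarith [Nat.mul_le_mul_left q h1, Nat.mul_le_mul_left q hle,
        Nat.mul_le_mul_right D (Nat.mul_le_mul hq hq), Nat.mul_le_mul_right D hq]
    · have h2 := hβ hBim
      have h3 : q * htF w ≤ 2 * D := by omega
      nlinarith [Nat.mul_le_mul_left q h1, Nat.mul_le_mul_right D (Nat.mul_le_mul hq hq)]

end Final

end Pool.Agent.H209R3.Gen
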