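import Pool.Agent.H209R3.Gen5

set_option autoImplicit false

namespace Pool.Agent.H209R3.Gen

open Polynomial Module

section StageB
variable (L : Type*) [Field L] (p : ℕ) [Fact p.Prime] [CharP L p] (e : ℕ)

/-- the constants fixed by the `p^e`-power map -/
def Fix : Subfield L := RingHom.eqLocusField (iterateFrobenius L p e) (RingHom.id L)

variable {L}

lemma mem_Fix {c : L} : c ∈ Fix L p e ↔ c ^ p ^ e = c := Iff.rfl

lemma smul_Fix (c : Fix L p e) (f : L[X]) : c • f = C (c : L) * f := by
  rw [Algebra.smul_def]; rfl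

lemma exists_third {ι : Type*} [Fintype ι] (h : 3 ≤ Fintype.card ι) (i j : ι) :
    ∃ l, l ≠ i ∧ l ≠ j := by
  classical
  by_contra hcon
  push Not at hcon
  have h1 : (Finset.univ : Finset ι) ⊆ {i, j} := by
    intro l _
    by_cases hl : l = i
    · simp [hl]
    · simp [hcon l hl]
  have h2 := Finset.card_le_card h1
  have h3 : ({i, j} : Finset ι).card ≤ 2 := Finset.card_le_two
  rw [Finset.card_univ] at h2
  omega

variable [IsAlgClosed L]

theorem stageB (hq : 3 ≤ p ^ e) (V : Submodule (Fix L p e) L[X])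
    [FiniteDimensional (Fix L p e) V] (hV : 3 ≤ finrank (Fix L p e) V) (c g δ : L[X])
    (hc : c ≠ 0) (hδ : δ ≠ 0)
    (h : ∀ v ∈ V, ∃ u ∈ V, c * (u - X * v) = g * ph p e v + δ * ph p e (ph p e v)) : False := by
  classical
  -- maximal degree
  let b0 := finBasis (Fix L p e) V
  obtain ⟨D, hDdef⟩ : ∃ D, D = htF (fun i => (b0 i : L[X])) := ⟨_, rfl⟩
  have hne : Nonempty (Fin (finrank (Fix L p e) V)) := ⟨⟨0, by omega⟩⟩
  have hDle : ∀ v ∈ V, v.natDegree ≤ D := by
    intro v hv
    have h1 := b0.sum_repr ⟨v, hv⟩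
    have h2 := congrArg (Subtype.val) h1
    simp only [Submodule.coe_sum, Submodule.coe_smul] at h2
    rw [← h2]
    apply natDegree_sum_le_of_forall_le
    intro i _
    rw [smul_Fix]
    apply le_trans (natDegree_C_mul_le _ _)
    rw [hDdef]
    exact le_htF (fun i => (b0 i : L[X])) i
  obtain ⟨j0, hj0⟩ := exists_htF (fun i => (b0 i : L[X]))
  have hj0' : (b0 j0 : L[X]).natDegree = D := by rw [hDdef]; exact hj0
  have hj0ne : (b0 j0 : L[X]) ≠ 0 := by
    intro h0
    exact b0.ne_zero j0 (Subtype.ext h0)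
  -- spanning set
  let S : Set V := {v | (v : L[X]) ≠ 0 ∧ (v : L[X]).natDegree = D}
  have hspan : (⊤ : Submodule (Fix L p e) V) ≤ Submodule.span (Fix L p e) S := by
    intro v _
    by_cases hv0 : (v : L[X]) = 0
    · have : v = 0 := Subtype.ext hv0
      rw [this]; exact Submodule.zero_mem _
    by_cases hv : (v : L[X]).natDegree = D
    · exact Submodule.subset_span ⟨hv0, hv⟩
    · have hlt : (v : L[X]).natDegree < D := lt_of_le_of_ne (hDle v v.2) hv
      have hsum : ((v + b0 j0 : V) : L[X]).natDegree = D := by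
        rw [Submodule.coe_add, natDegree_add_eq_right_of_natDegree_lt (by rw [hj0']; exact hlt),
          hj0']
      have h1 : v + b0 j0 ∈ Submodule.span (Fix L p e) S := by
        apply Submodule.subset_span
        refine ⟨?_, hsum⟩
        intro h0
        rw [h0, natDegree_zero] at hsum
        omega
      have h2 : b0 j0 ∈ Submodule.span (Fix L p e) S := Submodule.subset_span ⟨hj0ne, hj0'⟩
      have h3 := Submodule.sub_mem _ h1 h2
      simpa using h3
  let b := Basis.ofSpan hspan
  have hbS : ∀ i, b i ∈ S := fun i => Basis.ofSpan_subset hspan ⟨i, rfl⟩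
  let ι := ((linearIndepOn_empty (Fix L p e) (id : V → V)).extend
    (Set.empty_subset S))
  letI : Fintype ι := FiniteDimensional.fintypeBasisIndex b
  have hcard : 3 ≤ Fintype.card ι := by
    rw [← finrank_eq_card_basis b]; exact hV
  have hN : ∀ i j : ι, ∃ l, l ≠ i ∧ l ≠ j := exists_third hcard
  have hneι : Nonempty ι := by
    rw [← Fintype.card_pos_iff]; omega
  let y : ι → L[X] := fun i => (b i : L[X])
  have hy0 : ∀ i, y i ≠ 0 := fun i => (hbS i).1
  have hyD : ∀ i, (y i).natDegree = D := fun i => (hbS i).2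
  have hyne : y ≠ 0 := by
    intro h0
    exact hy0 hneι.some (congrFun h0 _)
  obtain ⟨G, m, hG, hm, hGm⟩ := exists_primF hyne
  have hm0 : ∀ i, m i ≠ 0 := by
    intro i h0
    apply hy0 i
    rw [hGm i, h0, mul_zero]
  have hmD : ∀ i, (m i).natDegree = D - G.natDegree := by
    intro i
    have h1 := hyD i
    rw [hGm i, natDegree_mul hG (hm0 i)] at h1
    omega
  have hind : IndF (p ^ e) m := by
    intro a ha hsum
    have h1 : ∑ i, (⟨a i, ha i⟩ : Fix L p e) • b i = 0 := by
      apply Subtype.ext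
      rw [Submodule.coe_sum, Submodule.coe_zero]
      have h2 : ∀ i, (((⟨a i, ha i⟩ : Fix L p e) • b i : V) : L[X]) = G * (C (a i) * m i) := by
        intro i
        rw [Submodule.coe_smul, smul_Fix]
        have : (b i : L[X]) = G * m i := hGm i
        rw [this]; ring
      simp only [h2]
      rw [← Finset.mul_sum, hsum, mul_zero]
    have h3 := Fintype.linearIndependent_iff.1 b.linearIndependent
      (fun i => (⟨a i, ha i⟩ : Fix L p e)) h1
    funext i
    have := congrArg (fun z : Fix L p e => (z : L)) (h3 i)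
    simpa using this
  choose u hu hurel using h
  let t : ι → ι → L := fun i j => (b.repr ⟨u (b i) (b i).2, hu (b i) (b i).2⟩ j : L)
  have ht : ∀ i j, t i j ^ p ^ e = t i j := fun i j =>
    (b.repr ⟨u (b i) (b i).2, hu (b i) (b i).2⟩ j).2
  have hsum : ∀ i, u (b i) (b i).2 = ∑ j, C (t i j) * y j := by
    intro i
    have h1 := b.sum_repr ⟨u (b i) (b i).2, hu (b i) (b i).2⟩
    have h2 := congrArg (Subtype.val) h1
    simp only [Submodule.coe_sum, Submodule.coe_smul, smul_Fix] at h2
    exact h2.symm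
  have hphG : ph p e (ph p e G) ≠ 0 := fun h0 => hG (ph_eq_zero p e (ph_eq_zero p e h0))
  refine coreN p e hq hN m (D - G.natDegree) hm hm0 hmD hind t ht (c * G) (g * ph p e G)
    (δ * ph p e (ph p e G)) (mul_ne_zero hc hG) (mul_ne_zero hδ hphG) ?_
  intro i
  have h1 := hurel (b i) (b i).2
  rw [hsum i] at h1
  have h2 : (b i : L[X]) = G * m i := hGm i
  have h3 : ∑ j, C (t i j) * y j = G * ∑ j, C (t i j) * m j := by
    rw [Finset.mul_sum]
    apply Finset.sum_congr rfl
    intro j _
    rw [hGm j]; ring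
  rw [h2, h3, map_mul, map_mul] at h1
  simp only [Fr]
  linear_combination h1

end StageB

end Pool.Agent.H209R3.Gen
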