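import Pool.Agent.H209R3.Vec

set_option autoImplicit false

namespace Pool.Agent.H209R3

open Polynomial

variable {k : Type*} [Field k]

/-- height of a triple of polynomials -/
def ht (v : Fin 3 → k[X]) : ℕ := Finset.univ.sup (fun i => (v i).natDegree)

lemma le_ht (v : Fin 3 → k[X]) (i : Fin 3) : (v i).natDegree ≤ ht v :=
  Finset.le_sup (f := fun i => (v i).natDegree) (Finset.mem_univ i)

lemma exists_ht (v : Fin 3 → k[X]) : ∃ i, (v i).natDegree = ht v := by
  obtain ⟨i, _, hi⟩ := Finset.exists_mem_eq_sup (Finset.univ : Finset (Fin 3)) (by simp)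
    (fun i => (v i).natDegree)
  exact ⟨i, hi.symm⟩

lemma ht_le {v : Fin 3 → k[X]} {n : ℕ} (h : ∀ i, (v i).natDegree ≤ n) : ht v ≤ n :=
  Finset.sup_le (fun i _ => h i)

/-- the substitution X ↦ X^n on triples -/
noncomputable def Sb (n : ℕ) (v : Fin 3 → k[X]) : Fin 3 → k[X] := fun i => expand k n (v i)

/-- derivative of a triple -/
noncomputable def Dv (v : Fin 3 → k[X]) : Fin 3 → k[X] := fun i => derivative (v i)

lemma ht_Sb (n : ℕ) (v : Fin 3 → k[X]) : ht (Sb n v) = n * ht v := by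
  apply le_antisymm
  · apply ht_le
    intro i
    simp only [Sb, natDegree_expand]
    rw [mul_comm]
    exact Nat.mul_le_mul_left _ (le_ht v i)
  · obtain ⟨i, hi⟩ := exists_ht v
    have := le_ht (Sb n v) i
    simp only [Sb, natDegree_expand] at this
    rw [mul_comm, ← hi]
    exact this

lemma dt_Sb (n : ℕ) (a b : Fin 3 → k[X]) : dt (Sb n a) (Sb n b) = expand k n (dt a b) := by
  simp [dt, Sb]

lemma dt_Sb_eq_zero {n : ℕ} (hn : 0 < n) {a b : Fin 3 → k[X]} (h : dt (Sb n a) (Sb n b) = 0) :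
    dt a b = 0 := by
  rw [dt_Sb] at h
  exact (expand_eq_zero hn).1 h

lemma dt_Sb_of_zero (n : ℕ) {a b : Fin 3 → k[X]} (h : dt a b = 0) :
    dt (Sb n a) (Sb n b) = 0 := by
  rw [dt_Sb, h, map_zero]

lemma prim_Sb (n : ℕ) {a : Fin 3 → k[X]} (h : Prim a) : Prim (Sb n a) := by
  obtain ⟨c, hc⟩ := h
  exact ⟨Sb n c, by rw [dt_Sb, hc, map_one]⟩

lemma dvd_dt_Sb (n : ℕ) (g : k[X]) (a c : Fin 3 → k[X]) (h : ∀ i, g ∣ a i) :
    expand k n g ∣ dt c (Sb n a) := by
  obtain ⟨r0, hr0⟩ := h 0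
  obtain ⟨r1, hr1⟩ := h 1
  obtain ⟨r2, hr2⟩ := h 2
  refine ⟨c 0 * expand k n r0 + c 1 * expand k n r1 + c 2 * expand k n r2, ?_⟩
  simp only [dt, Sb]
  rw [hr0, hr1, hr2, map_mul, map_mul, map_mul]
  ring

lemma unit_of_expand {n : ℕ} (hn : 0 < n) {g : k[X]} (h : IsUnit (expand k n g)) : IsUnit g := by
  have hdeg : (expand k n g).natDegree = 0 := natDegree_eq_zero_of_isUnit h
  rw [natDegree_expand] at hdeg
  have hg0 : g.natDegree = 0 := by
    rcases Nat.mul_eq_zero.1 hdeg with h1 | h1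
    · exact h1
    · omega
  have hgne : g ≠ 0 := by
    rintro rfl
    rw [map_zero] at h
    exact not_isUnit_zero h
  exact isUnit_iff_degree_eq_zero.2 (by rw [degree_eq_natDegree hgne, hg0]; rfl)

lemma prim_of_Sb (n : ℕ) (hn : 0 < n) {a : Fin 3 → k[X]} (h : Prim (Sb n a)) : Prim a := by
  obtain ⟨g, hg⟩ := (IsPrincipalIdealRing.principal (Ideal.span (Set.range a))).principal
  have hg' : Ideal.span (Set.range a) = Ideal.span {g} := hg
  have hdiv : ∀ i, g ∣ a i := by
    intro i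
    rw [← Ideal.mem_span_singleton, ← hg']
    exact Ideal.subset_span ⟨i, rfl⟩
  obtain ⟨c, hc⟩ := h
  have hd : expand k n g ∣ (1 : k[X]) := by
    rw [← hc]
    exact dvd_dt_Sb n g a c hdiv
  have hu : IsUnit g := unit_of_expand hn (isUnit_of_dvd_one hd)
  have h1 : (1 : k[X]) ∈ Ideal.span (Set.range a) := by
    rw [hg', Ideal.mem_span_singleton]
    exact hu.dvd
  obtain ⟨c', hc'⟩ := Ideal.mem_span_range_iff_exists_fun.1 h1
  refine ⟨c', ?_⟩
  rw [dt, ← hc', Fin.sum_univ_three]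

lemma Sb_Sb (m n : ℕ) (v : Fin 3 → k[X]) : Sb m (Sb n v) = Sb (n * m) v := by
  funext i
  simp only [Sb]
  rw [expand_expand, mul_comm]

lemma Sb_one (v : Fin 3 → k[X]) : Sb 1 v = v := by
  funext i
  simp [Sb]

lemma Sb_injective {n : ℕ} (hn : 0 < n) {v w : Fin 3 → k[X]} (h : Sb n v = Sb n w) : v = w := by
  funext i
  exact expand_injective hn (congrFun h i)

lemma deriv_dt (a b : Fin 3 → k[X]) : derivative (dt a b) = dt (Dv a) b + dt a (Dv b) := by
  simp only [dt, Dv, derivative_add, derivative_mul]; ring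

lemma Dv_Sb {p : ℕ} [CharP k p] (j : ℕ) (v : Fin 3 → k[X]) : Dv (Sb (p ^ (j + 1)) v) = 0 := by
  funext i
  simp only [Dv, Sb, derivative_expand]
  have : ((p ^ (j + 1) : ℕ) : k[X]) = 0 := by
    rw [Nat.cast_pow, CharP.cast_eq_zero k[X] p, zero_pow (Nat.succ_ne_zero j)]
  rw [this]
  simp

lemma natDegree_wr {f g : k[X]} {d : ℕ} (hd : 1 ≤ d) (hf : f.natDegree ≤ d)
    (hg : g.natDegree ≤ d) : (f * derivative g - g * derivative f).natDegree ≤ 2 * d - 2 := by
  rw [natDegree_le_iff_coeff_eq_zero]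
  intro N hN
  have hf' : (derivative f).natDegree ≤ d - 1 := le_trans (natDegree_derivative_le f) (by omega)
  have hg' : (derivative g).natDegree ≤ d - 1 := le_trans (natDegree_derivative_le g) (by omega)
  rcases Nat.lt_or_ge (2 * d - 1) N with h1 | h1
  · apply coeff_eq_zero_of_natDegree_lt
    have : (f * derivative g - g * derivative f).natDegree ≤ d + (d - 1) := by
      apply le_trans (natDegree_sub_le _ _)
      apply max_le
      · exact le_trans natDegree_mul_le (by omega)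
      · exact le_trans natDegree_mul_le (by omega)
    omega
  · have hNe : N = d + (d - 1) := by omega
    rw [hNe, coeff_sub, coeff_mul_add_eq_of_natDegree_le hf hg',
      coeff_mul_add_eq_of_natDegree_le hg hf', coeff_derivative, coeff_derivative]
    have : d - 1 + 1 = d := by omega
    rw [this]
    ring

lemma ht_wr {v : Fin 3 → k[X]} (hv : 1 ≤ ht v) (i : Fin 3) :
    (cr v (Dv v) i).natDegree ≤ 2 * ht v - 2 := by
  fin_cases i
  · exact natDegree_wr hv (le_ht v 1) (le_ht v 2)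
  · exact natDegree_wr hv (le_ht v 2) (le_ht v 0)
  · exact natDegree_wr hv (le_ht v 0) (le_ht v 1)

lemma decomp (p : ℕ) [hp : Fact p.Prime] [CharP k p] (e : ℕ) (v : Fin 3 → k[X]) :
    (∃ w, v = Sb (p ^ e) w) ∨ ∃ s, s < e ∧ ∃ n, v = Sb (p ^ s) n ∧ Dv n ≠ 0 := by
  induction e generalizing v with
  | zero => left; exact ⟨v, by simp [Sb_one]⟩
  | succ e ih =>
    by_cases hv : Dv v = 0
    · have hw : v = Sb p (fun i => contract p (v i)) := by
        funext i
        simp only [Sb]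
        exact (expand_contract p (congrFun hv i) hp.out.ne_zero).symm
      set w : Fin 3 → k[X] := fun i => contract p (v i) with hwdef
      rcases ih w with ⟨u, hu⟩ | ⟨s, hs, n, hn, hn'⟩
      · left
        refine ⟨u, ?_⟩
        rw [hw, hu, Sb_Sb, pow_succ]
      · right
        refine ⟨s + 1, by omega, n, ?_, hn'⟩
        rw [hw, hn, Sb_Sb, pow_succ]
    · right
      exact ⟨0, by omega, v, by simp [Sb_one], hv⟩

/-- The Wronskian inequality. -/
lemma wron (p : ℕ) [hp : Fact p.Prime] [CharP k p] (e : ℕ) {v x : Fin 3 → k[X]}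
    (hv : Prim v) (hx : Prim x) (hdot : dt v (Sb (p ^ e) x) = 0)
    (hns : ¬ ∃ w, v = Sb (p ^ e) w) : p ^ e * ht x + 2 ≤ 2 * ht v := by
  rcases decomp p e v with h | ⟨s, hs, n, hn, hn'⟩
  · exact absurd h hns
  have hp0 : 0 < p := hp.out.pos
  have hps : 0 < p ^ s := Nat.pow_pos hp0
  obtain ⟨j, hj⟩ : ∃ j, e = s + (j + 1) := ⟨e - s - 1, by omega⟩
  set y : Fin 3 → k[X] := Sb (p ^ (j + 1)) x with hy
  have hyx : Sb (p ^ e) x = Sb (p ^ s) y := by
    rw [hy, Sb_Sb, hj, ← pow_add]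
    congr 2
    omega
  have hnprim : Prim n := by
    apply prim_of_Sb _ hps
    rw [← hn]; exact hv
  have hyprim : Prim y := prim_Sb _ hx
  have h1 : dt n y = 0 := by
    apply dt_Sb_eq_zero hps
    rw [← hn, ← hyx]; exact hdot
  have h2 : dt (Dv n) y = 0 := by
    have := deriv_dt n y
    rw [h1, hy, Dv_Sb] at this
    simp [dt] at this
    rw [hy]
    simp only [dt]
    exact this.symm
  obtain ⟨l, hl⟩ := prim_par hyprim (cr_par h1 h2)
  obtain ⟨i0, hi0⟩ : ∃ i, Dv n i ≠ 0 := by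
    by_contra hcon
    push Not at hcon
    exact hn' (funext hcon)
  have hn1 : 1 ≤ ht n := by
    have : (n i0).natDegree ≠ 0 := by
      intro h0
      apply hi0
      simp only [Dv]
      rw [eq_C_of_natDegree_eq_zero h0, derivative_C]
    have := le_ht n i0
    omega
  have hl0 : l ≠ 0 := by
    rintro rfl
    have hpar : Par n (Dv n) := by
      rw [par_iff_cr]
      funext i
      rw [hl i]; simp
    obtain ⟨m, hm⟩ := prim_par hnprim (par_symm hpar)
    have hmi := hm i0
    have hm0 : m ≠ 0 := by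
      rintro rfl
      rw [zero_mul] at hmi
      exact hi0 hmi
    have hni0 : n i0 ≠ 0 := by
      intro h0
      apply hi0
      simp only [Dv]
      rw [h0]; simp
    have hd : (Dv n i0).natDegree = m.natDegree + (n i0).natDegree := by
      rw [hmi, natDegree_mul hm0 hni0]
    have hd2 : (n i0).natDegree ≠ 0 := by
      intro h0
      apply hi0
      simp only [Dv]
      rw [eq_C_of_natDegree_eq_zero h0, derivative_C]
    have hd3 : (Dv n i0).natDegree < (n i0).natDegree := natDegree_derivative_lt hd2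
    omega
  obtain ⟨i1, hi1⟩ := exists_ht y
  by_cases hx0 : ht x = 0
  · rw [hx0]
    have : ht v = p ^ s * ht n := by rw [hn, ht_Sb]
    rw [this]
    nlinarith
  have hy1 : ht y = p ^ (j + 1) * ht x := by rw [hy, ht_Sb]
  have hyi : y i1 ≠ 0 := by
    intro h0
    rw [h0] at hi1
    simp at hi1
    rw [hy1] at hi1
    have : 0 < p ^ (j + 1) * ht x := Nat.mul_pos (Nat.pow_pos hp0) (Nat.pos_of_ne_zero hx0)
    omega
  have hA := ht_wr hn1 i1
  rw [hl i1, natDegree_mul hl0 hyi, hi1, hy1] at hA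
  have hB : p ^ (j + 1) * ht x + 2 ≤ 2 * ht n := by omega
  have hC : ht v = p ^ s * ht n := by rw [hn, ht_Sb]
  rw [hC]
  have hD : p ^ e * ht x = p ^ s * (p ^ (j + 1) * ht x) := by
    rw [hj, pow_add]; ring
  rw [hD]
  nlinarith [Nat.mul_le_mul_left (p ^ s) hB]

end Pool.Agent.H209R3
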