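import Mathlib

set_option autoImplicit false

namespace Pool.Agent.H209R3

open Module

/-- over an algebraically closed field every nonzero finite-dimensional space with an operator
has an invariant hyperplane -/
lemma exists_inv_hyp {F E : Type*} [Field F] [IsAlgClosed F] [AddCommGroup E] [Module F E]
    [FiniteDimensional F E] (f : E →ₗ[F] E) (n : ℕ) (hn : finrank F E = n + 1) :
    ∃ W : Submodule F E, finrank F W = n ∧ ∀ w ∈ W, f w ∈ W := by
  have : Nontrivial (Dual F E) := by
    apply Module.nontrivial_of_finrank_pos (R := F)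
    rw [Subspace.dual_finrank_eq, hn]; omega
  obtain ⟨μ, hμ⟩ := Module.End.exists_eigenvalue (K := F) (V := Dual F E) f.dualMap
  obtain ⟨l, hl⟩ := hμ.exists_hasEigenvector
  have hl0 : l ≠ 0 := hl.2
  have hle : f.dualMap l = μ • l := hl.apply_eq_smul
  refine ⟨LinearMap.ker l, ?_, ?_⟩
  · have h1 := LinearMap.finrank_range_add_finrank_ker l
    have h2 : finrank F (LinearMap.range l) = 1 := by
      have : LinearMap.range l = ⊤ := by
        apply LinearMap.range_eq_top.2
        exact LinearMap.surjective hl0
      rw [this, finrank_top, finrank_self]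
    omega
  · intro w hw
    rw [LinearMap.mem_ker] at hw ⊢
    have := congrArg (fun φ => φ w) hle
    simp only [LinearMap.dualMap_apply, LinearMap.smul_apply] at this
    rw [this, hw, smul_zero]

lemma exists_inv_sub {F E : Type*} [Field F] [IsAlgClosed F] [AddCommGroup E] [Module F E]
    [FiniteDimensional F E] (f : E →ₗ[F] E) (j : ℕ) :
    ∀ d : ℕ, finrank F E = j + d → ∃ W : Submodule F E, finrank F W = j ∧ ∀ w ∈ W, f w ∈ W := by
  intro d
  induction d generalizing E with
  | zero =>
    intro h
    exact ⟨⊤, by rw [finrank_top]; exact h, fun w _ => trivial⟩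
  | succ d ih =>
    intro h
    obtain ⟨H, hH, hHs⟩ := exists_inv_hyp f (j + d) (by rw [h]; rfl)
    obtain ⟨W, hW, hWs⟩ := ih (f.restrict hHs) hH
    refine ⟨W.map H.subtype, ?_, ?_⟩
    · rw [← hW]
      exact Submodule.finrank_map_subtype_eq H W
    · rintro w ⟨v, hv, rfl⟩
      exact ⟨f.restrict hHs v, hWs v hv, rfl⟩

end Pool.Agent.H209R3
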