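import Pool.Agent.H209R3.Core
import Pool.Agent.H209R3.Tri

set_option autoImplicit false

namespace Pool.Agent.H209R3

open Polynomial Module

lemma stage2 {L V : Type*} [Field L] [IsAlgClosed L] [AddCommGroup V] [Module L V]
    [FiniteDimensional L V] (q : ℕ) (hq : 0 < q) (hV : 3 ≤ finrank L V)
    (z : V →ₗ[L] L[X]) (hz : Function.Injective z) (f : V →ₗ[L] V) (c g δ : L[X])
    (hc : c ≠ 0) (hδ : δ ≠ 0)
    (h : ∀ v, c * (z (f v) - X * z v) = g * expand L q (z v)
      + δ * expand L q (expand L q (z v))) :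
    ∃ (x : Fin 3 → L[X]) (t : Fin 3 → Fin 3 → L) (c' g' δ' : L[X]), Prim x ∧ Indep x ∧
      c' ≠ 0 ∧ δ' ≠ 0 ∧ ∀ i, c' * (mv t x i - X * x i) = g' * Sb q x i
        + δ' * Sb q (Sb q x) i := by
  obtain ⟨W, hW, hWs⟩ := exists_inv_sub f 3 (finrank L V - 3) (by omega)
  let b : Basis (Fin 3) L W := finBasisOfFinrankEq L W hW
  let x : Fin 3 → L[X] := fun i => z (b i)
  let t : Fin 3 → Fin 3 → L := fun i l => b.repr ⟨f (b i), hWs _ (b i).2⟩ l
  have ht : ∀ i, (f (b i) : V) = t i 0 • (b 0 : V) + t i 1 • (b 1 : V) + t i 2 • (b 2 : V) := by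
    intro i
    have h1 := b.sum_repr ⟨f (b i), hWs _ (b i).2⟩
    have h2 := congrArg (Subtype.val) h1
    rw [Fin.sum_univ_three] at h2
    simp only [Submodule.coe_add, Submodule.coe_smul] at h2
    exact h2.symm
  have hmv : ∀ i, mv t x i = z (f (b i)) := by
    intro i
    rw [ht i]
    simp only [map_add, map_smul, mv, x, smul_eq_C_mul]
  have hind : Indep x := by
    intro a ha
    have h1 : z (a 0 • (b 0 : V) + a 1 • (b 1 : V) + a 2 • (b 2 : V)) = 0 := by
      simp only [map_add, map_smul, smul_eq_C_mul]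
      exact ha
    have h2 := hz (h1.trans (map_zero z).symm)
    have h3 : ∑ i, a i • b i = 0 := by
      rw [Fin.sum_univ_three]
      apply Subtype.ext
      simpa using h2
    funext i
    exact Fintype.linearIndependent_iff.1 b.linearIndependent a h3 i
  have hx0 : x ≠ 0 := by
    intro h0
    have := hind ![1, 0, 0] (by rw [h0]; simp [dt])
    have h1 : (1 : L) = 0 := by simpa using congrFun this 0
    exact one_ne_zero h1
  obtain ⟨G, w, hG, hw, hGw⟩ := exists_prim hx0
  have hSG : expand L q G ≠ 0 := fun h0 => hG ((expand_eq_zero hq).1 h0)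
  refine ⟨w, t, c * G, g * expand L q G, δ * expand L q (expand L q G), hw, ?_,
    mul_ne_zero hc hG, mul_ne_zero hδ (fun h0 => hSG ((expand_eq_zero hq).1 h0)), ?_⟩
  · intro a ha
    apply hind
    rw [dt_scale_right hGw, ha, mul_zero]
  · intro i
    have h1 := h (b i)
    have h2 : z (b i) = x i := rfl
    rw [← hmv i, h2, hGw i, mv_scale t hGw i, map_mul, map_mul] at h1
    simp only [Sb]
    linear_combination h1

lemma linInd_map {K L : Type*} [Field K] [Field L] [Algebra K L] {n : ℕ} {y : Fin n → K[X]}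
    (hy : LinearIndependent K y) :
    LinearIndependent L (fun j => Polynomial.map (algebraMap K L) (y j)) := by
  rw [Fintype.linearIndependent_iff] at hy ⊢
  intro c hc i
  rw [← Module.forall_dual_apply_eq_zero_iff K]
  intro φ
  apply hy (fun j => φ (c j))
  ext m
  have h1 := congrArg (fun P : L[X] => φ (P.coeff m)) hc
  simp only [finsetSum_coeff, coeff_smul, coeff_map, smul_eq_mul, coeff_zero, map_sum,
    map_zero] at h1 ⊢
  rw [← h1]
  apply Finset.sum_congr rfl
  intro j _
  rw [mul_comm (c j), ← Algebra.smul_def, map_smul, smul_eq_mul, mul_comm]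

lemma sum_comb {R ι : Type*} [CommRing R] [Fintype ι] (g δ : R) (v a b r : ι → R)
    (h : ∀ j, r j = g * a j + δ * b j) :
    ∑ j, v j * r j = g * ∑ j, v j * a j + δ * ∑ j, v j * b j := by
  rw [Finset.mul_sum, Finset.mul_sum, ← Finset.sum_add_distrib]
  apply Finset.sum_congr rfl
  intro j _
  rw [h j]; ring

lemma stage1 {K L : Type*} [Field K] [Field L] [IsAlgClosed L] [Algebra K L] (q : ℕ)
    (hq : 0 < q) (n : ℕ) (hn : 3 ≤ n) (y : Fin n → K[X]) (hy : LinearIndependent K y)
    (M : Fin n → Fin n → K) (c g δ : K[X]) (hc : c ≠ 0) (hδ : δ ≠ 0)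
    (h : ∀ j, c * (∑ i, C (M i j) * y i - X * y j) = g * expand K q (y j)
      + δ * expand K q (expand K q (y j))) :
    ∃ (x : Fin 3 → L[X]) (t : Fin 3 → Fin 3 → L) (c' g' δ' : L[X]), Prim x ∧ Indep x ∧
      c' ≠ 0 ∧ δ' ≠ 0 ∧ ∀ i, c' * (mv t x i - X * x i) = g' * Sb q x i
        + δ' * Sb q (Sb q x) i := by
  let ι := algebraMap K L
  have hι : Function.Injective ι := ι.injective
  let y' : Fin n → L[X] := fun j => (y j).map ι
  have hy' : LinearIndependent L y' := linInd_map hy
  let z : (Fin n → L) →ₗ[L] L[X] := Fintype.linearCombination L y'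
  have hzap : ∀ v, z v = ∑ j, C (v j) * y' j := by
    intro v
    simp only [z, Fintype.linearCombination_apply, smul_eq_C_mul]
  have hz : Function.Injective z := by
    rw [← LinearMap.ker_eq_bot, LinearMap.ker_eq_bot']
    intro v hv
    funext i
    rw [Fintype.linearCombination_apply] at hv
    exact Fintype.linearIndependent_iff.1 hy' v hv i
  let f : (Fin n → L) →ₗ[L] (Fin n → L) := Matrix.mulVecLin (Matrix.of (fun i j => ι (M i j)))
  refine stage2 q hq (V := Fin n → L) (by simpa using hn) z hz f (c.map ι) (g.map ι) (δ.map ι)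
    ?_ ?_ ?_
  · exact (Polynomial.map_ne_zero_iff hι).2 hc
  · exact (Polynomial.map_ne_zero_iff hι).2 hδ
  · intro v
    have hrel : ∀ j, c.map ι * (∑ i, C (ι (M i j)) * y' i - X * y' j)
        = g.map ι * expand L q (y' j) + δ.map ι * expand L q (expand L q (y' j)) := by
      intro j
      have h1 := congrArg (Polynomial.map ι) (h j)
      simp only [Polynomial.map_mul, Polynomial.map_sub, Polynomial.map_sum, Polynomial.map_add,
        map_C, map_X, map_expand] at h1
      exact h1
    have hzf : z (f v) = ∑ j, C (v j) * ∑ i, C (ι (M i j)) * y' i := by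
      rw [hzap]
      have : ∀ i, f v i = ∑ j, ι (M i j) * v j := by
        intro i
        simp only [f, Matrix.mulVecLin_apply, Matrix.mulVec, dotProduct, Matrix.of_apply]
      simp only [this, map_sum, map_mul, Finset.mul_sum, Finset.sum_mul]
      rw [Finset.sum_comm]
      apply Finset.sum_congr rfl
      intro j _
      apply Finset.sum_congr rfl
      intro i _
      ring
    rw [hzf, hzap]
    simp only [map_sum, map_mul, expand_C]
    have : c.map ι * (∑ j, C (v j) * ∑ i, C (ι (M i j)) * y' i - X * ∑ j, C (v j) * y' j)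
        = ∑ j, C (v j) * (c.map ι * (∑ i, C (ι (M i j)) * y' i - X * y' j)) := by
      simp only [mul_sub, Finset.mul_sum, Finset.sum_sub_distrib]
      congr 1
      · apply Finset.sum_congr rfl
        intro j _
        apply Finset.sum_congr rfl
        intro i _
        ring
      · apply Finset.sum_congr rfl
        intro j _
        ring
    rw [this]
    exact sum_comb _ _ _ _ _ _ hrel

end Pool.Agent.H209R3
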