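import Mathlib

set_option autoImplicit false

namespace Pool.Agent.H209R3.Uni

open Polynomial

variable {k : Type*} [Field k] [IsAlgClosed k] (p : ℕ) [Fact p.Prime] [CharP k p]

omit [IsAlgClosed k] in
lemma natDegree_wr {f g : k[X]} {d : ℕ} (hd : 1 ≤ d) (hf : f.natDegree ≤ d)
    (hg : g.natDegree ≤ d) : (derivative f * g - f * derivative g).natDegree ≤ 2 * d - 2 := by
  rw [natDegree_le_iff_coeff_eq_zero]
  intro N hN
  have hf' : (derivative f).natDegree ≤ d - 1 := le_trans (natDegree_derivative_le f) (by omega)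
  have hg' : (derivative g).natDegree ≤ d - 1 := le_trans (natDegree_derivative_le g) (by omega)
  rcases Nat.lt_or_ge (2 * d - 1) N with h1 | h1
  · apply coeff_eq_zero_of_natDegree_lt
    have : (derivative f * g - f * derivative g).natDegree ≤ d + (d - 1) := by
      apply le_trans (natDegree_sub_le _ _)
      apply max_le
      · exact le_trans natDegree_mul_le (by omega)
      · exact le_trans natDegree_mul_le (by omega)
    omega
  · have hNe : N = (d - 1) + d := by omega
    have hNe' : N = d + (d - 1) := by omega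
    rw [coeff_sub, hNe, coeff_mul_add_eq_of_natDegree_le hf' hg, ← hNe, hNe',
      coeff_mul_add_eq_of_natDegree_le hf hg', coeff_derivative, coeff_derivative]
    have : d - 1 + 1 = d := by omega
    rw [this]
    ring

omit [IsAlgClosed k] in
/-- product of prime powers dividing a nonzero polynomial -/
lemma sum_le_natDegree {G : k[X]} (hG : G ≠ 0) (S : Finset k) (n : k → ℕ)
    (h : ∀ a ∈ S, (X - C a) ^ n a ∣ G) : ∑ a ∈ S, n a ≤ G.natDegree := by
  have h1 : (∏ a ∈ S, (X - C a) ^ n a) ∣ G := by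
    apply Finset.prod_dvd_of_coprime
    · intro a _ b _ hab
      exact IsCoprime.pow (isCoprime_X_sub_C_of_isUnit_sub (sub_ne_zero.2 hab).isUnit)
    · exact h
  have h2 := natDegree_le_of_dvd h1 hG
  rw [natDegree_prod_of_monic _ _ (fun a _ => (monic_X_sub_C a).pow _)] at h2
  simpa [natDegree_pow, natDegree_X_sub_C] using h2

lemma arith_key {q r w : ℕ} (hq4 : 4 ≤ q) (hw : 2 * q ≤ w + 1) (hr : 2 * r ≤ q) :
    2 * q * q + w * r ≤ w * w := by
  obtain ⟨y, rfl⟩ : ∃ y, q = y + 4 := ⟨q - 4, by omega⟩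
  obtain ⟨x, rfl⟩ : ∃ x, w = 2 * y + 7 + x := ⟨w - (2 * y + 7), by omega⟩
  have h1 : (2 * y + 7 + x) * (2 * r) ≤ (2 * y + 7 + x) * (y + 4) := Nat.mul_le_mul_left _ hr
  have h2 : 2 * ((2 * y + 7 + x) * (2 * y + 7 + x)) = 4 * ((y + 4) * (y + 4))
      + (2 * y + 7 + x) * (y + 4) + (2 * (y * y) + 9 * y + 6 + 7 * (x * y) + 24 * x
        + 2 * (x * x)) := by ring
  have h3 : (2 * y + 7 + x) * (2 * r) = 2 * ((2 * y + 7 + x) * r) := by ring
  have h4 : 2 * (y + 4) * (y + 4) = 2 * ((y + 4) * (y + 4)) := by ring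
  rw [h4]
  omega

lemma arith {p r q m A B E : ℕ} (hp : 2 ≤ p) (hr : 1 ≤ r) (hq : q = p * r) (hm : 3 ≤ m)
    (hpm : ¬ p ∣ m) (hex : ¬ (q = 2 ∧ m = 3)) (hE : E = A + B) (hE1 : 1 ≤ E)
    (h1 : (q * m - 1) * B ≤ q * E)
    (h2 : (q * m + q - 1) * A ≤ 2 * q * (E - 1) + r * A) : False := by
  have hq2 : 2 * r ≤ q := by rw [hq]; exact Nat.mul_le_mul_right r hp
  have hqm : 3 * q ≤ q * m := by rw [mul_comm]; exact Nat.mul_le_mul_left q hm
  obtain ⟨w, hw⟩ : ∃ w, q * m = q + 1 + w := ⟨q * m - q - 1, by omega⟩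
  have e1 : (q * m - 1) = q + w := by omega
  have e2 : (q * m + q - 1) = 2 * q + w := by omega
  rw [e1, hE] at h1
  rw [e2, hE] at h2
  have hwlow : 2 * q ≤ w + 1 := by omega
  have hkey : 2 * q * q + w * r ≤ w * w := by
    rcases Nat.lt_or_ge q 4 with hq4 | hq4
    · have hq23 : q = 2 ∨ q = 3 := by omega
      rcases hq23 with h | h
      · -- q = 2 : p = 2, r = 1, m ≥ 5
        have hr1 : r = 1 := by omega
        have hp2 : p = 2 := by
          rw [hr1, mul_one] at hq; omega
        have hm3 : m ≠ 3 := fun h' => hex ⟨h, h'⟩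
        have hm4 : m ≠ 4 := by
          rintro rfl; apply hpm; rw [hp2]; norm_num
        have hm5 : 5 ≤ m := by omega
        rw [h] at hw
        have hw7 : 7 ≤ w := by omega
        rw [h, hr1]
        have := Nat.mul_le_mul_right w hw7
        omega
      · have hr1 : r = 1 := by omega
        have hp3 : p = 3 := by
          rw [hr1, mul_one] at hq; omega
        have hm3 : m ≠ 3 := by
          rintro rfl; apply hpm; rw [hp3]
        have hm4 : 4 ≤ m := by omega
        rw [h] at hw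
        have hw8 : 8 ≤ w := by omega
        rw [h, hr1]
        have := Nat.mul_le_mul_right w hw8
        omega
    · exact arith_key hq4 hwlow hq2
  -- w B ≤ q A
  have h3 : w * B ≤ q * A := by
    have a1 : (q + w) * B = q * B + w * B := by ring
    have a2 : q * (A + B) = q * A + q * B := by ring
    omega
  -- w A + 2 q ≤ 2 q B + r A
  have h4 : w * A + 2 * q ≤ 2 * q * B + r * A := by
    obtain ⟨e, he⟩ : ∃ e, A + B = e + 1 := ⟨A + B - 1, by omega⟩
    rw [he, Nat.add_sub_cancel] at h2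
    have a1 : (2 * q + w) * A = 2 * q * A + w * A := by ring
    have a2 : 2 * q * (A + B) = 2 * q * A + 2 * q * B := by ring
    have a3 : 2 * q * (e + 1) = 2 * q * e + 2 * q := by ring
    rw [he, a3] at a2
    omega
  have h5 : w * (w * A + 2 * q) ≤ w * (2 * q * B + r * A) := Nat.mul_le_mul_left w h4
  have h6 : 2 * q * (w * B) ≤ 2 * q * (q * A) := Nat.mul_le_mul_left (2 * q) h3
  have h7 : (2 * q * q + w * r) * A ≤ (w * w) * A := Nat.mul_le_mul_right A hkey
  have hw1 : 0 < w := by omega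
  have hq1 : 0 < q := by omega
  have h8 : 0 < w * q := Nat.mul_pos hw1 hq1
  have b1 : w * (w * A + 2 * q) = (w * w) * A + 2 * (w * q) := by ring
  have b2 : w * (2 * q * B + r * A) = 2 * q * (w * B) + (w * r) * A := by ring
  have b3 : (2 * q * q + w * r) * A = 2 * q * (q * A) + (w * r) * A := by ring
  omega

end Pool.Agent.H209R3.Uni
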