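import Pool.Agent.H209R3.Uni5

set_option autoImplicit false

namespace Pool.Agent.H209R3.Uni

open Polynomial

variable {k : Type*} [Field k] [IsAlgClosed k] (p : ℕ) [Fact p.Prime] [CharP k p]

/-- if `c` is a `p^(s+1)`-st power, all preperiodic points of `z^(p^s m) + c` are `p`-th powers -/
lemma descent {s m : ℕ} (hs : 1 ≤ s) (hm : 2 ≤ m) {b z : RatFunc k}
    (hinf : (b ^ (p ^ (s + 1))).num.natDegree ≤ (b ^ (p ^ (s + 1))).denom.natDegree)
    (hz : z ∈ PP (p ^ s * m) (b ^ (p ^ (s + 1)))) (hpm : (m : k) ≠ 0) : ∃ w, z = w ^ p := by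
  have hp : p.Prime := Fact.out
  have hq1 : 1 ≤ p ^ s := Nat.one_le_iff_ne_zero.2 (pow_ne_zero _ hp.ne_zero)
  have hq2 : 2 ≤ p ^ s := by
    calc 2 ≤ p := hp.two_le
      _ = p ^ 1 := (pow_one p).symm
      _ ≤ p ^ s := Nat.pow_le_pow_right hp.pos hs
  have hd : 2 ≤ p ^ s * m := by
    have := Nat.mul_le_mul_right m hq1
    omega
  let A := algebraMap k[X] (RatFunc k)
  have hA : Function.Injective A := IsFractionRing.injective k[X] (RatFunc k)
  set c := b ^ (p ^ (s + 1)) with hcdef
  obtain ⟨Z, hZdef⟩ : ∃ Z, Z = z ^ m + b ^ p := ⟨_, rfl⟩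
  have hZ : Z ^ (p ^ s) = z ^ (p ^ s * m) + c := by
    rw [hZdef, add_pow_char_pow, ← pow_mul, ← pow_mul, mul_comm m, ← pow_succ', hcdef]
  have hy : Z ^ (p ^ s) ∈ PP (p ^ s * m) c := by rw [hZ]; exact PP_map hz
  have hΔ : z.denom = Z.denom ^ (p ^ s) := by
    rw [← (pow_nd Z (p ^ s)).2]; exact denom_eq hd hz hy
  have hqk : ((p ^ s : ℕ) : k) = 0 := (CharP.cast_eq_zero_iff k p _).2 (dvd_pow_self p (by omega))
  have hpk : (p : k) = 0 := CharP.cast_eq_zero k p
  have hD' : derivative z.denom = 0 := by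
    rw [hΔ, derivative_pow, hqk, C_0, zero_mul, zero_mul]
  have hB : z.denom ^ m = b.denom ^ p := by
    apply pow_inj_monic ((RatFunc.monic_denom z).pow m) ((RatFunc.monic_denom b).pow p) hq1
    rw [← pow_mul, mul_comm m, denom_pow hd hz, hcdef, (pow_nd b _).2, ← pow_mul, ← pow_succ']
  have hkey : Z.num * z.denom ^ m = Z.denom * (z.num ^ m + b.num ^ p) := by
    apply hA
    rw [map_mul, map_mul, map_add, map_pow, map_pow, map_pow]
    have a1 : Z * A Z.denom = A Z.num := mul_denom Z
    have a2 : z * A z.denom = A z.num := mul_denom z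
    have a3 : b * A b.denom = A b.num := mul_denom b
    have a4 : A z.denom ^ m = A b.denom ^ p := by rw [← map_pow, ← map_pow, hB]
    rw [← a1, ← a2, ← a3, mul_pow, mul_pow, ← a4]
    calc Z * A Z.denom * A z.denom ^ m = (z ^ m + b ^ p) * A Z.denom * A z.denom ^ m := by
          rw [← hZdef]
      _ = _ := by ring
  have hder := congrArg derivative hkey
  rw [derivative_mul, derivative_mul, derivative_add, derivative_pow, derivative_pow,
    derivative_pow, hD', hpk, C_0, mul_zero, mul_zero, add_zero, zero_mul, zero_mul, add_zero]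
    at hder
  have hfin : (derivative Z.num * Z.denom - Z.num * derivative Z.denom) * z.denom ^ m
      = C (m : k) * (z.num ^ (m - 1) * (Z.denom ^ 2 * derivative z.num)) := by
    linear_combination Z.denom * hder - derivative Z.denom * hkey
  have hN' : derivative z.num = 0 := by
    by_contra hne
    have h1 : z.denom ^ m ∣ C (m : k) * (z.num ^ (m - 1) * (Z.denom ^ 2 * derivative z.num)) :=
      Dvd.intro_left _ hfin
    have hu : IsUnit (C (m : k)) := isUnit_C.2 (isUnit_iff_ne_zero.2 hpm)
    have h2 := (hu.dvd_mul_left).1 h1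
    have hcop : IsCoprime (z.denom ^ m) (z.num ^ (m - 1)) :=
      ((RatFunc.isCoprime_num_denom z).symm).pow
    have h3 := hcop.dvd_of_dvd_mul_left h2
    have hne2 : Z.denom ^ 2 * derivative z.num ≠ 0 :=
      mul_ne_zero (pow_ne_zero _ Z.denom_ne_zero) hne
    have h4 := natDegree_le_of_dvd h3 hne2
    rw [natDegree_pow, natDegree_mul (pow_ne_zero _ Z.denom_ne_zero) hne, natDegree_pow] at h4
    have h5 : (derivative z.num).natDegree < z.num.natDegree := by
      apply natDegree_derivative_lt
      intro h0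
      exact hne (derivative_of_natDegree_zero h0)
    have h6 : z.num.natDegree ≤ z.denom.natDegree := by classical exact num_le hd hz hinf
    have h7 : z.denom.natDegree = p ^ s * Z.denom.natDegree := by rw [hΔ, natDegree_pow]
    have h8 := Nat.mul_le_mul_right Z.denom.natDegree hq2
    have h9 := Nat.mul_le_mul_right z.denom.natDegree hm
    omega
  obtain ⟨N1, hN1⟩ := pth_root p hN'
  obtain ⟨D1, hD1⟩ := pth_root p hD'
  refine ⟨A N1 / A D1, ?_⟩
  rw [div_pow, ← map_pow, ← map_pow, ← hN1, ← hD1]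
  exact (RatFunc.num_div_denom z).symm

theorem mainInf {s m : ℕ} (hs : 1 ≤ s) (hm : 3 ≤ m) (hpm : ¬ p ∣ m)
    (hex : ¬ (p ^ s = 2 ∧ m = 3)) : ∀ n : ℕ, ∀ c : RatFunc k, c.denom.natDegree = n →
    c.num.natDegree ≤ c.denom.natDegree → (∀ a : k, c ≠ RatFunc.C a) →
    (PP (p ^ s * m) c).encard ≤ ((m * m : ℕ) : ℕ∞) := by
  have hp : p.Prime := Fact.out
  have hmk : (m : k) ≠ 0 := fun h => hpm ((CharP.cast_eq_zero_iff k p m).1 h)
  have hq1 : 1 ≤ p ^ s := Nat.one_le_iff_ne_zero.2 (pow_ne_zero _ hp.ne_zero)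
  have hd : 2 ≤ p ^ s * m := by
    have := Nat.mul_le_mul_right m hq1
    omega
  let A := algebraMap k[X] (RatFunc k)
  intro n
  induction n using Nat.strong_induction_on with
  | _ n ih =>
    intro c hn hinf hc
    have hpos : 1 ≤ c.denom.natDegree := by
      by_contra hcon
      have h0 : c.denom.natDegree = 0 := by omega
      have h1 : c.num.natDegree = 0 := by omega
      have h2 : c.denom = 1 := (RatFunc.monic_denom c).natDegree_eq_zero.1 h0
      apply hc (c.num.coeff 0)
      rw [← RatFunc.num_div_denom c, h2, map_one, div_one]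
      conv_lhs => rw [eq_C_of_natDegree_eq_zero h1]
      rw [RatFunc.algebraMap_C]
      congr 2
      conv_rhs => rw [RatFunc.num_algebraMap]
    rcases exists_j (p := p) c s with ⟨b, hb⟩ | ⟨j, hj, c0, h1, h2⟩
    · have hcb : c = (b ^ (p ^ s)) ^ p := by rw [hb, ← pow_mul, ← pow_succ]
      set b' := b ^ (p ^ s) with hb'
      have hsub : PP (p ^ s * m) c ⊆ (fun w => w ^ p) '' PP (p ^ s * m) b' := by
        intro z hz
        have hz' := hz
        rw [hb] at hz' hinf
        obtain ⟨w, hw⟩ := descent p hs (by omega) hinf hz' hmk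
        refine ⟨w, PP_frob p 1 ?_, hw.symm⟩
        rw [pow_one, ← hw, ← hcb]
        exact hz
      obtain ⟨e1, e2⟩ := pow_nd b' p
      rw [← hcb] at e1 e2
      have f1 : c.num.natDegree = p * b'.num.natDegree := by rw [e1, natDegree_pow]
      have f2 : c.denom.natDegree = p * b'.denom.natDegree := by rw [e2, natDegree_pow]
      have hp2 := Nat.mul_le_mul_right b'.denom.natDegree hp.two_le
      have hlt : b'.denom.natDegree < n := by omega
      have hle : b'.num.natDegree ≤ b'.denom.natDegree := by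
        rw [f1, f2] at hinf
        exact Nat.le_of_mul_le_mul_left hinf hp.pos
      refine (Set.encard_le_encard hsub).trans ((Set.encard_image_le _ _).trans
        (ih _ hlt b' rfl hle ?_))
      intro a ha
      apply hc (a ^ p)
      rw [hcb, ha, map_pow]
    · rcases Set.eq_empty_or_nonempty (PP (p ^ s * m) c) with he | ⟨z0, hz0⟩
      · rw [he, Set.encard_empty]; exact zero_le
      have hW : ∀ x ∈ PP (p ^ s * m) c, x ^ (p ^ (s - j) * m) + c0 ∈ PP (p ^ s * m) c0 ∧
          (x ^ (p ^ (s - j) * m) + c0) ^ (p ^ j) = x ^ (p ^ s * m) + c := by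
        intro x hx
        have e : (x ^ (p ^ (s - j) * m) + c0) ^ (p ^ j) = x ^ (p ^ s * m) + c := by
          rw [add_pow_char_pow, ← pow_mul, ← h1]
          congr 2
          have : p ^ s = p ^ (s - j) * p ^ j := by rw [← pow_add]; congr 1; omega
          rw [this]; ring
        refine ⟨PP_frob p j ?_, e⟩
        rw [e, ← h1]
        exact PP_map hx
      set W0 := z0 ^ (p ^ (s - j) * m) + c0 with hW0
      have hW0P : W0 ∈ PP (p ^ s * m) c0 := (hW z0 hz0).1
      have hder : derivative c0.num ≠ 0 := by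
        intro h0
        apply h2
        obtain ⟨N1, hN1⟩ := pth_root p h0
        have e1 : c0.denom = (W0.denom ^ (p ^ (s - 1) * m)) ^ p := by
          rw [← denom_pow hd hW0P, ← pow_mul]
          congr 1
          have : p ^ s = p ^ (s - 1) * p := by rw [← pow_succ]; congr 1; omega
          rw [this]; ring
        refine ⟨A N1 / A (W0.denom ^ (p ^ (s - 1) * m)), ?_⟩
        rw [div_pow, ← map_pow, ← map_pow, ← hN1, ← e1]
        exact (RatFunc.num_div_denom c0).symm
      have hinf0 : c0.num.natDegree ≤ c0.denom.natDegree := by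
        obtain ⟨e1, e2⟩ := pow_nd c0 (p ^ j)
        rw [← h1] at e1 e2
        rw [e1, e2, natDegree_pow, natDegree_pow] at hinf
        exact Nat.le_of_mul_le_mul_left hinf (pow_pos hp.pos j)
      have hP0 : (PP (p ^ s * m) c0).encard ≤ (m : ℕ∞) := by
        refine le_trans (Set.encard_le_encard ?_)
          (fib p s (by omega) c0 (W0 ^ (p ^ s * m) + c0))
        intro x hx
        exact claim1 p hs hm hpm hex hinf0 hder hx hW0P
      apply count_lem (PP (p ^ s * m) c) (fun x => x ^ (p ^ s * m) + c)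
        ((fun w => w ^ (p ^ j)) '' PP (p ^ s * m) c0) m m
      · exact (Set.encard_image_le _ _).trans hP0
      · intro x hx
        exact ⟨_, (hW x hx).1, (hW x hx).2⟩
      · intro y
        exact fib p s (by omega) c y

end Pool.Agent.H209R3.Uni
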