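import Pool.Agent.H209R3.Uni9
import Pool.Agent.H209R3.Uni6

set_option autoImplicit false

namespace Pool.Agent.H209R3.Uni

open Polynomial

variable {k : Type*} [Field k] [IsAlgClosed k] (p : ℕ) [Fact p.Prime] [CharP k p]

omit [Fact p.Prime] in
/-- facts on a preperiodic point in the image, relative to a fixed one -/
lemma yfacts {d : ℕ} (hd : 2 ≤ d) (hpd : p ∣ d) {c z z0 : RatFunc k}
    (hc : c.num.natDegree ≤ c.denom.natDegree) (hz : z ∈ PP d c) (hz0 : z0 ∈ PP d c) :
    (z ^ d + c).denom = (z0 ^ d + c).denom ∧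
    (z ^ d + c).num.natDegree ≤ (z0 ^ d + c).denom.natDegree ∧
    IsCoprime (z ^ d + c).num (z0 ^ d + c).denom ∧
    (z ^ d + c).num ^ d + c.num
      = ((z ^ d + c) ^ d + c).num * (z0 ^ d + c).denom ^ (d - 1) ∧
    (z0 ^ d + c).denom ^ (d - 2) * (derivative (z ^ d + c).num * (z0 ^ d + c).denom
      - (z ^ d + c).num * derivative (z0 ^ d + c).denom) = derivative c.num := by
  have hy := PP_map hz
  have hy0 := PP_map hz0
  have e1 := denom_eq hd hy hy0
  have e2 := denom_eq hd hz hy0
  refine ⟨e1, ?_, ?_, ?_, ?_⟩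
  · rw [← e1]; classical exact num_le hd hy hc
  · rw [← e1]; exact RatFunc.isCoprime_num_denom _
  · rw [← e1]; exact step_eq hd hy
  · have := G_eq p hd hpd hz
    rw [e2] at this
    exact this

omit [IsAlgClosed k] p in
lemma denom_pos_aux {d : ℕ} {c y : RatFunc k} (hc : c.num.natDegree ≤ c.denom.natDegree)
    (hcn : derivative c.num ≠ 0) (h : y.denom ^ d = c.denom) : 1 ≤ y.denom.natDegree := by
  by_contra hcon
  have h0 : y.denom.natDegree = 0 := by omega
  have h3 : c.denom.natDegree = 0 := by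
    rw [← h, natDegree_pow, h0, mul_zero]
  apply hcn
  have h4 : c.num.natDegree = 0 := by omega
  exact derivative_of_natDegree_zero h4

theorem claimA {s m : ℕ} (hs : 1 ≤ s) (hm : 3 ≤ m)
    (hpm : ¬ p ∣ m) {c : RatFunc k}
    (hc : c.num.natDegree ≤ c.denom.natDegree) (hcn : derivative c.num ≠ 0) :
    ((fun x => x ^ (p ^ s * m) + c) '' PP (p ^ s * m) c).encard ≤ ((1 : ℕ) : ℕ∞) := by
  have hp : p.Prime := Fact.out
  have hq1 : 1 ≤ p ^ s := Nat.one_le_iff_ne_zero.2 (pow_ne_zero _ hp.ne_zero)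
  have hd : 2 ≤ p ^ s * m := by
    have := Nat.mul_le_mul_right m hq1
    omega
  have hpd : p ∣ p ^ s * m := Dvd.dvd.mul_right (dvd_pow_self p (by omega)) m
  rw [Nat.cast_one, Set.encard_le_one_iff]
  rintro _ _ ⟨z1, h1, rfl⟩ ⟨z2, h2, rfl⟩
  simp only
  set d := p ^ s * m with hdd
  obtain ⟨-, a1, b1, c1, g1⟩ := yfacts p hd hpd hc h1 h1
  obtain ⟨e12, a2, b2, c2, g2⟩ := yfacts p hd hpd hc h2 h1
  have hD0 : (z1 ^ d + c).denom ^ (d - 2) ≠ 0 := pow_ne_zero _ (RatFunc.denom_ne_zero _)
  have hE := denom_pos_aux hc hcn (denom_pow hd (PP_map h1))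
  have hnum : (z1 ^ d + c).num = (z2 ^ d + c).num := by
    refine coreA p hs hm hpm (D := (z1 ^ d + c).denom) (F := c.num)
      (G := derivative (z1 ^ d + c).num * (z1 ^ d + c).denom
        - (z1 ^ d + c).num * derivative (z1 ^ d + c).denom)
      (RatFunc.monic_denom _) hE a1 a2 b1 b2 c1 c2 rfl ?_ ?_
    · apply mul_left_cancel₀ hD0
      rw [g1, g2]
    · intro h0
      rw [h0, mul_zero] at g1
      exact hcn g1.symm
  rw [← RatFunc.num_div_denom (z1 ^ d + c), ← RatFunc.num_div_denom (z2 ^ d + c), hnum, e12]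

theorem claimB {s : ℕ} (hs : 1 ≤ s) (hp2 : p ≠ 2) {c : RatFunc k}
    (hc : c.num.natDegree ≤ c.denom.natDegree) (hcn : derivative c.num ≠ 0) :
    ((fun x => x ^ (p ^ s * 2) + c) '' PP (p ^ s * 2) c).encard ≤ ((5 : ℕ) : ℕ∞) := by
  have hp : p.Prime := Fact.out
  have hq1 : 1 ≤ p ^ s := Nat.one_le_iff_ne_zero.2 (pow_ne_zero _ hp.ne_zero)
  have hd : 2 ≤ p ^ s * 2 := by omega
  have hpd : p ∣ p ^ s * 2 := Dvd.dvd.mul_right (dvd_pow_self p (by omega)) 2
  by_contra hcon
  have hlt : ((6 : ℕ) : ℕ∞) ≤ ((fun x => x ^ (p ^ s * 2) + c) '' PP (p ^ s * 2) c).encard := by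
    have := Order.add_one_le_of_lt (not_le.1 hcon)
    exact_mod_cast this
  obtain ⟨T, hT, hTc⟩ := Set.exists_subset_encard_eq hlt
  have hTfin : T.Finite := Set.finite_of_encard_eq_coe hTc
  have hcard : hTfin.toFinset.card = 6 := by
    have := hTfin.encard_eq_coe_toFinset_card
    rw [hTc] at this
    exact_mod_cast this.symm
  let φ := (hTfin.toFinset.equivFinOfCardEq hcard).symm
  have hmem : ∀ i, ((φ i : RatFunc k)) ∈ (fun x => x ^ (p ^ s * 2) + c) '' PP (p ^ s * 2) c :=
    fun i => hT (hTfin.mem_toFinset.1 (φ i).2)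
  choose z hz hzy using hmem
  set d := p ^ s * 2 with hdd
  have hy : ∀ i, z i ^ d + c = (φ i : RatFunc k) := hzy
  have F := fun i => yfacts p hd hpd hc (hz i) (hz 0)
  have hD0 : (z 0 ^ d + c).denom ^ (d - 2) ≠ 0 := pow_ne_zero _ (RatFunc.denom_ne_zero _)
  have hE := denom_pos_aux hc hcn (denom_pow hd (PP_map (hz 0)))
  refine coreB p hs hp2 (D := (z 0 ^ d + c).denom) (F := c.num)
    (G := derivative (z 0 ^ d + c).num * (z 0 ^ d + c).denom
      - (z 0 ^ d + c).num * derivative (z 0 ^ d + c).denom)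
    (N := fun i => (z i ^ d + c).num) (M := fun i => ((z i ^ d + c) ^ d + c).num)
    (RatFunc.monic_denom _) hE (fun i => (F i).2.1) (fun i => (F i).2.2.1)
    (fun i => (F i).2.2.2.1) ?_ ?_ ?_
  · intro i
    apply mul_left_cancel₀ hD0
    rw [(F i).2.2.2.2, (F 0).2.2.2.2]
  · intro h0
    have := (F 0).2.2.2.2
    rw [h0, mul_zero] at this
    exact hcn this.symm
  · intro i j hij
    have h1 : (z i ^ d + c).num = (z j ^ d + c).num := hij
    have h2 : z i ^ d + c = z j ^ d + c := by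
      rw [← RatFunc.num_div_denom (z i ^ d + c), ← RatFunc.num_div_denom (z j ^ d + c), h1,
        (F i).1, (F j).1]
    rw [hy, hy] at h2
    exact φ.injective (Subtype.ext h2)

theorem mainInf2 {s m B0 : ℕ} (hs : 1 ≤ s) (hm : 2 ≤ m) (hpm : ¬ p ∣ m)
    (H : ∀ c : RatFunc k, c.num.natDegree ≤ c.denom.natDegree → derivative c.num ≠ 0 →
      ((fun x => x ^ (p ^ s * m) + c) '' PP (p ^ s * m) c).encard ≤ (B0 : ℕ∞)) :
    ∀ n : ℕ, ∀ c : RatFunc k, c.denom.natDegree = n →
    c.num.natDegree ≤ c.denom.natDegree → (∀ a : k, c ≠ RatFunc.C a) →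
    (PP (p ^ s * m) c).encard ≤ ((m * (m * B0) : ℕ) : ℕ∞) := by
  have hp : p.Prime := Fact.out
  have hmk : (m : k) ≠ 0 := fun h => hpm ((CharP.cast_eq_zero_iff k p m).1 h)
  have hq1 : 1 ≤ p ^ s := Nat.one_le_iff_ne_zero.2 (pow_ne_zero _ hp.ne_zero)
  have hd : 2 ≤ p ^ s * m := by
    have := Nat.mul_le_mul_right m hq1
    omega
  let A := algebraMap k[X] (RatFunc k)
  intro n
  induction n using Nat.strong_induction_on with
  | _ n ih =>
    intro c hn hinf hc
    have hpos : 1 ≤ c.denom.natDegree := by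
      by_contra hcon
      have h0 : c.denom.natDegree = 0 := by omega
      have h1 : c.num.natDegree = 0 := by omega
      have h2 : c.denom = 1 := (RatFunc.monic_denom c).natDegree_eq_zero.1 h0
      apply hc (c.num.coeff 0)
      rw [← RatFunc.num_div_denom c, h2, map_one, div_one]
      conv_lhs => rw [eq_C_of_natDegree_eq_zero h1]
      rw [RatFunc.algebraMap_C]
      congr 2
      conv_rhs => rw [RatFunc.num_algebraMap]
    rcases exists_j (p := p) c s with ⟨b, hb⟩ | ⟨j, hj, c0, h1, h2⟩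
    · have hcb : c = (b ^ (p ^ s)) ^ p := by rw [hb, ← pow_mul, ← pow_succ]
      set b' := b ^ (p ^ s) with hb'
      have hsub : PP (p ^ s * m) c ⊆ (fun w => w ^ p) '' PP (p ^ s * m) b' := by
        intro z hz
        have hz' := hz
        rw [hb] at hz' hinf
        obtain ⟨w, hw⟩ := descent p hs hm hinf hz' hmk
        refine ⟨w, PP_frob p 1 ?_, hw.symm⟩
        rw [pow_one, ← hw, ← hcb]
        exact hz
      obtain ⟨e1, e2⟩ := pow_nd b' p
      rw [← hcb] at e1 e2
      have f1 : c.num.natDegree = p * b'.num.natDegree := by rw [e1, natDegree_pow]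
      have f2 : c.denom.natDegree = p * b'.denom.natDegree := by rw [e2, natDegree_pow]
      have hp2 := Nat.mul_le_mul_right b'.denom.natDegree hp.two_le
      have hlt : b'.denom.natDegree < n := by omega
      have hle : b'.num.natDegree ≤ b'.denom.natDegree := by
        rw [f1, f2] at hinf
        exact Nat.le_of_mul_le_mul_left hinf hp.pos
      refine (Set.encard_le_encard hsub).trans ((Set.encard_image_le _ _).trans
        (ih _ hlt b' rfl hle ?_))
      intro a ha
      apply hc (a ^ p)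
      rw [hcb, ha, map_pow]
    · rcases Set.eq_empty_or_nonempty (PP (p ^ s * m) c) with he | ⟨z0, hz0⟩
      · rw [he, Set.encard_empty]; exact zero_le
      have hW : ∀ x ∈ PP (p ^ s * m) c, x ^ (p ^ (s - j) * m) + c0 ∈ PP (p ^ s * m) c0 ∧
          (x ^ (p ^ (s - j) * m) + c0) ^ (p ^ j) = x ^ (p ^ s * m) + c := by
        intro x hx
        have e : (x ^ (p ^ (s - j) * m) + c0) ^ (p ^ j) = x ^ (p ^ s * m) + c := by
          rw [add_pow_char_pow, ← pow_mul, ← h1]
          congr 2
          have : p ^ s = p ^ (s - j) * p ^ j := by rw [← pow_add]; congr 1; omega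
          rw [this]; ring
        refine ⟨PP_frob p j ?_, e⟩
        rw [e, ← h1]
        exact PP_map hx
      set W0 := z0 ^ (p ^ (s - j) * m) + c0 with hW0
      have hW0P : W0 ∈ PP (p ^ s * m) c0 := (hW z0 hz0).1
      have hder : derivative c0.num ≠ 0 := by
        intro h0
        apply h2
        obtain ⟨N1, hN1⟩ := pth_root p h0
        have e1 : c0.denom = (W0.denom ^ (p ^ (s - 1) * m)) ^ p := by
          rw [← denom_pow hd hW0P, ← pow_mul]
          congr 1
          have : p ^ s = p ^ (s - 1) * p := by rw [← pow_succ]; congr 1; omega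
          rw [this]; ring
        refine ⟨A N1 / A (W0.denom ^ (p ^ (s - 1) * m)), ?_⟩
        rw [div_pow, ← map_pow, ← map_pow, ← hN1, ← e1]
        exact (RatFunc.num_div_denom c0).symm
      have hinf0 : c0.num.natDegree ≤ c0.denom.natDegree := by
        obtain ⟨e1, e2⟩ := pow_nd c0 (p ^ j)
        rw [← h1] at e1 e2
        rw [e1, e2, natDegree_pow, natDegree_pow] at hinf
        exact Nat.le_of_mul_le_mul_left hinf (pow_pos hp.pos j)
      have hP0 : (PP (p ^ s * m) c0).encard ≤ ((m * B0 : ℕ) : ℕ∞) := by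
        apply count_lem (PP (p ^ s * m) c0) (fun x => x ^ (p ^ s * m) + c0)
          ((fun x => x ^ (p ^ s * m) + c0) '' PP (p ^ s * m) c0) B0 m (H c0 hinf0 hder)
        · intro x hx
          exact Set.mem_image_of_mem _ hx
        · intro y
          exact fib p s (by omega) c0 y
      apply count_lem (PP (p ^ s * m) c) (fun x => x ^ (p ^ s * m) + c)
        ((fun w => w ^ (p ^ j)) '' PP (p ^ s * m) c0) (m * B0) m
      · exact (Set.encard_image_le _ _).trans hP0
      · intro x hx
        exact ⟨_, (hW x hx).1, (hW x hx).2⟩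
      · intro y
        exact fib p s (by omega) c y

end Pool.Agent.H209R3.Uni
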