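import Pool.Agent.H209R3.Uni10

set_option autoImplicit false

namespace Pool.Agent.H209R3.Uni

open Polynomial

section moeb
variable {k : Type*} [Field k]

/-- the automorphism `T ↦ a + 1/T` -/
lemma exists_moebius (a : k) : ∃ φ : RatFunc k →+* RatFunc k, ∀ P : k[X],
    φ (algebraMap k[X] (RatFunc k) P)
      = P.eval₂ (RatFunc.C : k →+* RatFunc k) (RatFunc.C a + (RatFunc.X : RatFunc k)⁻¹) := by
  set x : RatFunc k := RatFunc.C a + (RatFunc.X : RatFunc k)⁻¹ with hx
  have htr : Transcendental k x := by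
    intro halg
    apply (RatFunc.transcendental_X : Transcendental k (RatFunc.X : RatFunc k))
    have hC : IsAlgebraic k (RatFunc.C a : RatFunc k) := by
      have := isAlgebraic_algebraMap (R := k) (A := RatFunc k) a
      rwa [RatFunc.algebraMap_eq_C] at this
    have h1 : IsAlgebraic k ((RatFunc.X : RatFunc k)⁻¹) := by
      have := halg.sub hC
      rwa [hx, add_sub_cancel_left] at this
    have h2 := h1.inv
    rwa [inv_inv] at h2
  have hinj : Function.Injective (aeval x : k[X] →ₐ[k] RatFunc k) :=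
    transcendental_iff_injective.1 htr
  let g : k[X] →+* RatFunc k := (aeval x : k[X] →ₐ[k] RatFunc k).toRingHom
  have hg : Function.Injective g := hinj
  refine ⟨IsFractionRing.lift hg, fun P => ?_⟩
  rw [IsFractionRing.lift_algebraMap]
  show aeval x P = _
  rw [aeval_def, RatFunc.algebraMap_eq_C]

open scoped Classical in
lemma vinf_poly (a : k) (P : k[X]) :
    RatFunc.inftyValuation k (P.eval₂ (RatFunc.C : k →+* RatFunc k)
      (RatFunc.C a + (RatFunc.X : RatFunc k)⁻¹)) ≤ 1 := by
  have hC : ∀ b : k, RatFunc.inftyValuation k (RatFunc.C b) ≤ 1 := by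
    intro b
    rcases eq_or_ne b 0 with rfl | hb
    · simp
    · rw [RatFunc.inftyValuation.C _ hb]
  have hX : RatFunc.inftyValuation k ((RatFunc.X : RatFunc k)⁻¹) ≤ 1 := by
    rw [← one_div, RatFunc.inftyValuation.X_inv, ← WithZero.exp_zero, WithZero.exp_le_exp]
    norm_num
  have hx : RatFunc.inftyValuation k (RatFunc.C a + (RatFunc.X : RatFunc k)⁻¹) ≤ 1 :=
    Valuation.map_add_le _ (hC a) hX
  induction P using Polynomial.induction_on' with
  | add p q hp hq =>
    rw [eval₂_add]
    exact Valuation.map_add_le _ hp hq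
  | monomial n b =>
    rw [eval₂_monomial, map_mul, map_pow]
    exact mul_le_one' (hC b) (pow_le_one' hx n)

open scoped Classical in
lemma vinf_poly_one (a : k) (P : k[X]) (h : P.eval a ≠ 0) :
    RatFunc.inftyValuation k (P.eval₂ (RatFunc.C : k →+* RatFunc k)
      (RatFunc.C a + (RatFunc.X : RatFunc k)⁻¹)) = 1 := by
  obtain ⟨Q, hQ⟩ := X_sub_C_dvd_sub_C_eval (p := P) (a := a)
  have hP : P = C (P.eval a) + (X - C a) * Q := by rw [← hQ]; ring
  have e : P.eval₂ (RatFunc.C : k →+* RatFunc k) (RatFunc.C a + (RatFunc.X : RatFunc k)⁻¹)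
      = RatFunc.C (P.eval a) + (RatFunc.X : RatFunc k)⁻¹
        * Q.eval₂ (RatFunc.C : k →+* RatFunc k) (RatFunc.C a + (RatFunc.X : RatFunc k)⁻¹) := by
    conv_lhs => rw [hP]
    rw [eval₂_add, eval₂_mul, eval₂_sub, eval₂_X, eval₂_C, eval₂_C, add_sub_cancel_left]
  rw [e, Valuation.map_add_eq_of_lt_left, RatFunc.inftyValuation.C _ h]
  rw [RatFunc.inftyValuation.C _ h, map_mul]
  have h1 : RatFunc.inftyValuation k ((RatFunc.X : RatFunc k)⁻¹) < 1 := by
    rw [← one_div, RatFunc.inftyValuation.X_inv, ← WithZero.exp_zero, WithZero.exp_lt_exp]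
    norm_num
  exact mul_lt_one_of_lt_of_le h1 (vinf_poly a Q)

lemma PP_hom {K L : Type*} [Field K] [Field L] (h : K →+* L) {d : ℕ} {c z : K}
    (hz : z ∈ PP d c) : h z ∈ PP d (h c) := by
  have hit : ∀ n : ℕ, (fun z : L => z ^ d + h c)^[n] (h z)
      = h ((fun z : K => z ^ d + c)^[n] z) := by
    intro n
    induction n with
    | zero => rfl
    | succ n ih =>
      rw [Function.iterate_succ_apply', Function.iterate_succ_apply', ih, map_add, map_pow]
  obtain ⟨m, n, hmn, e⟩ := hz
  exact ⟨m, n, hmn, by rw [hit, hit, e]⟩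

end moeb

section base
variable {k L : Type*} [Field k] [Field L] [Algebra k L]

/-- embedding of rational function fields induced by a field embedding -/
lemma exists_emb3 (k L : Type*) [Field k] [Field L] [Algebra k L] :
    ∃ j : RatFunc k →+* RatFunc L, ∀ P : k[X], j (algebraMap k[X] (RatFunc k) P)
      = algebraMap L[X] (RatFunc L) (P.map (algebraMap k L)) := by
  let g : k[X] →+* RatFunc L :=
    (algebraMap L[X] (RatFunc L)).comp (Polynomial.mapRingHom (algebraMap k L))
  have hg : Function.Injective g := by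
    apply Function.Injective.comp (IsFractionRing.injective L[X] (RatFunc L))
    exact Polynomial.map_injective _ (algebraMap k L).injective
  refine ⟨IsFractionRing.lift hg, fun P => ?_⟩
  rw [IsFractionRing.lift_algebraMap]
  rfl

lemma nonconst_emb {j : RatFunc k →+* RatFunc L} (hj : ∀ P : k[X],
    j (algebraMap k[X] (RatFunc k) P) = algebraMap L[X] (RatFunc L) (P.map (algebraMap k L)))
    {c : RatFunc k} (hc : ∀ a : k, c ≠ RatFunc.C a) (b : L) : j c ≠ RatFunc.C b := by
  intro h
  have h1 := mul_denom c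
  have h2 := congrArg j h1
  rw [map_mul, hj, hj, h, ← RatFunc.algebraMap_C, ← map_mul] at h2
  have h3 := IsFractionRing.injective L[X] (RatFunc L) h2
  have h4 := congrArg (fun P => P.coeff c.denom.natDegree) h3
  simp only [coeff_C_mul, coeff_map] at h4
  have h5 : c.denom.coeff c.denom.natDegree = 1 := (RatFunc.monic_denom c).coeff_natDegree
  rw [h5, map_one, mul_one] at h4
  set a := c.num.coeff c.denom.natDegree with ha
  rw [h4, ← Polynomial.map_C, ← Polynomial.map_mul] at h3
  have h6 := Polynomial.map_injective _ (algebraMap k L).injective h3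
  apply hc a
  have hD : algebraMap k[X] (RatFunc k) c.denom ≠ 0 := by
    intro h0
    exact c.denom_ne_zero ((IsFractionRing.injective k[X] (RatFunc k)) (h0.trans (map_zero _).symm))
  apply mul_right_cancel₀ hD
  rw [h1, ← h6, map_mul, RatFunc.algebraMap_C]

end base

/-- main theorem: algebraically closed constants -/
theorem mainAC {k : Type*} [Field k] [IsAlgClosed k] (p : ℕ) [Fact p.Prime] [CharP k p]
    {s m : ℕ} (hs : 1 ≤ s) (hm : 2 ≤ m) (hpm : ¬ p ∣ m) {c : RatFunc k}
    (hc : ∀ a : k, c ≠ RatFunc.C a) :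
    (PP (p ^ s * m) c).encard ≤ ((if m = 2 then 20 else m ^ 2 : ℕ) : ℕ∞) := by
  classical
  obtain ⟨a, ha⟩ : ∃ a : k, c.denom.eval a ≠ 0 := by
    by_contra hcon
    push Not at hcon
    apply c.denom_ne_zero
    exact Polynomial.funext (fun r => by rw [hcon r, eval_zero])
  obtain ⟨φ, hφ⟩ := exists_moebius a
  have hφinj : Function.Injective φ := φ.injective
  have hφC : ∀ b : k, φ (RatFunc.C b) = RatFunc.C b := by
    intro b
    rw [← RatFunc.algebraMap_C, hφ, eval₂_C, RatFunc.algebraMap_C]
  have hnc : ∀ b : k, φ c ≠ RatFunc.C b := by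
    intro b hb
    apply hc b
    apply hφinj
    rw [hb, hφC]
  have hinf : (φ c).num.natDegree ≤ (φ c).denom.natDegree := by
    rw [← vinf_le]
    have e : φ c = φ (algebraMap k[X] (RatFunc k) c.num) / φ (algebraMap k[X] (RatFunc k) c.denom) := by
      rw [← map_div₀, RatFunc.num_div_denom]
    rw [e, hφ, hφ, map_div₀, vinf_poly_one a _ ha, div_one]
    exact vinf_poly a _
  have hmain : (PP (p ^ s * m) (φ c)).encard ≤ ((if m = 2 then 20 else m ^ 2 : ℕ) : ℕ∞) := by
    split_ifs with h2
    · subst h2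
      have hp2 : p ≠ 2 := by rintro rfl; exact hpm dvd_rfl
      have := mainInf2 (k := k) p (B0 := 5) hs le_rfl hpm
        (fun c h1 h2 => claimB p hs hp2 h1 h2) _ (φ c) rfl hinf hnc
      norm_num at this
      exact_mod_cast this
    · have := mainInf2 (k := k) p (B0 := 1) hs hm hpm
        (fun c h1 h2 => claimA p hs (by omega) hpm h1 h2) _ (φ c) rfl hinf hnc
      rw [mul_one, ← pow_two] at this
      exact this
  rw [← hφinj.encard_image]
  refine (Set.encard_le_encard ?_).trans hmain
  rintro _ ⟨z, hz, rfl⟩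
  exact PP_hom φ hz

/-- main theorem: any field of constants -/
theorem mainAny {k : Type*} [Field k] (p : ℕ) [Fact p.Prime] [CharP k p]
    {s m : ℕ} (hs : 1 ≤ s) (hm : 2 ≤ m) (hpm : ¬ p ∣ m) {c : RatFunc k}
    (hc : ∀ a : k, c ≠ RatFunc.C a) :
    (PP (p ^ s * m) c).encard ≤ ((if m = 2 then 20 else m ^ 2 : ℕ) : ℕ∞) := by
  obtain ⟨j, hj⟩ := exists_emb3 k (AlgebraicClosure k)
  have hchar2 : CharP (AlgebraicClosure k) p :=
    charP_of_injective_algebraMap (algebraMap k (AlgebraicClosure k)).injective p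
  have hjinj : Function.Injective j := j.injective
  have h1 := mainAC (k := AlgebraicClosure k) p hs hm hpm (nonconst_emb hj hc)
  rw [← hjinj.encard_image]
  refine (Set.encard_le_encard ?_).trans h1
  rintro _ ⟨z, hz, rfl⟩
  exact PP_hom j hz

end Pool.Agent.H209R3.Uni
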