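import Pool.Agent.H209R3.Uni11

set_option autoImplicit false

namespace Pool.Agent.H209R3.Uni

open Polynomial WithZero

/-- preperiodic points of a self-map -/
def Pre {K : Type*} (f : K → K) : Set K := {z | ∃ m n : ℕ, m < n ∧ f^[m] z = f^[n] z}

lemma Pre_map {K : Type*} {f : K → K} {z : K} (h : z ∈ Pre f) : f z ∈ Pre f := by
  obtain ⟨m, n, hmn, h⟩ := h
  refine ⟨m, n, hmn, ?_⟩
  have e1 := Function.iterate_succ_apply f m z
  have e2 := Function.iterate_succ_apply f n z
  rw [Function.iterate_succ_apply'] at e1 e2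
  rw [← e1, ← e2, h]

section val
variable {K Γ : Type*} [Field K] [LinearOrderedCommGroupWithZero Γ] (v : Valuation K Γ)

lemma escapeG {d : ℕ} (hd : 2 ≤ d) {c z : K} {g : K → K} (hg : ∀ y, 1 < v y → v (g y) = v y ^ d)
    (hz : z ∈ Pre (fun y => g y + c)) : ¬ (1 < v z ∧ v c < v z ^ d) := by
  intro hP
  obtain ⟨m, n, hmn, h⟩ := hz
  set f : K → K := fun z => g z + c with hf
  have step : ∀ y, (1 < v y ∧ v c < v y ^ d) →
      (v y < v (f y) ∧ (1 < v (f y) ∧ v c < v (f y) ^ d)) := by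
    rintro y ⟨h1, h2⟩
    have e : v (f y) = v y ^ d := by
      rw [hf]
      show v (g y + c) = _
      rw [Valuation.map_add_eq_of_lt_left, hg y h1]
      rw [hg y h1]; exact h2
    have h3 : v y < v y ^ d := lt_self_pow₀ h1 (by omega)
    have h4 : 1 < v y ^ d := h1.trans h3
    rw [e]
    exact ⟨h3, h4, h2.trans (lt_self_pow₀ h4 (by omega))⟩
  have hall : ∀ j : ℕ, (1 < v (f^[j] z) ∧ v c < v (f^[j] z) ^ d) := by
    intro j
    induction j with
    | zero => exact hP
    | succ j ih => rw [Function.iterate_succ_apply']; exact (step _ ih).2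
  have hmono : StrictMono (fun j : ℕ => v (f^[j] z)) := by
    apply strictMono_nat_of_lt_succ
    intro j
    show v (f^[j] z) < v (f^[j + 1] z)
    rw [Function.iterate_succ_apply']
    exact (step _ (hall j)).1
  have h5 := hmono hmn
  simp only [h] at h5
  exact lt_irrefl _ h5

lemma val_le_oneG {d : ℕ} (hd : 2 ≤ d) {c z : K} {g : K → K}
    (hg : ∀ y, 1 < v y → v (g y) = v y ^ d)
    (hz : z ∈ Pre (fun y => g y + c)) (hc : v c ≤ 1) : v z ≤ 1 := by
  by_contra hcon
  have h1 : 1 < v z := not_le.1 hcon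
  exact escapeG v hd hg hz ⟨h1, lt_of_le_of_lt hc (h1.trans (lt_self_pow₀ h1 (by omega)))⟩

lemma val_eqG {d : ℕ} (hd : 2 ≤ d) {c z : K} {g : K → K}
    (hg : ∀ y, 1 < v y → v (g y) = v y ^ d) (hg2 : ∀ y, v y ≤ 1 → v (g y) ≤ 1)
    (hz : z ∈ Pre (fun y => g y + c)) (hc : 1 < v c) :
    v z ^ d = v c := by
  rcases lt_trichotomy (v z ^ d) (v c) with h | h | h
  · exfalso
    have hlt : v (g z) < v c := by
      rcases lt_or_ge 1 (v z) with h1 | h1
      · rw [hg z h1]; exact h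
      · exact lt_of_le_of_lt (hg2 z h1) hc
    have e : v (g z + c) = v c := Valuation.map_add_eq_of_lt_right v hlt
    apply escapeG v hd hg (Pre_map hz)
    simp only [e]
    exact ⟨hc, lt_self_pow₀ hc (by omega)⟩
  · exact h
  · exfalso
    apply escapeG v hd hg hz
    refine ⟨?_, h⟩
    by_contra hcon
    have : v z ^ d ≤ 1 := pow_le_one₀ zero_le (not_lt.1 hcon)
    exact absurd (lt_of_lt_of_le (hc.trans h) this) (lt_irrefl _)

end val

section ratf
variable {k : Type*} [Field k]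

lemma v_aeval_le {v : Valuation (RatFunc k) ℤᵐ⁰} (hk : ∀ b : k, v (RatFunc.C b) ≤ 1)
    (R : k[X]) {z : RatFunc k} (hz : v z ≤ 1) : v (aeval z R) ≤ 1 := by
  rw [aeval_eq_sum_range]
  apply Valuation.map_sum_le
  intro i _
  rw [Algebra.smul_def, RatFunc.algebraMap_eq_C, map_mul, map_pow]
  exact mul_le_one' (hk _) (pow_le_one' hz i)

lemma v_aeval_eq {v : Valuation (RatFunc k) ℤᵐ⁰} (hk : ∀ b : k, v (RatFunc.C b) ≤ 1)
    {R : k[X]} (hR : R.Monic) {z : RatFunc k} (hz : 1 < v z) :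
    v (aeval z R) = v z ^ R.natDegree := by
  rw [aeval_eq_sum_range, Finset.sum_range_succ, hR.coeff_natDegree, one_smul]
  have hlt : v (∑ i ∈ Finset.range R.natDegree, R.coeff i • z ^ i) < v z ^ R.natDegree := by
    apply Valuation.map_sum_lt
    · exact pow_ne_zero _ (ne_of_gt (lt_trans zero_lt_one hz))
    · intro i hi
      rw [Algebra.smul_def, RatFunc.algebraMap_eq_C, map_mul, map_pow]
      calc v (RatFunc.C (R.coeff i)) * v z ^ i ≤ 1 * v z ^ i := by
            gcongr; exact hk _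
        _ = v z ^ i := one_mul _
        _ < v z ^ R.natDegree := pow_lt_pow_right₀ hz (Finset.mem_range.1 hi)
  rw [Valuation.map_add_eq_of_lt_right, map_pow]
  rw [map_pow]; exact hlt

/-- the map `z ↦ R(z)^q + c` -/
noncomputable def fR (R : k[X]) (q : ℕ) (c : RatFunc k) : RatFunc k → RatFunc k :=
  fun z => (aeval z R) ^ q + c

lemma hgq {v : Valuation (RatFunc k) ℤᵐ⁰} (hk : ∀ b : k, v (RatFunc.C b) ≤ 1)
    {R : k[X]} (hR : R.Monic) (q : ℕ) : (∀ y, 1 < v y → v ((aeval y R) ^ q)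
      = v y ^ (q * R.natDegree)) ∧ (∀ y, v y ≤ 1 → v ((aeval y R) ^ q) ≤ 1) := by
  constructor
  · intro y hy
    rw [map_pow, v_aeval_eq hk hR hy, ← pow_mul, mul_comm]
  · intro y hy
    rw [map_pow]
    exact pow_le_one' (v_aeval_le hk R hy) q

lemma denomG [IsAlgClosed k] {R : k[X]} (hR : R.Monic) {q : ℕ} (hd : 2 ≤ q * R.natDegree)
    {c z : RatFunc k} (hz : z ∈ Pre (fR R q c)) :
    z.denom ^ (q * R.natDegree) = c.denom := by
  apply monic_ext ((RatFunc.monic_denom z).pow _) (RatFunc.monic_denom c)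
  intro a
  obtain ⟨v, hv⟩ := exists_va a
  obtain ⟨z1, z2⟩ := va_denom hv z
  obtain ⟨c1, c2⟩ := va_denom hv c
  have hk : ∀ b : k, v (RatFunc.C b) ≤ 1 := by
    intro b
    rcases eq_or_ne b 0 with rfl | hb
    · simp
    · rw [← RatFunc.algebraMap_C, hv _ (C_ne_zero.2 hb), rootMultiplicity_C]
      simp
  obtain ⟨hg1, hg2⟩ := hgq hk hR q
  rw [rm_pow]
  have hgt : ∀ n : ℕ, n ≠ 0 → (1 : ℤᵐ⁰) < exp (n : ℤ) := by
    intro n hn
    rw [← exp_zero, exp_lt_exp]; omega
  rcases eq_or_ne (c.denom.rootMultiplicity a) 0 with h0 | h0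
  · have h1 := val_le_oneG v hd hg1 hz (c1 h0)
    have h2 : z.denom.rootMultiplicity a = 0 := by
      by_contra h3
      rw [z2 h3] at h1
      exact absurd (lt_of_lt_of_le (hgt _ h3) h1) (lt_irrefl _)
    rw [h2, h0, mul_zero]
  · have h1 := val_eqG v hd hg1 hg2 hz (by rw [c2 h0]; exact hgt _ h0)
    have h2 : z.denom.rootMultiplicity a ≠ 0 := by
      intro h3
      have h4 : v z ^ (q * R.natDegree) ≤ 1 := pow_le_one₀ zero_le (z1 h3)
      rw [h1, c2 h0] at h4
      exact absurd (lt_of_lt_of_le (hgt _ h0) h4) (lt_irrefl _)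
    rw [z2 h2, c2 h0, ← exp_nsmul] at h1
    have h5 := exp_injective h1
    simp only [nsmul_eq_mul] at h5
    exact_mod_cast h5

lemma num_leG {R : k[X]} (hR : R.Monic) {q : ℕ} (hd : 2 ≤ q * R.natDegree)
    {c z : RatFunc k} (hz : z ∈ Pre (fR R q c))
    (hc : c.num.natDegree ≤ c.denom.natDegree) : z.num.natDegree ≤ z.denom.natDegree := by
  classical
  have hk : ∀ b : k, RatFunc.inftyValuation k (RatFunc.C b) ≤ 1 := by
    intro b
    rcases eq_or_ne b 0 with rfl | hb
    · simp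
    · rw [RatFunc.inftyValuation.C _ hb]
  exact (vinf_le z).1 (val_le_oneG _ hd (hgq hk hR q).1 hz ((vinf_le c).2 hc))

/-- homogenisation -/
noncomputable def Rh (R N D : k[X]) : k[X] :=
  ∑ i ∈ Finset.range (R.natDegree + 1), C (R.coeff i) * N ^ i * D ^ (R.natDegree - i)

lemma Rh_spec (R : k[X]) (z : RatFunc k) :
    algebraMap k[X] (RatFunc k) (Rh R z.num z.denom)
      = aeval z R * algebraMap k[X] (RatFunc k) z.denom ^ R.natDegree := by
  rw [Rh, map_sum, aeval_eq_sum_range, Finset.sum_mul]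
  apply Finset.sum_congr rfl
  intro i hi
  have hi' : i ≤ R.natDegree := Nat.lt_succ_iff.1 (Finset.mem_range.1 hi)
  have e : R.natDegree = i + (R.natDegree - i) := by omega
  rw [map_mul, map_mul, map_pow, map_pow, ← mul_denom z, Algebra.smul_def,
    RatFunc.algebraMap_eq_C, RatFunc.algebraMap_C]
  conv_rhs => rw [e]
  rw [mul_pow, pow_add]
  ring

/-- first expansion: modulo `D` -/
lemma Rh_sub (R N1 N2 D : k[X]) : ∃ Q T : k[X], Rh R N1 D - Rh R N2 D = (N1 - N2) * Q ∧
    Q = C (R.coeff R.natDegree) * (∑ j ∈ Finset.range R.natDegree,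
      N1 ^ j * N2 ^ (R.natDegree - 1 - j)) + D * T := by
  refine ⟨∑ i ∈ Finset.range (R.natDegree + 1), C (R.coeff i) * D ^ (R.natDegree - i)
      * (∑ j ∈ Finset.range i, N1 ^ j * N2 ^ (i - 1 - j)),
    ∑ i ∈ Finset.range R.natDegree, C (R.coeff i) * D ^ (R.natDegree - i - 1)
      * (∑ j ∈ Finset.range i, N1 ^ j * N2 ^ (i - 1 - j)), ?_, ?_⟩
  · rw [Rh, Rh, ← Finset.sum_sub_distrib, Finset.mul_sum]
    apply Finset.sum_congr rfl
    intro i _
    have := geom_sum₂_mul N1 N2 i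
    linear_combination (-(C (R.coeff i) * D ^ (R.natDegree - i))) * this
  · rw [Finset.sum_range_succ, add_comm, Nat.sub_self, pow_zero, mul_one]
    congr 1
    rw [Finset.mul_sum]
    apply Finset.sum_congr rfl
    intro i hi
    have hi' := Finset.mem_range.1 hi
    have e : R.natDegree - i = (R.natDegree - i - 1) + 1 := by omega
    conv_lhs => rw [e]
    rw [pow_succ]
    ring

/-- second expansion: modulo `D^2` when the subleading coefficient vanishes -/
lemma Rh_mod (R N D : k[X]) (hR : R.Monic) {m : ℕ} (hm : R.natDegree = m + 2)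
    (h0 : R.coeff (m + 1) = 0) : ∃ T : k[X], Rh R N D = N ^ (m + 2) + D ^ 2 * T := by
  refine ⟨∑ i ∈ Finset.range (m + 1), C (R.coeff i) * N ^ i * D ^ (m - i), ?_⟩
  rw [Rh, hm, Finset.sum_range_succ, Finset.sum_range_succ, h0, C_0, zero_mul, zero_mul, add_zero,
    Nat.sub_self, pow_zero, mul_one]
  have h1 : R.coeff (m + 2) = 1 := by rw [← hm]; exact hR.coeff_natDegree
  rw [h1, C_1, one_mul, add_comm, Finset.mul_sum]
  congr 1
  apply Finset.sum_congr rfl
  intro i hi
  have hi' : i ≤ m := Nat.lt_succ_iff.1 (Finset.mem_range.1 hi)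
  have e : m + 2 - i = (m - i) + 2 := by omega
  rw [e, pow_add]
  ring

end ratf

end Pool.Agent.H209R3.Uni
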