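import Pool.Agent.H209R3.Uni12

set_option autoImplicit false

namespace Pool.Agent.H209R3.Uni

open Polynomial

variable {k : Type*} [Field k] [IsAlgClosed k] (p : ℕ) [Fact p.Prime] [CharP k p]

/-- general core: two points suffice when `m ≥ 3` -/
theorem coreG {s m : ℕ} (hs : 1 ≤ s) (hpm : ¬ p ∣ m + 3)
    {R : k[X]} (hR : R.Monic) (hRm : R.natDegree = m + 3) (hR0 : R.coeff (m + 2) = 0)
    {D F N1 N2 M1 M2 G : k[X]} (hD : D.Monic) (hE : 1 ≤ D.natDegree)
    (hN1 : N1.natDegree ≤ D.natDegree) (hN2 : N2.natDegree ≤ D.natDegree)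
    (c1 : IsCoprime N1 D) (c2 : IsCoprime N2 D)
    (e1 : (Rh R N1 D) ^ (p ^ s) + F = M1 * D ^ (p ^ s * (m + 3) - 1))
    (e2 : (Rh R N2 D) ^ (p ^ s) + F = M2 * D ^ (p ^ s * (m + 3) - 1))
    (g1 : derivative N1 * D - N1 * derivative D = G)
    (g2 : derivative N2 * D - N2 * derivative D = G) (hG : G ≠ 0) : N1 = N2 := by
  classical
  by_contra hne
  have hp : p.Prime := Fact.out
  have hmk : ((m + 3 : ℕ) : k) ≠ 0 := fun h => hpm ((CharP.cast_eq_zero_iff k p _).1 h)
  have hD0 : D ≠ 0 := hD.ne_zero
  have hW0 : N1 - N2 ≠ 0 := sub_ne_zero.2 hne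
  set q := p ^ s with hq
  have hq2 : 2 ≤ q := by
    calc 2 ≤ p := hp.two_le
      _ = p ^ 1 := (pow_one p).symm
      _ ≤ p ^ s := Nat.pow_le_pow_right hp.pos hs
  have hqm : 3 * q ≤ q * (m + 3) := by rw [mul_comm]; exact Nat.mul_le_mul_left q (by omega)
  have hKq : (Rh R N1 D - Rh R N2 D) ^ q = (M1 - M2) * D ^ (q * (m + 3) - 1) := by
    rw [hq, sub_pow_char_pow]
    linear_combination e1 - e2
  set K := Rh R N1 D - Rh R N2 D with hK
  have hGdeg : G.natDegree ≤ 2 * D.natDegree - 2 := by
    rw [← g1]; exact natDegree_wr hE hN1 le_rfl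
  let x : k → ℕ := fun a => if N1.eval a = N2.eval a then (N1 - N2).rootMultiplicity a else 0
  have hx : ∑ a ∈ D.roots.toFinset, x a ≤ D.natDegree := by
    refine le_trans (sum_le_natDegree hW0 _ x ?_)
      (le_trans (natDegree_sub_le _ _) (max_le hN1 hN2))
    intro a _
    simp only [x]
    split_ifs
    · exact pow_rootMultiplicity_dvd _ a
    · rw [pow_zero]; exact one_dvd _
  have hg : ∑ a ∈ D.roots.toFinset, G.rootMultiplicity a ≤ G.natDegree :=
    sum_le_natDegree hG _ _ (fun a _ => pow_rootMultiplicity_dvd _ a)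
  have hper : ∀ a ∈ D.roots.toFinset, 3 * D.rootMultiplicity a
      ≤ G.rootMultiplicity a + x a := by
    intro a ha
    have har : D.IsRoot a := (mem_roots hD0).1 (Multiset.mem_toFinset.1 ha)
    have hDa : D.eval a = 0 := har
    have he1 : 1 ≤ D.rootMultiplicity a := (rootMultiplicity_pos hD0).2 har
    obtain ⟨e, he⟩ : ∃ e, e = D.rootMultiplicity a := ⟨_, rfl⟩
    obtain ⟨g, hgd⟩ : ∃ g, g = G.rootMultiplicity a := ⟨_, rfl⟩
    rw [← he] at he1 ⊢
    rw [← hgd]
    have hDe : (X - C a) ^ e ∣ D := by rw [he]; exact pow_rootMultiplicity_dvd D a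
    -- divisibility of K
    have hKdvd : ∀ α : ℕ, q * α < (q * (m + 3) - 1) * e + q → (X - C a) ^ α ∣ K := by
      intro α hα
      by_cases hK0 : K = 0
      · rw [hK0]; exact dvd_zero _
      have h1 : (X - C a) ^ ((q * (m + 3) - 1) * e) ∣ K ^ q := by
        rw [hKq, mul_comm (q * (m + 3) - 1) e, pow_mul]
        exact Dvd.dvd.mul_left (pow_dvd_pow_of_dvd hDe _) _
      have h2 := (le_rootMultiplicity_iff (pow_ne_zero q hK0)).2 h1
      rw [rm_pow] at h2
      have h3 : α ≤ K.rootMultiplicity a := by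
        by_contra hcon
        have h4 : K.rootMultiplicity a + 1 ≤ α := by omega
        have h5 := Nat.mul_le_mul_left q h4
        have h6 : q * (K.rootMultiplicity a + 1) = q * K.rootMultiplicity a + q := by ring
        omega
      exact (pow_dvd_pow _ h3).trans (pow_rootMultiplicity_dvd K a)
    have hN1a : N1.eval a ≠ 0 := by
      intro h0
      obtain ⟨u, v, huv⟩ := c1
      have := congrArg (eval a) huv
      simp [h0, hDa] at this
    have hN2a : N2.eval a ≠ 0 := by
      intro h0
      obtain ⟨u, v, huv⟩ := c2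
      have := congrArg (eval a) huv
      simp [h0, hDa] at this
    simp only [x]
    split_ifs with hmono
    · -- mono
      obtain ⟨Q, T, hQ1, hQ2⟩ := Rh_sub R N1 N2 D
      have hQa : Q.eval a ≠ 0 := by
        rw [hQ2, hR.coeff_natDegree, C_1, one_mul, eval_add, eval_mul, hDa, zero_mul, add_zero,
          eval_finsetSum]
        have : ∀ i ∈ Finset.range R.natDegree, eval a (N1 ^ i * N2 ^ (R.natDegree - 1 - i))
            = N1.eval a ^ (R.natDegree - 1) := by
          intro i hi
          rw [Finset.mem_range] at hi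
          rw [eval_mul, eval_pow, eval_pow, ← hmono, ← pow_add]
          congr 1
          omega
        rw [Finset.sum_congr rfl this, Finset.sum_const, Finset.card_range, nsmul_eq_mul, hRm]
        exact mul_ne_zero hmk (pow_ne_zero _ hN1a)
      have h5 : (X - C a) ^ (2 * e + 1) ∣ N1 - N2 := by
        have h6 : (X - C a) ^ (2 * e + 1) ∣ K := by
          apply hKdvd
          have b3 : (3 * q - 1) * e ≤ (q * (m + 3) - 1) * e := Nat.mul_le_mul_right e (by omega)
          have b4 : (3 * q - 1) * e + e = 3 * q * e := by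
            rw [← Nat.succ_mul]; congr 1; omega
          have b5 : q * (2 * e + 1) = 2 * (q * e) + q := by ring
          have b6 : 3 * q * e = 3 * (q * e) := by ring
          have b7 : 2 * e ≤ q * e := Nat.mul_le_mul_right e hq2
          omega
        rw [hK, hQ1] at h6
        refine IsCoprime.dvd_of_dvd_mul_right (IsCoprime.pow_left ?_) h6
        rw [Irreducible.coprime_iff_not_dvd (irreducible_X_sub_C a), dvd_iff_isRoot]
        exact hQa
      have h7 := (le_rootMultiplicity_iff hW0).2 h5
      have h6 : e ≤ g + 1 := by rw [he, hgd]; exact g_lower hD0 hG g1 a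
      omega
    · -- mixed
      have hpe : p ∣ e := by
        rw [he]
        apply p_dvd_mult p (W := N1 - N2) hD0
        · rw [eval_sub]; exact sub_ne_zero.2 hmono
        · rw [derivative_sub]; linear_combination g1 - g2
      have hek : (e : k) = 0 := (CharP.cast_eq_zero_iff k p e).2 hpe
      obtain ⟨T1, hT1⟩ := Rh_mod R N1 D hR (m := m + 1) (by omega) hR0
      obtain ⟨T2, hT2⟩ := Rh_mod R N2 D hR (m := m + 1) (by omega) hR0
      have hm1 : m + 1 + 2 = m + 3 := by omega
      rw [hm1] at hT1 hT2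
      have h5 : (X - C a) ^ (2 * e) ∣ N1 ^ (m + 3) - N2 ^ (m + 3) := by
        have h6 : (X - C a) ^ (2 * e) ∣ K := by
          apply hKdvd
          have b3 : (3 * q - 1) * e ≤ (q * (m + 3) - 1) * e := Nat.mul_le_mul_right e (by omega)
          have b4 : (3 * q - 1) * e + e = 3 * q * e := by
            rw [← Nat.succ_mul]; congr 1; omega
          have b5 : q * (2 * e) = 2 * (q * e) := by ring
          have b6 : 3 * q * e = 3 * (q * e) := by ring
          have b7 : 2 * e ≤ q * e := Nat.mul_le_mul_right e hq2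
          omega
        have h7 : (X - C a) ^ (2 * e) ∣ D ^ 2 := by
          rw [mul_comm, pow_mul]; exact pow_dvd_pow_of_dvd hDe 2
        have h8 : N1 ^ (m + 3) - N2 ^ (m + 3) = K - D ^ 2 * (T1 - T2) := by
          rw [hK, hT1, hT2]; ring
        rw [h8]
        exact dvd_sub h6 (Dvd.dvd.mul_right h7 _)
      have hpw : N1.eval a ^ (m + 3) = N2.eval a ^ (m + 3) := by
        have h6 : (X - C a) ∣ N1 ^ (m + 3) - N2 ^ (m + 3) := by
          refine dvd_trans ?_ h5
          exact dvd_pow_self _ (by omega)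
        rw [dvd_iff_isRoot, IsRoot.def, eval_sub, eval_pow, eval_pow, sub_eq_zero] at h6
        exact h6
      have hfac : (X - C a) ^ (2 * e) ∣ N1 - C (N1.eval a / N2.eval a) * N2 := by
        apply local_factor hmk _ hN1a _ h5
        · field_simp
        · rw [div_pow, hpw, div_self (pow_ne_zero _ hN2a)]
      set ζ := N1.eval a / N2.eval a with hζ
      have hζ1 : 1 - ζ ≠ 0 := by
        intro h0
        have h2 : ζ = 1 := (sub_eq_zero.1 h0).symm
        rw [hζ, div_eq_one_iff_eq hN2a] at h2
        exact hmono h2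
      set H := N1 - C ζ * N2 with hH
      have h3 : C (1 - ζ) * G = derivative H * D - H * derivative D := by
        rw [hH, derivative_sub, derivative_C_mul, C_sub, C_1]
        linear_combination C ζ * g2 - g1
      have hder : ∀ (P : k[X]) (n : ℕ), (n : k) = 0 → (X - C a) ^ n ∣ P →
          (X - C a) ^ n ∣ derivative P := by
        rintro P n hn ⟨P1, rfl⟩
        rw [derivative_mul, derivative_X_sub_C_pow, hn, C_0, zero_mul, zero_mul, zero_add]
        exact dvd_mul_right _ _
      have h4 : (X - C a) ^ (3 * e) ∣ C (1 - ζ) * G := by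
        have h33 : 3 * e = 2 * e + e := by ring
        rw [h3, h33, pow_add]
        apply dvd_sub
        · refine mul_dvd_mul (hder H (2 * e) ?_ hfac) hDe
          push_cast; rw [hek, mul_zero]
        · exact mul_dvd_mul hfac (hder D e hek hDe)
      have hu : IsUnit (C (1 - ζ)) := isUnit_C.2 (isUnit_iff_ne_zero.2 hζ1)
      have h9 := (le_rootMultiplicity_iff hG).2 ((hu.dvd_mul_left).1 h4)
      omega
  have hsum := Finset.sum_le_sum hper
  rw [← Finset.mul_sum, Finset.sum_add_distrib, sum_e] at hsum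
  omega

end Pool.Agent.H209R3.Uni
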