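import Pool.Agent.H209R3.Uni13

set_option autoImplicit false

namespace Pool.Agent.H209R3.Uni

open Polynomial

section one
variable {k : Type*} [Field k] [IsAlgClosed k]

lemma denom_eqG {R : k[X]} (hR : R.Monic) {q : ℕ} (hd : 2 ≤ q * R.natDegree)
    {c z y : RatFunc k} (hz : z ∈ Pre (fR R q c)) (hy : y ∈ Pre (fR R q c)) :
    z.denom = y.denom :=
  pow_inj_monic (RatFunc.monic_denom z) (RatFunc.monic_denom y) (n := q * R.natDegree) (by omega)
    ((denomG hR hd hz).trans (denomG hR hd hy).symm)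

lemma step_eqG {R : k[X]} (hR : R.Monic) {q : ℕ} (hd : 2 ≤ q * R.natDegree)
    {c z : RatFunc k} (hz : z ∈ Pre (fR R q c)) :
    Rh R z.num z.denom ^ q + c.num
      = (fR R q c z).num * z.denom ^ (q * R.natDegree - 1) := by
  have hy := Pre_map hz
  have e1 := denom_eqG hR hd hz hy
  have e2 := denomG hR hd hz
  let A := algebraMap k[X] (RatFunc k)
  have hA : Function.Injective A := IsFractionRing.injective k[X] (RatFunc k)
  have hD : A z.denom ≠ 0 := by
    intro h0
    exact z.denom_ne_zero (hA (h0.trans (map_zero A).symm))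
  apply hA
  have hc' : c * A z.denom ^ (q * R.natDegree) = A c.num := by
    rw [← map_pow, e2]; exact mul_denom c
  have hy' : fR R q c z * A z.denom = A (fR R q c z).num := by
    rw [e1]; exact mul_denom _
  have hz' : A (Rh R z.num z.denom) = aeval z R * A z.denom ^ R.natDegree := Rh_spec R z
  rw [map_add, map_pow, map_mul, map_pow, hz', ← hc', ← hy']
  have e3 : A z.denom * A z.denom ^ (q * R.natDegree - 1) = A z.denom ^ (q * R.natDegree) := by
    rw [← pow_succ']; congr 1; omega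
  rw [mul_assoc, e3, mul_pow, ← pow_mul, mul_comm R.natDegree q, ← add_mul]
  rfl

lemma G_eqG (p : ℕ) [CharP k p] {R : k[X]} (hR : R.Monic) {q : ℕ} (hd : 2 ≤ q * R.natDegree)
    (hpq : p ∣ q) {c z : RatFunc k} (hz : z ∈ Pre (fR R q c)) :
    z.denom ^ (q * R.natDegree - 2) * (derivative (fR R q c z).num * z.denom
      - (fR R q c z).num * derivative z.denom) = derivative c.num := by
  have h := congrArg derivative (step_eqG hR hd hz)
  have hq0 : (q : k) = 0 := (CharP.cast_eq_zero_iff k p q).2 hpq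
  have hd0 : ((q * R.natDegree : ℕ) : k) = 0 := by push_cast; rw [hq0, zero_mul]
  rw [derivative_add, derivative_pow, hq0, C_0, zero_mul, zero_mul, zero_add, derivative_mul,
    derivative_pow] at h
  obtain ⟨n, hn⟩ : ∃ n, q * R.natDegree = n + 2 := ⟨q * R.natDegree - 2, by omega⟩
  rw [hn] at h hd0 ⊢
  have e1 : n + 2 - 1 = n + 1 := rfl
  have e2 : n + 1 - 1 = n := rfl
  have e3 : n + 2 - 2 = n := rfl
  have e4 : ((n + 1 : ℕ) : k) = -1 := by
    have : ((n + 1 : ℕ) : k) + 1 = 0 := by rw [← hd0]; push_cast; ring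
    exact eq_neg_of_add_eq_zero_left this
  rw [e1, e2, e4, C_neg, C_1] at h
  rw [e3, h]
  ring

end one

variable {k : Type*} [Field k] [IsAlgClosed k] (p : ℕ) [Fact p.Prime] [CharP k p]

theorem claimG {s m : ℕ} (hs : 1 ≤ s) (hpm : ¬ p ∣ m + 3)
    {R : k[X]} (hR : R.Monic) (hRm : R.natDegree = m + 3) (hR0 : R.coeff (m + 2) = 0)
    {c z1 z2 : RatFunc k}
    (hc : c.num.natDegree ≤ c.denom.natDegree) (hcn : derivative c.num ≠ 0)
    (h1 : z1 ∈ Pre (fR R (p ^ s) c)) (h2 : z2 ∈ Pre (fR R (p ^ s) c)) :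
    fR R (p ^ s) c z1 = fR R (p ^ s) c z2 := by
  have hp : p.Prime := Fact.out
  have hq1 : 1 ≤ p ^ s := Nat.one_le_iff_ne_zero.2 (pow_ne_zero _ hp.ne_zero)
  have hd : 2 ≤ p ^ s * R.natDegree := by
    have := Nat.mul_le_mul_right R.natDegree hq1
    omega
  have hpq : p ∣ p ^ s := dvd_pow_self p (by omega)
  obtain ⟨y1, hy1d⟩ : ∃ y, y = fR R (p ^ s) c z1 := ⟨_, rfl⟩
  obtain ⟨y2, hy2d⟩ : ∃ y, y = fR R (p ^ s) c z2 := ⟨_, rfl⟩
  have hy1 : y1 ∈ Pre (fR R (p ^ s) c) := by rw [hy1d]; exact Pre_map h1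
  have hy2 : y2 ∈ Pre (fR R (p ^ s) c) := by rw [hy2d]; exact Pre_map h2
  have e12 : y2.denom = y1.denom := denom_eqG hR hd hy2 hy1
  have ez1 : z1.denom = y1.denom := denom_eqG hR hd h1 hy1
  have ez2 : z2.denom = y1.denom := denom_eqG hR hd h2 hy1
  have g1 := G_eqG p hR hd hpq h1
  have g2 := G_eqG p hR hd hpq h2
  rw [← hy1d, ez1] at g1
  rw [← hy2d, ez2] at g2
  have hD0 : y1.denom ^ (p ^ s * R.natDegree - 2) ≠ 0 := pow_ne_zero _ y1.denom_ne_zero
  have hE : 1 ≤ y1.denom.natDegree := denom_pos_aux hc hcn (denomG hR hd hy1)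
  have s1 := step_eqG hR hd hy1
  have s2 := step_eqG hR hd hy2
  rw [e12] at s2
  rw [hRm] at s1 s2
  have hnum : y1.num = y2.num := by
    refine coreG p hs hpm hR hRm hR0 (D := y1.denom) (F := c.num)
      (G := derivative y1.num * y1.denom - y1.num * derivative y1.denom)
      (RatFunc.monic_denom y1) hE (num_leG hR hd hy1 hc) ?_
      (RatFunc.isCoprime_num_denom y1) ?_ s1 s2 rfl ?_ ?_
    · rw [← e12]; exact num_leG hR hd hy2 hc
    · rw [← e12]; exact RatFunc.isCoprime_num_denom y2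
    · apply mul_left_cancel₀ hD0
      rw [g1, g2]
    · intro h0
      rw [h0, mul_zero] at g1
      exact hcn g1.symm
  rw [← hy1d, ← hy2d, ← RatFunc.num_div_denom y1, ← RatFunc.num_div_denom y2, hnum, e12]

omit [IsAlgClosed k] in
lemma fibG (s : ℕ) {R : k[X]} (hR : R.Monic) (hm : 1 ≤ R.natDegree) (c y : RatFunc k) :
    {z : RatFunc k | fR R (p ^ s) c z = y}.encard ≤ (R.natDegree : ℕ∞) := by
  classical
  rcases Set.eq_empty_or_nonempty {z : RatFunc k | fR R (p ^ s) c z = y} with h | ⟨z0, hz0⟩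
  · rw [h, Set.encard_empty]; exact zero_le
  · set P : (RatFunc k)[X] := R.map (algebraMap k (RatFunc k)) - C (aeval z0 R) with hP
    have hPd : P.natDegree = R.natDegree := by
      rw [hP, natDegree_sub_C, natDegree_map]
    have hP0 : P ≠ 0 := by
      intro h0
      rw [h0, natDegree_zero] at hPd
      omega
    have hsub : {z : RatFunc k | fR R (p ^ s) c z = y} ⊆ (P.roots.toFinset : Set (RatFunc k)) := by
      intro z hz
      have h1 : (aeval z R) ^ p ^ s = (aeval z0 R) ^ p ^ s := by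
        have hz' : (aeval z R) ^ p ^ s + c = y := hz
        have hz0' : (aeval z0 R) ^ p ^ s + c = y := hz0
        exact add_right_cancel (hz'.trans hz0'.symm)
      have h2 : (aeval z R - aeval z0 R) ^ (p ^ s) = 0 := by
        rw [sub_pow_char_pow, h1, sub_self]
      have h3 : aeval z R = aeval z0 R := sub_eq_zero.1 (pow_eq_zero_iff (pow_ne_zero _
        (Fact.out : p.Prime).ne_zero) |>.1 h2)
      rw [Finset.mem_coe, Multiset.mem_toFinset, mem_roots hP0, IsRoot.def, hP, eval_sub, eval_C,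
        eval_map_algebraMap, h3, sub_self]
    refine le_trans (Set.encard_le_encard hsub) ?_
    rw [Set.encard_coe_eq_coe_finsetCard]
    exact_mod_cast le_trans (Multiset.toFinset_card_le _) (hPd ▸ card_roots' P)

/-- Frobenius twist of a polynomial -/
lemma exists_twist (j : ℕ) {m : ℕ} {R : k[X]} (hR : R.Monic) (hRm : R.natDegree = m + 3)
    (hR0 : R.coeff (m + 2) = 0) : ∃ R' : k[X], R'.Monic ∧ R'.natDegree = m + 3 ∧
      R'.coeff (m + 2) = 0 ∧ ∀ w : RatFunc k, aeval (w ^ p ^ j) R = (aeval w R') ^ p ^ j := by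
  have : PerfectRing k p := PerfectField.toPerfectRing p
  let τ : k ≃+* k := iterateFrobeniusEquiv k p j
  refine ⟨R.map (τ.symm : k →+* k), hR.map _, ?_, ?_, ?_⟩
  · rw [natDegree_map_eq_of_injective τ.symm.injective, hRm]
  · rw [coeff_map, hR0, map_zero]
  · intro w
    have h1 : R = (R.map (τ.symm : k →+* k)).map (τ : k →+* k) := by
      rw [Polynomial.map_map]
      have : (τ : k →+* k).comp (τ.symm : k →+* k) = RingHom.id k := by
        ext a; simp
      rw [this, Polynomial.map_id]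
    set R' := R.map (τ.symm : k →+* k) with hR'
    have h2 : (aeval w R') ^ p ^ j = iterateFrobenius (RatFunc k) p j (aeval w R') := by
      rw [iterateFrobenius_def]
    rw [h2, aeval_def, aeval_def, hom_eval₂, iterateFrobenius_def]
    conv_lhs => rw [h1]
    rw [eval₂_map]
    congr 1
    ext b
    simp only [RingHom.comp_apply, iterateFrobenius_def]
    show algebraMap k (RatFunc k) (iterateFrobeniusEquiv k p j b) = _
    rw [iterateFrobeniusEquiv_def, map_pow]

omit [IsAlgClosed k] in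
lemma Pre_frob (j : ℕ) {q : ℕ} {R R' : k[X]}
    (hRR : ∀ w : RatFunc k, aeval (w ^ p ^ j) R = (aeval w R') ^ p ^ j)
    {c W : RatFunc k} (h : W ^ (p ^ j) ∈ Pre (fR R q (c ^ (p ^ j)))) : W ∈ Pre (fR R' q c) := by
  have hit : ∀ n : ℕ, (fR R q (c ^ (p ^ j)))^[n] (W ^ (p ^ j))
      = ((fR R' q c)^[n] W) ^ (p ^ j) := by
    intro n
    induction n with
    | zero => rfl
    | succ n ih =>
      rw [Function.iterate_succ_apply', Function.iterate_succ_apply', ih]
      simp only [fR]
      rw [hRR, add_pow_char_pow, ← pow_mul, ← pow_mul, mul_comm (p ^ j) q]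
  obtain ⟨m, n, hmn, h⟩ := h
  refine ⟨m, n, hmn, ?_⟩
  rw [hit, hit] at h
  have h2 : ((fR R' q c)^[m] W - (fR R' q c)^[n] W) ^ (p ^ j) = 0 := by
    rw [sub_pow_char_pow, h, sub_self]
  exact sub_eq_zero.1 (pow_eq_zero_iff (pow_ne_zero _ (Fact.out : p.Prime).ne_zero) |>.1 h2)

end Pool.Agent.H209R3.Uni
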