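import Pool.Agent.H209R3.Uni14

set_option autoImplicit false

namespace Pool.Agent.H209R3.Uni

open Polynomial

section der
variable {k : Type*} [Field k]

lemma Rh_der {R N D : k[X]} (hR : R.Monic) (hD' : derivative D = 0) :
    ∃ T : k[X], derivative (Rh R N D)
      = derivative N * (C (R.natDegree : k) * N ^ (R.natDegree - 1) + D * T) := by
  have term : ∀ i, derivative (C (R.coeff i) * N ^ i * D ^ (R.natDegree - i))
      = derivative N * (C (R.coeff i) * C (i : k) * N ^ (i - 1) * D ^ (R.natDegree - i)) := by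
    intro i
    rw [derivative_mul, derivative_mul, derivative_C, derivative_pow, derivative_pow, hD']
    ring
  refine ⟨∑ i ∈ Finset.range R.natDegree,
    C (R.coeff i) * C (i : k) * N ^ (i - 1) * D ^ (R.natDegree - i - 1), ?_⟩
  rw [Rh, derivative_sum, Finset.sum_congr rfl (fun i _ => term i), ← Finset.mul_sum,
    Finset.sum_range_succ, hR.coeff_natDegree, C_1, one_mul, Nat.sub_self, pow_zero, mul_one,
    Finset.mul_sum, add_comm]
  congr 2
  apply Finset.sum_congr rfl
  intro i hi
  have hi' := Finset.mem_range.1 hi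
  have e : R.natDegree - i = (R.natDegree - i - 1) + 1 := by omega
  conv_lhs => rw [e]
  rw [pow_succ]
  ring

end der

variable {k : Type*} [Field k] [IsAlgClosed k] (p : ℕ) [Fact p.Prime] [CharP k p]

lemma descentG {s m : ℕ} (hs : 1 ≤ s) {R : k[X]} (hR : R.Monic) (hRm : R.natDegree = m + 3)
    {b z : RatFunc k}
    (hinf : (b ^ (p ^ (s + 1))).num.natDegree ≤ (b ^ (p ^ (s + 1))).denom.natDegree)
    (hz : z ∈ Pre (fR R (p ^ s) (b ^ (p ^ (s + 1))))) (hpm : ((m + 3 : ℕ) : k) ≠ 0) :
    ∃ w, z = w ^ p := by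
  have hp : p.Prime := Fact.out
  have hq1 : 1 ≤ p ^ s := Nat.one_le_iff_ne_zero.2 (pow_ne_zero _ hp.ne_zero)
  have hq2 : 2 ≤ p ^ s := by
    calc 2 ≤ p := hp.two_le
      _ = p ^ 1 := (pow_one p).symm
      _ ≤ p ^ s := Nat.pow_le_pow_right hp.pos hs
  have hd : 2 ≤ p ^ s * R.natDegree := by
    have := Nat.mul_le_mul_right R.natDegree hq1
    omega
  let A := algebraMap k[X] (RatFunc k)
  have hA : Function.Injective A := IsFractionRing.injective k[X] (RatFunc k)
  set c := b ^ (p ^ (s + 1)) with hcdef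
  obtain ⟨Z, hZdef⟩ : ∃ Z, Z = aeval z R + b ^ p := ⟨_, rfl⟩
  have hZ : Z ^ (p ^ s) = fR R (p ^ s) c z := by
    rw [hZdef, add_pow_char_pow, ← pow_mul, ← pow_succ', hcdef]
    rfl
  have hy : Z ^ (p ^ s) ∈ Pre (fR R (p ^ s) c) := by rw [hZ]; exact Pre_map hz
  have hΔ : z.denom = Z.denom ^ (p ^ s) := by
    rw [← (pow_nd Z (p ^ s)).2]; exact denom_eqG hR hd hz hy
  have hqk : ((p ^ s : ℕ) : k) = 0 := (CharP.cast_eq_zero_iff k p _).2 (dvd_pow_self p (by omega))
  have hpk : (p : k) = 0 := CharP.cast_eq_zero k p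
  have hD' : derivative z.denom = 0 := by
    rw [hΔ, derivative_pow, hqk, C_0, zero_mul, zero_mul]
  have hB : z.denom ^ R.natDegree = b.denom ^ p := by
    apply pow_inj_monic ((RatFunc.monic_denom z).pow _) ((RatFunc.monic_denom b).pow p) hq1
    rw [← pow_mul, mul_comm R.natDegree, denomG hR hd hz, hcdef, (pow_nd b _).2, ← pow_mul,
      ← pow_succ']
  have hkey : Z.num * z.denom ^ R.natDegree = Z.denom * (Rh R z.num z.denom + b.num ^ p) := by
    apply hA
    rw [map_mul, map_mul, map_add, map_pow, map_pow]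
    have a1 : Z * A Z.denom = A Z.num := mul_denom Z
    have a2 : A (Rh R z.num z.denom) = aeval z R * A z.denom ^ R.natDegree := Rh_spec R z
    have a3 : b * A b.denom = A b.num := mul_denom b
    have a4 : A z.denom ^ R.natDegree = A b.denom ^ p := by rw [← map_pow, ← map_pow, hB]
    rw [← a1, a2, ← a3, mul_pow, ← a4]
    calc Z * A Z.denom * A z.denom ^ R.natDegree
        = (aeval z R + b ^ p) * A Z.denom * A z.denom ^ R.natDegree := by rw [← hZdef]
      _ = _ := by ring
  obtain ⟨T, hT⟩ := Rh_der (N := z.num) hR hD'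
  have hder := congrArg derivative hkey
  rw [derivative_mul, derivative_mul, derivative_add, derivative_pow, derivative_pow,
    hD', hpk, C_0, mul_zero, mul_zero, add_zero, zero_mul, zero_mul, add_zero, hT] at hder
  set S1 := C (R.natDegree : k) * z.num ^ (R.natDegree - 1) + z.denom * T with hS1
  have hfin : (derivative Z.num * Z.denom - Z.num * derivative Z.denom)
      * z.denom ^ R.natDegree = (Z.denom ^ 2 * derivative z.num) * S1 := by
    linear_combination Z.denom * hder - derivative Z.denom * hkey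
  have hN' : derivative z.num = 0 := by
    by_contra hne
    have h1 : z.denom ^ R.natDegree ∣ (Z.denom ^ 2 * derivative z.num) * S1 :=
      Dvd.intro_left _ hfin
    have hu : IsUnit (C (R.natDegree : k)) :=
      isUnit_C.2 (isUnit_iff_ne_zero.2 (by rw [hRm]; exact hpm))
    have hcop0 : IsCoprime z.denom (C (R.natDegree : k) * z.num ^ (R.natDegree - 1)) :=
      (isCoprime_mul_unit_left_right hu _ _).2
        ((RatFunc.isCoprime_num_denom z).symm.pow_right)
    have hcop1 : IsCoprime z.denom S1 := by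
      rw [hS1]; exact hcop0.add_mul_left_right T
    have hcop : IsCoprime (z.denom ^ R.natDegree) S1 := hcop1.pow_left
    have h3 := hcop.dvd_of_dvd_mul_right h1
    have hne2 : Z.denom ^ 2 * derivative z.num ≠ 0 :=
      mul_ne_zero (pow_ne_zero _ Z.denom_ne_zero) hne
    have h4 := natDegree_le_of_dvd h3 hne2
    rw [natDegree_pow, natDegree_mul (pow_ne_zero _ Z.denom_ne_zero) hne, natDegree_pow] at h4
    have h5 : (derivative z.num).natDegree < z.num.natDegree := by
      apply natDegree_derivative_lt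
      intro h0
      exact hne (derivative_of_natDegree_zero h0)
    have h6 : z.num.natDegree ≤ z.denom.natDegree := num_leG hR hd hz hinf
    have h7 : z.denom.natDegree = p ^ s * Z.denom.natDegree := by rw [hΔ, natDegree_pow]
    have h8 := Nat.mul_le_mul_right Z.denom.natDegree hq2
    have h9 := Nat.mul_le_mul_right z.denom.natDegree (show 2 ≤ R.natDegree by omega)
    omega
  obtain ⟨N1, hN1⟩ := pth_root p hN'
  obtain ⟨D1, hD1⟩ := pth_root p hD'
  refine ⟨A N1 / A D1, ?_⟩
  rw [div_pow, ← map_pow, ← map_pow, ← hN1, ← hD1]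
  exact (RatFunc.num_div_denom z).symm

theorem mainInfG {s m : ℕ} (hs : 1 ≤ s) (hpm : ¬ p ∣ m + 3) :
    ∀ n : ℕ, ∀ R : k[X], R.Monic → R.natDegree = m + 3 → R.coeff (m + 2) = 0 →
    ∀ c : RatFunc k, c.denom.natDegree = n →
    c.num.natDegree ≤ c.denom.natDegree → (∀ a : k, c ≠ RatFunc.C a) →
    (Pre (fR R (p ^ s) c)).encard ≤ (((m + 3) * (m + 3) : ℕ) : ℕ∞) := by
  have hp : p.Prime := Fact.out
  have hmk : ((m + 3 : ℕ) : k) ≠ 0 := fun h => hpm ((CharP.cast_eq_zero_iff k p _).1 h)
  have hq1 : 1 ≤ p ^ s := Nat.one_le_iff_ne_zero.2 (pow_ne_zero _ hp.ne_zero)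
  let A := algebraMap k[X] (RatFunc k)
  intro n
  induction n using Nat.strong_induction_on with
  | _ n ih =>
    intro R hR hRm hR0 c hn hinf hc
    have hd : 2 ≤ p ^ s * (m + 3) := by
      have := Nat.mul_le_mul_right (m + 3) hq1
      omega
    have hpos : 1 ≤ c.denom.natDegree := by
      by_contra hcon
      have h0 : c.denom.natDegree = 0 := by omega
      have h1 : c.num.natDegree = 0 := by omega
      have h2 : c.denom = 1 := (RatFunc.monic_denom c).natDegree_eq_zero.1 h0
      apply hc (c.num.coeff 0)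
      rw [← RatFunc.num_div_denom c, h2, map_one, div_one]
      conv_lhs => rw [eq_C_of_natDegree_eq_zero h1]
      rw [RatFunc.algebraMap_C]
      congr 2
      conv_rhs => rw [RatFunc.num_algebraMap]
    rcases exists_j (p := p) c s with ⟨b, hb⟩ | ⟨j, hj, c0, h1, h2⟩
    · have hcb : c = (b ^ (p ^ s)) ^ p := by rw [hb, ← pow_mul, ← pow_succ]
      set b' := b ^ (p ^ s) with hb'
      obtain ⟨R', hR', hRm', hR0', htw⟩ := exists_twist p 1 hR hRm hR0
      have hsub : Pre (fR R (p ^ s) c) ⊆ (fun w => w ^ p) '' Pre (fR R' (p ^ s) b') := by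
        intro z hz
        have hz' := hz
        rw [hb] at hz' hinf
        obtain ⟨w, hw⟩ := descentG p hs hR hRm hinf hz' hmk
        refine ⟨w, Pre_frob p 1 htw ?_, hw.symm⟩
        rw [pow_one, ← hw, ← hcb]
        exact hz
      obtain ⟨e1, e2⟩ := pow_nd b' p
      rw [← hcb] at e1 e2
      have f1 : c.num.natDegree = p * b'.num.natDegree := by rw [e1, natDegree_pow]
      have f2 : c.denom.natDegree = p * b'.denom.natDegree := by rw [e2, natDegree_pow]
      have hp2 := Nat.mul_le_mul_right b'.denom.natDegree hp.two_le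
      have hlt : b'.denom.natDegree < n := by omega
      have hle : b'.num.natDegree ≤ b'.denom.natDegree := by
        rw [f1, f2] at hinf
        exact Nat.le_of_mul_le_mul_left hinf hp.pos
      refine (Set.encard_le_encard hsub).trans ((Set.encard_image_le _ _).trans
        (ih _ hlt R' hR' hRm' hR0' b' rfl hle ?_))
      intro a ha
      apply hc (a ^ p)
      rw [hcb, ha, map_pow]
    · rcases Set.eq_empty_or_nonempty (Pre (fR R (p ^ s) c)) with he | ⟨z0, hz0⟩
      · rw [he, Set.encard_empty]; exact zero_le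
      obtain ⟨R', hR', hRm', hR0', htw⟩ := exists_twist p j hR hRm hR0
      have hd' : 2 ≤ p ^ s * R'.natDegree := by rw [hRm']; exact hd
      have hW : ∀ x ∈ Pre (fR R (p ^ s) c),
          (aeval x R) ^ (p ^ (s - j)) + c0 ∈ Pre (fR R' (p ^ s) c0) ∧
          ((aeval x R) ^ (p ^ (s - j)) + c0) ^ (p ^ j) = fR R (p ^ s) c x := by
        intro x hx
        have e : ((aeval x R) ^ (p ^ (s - j)) + c0) ^ (p ^ j) = fR R (p ^ s) c x := by
          rw [add_pow_char_pow, ← pow_mul, ← h1]
          have : p ^ (s - j) * p ^ j = p ^ s := by rw [← pow_add]; congr 1; omega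
          rw [this]; rfl
        refine ⟨Pre_frob p j htw ?_, e⟩
        rw [e, ← h1]
        exact Pre_map hx
      set W0 := (aeval z0 R) ^ (p ^ (s - j)) + c0 with hW0
      have hW0P : W0 ∈ Pre (fR R' (p ^ s) c0) := (hW z0 hz0).1
      have hder : derivative c0.num ≠ 0 := by
        intro h0
        apply h2
        obtain ⟨N1, hN1⟩ := pth_root p h0
        have e1 : c0.denom = (W0.denom ^ (p ^ (s - 1) * R'.natDegree)) ^ p := by
          rw [← denomG hR' hd' hW0P, ← pow_mul]
          congr 1
          have : p ^ s = p ^ (s - 1) * p := by rw [← pow_succ]; congr 1; omega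
          rw [this]; ring
        refine ⟨A N1 / A (W0.denom ^ (p ^ (s - 1) * R'.natDegree)), ?_⟩
        rw [div_pow, ← map_pow, ← map_pow, ← hN1, ← e1]
        exact (RatFunc.num_div_denom c0).symm
      have hinf0 : c0.num.natDegree ≤ c0.denom.natDegree := by
        obtain ⟨e1, e2⟩ := pow_nd c0 (p ^ j)
        rw [← h1] at e1 e2
        rw [e1, e2, natDegree_pow, natDegree_pow] at hinf
        exact Nat.le_of_mul_le_mul_left hinf (pow_pos hp.pos j)
      have hP0 : (Pre (fR R' (p ^ s) c0)).encard ≤ ((m + 3 : ℕ) : ℕ∞) := by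
        have hf := fibG p s hR' (by omega) c0 (fR R' (p ^ s) c0 W0)
        rw [hRm'] at hf
        refine le_trans (Set.encard_le_encard ?_) hf
        intro x hx
        exact claimG p hs hpm hR' hRm' hR0' hinf0 hder hx hW0P
      apply count_lem (Pre (fR R (p ^ s) c)) (fR R (p ^ s) c)
        ((fun w => w ^ (p ^ j)) '' Pre (fR R' (p ^ s) c0)) (m + 3) (m + 3)
      · exact (Set.encard_image_le _ _).trans hP0
      · intro x hx
        exact ⟨_, (hW x hx).1, (hW x hx).2⟩
      · intro y
        have hf := fibG p s hR (by omega) c y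
        rw [hRm] at hf
        exact hf

lemma Pre_semi {K L : Type*} {f : K → K} {g : L → L} {h : K → L}
    (hs : ∀ z, h (f z) = g (h z)) {z : K} (hz : z ∈ Pre f) : h z ∈ Pre g := by
  have hit : ∀ n : ℕ, g^[n] (h z) = h (f^[n] z) := by
    intro n
    induction n with
    | zero => rfl
    | succ n ih =>
      rw [Function.iterate_succ_apply', Function.iterate_succ_apply', ih, hs]
  obtain ⟨m, n, hmn, e⟩ := hz
  exact ⟨m, n, hmn, by rw [hit, hit, e]⟩

/-- algebraically closed constants, normalised `R` -/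
theorem mainACG {s m : ℕ} (hs : 1 ≤ s) (hpm : ¬ p ∣ m + 3) {R : k[X]} (hR : R.Monic)
    (hRm : R.natDegree = m + 3) (hR0 : R.coeff (m + 2) = 0) {c : RatFunc k}
    (hc : ∀ a : k, c ≠ RatFunc.C a) :
    (Pre (fR R (p ^ s) c)).encard ≤ (((m + 3) * (m + 3) : ℕ) : ℕ∞) := by
  classical
  obtain ⟨a, ha⟩ : ∃ a : k, c.denom.eval a ≠ 0 := by
    by_contra hcon
    push Not at hcon
    apply c.denom_ne_zero
    exact Polynomial.funext (fun r => by rw [hcon r, eval_zero])
  obtain ⟨φ, hφ⟩ := exists_moebius a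
  have hφinj : Function.Injective φ := φ.injective
  have hφC : ∀ b : k, φ (RatFunc.C b) = RatFunc.C b := by
    intro b
    rw [← RatFunc.algebraMap_C, hφ, eval₂_C, RatFunc.algebraMap_C]
  have hnc : ∀ b : k, φ c ≠ RatFunc.C b := by
    intro b hb
    apply hc b
    apply hφinj
    rw [hb, hφC]
  have hinf : (φ c).num.natDegree ≤ (φ c).denom.natDegree := by
    rw [← vinf_le]
    have e : φ c = φ (algebraMap k[X] (RatFunc k) c.num) / φ (algebraMap k[X] (RatFunc k) c.denom) := by
      rw [← map_div₀, RatFunc.num_div_denom]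
    rw [e, hφ, hφ, map_div₀, vinf_poly_one a _ ha, div_one]
    exact vinf_poly a _
  have hmain := mainInfG p hs hpm _ R hR hRm hR0 (φ c) rfl hinf hnc
  rw [← hφinj.encard_image]
  refine (Set.encard_le_encard ?_).trans hmain
  rintro _ ⟨z, hz, rfl⟩
  apply Pre_semi (f := fR R (p ^ s) c) (h := φ) _ hz
  intro z
  simp only [fR]
  rw [map_add, map_pow, aeval_def, hom_eval₂, aeval_def]
  congr 3
  ext b
  rw [RingHom.comp_apply, RatFunc.algebraMap_eq_C, hφC]

end Pool.Agent.H209R3.Uni
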