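import Pool.Agent.H209R3.Uni15

set_option autoImplicit false

namespace Pool.Agent.H209R3.Uni

open Polynomial

section ac
variable {k : Type*} [Field k] [IsAlgClosed k] (p : ℕ) [Fact p.Prime] [CharP k p]

lemma exists_twist2 (j : ℕ) (P : k[X]) : ∃ τ : k →+* k, Function.Injective τ ∧
    (∀ w : RatFunc k, aeval (w ^ p ^ j) P = (aeval w (P.map τ)) ^ p ^ j) ∧
    ∀ a : k, (τ a) ^ p ^ j = a := by
  have : PerfectRing k p := PerfectField.toPerfectRing p
  let τ : k ≃+* k := iterateFrobeniusEquiv k p j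
  refine ⟨(τ.symm : k →+* k), τ.symm.injective, ?_, ?_⟩
  · intro w
    have h1 : P = (P.map (τ.symm : k →+* k)).map (τ : k →+* k) := by
      rw [Polynomial.map_map]
      have : (τ : k →+* k).comp (τ.symm : k →+* k) = RingHom.id k := by
        ext a; simp
      rw [this, Polynomial.map_id]
    set R' := P.map (τ.symm : k →+* k) with hR'
    have h2 : (aeval w R') ^ p ^ j = iterateFrobenius (RatFunc k) p j (aeval w R') := by
      rw [iterateFrobenius_def]
    rw [h2, aeval_def, aeval_def, hom_eval₂, iterateFrobenius_def]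
    conv_lhs => rw [h1]
    rw [eval₂_map]
    congr 1
    ext b
    simp only [RingHom.comp_apply, iterateFrobenius_def]
    show algebraMap k (RatFunc k) (iterateFrobeniusEquiv k p j b) = _
    rw [iterateFrobeniusEquiv_def, map_pow]
  · intro a
    show (τ.symm a) ^ p ^ j = a
    rw [← iterateFrobeniusEquiv_def (R := k) (p := p)]
    exact τ.apply_symm_apply a

omit [IsAlgClosed k] [Fact p.Prime] [CharP k p] p in
lemma comp_coeffs {P : k[X]} {μ : ℕ} (hμ : P.natDegree = μ + 2) (v : k) :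
    (P.comp (X + C v)).natDegree = μ + 2 ∧ (P.comp (X + C v)).coeff (μ + 2) = P.coeff (μ + 2) ∧
    (P.comp (X + C v)).coeff (μ + 1) = P.coeff (μ + 1) + P.coeff (μ + 2) * (v * (μ + 2 : ℕ)) := by
  have hsum : ∀ n, (P.comp (X + C v)).coeff n = ∑ i ∈ Finset.range (μ + 3),
      P.coeff i * (v ^ (i - n) * (i.choose n : k)) := by
    intro n
    rw [comp, eval₂_eq_sum_range, finsetSum_coeff, hμ]
    apply Finset.sum_congr rfl
    intro i _
    rw [coeff_C_mul, coeff_X_add_C_pow]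
  refine ⟨?_, ?_, ?_⟩
  · rw [natDegree_comp, natDegree_X_add_C, mul_one, hμ]
  · rw [hsum, Finset.sum_range_succ, Finset.sum_eq_zero]
    · simp
    · intro i hi
      rw [Nat.choose_eq_zero_of_lt (Finset.mem_range.1 hi)]
      simp
  · rw [hsum, Finset.sum_range_succ, Finset.sum_range_succ, Finset.sum_eq_zero]
    · have e1 : μ + 2 - (μ + 1) = 1 := by omega
      have e2 : (μ + 2).choose (μ + 1) = μ + 2 := Nat.choose_succ_self_right (μ + 1)
      rw [e1, e2]
      simp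
    · intro i hi
      rw [Nat.choose_eq_zero_of_lt (Finset.mem_range.1 hi)]
      simp

lemma normalise {s μ : ℕ} {P : k[X]} (hμ : P.natDegree = μ + 2) (hpm : ¬ p ∣ μ + 2)
    (c : RatFunc k) :
    ∃ (R : k[X]) (l t : k), l ≠ 0 ∧ R.Monic ∧ R.natDegree = μ + 2 ∧ R.coeff (μ + 1) = 0 ∧
    ∀ z : RatFunc k, RatFunc.C l * (aeval (z ^ p ^ s) P + c) + RatFunc.C t
      = fR R (p ^ s) (RatFunc.C l * c) (RatFunc.C l * z + RatFunc.C t) := by
  have hp : p.Prime := Fact.out
  have hmk : ((μ + 2 : ℕ) : k) ≠ 0 := fun h => hpm ((CharP.cast_eq_zero_iff k p _).1 h)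
  have hq1 : 1 ≤ p ^ s := Nat.one_le_iff_ne_zero.2 (pow_ne_zero _ hp.ne_zero)
  have hqm : 2 ≤ p ^ s * (μ + 2) := by
    have := Nat.mul_le_mul_right (μ + 2) hq1
    omega
  have hP0 : P ≠ 0 := by rintro rfl; simp at hμ
  obtain ⟨a, ha⟩ : ∃ a, a = P.coeff (μ + 2) := ⟨_, rfl⟩
  have ha0 : a ≠ 0 := by
    rw [ha, ← hμ]; exact leadingCoeff_ne_zero.2 hP0
  obtain ⟨v, hv⟩ : ∃ v : k, v = - P.coeff (μ + 1) / (a * (μ + 2 : ℕ)) := ⟨_, rfl⟩
  obtain ⟨d1, d2, d3⟩ := comp_coeffs hμ v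
  have hd3 : (P.comp (X + C v)).coeff (μ + 1) = 0 := by
    rw [d3, ← ha, hv]
    field_simp
    ring
  rw [← ha] at d2
  obtain ⟨l, hl⟩ := IsAlgClosed.exists_pow_nat_eq a (n := p ^ s * (μ + 2) - 1) (by omega)
  have hl0 : l ≠ 0 := by
    rintro rfl
    rw [zero_pow (by omega)] at hl
    exact ha0 hl.symm
  obtain ⟨u, hu⟩ : ∃ u : k, u = (l ^ p ^ s)⁻¹ := ⟨_, rfl⟩
  have hu0 : u ≠ 0 := by rw [hu]; exact inv_ne_zero (pow_ne_zero _ hl0)
  set P2 := P.comp (X + C v) with hP2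
  have hc3 : ∀ n, (P2.comp (C u * X)).coeff n = P2.coeff n * u ^ n := fun n =>
    comp_C_mul_X_coeff
  obtain ⟨τ0, hτ0inj, _, hτ0⟩ := exists_twist2 (k := k) p s 0
  obtain ⟨t, ht⟩ : ∃ t : k, t = τ0 (- v * l ^ p ^ s) := ⟨_, rfl⟩
  have htq : t ^ p ^ s = - v * l ^ p ^ s := by rw [ht]; exact hτ0 _
  obtain ⟨P1, hP1⟩ : ∃ P1, P1 = C l * P2.comp (C u * X) + C t := ⟨_, rfl⟩
  have h1c : P1.coeff (μ + 2) = 1 := by
    rw [hP1, coeff_add, coeff_C_mul, hc3, coeff_C_of_ne_zero (by omega), add_zero, d2, hu, ← hl,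
      inv_pow, ← pow_mul, ← mul_assoc, ← pow_succ']
    have : p ^ s * (μ + 2) - 1 + 1 = p ^ s * (μ + 2) := by omega
    rw [this, mul_inv_cancel₀ (pow_ne_zero _ hl0)]
  have h1s : P1.coeff (μ + 1) = 0 := by
    rw [hP1, coeff_add, coeff_C_mul, hc3, coeff_C_of_ne_zero (by omega), add_zero, hd3, zero_mul,
      mul_zero]
  have h1d : P1.natDegree ≤ μ + 2 := by
    rw [natDegree_le_iff_coeff_eq_zero]
    intro n hn
    rw [hP1, coeff_add, coeff_C_mul, hc3, coeff_C_of_ne_zero (by omega), add_zero,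
      coeff_eq_zero_of_natDegree_lt (by omega), zero_mul, mul_zero]
  have h1m : P1.Monic := monic_of_natDegree_le_of_coeff_eq_one _ h1d h1c
  have h1e : P1.natDegree = μ + 2 :=
    natDegree_eq_of_le_of_coeff_ne_zero h1d (by rw [h1c]; exact one_ne_zero)
  obtain ⟨τ, hτinj, hτ, _⟩ := exists_twist2 p s P1
  refine ⟨P1.map τ, l, t, hl0, h1m.map _, ?_, ?_, ?_⟩
  · rw [natDegree_map_eq_of_injective hτinj, h1e]
  · rw [coeff_map, h1s, map_zero]
  · intro z
    rw [fR, ← hτ, hP1, hP2]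
    have hx : (RatFunc.C l * z + RatFunc.C t) ^ p ^ s
        = RatFunc.C (l ^ p ^ s) * z ^ p ^ s + RatFunc.C (- v * l ^ p ^ s) := by
      rw [add_pow_char_pow, mul_pow, ← map_pow, ← map_pow, htq]
    have hlin : aeval (RatFunc.C (l ^ p ^ s) * z ^ p ^ s + RatFunc.C (- v * l ^ p ^ s))
        ((P.comp (X + C v)).comp (C u * X)) = aeval (z ^ p ^ s) P := by
      rw [aeval_comp, aeval_comp]
      congr 2
      simp only [map_mul, map_neg, map_add, aeval_C, aeval_X, RatFunc.algebraMap_eq_C]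
      have e1 : RatFunc.C u * RatFunc.C (l ^ p ^ s) = (1 : RatFunc k) := by
        rw [← map_mul, hu, inv_mul_cancel₀ (pow_ne_zero _ hl0), map_one]
      have e2 : RatFunc.C u * RatFunc.C (- v * l ^ p ^ s) = - RatFunc.C v := by
        rw [← map_mul, ← map_neg]
        congr 1
        rw [hu]
        field_simp
      rw [map_mul, map_neg] at e2
      linear_combination (z ^ p ^ s) * e1 + e2
    rw [hx, map_add, map_mul, aeval_C, aeval_C, hlin, RatFunc.algebraMap_eq_C]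
    ring

end ac

end Pool.Agent.H209R3.Uni
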