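import Pool.Agent.H209R3.Uni16

set_option autoImplicit false

namespace Pool.Agent.H209R3.Uni

open Polynomial

theorem mainACP {k : Type*} [Field k] [IsAlgClosed k] (p : ℕ) [Fact p.Prime] [CharP k p]
    {s : ℕ} (hs : 1 ≤ s) {P : k[X]} (hm : 2 ≤ P.natDegree) (hpm : ¬ p ∣ P.natDegree)
    {c : RatFunc k} (hc : ∀ a : k, c ≠ RatFunc.C a) :
    (Pre (fun z : RatFunc k => aeval (z ^ p ^ s) P + c)).encard
      ≤ ((if P.natDegree = 2 then 20 else P.natDegree ^ 2 : ℕ) : ℕ∞) := by
  obtain ⟨μ, hμ⟩ : ∃ μ, P.natDegree = μ + 2 := ⟨P.natDegree - 2, by omega⟩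
  rw [hμ] at hpm ⊢
  obtain ⟨R, l, t, hl0, hR, hRm, hR0, hsemi⟩ := normalise p (s := s) hμ hpm c
  have hCl : RatFunc.C l ≠ (0 : RatFunc k) := by
    rw [Ne, ← map_zero (RatFunc.C : k →+* RatFunc k)]
    exact fun h => hl0 ((RatFunc.C : k →+* RatFunc k).injective h)
  have hinj : Function.Injective (fun z : RatFunc k => RatFunc.C l * z + RatFunc.C t) := by
    intro x y hxy
    exact mul_left_cancel₀ hCl (add_right_cancel hxy)
  have hc' : ∀ a : k, RatFunc.C l * c ≠ RatFunc.C a := by
    intro a ha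
    apply hc (l⁻¹ * a)
    apply mul_left_cancel₀ hCl
    rw [ha, map_mul, ← mul_assoc, ← map_mul, mul_inv_cancel₀ hl0, map_one, one_mul]
  have hmain : (Pre (fR R (p ^ s) (RatFunc.C l * c))).encard
      ≤ ((if μ + 2 = 2 then 20 else (μ + 2) ^ 2 : ℕ) : ℕ∞) := by
    rcases Nat.eq_zero_or_pos μ with h0 | hpos
    · subst h0
      have hReq : R = X ^ 2 + C (R.coeff 0) := by
        ext n
        rw [coeff_add, coeff_X_pow, coeff_C]
        rcases n with _ | _ | _ | n
        · simp
        · simpa using hR0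
        · have : R.coeff 2 = 1 := by
            have := hR.coeff_natDegree
            rwa [hRm] at this
          simpa using this
        · rw [coeff_eq_zero_of_natDegree_lt (by omega)]
          simp
      have hf : fR R (p ^ s) (RatFunc.C l * c) = fun z : RatFunc k => z ^ (p ^ s * 2)
          + (RatFunc.C (R.coeff 0 ^ p ^ s) + RatFunc.C l * c) := by
        funext z
        rw [fR, hReq]
        rw [map_add, aeval_X_pow, aeval_C, RatFunc.algebraMap_eq_C, add_pow_char_pow, ← pow_mul,
          mul_comm 2, map_pow, add_assoc]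
        congr 3
        simp
      have hc2 : ∀ a : k, RatFunc.C (R.coeff 0 ^ p ^ s) + RatFunc.C l * c ≠ RatFunc.C a := by
        intro a ha
        apply hc' (a - R.coeff 0 ^ p ^ s)
        rw [map_sub, ← ha]
        ring
      have := mainAC p hs (le_refl 2) (by simpa using hpm) hc2
      rw [hf]
      simpa [PP, Pre] using this
    · obtain ⟨m, rfl⟩ : ∃ m, μ = m + 1 := ⟨μ - 1, by omega⟩
      have h := mainACG p hs (m := m) (by simpa using hpm) hR (by omega) hR0 hc'
      rw [if_neg (by omega), pow_two]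
      exact h
  rw [← hinj.encard_image]
  refine (Set.encard_le_encard ?_).trans hmain
  rintro _ ⟨z, hz, rfl⟩
  exact Pre_semi (f := fun z : RatFunc k => aeval (z ^ p ^ s) P + c)
    (h := fun z : RatFunc k => RatFunc.C l * z + RatFunc.C t) hsemi hz

theorem mainP {k : Type*} [Field k] (p : ℕ) [Fact p.Prime] [CharP k p]
    {s : ℕ} (hs : 1 ≤ s) {P : k[X]} (hm : 2 ≤ P.natDegree) (hpm : ¬ p ∣ P.natDegree)
    {c : RatFunc k} (hc : ∀ a : k, c ≠ RatFunc.C a) :
    (Pre (fun z : RatFunc k => aeval (z ^ p ^ s) P + c)).encard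
      ≤ ((if P.natDegree = 2 then 20 else P.natDegree ^ 2 : ℕ) : ℕ∞) := by
  obtain ⟨j, hj⟩ := exists_emb3 k (AlgebraicClosure k)
  have hchar2 : CharP (AlgebraicClosure k) p :=
    charP_of_injective_algebraMap (algebraMap k (AlgebraicClosure k)).injective p
  have hjinj : Function.Injective j := j.injective
  have hd : (P.map (algebraMap k (AlgebraicClosure k))).natDegree = P.natDegree := natDegree_map _
  have h1 := mainACP (k := AlgebraicClosure k) p hs
    (P := P.map (algebraMap k (AlgebraicClosure k))) (by rw [hd]; exact hm)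
    (by rw [hd]; exact hpm) (nonconst_emb hj hc)
  rw [hd] at h1
  rw [← hjinj.encard_image]
  refine (Set.encard_le_encard ?_).trans h1
  rintro _ ⟨z, hz, rfl⟩
  apply Pre_semi (f := fun z : RatFunc k => aeval (z ^ p ^ s) P + c) (h := j) _ hz
  intro z
  rw [map_add, ← map_pow, aeval_def, aeval_def, hom_eval₂, eval₂_map]
  congr 2
  ext b
  rw [RingHom.comp_apply, RingHom.comp_apply, RatFunc.algebraMap_eq_C, ← RatFunc.algebraMap_C,
    hj, Polynomial.map_C, RatFunc.algebraMap_C, RatFunc.algebraMap_eq_C]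

end Pool.Agent.H209R3.Uni
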