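import Pool.Agent.H209R3.Uni1

set_option autoImplicit false

namespace Pool.Agent.H209R3.Uni

open Polynomial

section local_
variable {k : Type*} [Field k] (p : ℕ) [Fact p.Prime] [CharP k p]

omit [Fact p.Prime] in
/-- if `W' D = W D'` and `W(a) ≠ 0` then `p` divides the multiplicity of `a` in `D` -/
lemma p_dvd_mult {W D : k[X]} (hD : D ≠ 0) {a : k} (hW : W.eval a ≠ 0)
    (h : derivative W * D = W * derivative D) : p ∣ D.rootMultiplicity a := by
  obtain ⟨D1, hD1, hnd⟩ := exists_eq_pow_rootMultiplicity_mul_and_not_dvd D hD a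
  set e := D.rootMultiplicity a with he
  rcases Nat.eq_zero_or_pos e with h0 | hpos
  · rw [h0]; exact dvd_zero _
  obtain ⟨n, hn⟩ : ∃ n, e = n + 1 := ⟨e - 1, by omega⟩
  rw [hn] at hD1
  have hDd : derivative D = (X - C a) ^ n * (C ((n + 1 : ℕ) : k) * D1 + (X - C a) * derivative D1) := by
    rw [hD1, derivative_mul, derivative_X_sub_C_pow]
    simp only [Nat.add_sub_cancel]
    push_cast
    rw [C_add, C_1, C_eq_natCast]
    ring
  rw [hDd, hD1] at h
  have hX : (X - C a) ^ n ≠ 0 := pow_ne_zero _ (X_sub_C_ne_zero a)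
  have h2 : (X - C a) ^ n * (derivative W * (X - C a) * D1)
      = (X - C a) ^ n * (W * (C ((n + 1 : ℕ) : k) * D1 + (X - C a) * derivative D1)) := by
    linear_combination h
  have h3 := mul_left_cancel₀ hX h2
  have h4 := congrArg (eval a) h3
  simp only [eval_mul, eval_sub, eval_X, eval_C, sub_self, mul_zero, zero_mul, eval_add,
    add_zero] at h4
  have hD1a : D1.eval a ≠ 0 := by
    intro h0
    exact hnd (dvd_iff_isRoot.2 h0)
  have h5 : ((n + 1 : ℕ) : k) = 0 := by
    rcases mul_eq_zero.1 h4.symm with h6 | h6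
    · exact absurd h6 hW
    · exact (mul_eq_zero.1 h6).resolve_right hD1a
  rw [hn]
  exact (CharP.cast_eq_zero_iff k p (n + 1)).1 h5

/-- local factor lemma -/
lemma local_factor {m : ℕ} (hm : (m : k) ≠ 0) {N1 N2 : k[X]} {a ζ : k}
    (hz : N1.eval a = ζ * N2.eval a) (h1 : N1.eval a ≠ 0) (hζ : ζ ^ m = 1) {α : ℕ}
    (h : (X - C a) ^ α ∣ N1 ^ m - N2 ^ m) : (X - C a) ^ α ∣ N1 - C ζ * N2 := by
  have e : N1 ^ m - N2 ^ m = (∑ i ∈ Finset.range m, N1 ^ i * (C ζ * N2) ^ (m - 1 - i))
      * (N1 - C ζ * N2) := by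
    rw [geom_sum₂_mul, mul_pow, ← C_pow, hζ, C_1, one_mul]
  rw [e] at h
  refine IsCoprime.dvd_of_dvd_mul_left (IsCoprime.pow_left ?_) h
  rw [isCoprime_comm]
  have hirr : Irreducible (X - C a) := irreducible_X_sub_C a
  rw [isCoprime_comm, Irreducible.coprime_iff_not_dvd hirr, dvd_iff_isRoot, IsRoot.def,
    eval_finsetSum]
  intro h0
  have : ∀ i ∈ Finset.range m, eval a (N1 ^ i * (C ζ * N2) ^ (m - 1 - i))
      = N1.eval a ^ (m - 1) := by
    intro i hi
    rw [Finset.mem_range] at hi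
    rw [eval_mul, eval_pow, eval_pow, eval_mul, eval_C, ← hz, ← pow_add]
    congr 1
    omega
  rw [Finset.sum_congr rfl this, Finset.sum_const, Finset.card_range, nsmul_eq_mul] at h0
  rcases mul_eq_zero.1 h0 with h2 | h2
  · exact hm h2
  · exact h1 ((fun {n : ℕ} (h : N1.eval a ^ n = 0) => by
      rcases Nat.eq_zero_or_pos n with h3 | h3
      · rw [h3, pow_zero] at h; exact absurd h one_ne_zero
      · exact (pow_eq_zero_iff (by omega)).1 h : ∀ {n : ℕ}, N1.eval a ^ n = 0 → N1.eval a = 0) h2)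

end local_

variable {k : Type*} [Field k] [IsAlgClosed k] (p : ℕ) [Fact p.Prime] [CharP k p]

/-- the core -/
theorem core {s m : ℕ} (hs : 1 ≤ s) (hm : 3 ≤ m) (hpm : ¬ p ∣ m) (hex : ¬ (p ^ s = 2 ∧ m = 3))
    {D F N1 N2 M1 M2 G : k[X]} (hD : D.Monic) (hE : 1 ≤ D.natDegree)
    (hN1 : N1.natDegree ≤ D.natDegree) (hN2 : N2.natDegree ≤ D.natDegree)
    (c1 : IsCoprime N1 D) (c2 : IsCoprime N2 D)
    (e1 : N1 ^ (p ^ s * m) + F = M1 * D ^ (p ^ s * m - 1))
    (e2 : N2 ^ (p ^ s * m) + F = M2 * D ^ (p ^ s * m - 1))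
    (g1 : derivative N1 * D - N1 * derivative D = G)
    (g2 : derivative N2 * D - N2 * derivative D = G) (hG : G ≠ 0) : N1 = N2 := by
  classical
  have hp : p.Prime := Fact.out
  by_contra hne
  have hmk : (m : k) ≠ 0 := fun h => hpm ((CharP.cast_eq_zero_iff k p m).1 h)
  have hN10 : N1 ≠ 0 := by rintro rfl; apply hG; rw [← g1]; simp
  have hN20 : N2 ≠ 0 := by rintro rfl; apply hG; rw [← g2]; simp
  have hD0 : D ≠ 0 := hD.ne_zero
  have hW0 : N1 - N2 ≠ 0 := sub_ne_zero.2 hne
  -- (a)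
  have hKq : (N1 ^ m - N2 ^ m) ^ (p ^ s) = (M1 - M2) * D ^ (p ^ s * m - 1) := by
    rw [sub_pow_char_pow, ← pow_mul, ← pow_mul, mul_comm m (p ^ s)]
    linear_combination e1 - e2
  -- (c)
  have hK0 : N1 ^ m - N2 ^ m ≠ 0 := by
    intro h0
    have h1 : N1 ^ m = N2 ^ m := sub_eq_zero.1 h0
    have h2 := congrArg derivative h1
    rw [derivative_pow, derivative_pow] at h2
    obtain ⟨n, rfl⟩ : ∃ n, m = n + 1 := ⟨m - 1, by omega⟩
    simp only [Nat.add_sub_cancel] at h2
    have hmC : C ((n + 1 : ℕ) : k) ≠ 0 := by rwa [Ne, C_eq_zero]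
    have h3 : N1 ^ n * derivative N1 = N2 ^ n * derivative N2 := by
      apply mul_left_cancel₀ hmC
      linear_combination h2
    have h4 : N2 ^ (n + 1) * (derivative N1 * N2) = N2 ^ (n + 1) * (derivative N2 * N1) := by
      calc N2 ^ (n + 1) * (derivative N1 * N2) = N1 ^ (n + 1) * (derivative N1 * N2) := by rw [h1]
        _ = (N1 ^ n * derivative N1) * (N1 * N2) := by ring
        _ = (N2 ^ n * derivative N2) * (N1 * N2) := by rw [h3]
        _ = _ := by ring
    have h5 := mul_left_cancel₀ (pow_ne_zero _ hN20) h4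
    have h6 : G * N2 = G * N1 := by
      calc G * N2 = (derivative N1 * N2) * D - N1 * N2 * derivative D := by rw [← g1]; ring
        _ = (derivative N2 * N1) * D - N1 * N2 * derivative D := by rw [h5]
        _ = G * N1 := by rw [← g2]; ring
    exact hne (mul_left_cancel₀ hG h6).symm
  -- multiplicities
  set K := N1 ^ m - N2 ^ m with hK
  set q := p ^ s with hq
  have hqpos : 1 ≤ q := Nat.one_le_iff_ne_zero.2 (pow_ne_zero _ hp.ne_zero)
  have hq2 : 2 ≤ q := by
    calc 2 ≤ p := hp.two_le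
      _ = p ^ 1 := (pow_one p).symm
      _ ≤ p ^ s := Nat.pow_le_pow_right hp.pos hs
  let e : k → ℕ := fun a => D.rootMultiplicity a
  let α : k → ℕ := fun a => K.rootMultiplicity a
  have hαe : ∀ a, (q * m - 1) * e a ≤ q * α a := by
    intro a
    have h1 : (X - C a) ^ ((q * m - 1) * e a) ∣ K ^ q := by
      rw [hKq, mul_comm (q * m - 1) (e a), pow_mul]
      exact Dvd.dvd.mul_left (pow_dvd_pow_of_dvd (pow_rootMultiplicity_dvd D a) _) _
    have h2 := (le_rootMultiplicity_iff (pow_ne_zero q hK0)).2 h1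
    rw [← count_roots, roots_pow, Multiset.count_nsmul, count_roots] at h2
    exact h2
  let S := D.roots.toFinset
  have hSe : ∀ a ∈ S, 1 ≤ e a := by
    intro a ha
    have : a ∈ D.roots := Multiset.mem_toFinset.1 ha
    exact (rootMultiplicity_pos hD0).2 ((mem_roots hD0).1 this)
  have hSr : ∀ a ∈ S, D.eval a = 0 := by
    intro a ha
    have : a ∈ D.roots := Multiset.mem_toFinset.1 ha
    exact (mem_roots hD0).1 this
  have hqm : 3 * q ≤ q * m := by rw [mul_comm]; exact Nat.mul_le_mul_left q hm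
  have hSα : ∀ a ∈ S, 1 ≤ α a := by
    intro a ha
    have h1 := hαe a
    have h2 := hSe a ha
    by_contra h3
    have h4 : α a = 0 := by omega
    rw [h4, mul_zero] at h1
    have h5 : 0 < (q * m - 1) * e a := Nat.mul_pos (by omega) h2
    omega
  have hN1a : ∀ a ∈ S, N1.eval a ≠ 0 := by
    intro a ha h0
    obtain ⟨u, v, huv⟩ := c1
    have := congrArg (eval a) huv
    simp [h0, hSr a ha] at this
  have hN2a : ∀ a ∈ S, N2.eval a ≠ 0 := by
    intro a ha h0
    obtain ⟨u, v, huv⟩ := c2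
    have := congrArg (eval a) huv
    simp [h0, hSr a ha] at this
  have hKa : ∀ a ∈ S, N1.eval a ^ m = N2.eval a ^ m := by
    intro a ha
    have h1 : K.IsRoot a := (rootMultiplicity_pos hK0).1 (hSα a ha)
    rw [IsRoot.def, hK, eval_sub, eval_pow, eval_pow, sub_eq_zero] at h1
    exact h1
  have hfac : ∀ a ∈ S, (X - C a) ^ α a ∣ N1 - C (N1.eval a / N2.eval a) * N2 := by
    intro a ha
    have h2 := hN2a a ha
    apply local_factor hmk _ (hN1a a ha) _ (pow_rootMultiplicity_dvd K a)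
    · field_simp
    · rw [div_pow, hKa a ha, div_self (pow_ne_zero _ h2)]
  -- sum of multiplicities
  have hEsum : D.natDegree = ∑ a ∈ S, e a := by
    have h1 : D.roots.card = D.natDegree := IsAlgClosed.card_roots_eq_natDegree
    rw [← h1, ← Multiset.toFinset_sum_count_eq]
    apply Finset.sum_congr rfl
    intro a _
    exact count_roots D
  let S1 := S.filter (fun a => N1.eval a = N2.eval a)
  let S2 := S.filter (fun a => ¬ N1.eval a = N2.eval a)
  have hS12 : (∑ a ∈ S2, e a) + ∑ a ∈ S1, e a = ∑ a ∈ S, e a := by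
    rw [add_comm]; exact Finset.sum_filter_add_sum_filter_not S _ _
  -- mono part
  have hmono : ∑ a ∈ S1, α a ≤ D.natDegree := by
    refine le_trans (sum_le_natDegree hW0 S1 α ?_) ?_
    · intro a ha
      have ha' := (Finset.mem_filter.1 ha)
      have h1 := hfac a ha'.1
      rwa [ha'.2, div_self (hN2a a ha'.1), C_1, one_mul] at h1
    · exact le_trans (natDegree_sub_le _ _) (max_le hN1 hN2)
  -- mixed part
  have hmix : ∑ a ∈ S2, (α a + e a - 1) ≤ G.natDegree := by
    apply sum_le_natDegree hG S2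
    intro a ha
    have ha' := (Finset.mem_filter.1 ha)
    have h1 := hfac a ha'.1
    set ζ := N1.eval a / N2.eval a with hζ
    have hζ1 : 1 - ζ ≠ 0 := by
      intro h0
      have h2 : ζ = 1 := (sub_eq_zero.1 h0).symm
      rw [hζ, div_eq_one_iff_eq (hN2a a ha'.1)] at h2
      exact ha'.2 h2
    set H := N1 - C ζ * N2 with hH
    have h3 : C (1 - ζ) * G = derivative H * D - H * derivative D := by
      rw [hH, derivative_sub, derivative_C_mul, C_sub, C_1]
      linear_combination C ζ * g2 - g1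
    have h4 : (X - C a) ^ (α a + e a - 1) ∣ C (1 - ζ) * G := by
      rw [h3]
      apply dvd_sub
      · have : α a + e a - 1 = (α a - 1) + e a := by have := hSα a ha'.1; omega
        rw [this, pow_add]
        exact mul_dvd_mul (pow_sub_one_dvd_derivative_of_pow_dvd h1)
          (pow_rootMultiplicity_dvd D a)
      · have : α a + e a - 1 = α a + (e a - 1) := by have := hSe a ha'.1; omega
        rw [this, pow_add]
        exact mul_dvd_mul h1
          (pow_sub_one_dvd_derivative_of_pow_dvd (pow_rootMultiplicity_dvd D a))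
    have hu : IsUnit (C (1 - ζ)) := isUnit_C.2 (isUnit_iff_ne_zero.2 hζ1)
    exact (hu.dvd_mul_left).1 h4
  have hpe : ∀ a ∈ S2, p ≤ e a := by
    intro a ha
    have ha' := (Finset.mem_filter.1 ha)
    apply Nat.le_of_dvd (hSe a ha'.1)
    apply p_dvd_mult p (W := N1 - N2) hD0
    · rw [eval_sub]; exact sub_ne_zero.2 ha'.2
    · rw [derivative_sub]; linear_combination g1 - g2
  have hGdeg : G.natDegree ≤ 2 * D.natDegree - 2 := by
    rw [← g1]; exact natDegree_wr hE hN1 le_rfl
  obtain ⟨r, hr⟩ : ∃ r, r = p ^ (s - 1) := ⟨_, rfl⟩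
  have hr1 : 1 ≤ r := by rw [hr]; exact Nat.one_le_iff_ne_zero.2 (pow_ne_zero _ hp.ne_zero)
  have hqr : q = p * r := by
    rw [hq, hr, ← pow_succ']; congr 1; omega
  have hcard : p * S2.card ≤ ∑ a ∈ S2, e a := by
    rw [mul_comm]
    have := Finset.card_nsmul_le_sum S2 e p hpe
    simpa using this
  refine arith (p := p) (r := r) (q := q) (m := m) (A := ∑ a ∈ S2, e a) (B := ∑ a ∈ S1, e a)
    (E := D.natDegree) hp.two_le hr1 hqr hm hpm hex ?_ hE ?_ ?_
  · rw [hEsum, hS12]
  · calc (q * m - 1) * ∑ a ∈ S1, e a = ∑ a ∈ S1, (q * m - 1) * e a := by rw [Finset.mul_sum]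
      _ ≤ ∑ a ∈ S1, q * α a := Finset.sum_le_sum (fun a _ => hαe a)
      _ = q * ∑ a ∈ S1, α a := by rw [Finset.mul_sum]
      _ ≤ q * D.natDegree := Nat.mul_le_mul_left q hmono
  · have k1 : (q * m - 1) * ∑ a ∈ S2, e a ≤ q * ∑ a ∈ S2, α a := by
      calc (q * m - 1) * ∑ a ∈ S2, e a = ∑ a ∈ S2, (q * m - 1) * e a := by rw [Finset.mul_sum]
        _ ≤ ∑ a ∈ S2, q * α a := Finset.sum_le_sum (fun a _ => hαe a)
        _ = q * ∑ a ∈ S2, α a := by rw [Finset.mul_sum]
    have k2 : ∑ a ∈ S2, α a + ∑ a ∈ S2, e a = ∑ a ∈ S2, (α a + e a - 1) + S2.card := by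
      rw [← Finset.sum_add_distrib, Finset.card_eq_sum_ones, ← Finset.sum_add_distrib]
      apply Finset.sum_congr rfl
      intro a ha
      have := hSe a (Finset.mem_filter.1 ha).1
      omega
    have k3 : q * S2.card ≤ r * ∑ a ∈ S2, e a := by
      rw [hqr, mul_comm p r, mul_assoc]
      exact Nat.mul_le_mul_left r hcard
    have k4 : q * (∑ a ∈ S2, α a + ∑ a ∈ S2, e a) ≤ q * (2 * D.natDegree - 2) + q * S2.card := by
      rw [k2, mul_add]
      exact Nat.add_le_add_right (Nat.mul_le_mul_left q (le_trans hmix hGdeg)) _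
    have k5 : q * (2 * D.natDegree - 2) = 2 * q * (D.natDegree - 1) := by
      have : 2 * D.natDegree - 2 = 2 * (D.natDegree - 1) := by omega
      rw [this]; ring
    have k6 : q * (∑ a ∈ S2, α a + ∑ a ∈ S2, e a)
        = q * ∑ a ∈ S2, α a + q * ∑ a ∈ S2, e a := mul_add _ _ _
    have k7 : (q * m + q - 1) * ∑ a ∈ S2, e a
        = (q * m - 1) * ∑ a ∈ S2, e a + q * ∑ a ∈ S2, e a := by
      rw [← add_mul]; congr 1; omega
    omega

end Pool.Agent.H209R3.Uni
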