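import Pool.Agent.H209R3.Uni2

set_option autoImplicit false

namespace Pool.Agent.H209R3.Uni

open Polynomial WithZero

/-- preperiodic points of `z^d + c` in the field -/
def PP {K : Type*} [Field K] (d : ℕ) (c : K) : Set K :=
  {z | ∃ m n : ℕ, m < n ∧ (fun z => z ^ d + c)^[m] z = (fun z => z ^ d + c)^[n] z}

lemma PP_map {K : Type*} [Field K] {d : ℕ} {c z : K} (h : z ∈ PP d c) : z ^ d + c ∈ PP d c := by
  obtain ⟨m, n, hmn, h⟩ := h
  refine ⟨m, n, hmn, ?_⟩
  have e1 := Function.iterate_succ_apply (fun z : K => z ^ d + c) m z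
  have e2 := Function.iterate_succ_apply (fun z : K => z ^ d + c) n z
  rw [Function.iterate_succ_apply'] at e1 e2
  rw [← e1, ← e2, h]

section val
variable {K Γ : Type*} [Field K] [LinearOrderedCommGroupWithZero Γ] (v : Valuation K Γ)

lemma escape {d : ℕ} (hd : 2 ≤ d) {c z : K} (hz : z ∈ PP d c) :
    ¬ (1 < v z ∧ v c < v z ^ d) := by
  intro hP
  obtain ⟨m, n, hmn, h⟩ := hz
  set f : K → K := fun z => z ^ d + c with hf
  have step : ∀ y, (1 < v y ∧ v c < v y ^ d) →
      (v y < v (f y) ∧ (1 < v (f y) ∧ v c < v (f y) ^ d)) := by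
    rintro y ⟨h1, h2⟩
    have e : v (f y) = v y ^ d := by
      rw [hf]
      show v (y ^ d + c) = _
      rw [Valuation.map_add_eq_of_lt_left, map_pow]
      rw [map_pow]; exact h2
    have h3 : v y < v y ^ d := lt_self_pow₀ h1 (by omega)
    have h4 : 1 < v y ^ d := h1.trans h3
    rw [e]
    exact ⟨h3, h4, h2.trans (lt_self_pow₀ h4 (by omega))⟩
  have hall : ∀ j : ℕ, (1 < v (f^[j] z) ∧ v c < v (f^[j] z) ^ d) := by
    intro j
    induction j with
    | zero => exact hP
    | succ j ih => rw [Function.iterate_succ_apply']; exact (step _ ih).2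
  have hmono : StrictMono (fun j : ℕ => v (f^[j] z)) := by
    apply strictMono_nat_of_lt_succ
    intro j
    show v (f^[j] z) < v (f^[j + 1] z)
    rw [Function.iterate_succ_apply']
    exact (step _ (hall j)).1
  have h5 := hmono hmn
  simp only [h] at h5
  exact lt_irrefl _ h5

lemma val_le_one {d : ℕ} (hd : 2 ≤ d) {c z : K} (hz : z ∈ PP d c) (hc : v c ≤ 1) : v z ≤ 1 := by
  by_contra hcon
  have h1 : 1 < v z := not_le.1 hcon
  exact escape v hd hz ⟨h1, lt_of_le_of_lt hc (h1.trans (lt_self_pow₀ h1 (by omega)))⟩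

lemma val_eq {d : ℕ} (hd : 2 ≤ d) {c z : K} (hz : z ∈ PP d c) (hc : 1 < v c) :
    v z ^ d = v c := by
  rcases lt_trichotomy (v z ^ d) (v c) with h | h | h
  · exfalso
    have e : v (z ^ d + c) = v c := by
      rw [Valuation.map_add_eq_of_lt_right]
      rw [map_pow]; exact h
    apply escape v hd (PP_map hz)
    rw [e]
    exact ⟨hc, lt_self_pow₀ hc (by omega)⟩
  · exact h
  · exfalso
    apply escape v hd hz
    refine ⟨?_, h⟩
    by_contra hcon
    have : v z ^ d ≤ 1 := pow_le_one₀ zero_le (not_lt.1 hcon)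
    exact absurd (lt_of_lt_of_le (hc.trans h) this) (lt_irrefl _)

end val

section ratf
variable {k : Type*} [Field k]

lemma exists_va (a : k) : ∃ v : Valuation (RatFunc k) ℤᵐ⁰, ∀ r : k[X], r ≠ 0 →
    v (algebraMap k[X] (RatFunc k) r) = exp (-(r.rootMultiplicity a : ℤ)) := by
  have hprime : (Ideal.span {X - C a}).IsPrime :=
    (Ideal.span_singleton_prime (X_sub_C_ne_zero a)).2 (prime_X_sub_C a)
  have hne : Ideal.span {X - C a} ≠ ⊥ := by
    rw [Ne, Ideal.span_singleton_eq_bot]; exact X_sub_C_ne_zero a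
  let w : IsDedekindDomain.HeightOneSpectrum k[X] := ⟨Ideal.span {X - C a}, hprime, hne⟩
  refine ⟨w.valuation (RatFunc k), fun r hr => ?_⟩
  rw [IsDedekindDomain.HeightOneSpectrum.valuation_of_algebraMap]
  obtain ⟨r1, hr1, hnd⟩ := exists_eq_pow_rootMultiplicity_mul_and_not_dvd r hr a
  have h1 : w.intValuation r1 = 1 := by
    rw [IsDedekindDomain.HeightOneSpectrum.intValuation_eq_one_iff]
    show r1 ∉ Ideal.span {X - C a}
    rwa [Ideal.mem_span_singleton]
  have h2 : w.intValuation (X - C a) = exp (-1 : ℤ) :=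
    IsDedekindDomain.HeightOneSpectrum.intValuation_singleton w (X_sub_C_ne_zero a) rfl
  conv_lhs => rw [hr1]
  rw [map_mul, map_pow, h1, h2, mul_one, ← exp_nsmul]
  congr 1
  simp

/-- valuation at `a` of a rational function versus its denominator -/
lemma va_denom {a : k} {v : Valuation (RatFunc k) ℤᵐ⁰} (hv : ∀ r : k[X], r ≠ 0 →
    v (algebraMap k[X] (RatFunc k) r) = exp (-(r.rootMultiplicity a : ℤ))) (x : RatFunc k) :
    (x.denom.rootMultiplicity a = 0 → v x ≤ 1) ∧
    (x.denom.rootMultiplicity a ≠ 0 → v x = exp (x.denom.rootMultiplicity a : ℤ)) := by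
  have hden := x.denom_ne_zero
  constructor
  · intro h0
    rcases eq_or_ne x 0 with rfl | hx
    · simp
    have hn : x.num ≠ 0 := RatFunc.num_ne_zero hx
    have e : v x = v (algebraMap k[X] (RatFunc k) x.num) / v (algebraMap k[X] (RatFunc k) x.denom) := by
      conv_lhs => rw [← RatFunc.num_div_denom x]
      rw [map_div₀]
    rw [e, hv _ hn, hv _ hden, h0, Nat.cast_zero, neg_zero, exp_zero, div_one, ← exp_zero, exp_le_exp]
    omega
  · intro h0
    have hx : x ≠ 0 := by
      rintro rfl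
      apply h0
      rw [RatFunc.denom_zero]
      simp
    have hn : x.num ≠ 0 := RatFunc.num_ne_zero hx
    have hcop := RatFunc.isCoprime_num_denom x
    have hda : x.denom.eval a = 0 :=
      (rootMultiplicity_pos hden).1 (Nat.pos_of_ne_zero h0)
    have hna : x.num.rootMultiplicity a = 0 := by
      by_contra h1
      have h2 : x.num.eval a = 0 := (rootMultiplicity_pos hn).1 (Nat.pos_of_ne_zero h1)
      obtain ⟨u, w, huw⟩ := hcop
      have := congrArg (eval a) huw
      simp [h2, hda] at this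
    have e : v x = v (algebraMap k[X] (RatFunc k) x.num) / v (algebraMap k[X] (RatFunc k) x.denom) := by
      conv_lhs => rw [← RatFunc.num_div_denom x]
      rw [map_div₀]
    rw [e, hv _ hn, hv _ hden, hna, Nat.cast_zero, neg_zero, exp_zero, exp_neg, one_div, inv_inv]

lemma monic_ext [IsAlgClosed k] {P Q : k[X]} (hP : P.Monic) (hQ : Q.Monic)
    (h : ∀ a, P.rootMultiplicity a = Q.rootMultiplicity a) : P = Q := by
  classical
  have h1 : P.roots = Q.roots := by
    ext a
    rw [count_roots, count_roots, h]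
  rw [(IsAlgClosed.splits P).eq_prod_roots_of_monic hP,
    (IsAlgClosed.splits Q).eq_prod_roots_of_monic hQ, h1]

lemma rm_pow {P : k[X]} (n : ℕ) (a : k) :
    (P ^ n).rootMultiplicity a = n * P.rootMultiplicity a := by
  classical
  rw [← count_roots, roots_pow, Multiset.count_nsmul, count_roots]

lemma pow_inj_monic [IsAlgClosed k] {P Q : k[X]} (hP : P.Monic) (hQ : Q.Monic) {n : ℕ}
    (hn : 1 ≤ n) (h : P ^ n = Q ^ n) : P = Q := by
  apply monic_ext hP hQ
  intro a
  have := congrArg (rootMultiplicity a) h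
  rw [rm_pow, rm_pow] at this
  exact Nat.eq_of_mul_eq_mul_left hn this

lemma denom_pow [IsAlgClosed k] {d : ℕ} (hd : 2 ≤ d) {c z : RatFunc k} (hz : z ∈ PP d c) :
    z.denom ^ d = c.denom := by
  apply monic_ext ((RatFunc.monic_denom z).pow d) (RatFunc.monic_denom c)
  intro a
  obtain ⟨v, hv⟩ := exists_va a
  obtain ⟨z1, z2⟩ := va_denom hv z
  obtain ⟨c1, c2⟩ := va_denom hv c
  rw [rm_pow]
  have hgt : ∀ n : ℕ, n ≠ 0 → (1 : ℤᵐ⁰) < exp (n : ℤ) := by
    intro n hn
    rw [← exp_zero, exp_lt_exp]; omega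
  rcases eq_or_ne (c.denom.rootMultiplicity a) 0 with h0 | h0
  · have h1 := val_le_one v hd hz (c1 h0)
    have h2 : z.denom.rootMultiplicity a = 0 := by
      by_contra h3
      rw [z2 h3] at h1
      exact absurd (lt_of_lt_of_le (hgt _ h3) h1) (lt_irrefl _)
    rw [h2, h0, mul_zero]
  · have h1 := val_eq v hd hz (by rw [c2 h0]; exact hgt _ h0)
    have h2 : z.denom.rootMultiplicity a ≠ 0 := by
      intro h3
      have h4 : v z ^ d ≤ 1 := pow_le_one₀ zero_le (z1 h3)
      rw [h1, c2 h0] at h4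
      exact absurd (lt_of_lt_of_le (hgt _ h0) h4) (lt_irrefl _)
    rw [z2 h2, c2 h0, ← exp_nsmul] at h1
    have h5 := exp_injective h1
    simp only [nsmul_eq_mul] at h5
    exact_mod_cast h5

open scoped Classical in
lemma vinf_le (x : RatFunc k) :
    RatFunc.inftyValuation k x ≤ 1 ↔ x.num.natDegree ≤ x.denom.natDegree := by
  rcases eq_or_ne x 0 with rfl | hx
  · simp
  · rw [RatFunc.inftyValuation_apply, RatFunc.inftyValuation_of_nonzero _ hx, ← exp_zero,
      exp_le_exp, RatFunc.intDegree]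
    omega

open scoped Classical in
lemma num_le {d : ℕ} (hd : 2 ≤ d) {c z : RatFunc k} (hz : z ∈ PP d c)
    (hc : c.num.natDegree ≤ c.denom.natDegree) : z.num.natDegree ≤ z.denom.natDegree :=
  (vinf_le z).1 (val_le_one _ hd hz ((vinf_le c).2 hc))

end ratf

end Pool.Agent.H209R3.Uni
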