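import Pool.Agent.H209R3.Uni3

set_option autoImplicit false

namespace Pool.Agent.H209R3.Uni

open Polynomial

variable {k : Type*} [Field k] [IsAlgClosed k]

lemma denom_eq {d : ℕ} (hd : 2 ≤ d) {c z y : RatFunc k} (hz : z ∈ PP d c) (hy : y ∈ PP d c) :
    z.denom = y.denom :=
  pow_inj_monic (RatFunc.monic_denom z) (RatFunc.monic_denom y) (n := d) (by omega)
    ((denom_pow hd hz).trans (denom_pow hd hy).symm)

lemma step_eq {d : ℕ} (hd : 2 ≤ d) {c z : RatFunc k} (hz : z ∈ PP d c) :
    z.num ^ d + c.num = (z ^ d + c).num * z.denom ^ (d - 1) := by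
  have hy := PP_map hz
  have e1 := denom_eq hd hz hy
  have e2 := denom_pow hd hz
  let A := algebraMap k[X] (RatFunc k)
  have hA : Function.Injective A := IsFractionRing.injective k[X] (RatFunc k)
  have hD : A z.denom ≠ 0 := by
    intro h0
    exact z.denom_ne_zero (hA (h0.trans (map_zero A).symm))
  apply hA
  have hz' : z = A z.num / A z.denom := (RatFunc.num_div_denom z).symm
  have hc' : c = A c.num / A z.denom ^ d := by
    rw [← map_pow, e2]; exact (RatFunc.num_div_denom c).symm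
  have hy' : z ^ d + c = A (z ^ d + c).num / A z.denom := by
    rw [e1]; exact (RatFunc.num_div_denom _).symm
  have h1 : A (z ^ d + c).num / A z.denom = (A z.num / A z.denom) ^ d + A c.num / A z.denom ^ d := by
    rw [← hy', ← hz', ← hc']
  obtain ⟨n, rfl⟩ : ∃ n, d = n + 1 := ⟨d - 1, by omega⟩
  rw [map_add, map_pow, map_mul, map_pow, Nat.add_sub_cancel]
  rw [div_pow, ← add_div, div_eq_div_iff hD (pow_ne_zero _ hD)] at h1
  apply mul_right_cancel₀ hD
  rw [← h1]
  ring

lemma G_eq (p : ℕ) [CharP k p] {d : ℕ} (hd : 2 ≤ d) (hpd : p ∣ d) {c z : RatFunc k}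
    (hz : z ∈ PP d c) :
    z.denom ^ (d - 2) * (derivative (z ^ d + c).num * z.denom
      - (z ^ d + c).num * derivative z.denom) = derivative c.num := by
  have h := congrArg derivative (step_eq hd hz)
  have hd0 : (d : k) = 0 := (CharP.cast_eq_zero_iff k p d).2 hpd
  rw [derivative_add, derivative_pow, hd0, C_0, zero_mul, zero_mul, zero_add, derivative_mul,
    derivative_pow] at h
  obtain ⟨n, rfl⟩ : ∃ n, d = n + 2 := ⟨d - 2, by omega⟩
  have e1 : n + 2 - 1 = n + 1 := rfl
  have e2 : n + 1 - 1 = n := rfl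
  have e3 : n + 2 - 2 = n := rfl
  have e4 : ((n + 1 : ℕ) : k) = -1 := by
    have : ((n + 1 : ℕ) : k) + 1 = 0 := by rw [← hd0]; push_cast; ring
    exact eq_neg_of_add_eq_zero_left this
  rw [e1, e2, e4, C_neg, C_1] at h
  rw [e3, h]
  ring

theorem claim1 (p : ℕ) [Fact p.Prime] [CharP k p] {s m : ℕ} (hs : 1 ≤ s) (hm : 3 ≤ m)
    (hpm : ¬ p ∣ m) (hex : ¬ (p ^ s = 2 ∧ m = 3)) {c z1 z2 : RatFunc k}
    (hc : c.num.natDegree ≤ c.denom.natDegree) (hcn : derivative c.num ≠ 0)
    (h1 : z1 ∈ PP (p ^ s * m) c) (h2 : z2 ∈ PP (p ^ s * m) c) :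
    z1 ^ (p ^ s * m) + c = z2 ^ (p ^ s * m) + c := by
  have hp : p.Prime := Fact.out
  have hq1 : 1 ≤ p ^ s := Nat.one_le_iff_ne_zero.2 (pow_ne_zero _ hp.ne_zero)
  have hd : 2 ≤ p ^ s * m := by
    have := Nat.mul_le_mul_right m hq1
    omega
  have hpd : p ∣ p ^ s * m := Dvd.dvd.mul_right (dvd_pow_self p (by omega)) m
  set d := p ^ s * m with hdd
  set y1 := z1 ^ d + c with hy1d
  set y2 := z2 ^ d + c with hy2d
  have hy1 : y1 ∈ PP d c := PP_map h1
  have hy2 : y2 ∈ PP d c := PP_map h2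
  have e12 : y2.denom = y1.denom := denom_eq hd hy2 hy1
  have ez1 : z1.denom = y1.denom := denom_eq hd h1 hy1
  have ez2 : z2.denom = y1.denom := denom_eq hd h2 hy1
  have g1 := G_eq p hd hpd h1
  have g2 := G_eq p hd hpd h2
  rw [← hy1d, ez1] at g1
  rw [← hy2d, ez2] at g2
  have hD0 : y1.denom ^ (d - 2) ≠ 0 := pow_ne_zero _ y1.denom_ne_zero
  have hE : 1 ≤ y1.denom.natDegree := by
    by_contra hcon
    have h0 : y1.denom.natDegree = 0 := by omega
    have h3 : c.denom.natDegree = 0 := by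
      rw [← denom_pow hd hy1, natDegree_pow, h0, mul_zero]
    apply hcn
    have h4 : c.num.natDegree = 0 := by omega
    exact derivative_of_natDegree_zero h4
  have hnum : y1.num = y2.num := by
    refine core p hs hm hpm hex (D := y1.denom) (F := c.num) (M1 := (y1 ^ d + c).num)
      (M2 := (y2 ^ d + c).num) (G := derivative y1.num * y1.denom - y1.num * derivative y1.denom)
      (RatFunc.monic_denom y1) hE (by classical exact num_le hd hy1 hc) ?_
      (RatFunc.isCoprime_num_denom y1) ?_ (step_eq hd hy1) ?_ rfl ?_ ?_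
    · rw [← e12]; classical exact num_le hd hy2 hc
    · rw [← e12]; exact RatFunc.isCoprime_num_denom y2
    · rw [← e12]; exact step_eq hd hy2
    · apply mul_left_cancel₀ hD0
      rw [g1, g2]
    · intro h0
      rw [h0, mul_zero] at g1
      exact hcn g1.symm
  rw [← RatFunc.num_div_denom y1, ← RatFunc.num_div_denom y2, hnum, e12]

end Pool.Agent.H209R3.Uni
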