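import Pool.Agent.H209R3.Uni4

set_option autoImplicit false

namespace Pool.Agent.H209R3.Uni

open Polynomial

section gen
variable {K : Type*} [Field K] (p : ℕ) [Fact p.Prime] [CharP K p]

lemma fib (s : ℕ) {m : ℕ} (hm : 1 ≤ m) (c y : K) :
    {z : K | z ^ (p ^ s * m) + c = y}.encard ≤ (m : ℕ∞) := by
  classical
  rcases Set.eq_empty_or_nonempty {z : K | z ^ (p ^ s * m) + c = y} with h | ⟨z0, hz0⟩
  · rw [h, Set.encard_empty]; exact zero_le
  · have hsub : {z : K | z ^ (p ^ s * m) + c = y} ⊆ ((nthRoots m (z0 ^ m)).toFinset : Set K) := by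
      intro z hz
      have h1 : z ^ (p ^ s * m) = z0 ^ (p ^ s * m) := by
        have hz' : z ^ (p ^ s * m) + c = y := hz
        have hz0' : z0 ^ (p ^ s * m) + c = y := hz0
        exact add_right_cancel (hz'.trans hz0'.symm)
      have h2 : (z ^ m - z0 ^ m) ^ (p ^ s) = 0 := by
        rw [sub_pow_char_pow, ← pow_mul, ← pow_mul, mul_comm m (p ^ s), h1, sub_self]
      have h3 : z ^ m = z0 ^ m := sub_eq_zero.1 (pow_eq_zero_iff (pow_ne_zero _
        (Fact.out : p.Prime).ne_zero) |>.1 h2)
      rw [Finset.mem_coe, Multiset.mem_toFinset, mem_nthRoots (by omega)]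
      exact h3
    refine le_trans (Set.encard_le_encard hsub) ?_
    rw [Set.encard_coe_eq_coe_finsetCard]
    exact_mod_cast le_trans (Multiset.toFinset_card_le _) (card_nthRoots m (z0 ^ m))

lemma PP_frob (j : ℕ) {d : ℕ} {c W : K} (h : W ^ (p ^ j) ∈ PP d (c ^ (p ^ j))) : W ∈ PP d c := by
  have hit : ∀ n : ℕ, (fun z : K => z ^ d + c ^ (p ^ j))^[n] (W ^ (p ^ j))
      = ((fun z : K => z ^ d + c)^[n] W) ^ (p ^ j) := by
    intro n
    induction n with
    | zero => rfl
    | succ n ih =>
      rw [Function.iterate_succ_apply', Function.iterate_succ_apply', ih]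
      rw [add_pow_char_pow, ← pow_mul, ← pow_mul, mul_comm (p ^ j) d]
  obtain ⟨m, n, hmn, h⟩ := h
  refine ⟨m, n, hmn, ?_⟩
  rw [hit, hit] at h
  have h2 : ((fun z : K => z ^ d + c)^[m] W - (fun z : K => z ^ d + c)^[n] W) ^ (p ^ j) = 0 := by
    rw [sub_pow_char_pow, h, sub_self]
  exact sub_eq_zero.1 (pow_eq_zero_iff (pow_ne_zero _ (Fact.out : p.Prime).ne_zero) |>.1 h2)

omit [Fact p.Prime] [CharP K p] in
lemma exists_j (c : K) (s : ℕ) : (∃ b : K, c = b ^ (p ^ (s + 1))) ∨
    ∃ j ≤ s, ∃ c0 : K, c = c0 ^ (p ^ j) ∧ ¬ ∃ y : K, c0 = y ^ p := by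
  induction s with
  | zero =>
    by_cases h : ∃ y : K, c = y ^ p
    · left
      obtain ⟨y, hy⟩ := h
      exact ⟨y, by rw [hy, zero_add, pow_one]⟩
    · right
      exact ⟨0, le_rfl, c, by rw [pow_zero, pow_one], h⟩
  | succ s ih =>
    rcases ih with ⟨b, hb⟩ | ⟨j, hj, c0, h1, h2⟩
    · by_cases h : ∃ y : K, b = y ^ p
      · left
        obtain ⟨y, hy⟩ := h
        exact ⟨y, by rw [hb, hy, ← pow_mul, ← pow_succ']⟩
      · right
        exact ⟨s + 1, le_rfl, b, hb, h⟩
    · right
      exact ⟨j, by omega, c0, h1, h2⟩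

end gen

lemma count_lem {α β : Type*} (S : Set α) (g : α → β) (T : Set β) (a b : ℕ)
    (hT : T.encard ≤ (a : ℕ∞)) (hg : ∀ x ∈ S, g x ∈ T)
    (hf : ∀ y, {x | g x = y}.encard ≤ (b : ℕ∞)) : S.encard ≤ ((b * a : ℕ) : ℕ∞) := by
  classical
  have hTfin : T.Finite := Set.finite_of_encard_le_coe hT
  have hSfin : S.Finite := by
    apply (hTfin.biUnion (t := fun y => {x | g x = y})
      (fun y _ => Set.finite_of_encard_le_coe (hf y))).subset
    intro x hx
    simp only [Set.mem_iUnion]
    exact ⟨g x, hg x hx, rfl⟩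
  have h1 : (hSfin.toFinset).card ≤ b * (hSfin.toFinset.image g).card := by
    apply Finset.card_le_mul_card_image
    intro y _
    have h2 : ((hSfin.toFinset.filter (fun x => g x = y) : Finset α) : Set α) ⊆ {x | g x = y} := by
      intro x hx
      exact (Finset.mem_filter.1 (Finset.mem_coe.1 hx)).2
    have h3 := (Set.encard_le_encard h2).trans (hf y)
    rw [Set.encard_coe_eq_coe_finsetCard] at h3
    exact_mod_cast h3
  have h4 : (hSfin.toFinset.image g).card ≤ a := by
    have h5 : ((hSfin.toFinset.image g : Finset β) : Set β) ⊆ T := by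
      intro y hy
      obtain ⟨x, hx, rfl⟩ := Finset.mem_image.1 (Finset.mem_coe.1 hy)
      exact hg x (hSfin.mem_toFinset.1 hx)
    have h3 := (Set.encard_le_encard h5).trans hT
    rw [Set.encard_coe_eq_coe_finsetCard] at h3
    exact_mod_cast h3
  have h6 : S.encard = (hSfin.toFinset.card : ℕ∞) := hSfin.encard_eq_coe_toFinset_card
  rw [h6]
  exact_mod_cast h1.trans (Nat.mul_le_mul_left b h4)

section rf
variable {k : Type*} [Field k]

lemma mul_denom (x : RatFunc k) : x * algebraMap k[X] (RatFunc k) x.denom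
    = algebraMap k[X] (RatFunc k) x.num := by
  have hD : algebraMap k[X] (RatFunc k) x.denom ≠ 0 := by
    intro h0
    exact x.denom_ne_zero ((IsFractionRing.injective k[X] (RatFunc k)) (h0.trans (map_zero _).symm))
  have h := RatFunc.num_div_denom x
  rw [div_eq_iff hD] at h
  exact h.symm

lemma nd_unique {x : RatFunc k} {a b : k[X]} (hb : b.Monic) (hab : IsCoprime a b)
    (h : x * algebraMap k[X] (RatFunc k) b = algebraMap k[X] (RatFunc k) a) :
    x.num = a ∧ x.denom = b := by
  let A := algebraMap k[X] (RatFunc k)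
  have hA : Function.Injective A := IsFractionRing.injective k[X] (RatFunc k)
  have hD : A x.denom ≠ 0 := by
    intro h0
    exact x.denom_ne_zero (hA (h0.trans (map_zero A).symm))
  have h1 : x * A x.denom = A x.num := mul_denom x
  have h2 : x.num * b = a * x.denom := by
    apply hA
    rw [map_mul, map_mul, ← h1]
    have h' : x * A b = A a := h
    rw [← h']
    ring
  have h3 : b ∣ x.denom := (hab.symm).dvd_of_dvd_mul_left (Dvd.intro_left _ h2)
  have h4 : x.denom ∣ b :=
    (RatFunc.isCoprime_num_denom x).symm.dvd_of_dvd_mul_left (Dvd.intro_left _ h2.symm)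
  have h5 : x.denom = b :=
    eq_of_monic_of_associated (RatFunc.monic_denom x) hb (associated_of_dvd_dvd h4 h3)
  refine ⟨?_, h5⟩
  rw [h5] at h2
  exact mul_right_cancel₀ hb.ne_zero h2

lemma pow_nd (x : RatFunc k) (n : ℕ) :
    (x ^ n).num = x.num ^ n ∧ (x ^ n).denom = x.denom ^ n := by
  apply nd_unique ((RatFunc.monic_denom x).pow n) ((RatFunc.isCoprime_num_denom x).pow)
  let A := algebraMap k[X] (RatFunc k)
  have hA : Function.Injective A := IsFractionRing.injective k[X] (RatFunc k)
  have hD : A x.denom ≠ 0 := by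
    intro h0
    exact x.denom_ne_zero (hA (h0.trans (map_zero A).symm))
  have h1 : x * A x.denom = A x.num := mul_denom x
  rw [map_pow, map_pow, ← mul_pow]
  exact congrArg (· ^ n) h1

end rf

variable {k : Type*} [Field k] [IsAlgClosed k] (p : ℕ) [Fact p.Prime] [CharP k p]

lemma pth_root {F : k[X]} (h : derivative F = 0) : ∃ F1 : k[X], F = F1 ^ p := by
  have : PerfectRing k p := PerfectField.toPerfectRing p
  have hf := expand_contract p h (Fact.out : p.Prime).ne_zero
  refine ⟨(contract p F).map ((frobeniusEquiv k p).symm : k →+* k), ?_⟩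
  set c := contract p F with hc
  have h2 : c = (c.map ((frobeniusEquiv k p).symm : k →+* k)).map (frobenius k p) := by
    rw [Polynomial.map_map]
    have : (frobenius k p).comp ((frobeniusEquiv k p).symm : k →+* k) = RingHom.id k := by
      ext a
      simp
    rw [this, Polynomial.map_id]
  conv_lhs => rw [← hf, h2]
  rw [← map_expand, Polynomial.map_frobenius_expand]

end Pool.Agent.H209R3.Uni
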