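import Pool.Agent.H209R3.Uni2

set_option autoImplicit false

namespace Pool.Agent.H209R3.Uni

open Polynomial

section local_
variable {k : Type*} [Field k] (p : ℕ) [Fact p.Prime] [CharP k p]

omit [Fact p.Prime] in
/-- if `W' D = W D'` then the multiplicities of `a` in `W` and `D` agree modulo `p` -/
lemma p_dvd_sub {W D : k[X]} (hW : W ≠ 0) (hD : D ≠ 0) {a : k}
    (h : derivative W * D = W * derivative D)
    (hle : D.rootMultiplicity a ≤ W.rootMultiplicity a) (hpos : 1 ≤ D.rootMultiplicity a) :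
    p ∣ W.rootMultiplicity a - D.rootMultiplicity a := by
  obtain ⟨D1, hD1, hnD⟩ := exists_eq_pow_rootMultiplicity_mul_and_not_dvd D hD a
  obtain ⟨W1, hW1, hnW⟩ := exists_eq_pow_rootMultiplicity_mul_and_not_dvd W hW a
  set e := D.rootMultiplicity a with he
  set w := W.rootMultiplicity a with hw
  obtain ⟨n, hn⟩ : ∃ n, e = n + 1 := ⟨e - 1, by omega⟩
  obtain ⟨l, hl⟩ : ∃ l, w = l + 1 := ⟨w - 1, by omega⟩
  rw [hn] at hD1
  rw [hl] at hW1
  have hDd : derivative D
      = (X - C a) ^ n * (C ((n + 1 : ℕ) : k) * D1 + (X - C a) * derivative D1) := by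
    rw [hD1, derivative_mul, derivative_X_sub_C_pow]
    simp only [Nat.add_sub_cancel]
    push_cast
    rw [C_add, C_1, C_eq_natCast]
    ring
  have hWd : derivative W
      = (X - C a) ^ l * (C ((l + 1 : ℕ) : k) * W1 + (X - C a) * derivative W1) := by
    rw [hW1, derivative_mul, derivative_X_sub_C_pow]
    simp only [Nat.add_sub_cancel]
    push_cast
    rw [C_add, C_1, C_eq_natCast]
    ring
  rw [hDd, hWd, hD1, hW1] at h
  have hX : (X - C a) ^ (n + l + 1) ≠ 0 := pow_ne_zero _ (X_sub_C_ne_zero a)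
  have h2 : (X - C a) ^ (n + l + 1)
        * ((C ((l + 1 : ℕ) : k) * W1 + (X - C a) * derivative W1) * D1)
      = (X - C a) ^ (n + l + 1)
        * (W1 * (C ((n + 1 : ℕ) : k) * D1 + (X - C a) * derivative D1)) := by
    rw [pow_succ, pow_add]
    linear_combination h
  have h3 := mul_left_cancel₀ hX h2
  have h4 := congrArg (eval a) h3
  simp only [eval_mul, eval_sub, eval_X, eval_C, sub_self, zero_mul, eval_add,
    add_zero] at h4
  have hD1a : D1.eval a ≠ 0 := fun h0 => hnD (dvd_iff_isRoot.2 h0)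
  have hW1a : W1.eval a ≠ 0 := fun h0 => hnW (dvd_iff_isRoot.2 h0)
  have h5 : ((l + 1 : ℕ) : k) = ((n + 1 : ℕ) : k) := by
    have hne : W1.eval a * D1.eval a ≠ 0 := mul_ne_zero hW1a hD1a
    apply mul_right_cancel₀ hne
    linear_combination h4
  rw [← CharP.cast_eq_zero_iff k p, Nat.cast_sub hle, hl, hn, h5, sub_self]

end local_

variable {k : Type*} [Field k] [IsAlgClosed k] (p : ℕ) [Fact p.Prime] [CharP k p]

omit [IsAlgClosed k] in
/-- data attached to a pair -/
theorem pair_data {s m : ℕ} (hs : 1 ≤ s) (hm : 2 ≤ m) (hpm : ¬ p ∣ m)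
    {D F N1 N2 M1 M2 G : k[X]} (hD : D.Monic)
    (c1 : IsCoprime N1 D) (c2 : IsCoprime N2 D)
    (e1 : N1 ^ (p ^ s * m) + F = M1 * D ^ (p ^ s * m - 1))
    (e2 : N2 ^ (p ^ s * m) + F = M2 * D ^ (p ^ s * m - 1))
    (g1 : derivative N1 * D - N1 * derivative D = G)
    (g2 : derivative N2 * D - N2 * derivative D = G) (hG : G ≠ 0) (hne : N1 ≠ N2) :
    ∀ a, D.IsRoot a → N1.eval a ≠ 0 ∧ N1.eval a ^ m = N2.eval a ^ m ∧
      (N1.eval a = N2.eval a →
        (p ^ s * m - 1) * D.rootMultiplicity a ≤ p ^ s * (N1 - N2).rootMultiplicity a ∧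
        p ∣ (N1 - N2).rootMultiplicity a - D.rootMultiplicity a) ∧
      (N1.eval a ≠ N2.eval a → p ∣ D.rootMultiplicity a ∧
        (p ^ s * m - 1) * D.rootMultiplicity a + p ^ s * D.rootMultiplicity a
          ≤ p ^ s * (G.rootMultiplicity a + 1)) := by
  classical
  have hp : p.Prime := Fact.out
  have hmk : (m : k) ≠ 0 := fun h => hpm ((CharP.cast_eq_zero_iff k p m).1 h)
  have hN10 : N1 ≠ 0 := by rintro rfl; apply hG; rw [← g1]; simp
  have hN20 : N2 ≠ 0 := by rintro rfl; apply hG; rw [← g2]; simp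
  have hD0 : D ≠ 0 := hD.ne_zero
  have hW0 : N1 - N2 ≠ 0 := sub_ne_zero.2 hne
  -- (a)
  have hKq : (N1 ^ m - N2 ^ m) ^ (p ^ s) = (M1 - M2) * D ^ (p ^ s * m - 1) := by
    rw [sub_pow_char_pow, ← pow_mul, ← pow_mul, mul_comm m (p ^ s)]
    linear_combination e1 - e2
  -- (c)
  have hK0 : N1 ^ m - N2 ^ m ≠ 0 := by
    intro h0
    have h1 : N1 ^ m = N2 ^ m := sub_eq_zero.1 h0
    have h2 := congrArg derivative h1
    rw [derivative_pow, derivative_pow] at h2
    obtain ⟨n, rfl⟩ : ∃ n, m = n + 1 := ⟨m - 1, by omega⟩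
    simp only [Nat.add_sub_cancel] at h2
    have hmC : C ((n + 1 : ℕ) : k) ≠ 0 := by rwa [Ne, C_eq_zero]
    have h3 : N1 ^ n * derivative N1 = N2 ^ n * derivative N2 := by
      apply mul_left_cancel₀ hmC
      linear_combination h2
    have h4 : N2 ^ (n + 1) * (derivative N1 * N2) = N2 ^ (n + 1) * (derivative N2 * N1) := by
      calc N2 ^ (n + 1) * (derivative N1 * N2) = N1 ^ (n + 1) * (derivative N1 * N2) := by rw [h1]
        _ = (N1 ^ n * derivative N1) * (N1 * N2) := by ring
        _ = (N2 ^ n * derivative N2) * (N1 * N2) := by rw [h3]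
        _ = _ := by ring
    have h5 := mul_left_cancel₀ (pow_ne_zero _ hN20) h4
    have h6 : G * N2 = G * N1 := by
      calc G * N2 = (derivative N1 * N2) * D - N1 * N2 * derivative D := by rw [← g1]; ring
        _ = (derivative N2 * N1) * D - N1 * N2 * derivative D := by rw [h5]
        _ = G * N1 := by rw [← g2]; ring
    exact hne (mul_left_cancel₀ hG h6).symm
  -- multiplicities
  set K := N1 ^ m - N2 ^ m with hK
  set q := p ^ s with hq
  have hq2 : 2 ≤ q := by
    calc 2 ≤ p := hp.two_le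
      _ = p ^ 1 := (pow_one p).symm
      _ ≤ p ^ s := Nat.pow_le_pow_right hp.pos hs
  intro a ha
  obtain ⟨e, he⟩ : ∃ e, e = D.rootMultiplicity a := ⟨_, rfl⟩
  obtain ⟨α, hα⟩ : ∃ α, α = K.rootMultiplicity a := ⟨_, rfl⟩
  rw [← he]
  have hαe : (q * m - 1) * e ≤ q * α := by
    have h1 : (X - C a) ^ ((q * m - 1) * e) ∣ K ^ q := by
      rw [hKq, mul_comm (q * m - 1) e, pow_mul, he]
      exact Dvd.dvd.mul_left (pow_dvd_pow_of_dvd (pow_rootMultiplicity_dvd D a) _) _
    have h2 := (le_rootMultiplicity_iff (pow_ne_zero q hK0)).2 h1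
    rw [← count_roots, roots_pow, Multiset.count_nsmul, count_roots, ← hα] at h2
    exact h2
  have he1 : 1 ≤ e := by rw [he]; exact (rootMultiplicity_pos hD0).2 ha
  have hqm : 2 * q ≤ q * m := by rw [mul_comm]; exact Nat.mul_le_mul_left q hm
  have hα1 : 1 ≤ α := by
    by_contra h3
    have h4 : α = 0 := by omega
    rw [h4, mul_zero] at hαe
    have h5 : 0 < (q * m - 1) * e := Nat.mul_pos (by omega) he1
    omega
  have hN1a : N1.eval a ≠ 0 := by
    intro h0
    obtain ⟨u, v, huv⟩ := c1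
    have := congrArg (eval a) huv
    have ha' : D.eval a = 0 := ha
    simp [h0, ha'] at this
  have hN2a : N2.eval a ≠ 0 := by
    intro h0
    obtain ⟨u, v, huv⟩ := c2
    have := congrArg (eval a) huv
    have ha' : D.eval a = 0 := ha
    simp [h0, ha'] at this
  have hKa : N1.eval a ^ m = N2.eval a ^ m := by
    have h1 : K.IsRoot a := (rootMultiplicity_pos hK0).1 (by rw [← hα]; exact hα1)
    rw [IsRoot.def, hK, eval_sub, eval_pow, eval_pow, sub_eq_zero] at h1
    exact h1
  have hfac : (X - C a) ^ α ∣ N1 - C (N1.eval a / N2.eval a) * N2 := by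
    rw [hα]
    apply local_factor hmk _ hN1a _ (pow_rootMultiplicity_dvd K a)
    · field_simp
    · rw [div_pow, hKa, div_self (pow_ne_zero _ hN2a)]
  refine ⟨hN1a, hKa, fun hmono => ?_, fun hmix => ?_⟩
  · rw [hmono, div_self hN2a, C_1, one_mul] at hfac
    have hw := (le_rootMultiplicity_iff hW0).2 hfac
    have h1 : (q * m - 1) * e ≤ q * (N1 - N2).rootMultiplicity a :=
      hαe.trans (Nat.mul_le_mul_left q hw)
    refine ⟨h1, ?_⟩
    rw [he]
    apply p_dvd_sub p hW0 hD0
    · rw [derivative_sub]; linear_combination g1 - g2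
    · rw [← he]
      have h2 : q * e ≤ (q * m - 1) * e := Nat.mul_le_mul_right e (by omega)
      exact Nat.le_of_mul_le_mul_left (h2.trans h1) (by omega)
    · rw [← he]; exact he1
  · constructor
    · rw [he]
      apply p_dvd_mult p (W := N1 - N2) hD0
      · rw [eval_sub]; exact sub_ne_zero.2 hmix
      · rw [derivative_sub]; linear_combination g1 - g2
    · set ζ := N1.eval a / N2.eval a with hζ
      have hζ1 : 1 - ζ ≠ 0 := by
        intro h0
        have h2 : ζ = 1 := (sub_eq_zero.1 h0).symm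
        rw [hζ, div_eq_one_iff_eq hN2a] at h2
        exact hmix h2
      set H := N1 - C ζ * N2 with hH
      have h3 : C (1 - ζ) * G = derivative H * D - H * derivative D := by
        rw [hH, derivative_sub, derivative_C_mul, C_sub, C_1]
        linear_combination C ζ * g2 - g1
      have h4 : (X - C a) ^ (α + e - 1) ∣ C (1 - ζ) * G := by
        rw [h3]
        apply dvd_sub
        · have : α + e - 1 = (α - 1) + e := by omega
          rw [this, pow_add]
          exact mul_dvd_mul (pow_sub_one_dvd_derivative_of_pow_dvd hfac)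
            (by rw [he]; exact pow_rootMultiplicity_dvd D a)
        · have : α + e - 1 = α + (e - 1) := by omega
          rw [this, pow_add]
          exact mul_dvd_mul hfac
            (pow_sub_one_dvd_derivative_of_pow_dvd (by rw [he]; exact pow_rootMultiplicity_dvd D a))
      have hu : IsUnit (C (1 - ζ)) := isUnit_C.2 (isUnit_iff_ne_zero.2 hζ1)
      have h5 := (le_rootMultiplicity_iff hG).2 ((hu.dvd_mul_left).1 h4)
      have h6 : α + e ≤ G.rootMultiplicity a + 1 := by omega
      calc (q * m - 1) * e + q * e ≤ q * α + q * e := Nat.add_le_add_right hαe _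
        _ = q * (α + e) := by ring
        _ ≤ _ := Nat.mul_le_mul_left q h6

lemma sum_e {D : k[X]} [DecidableEq k] :
    ∑ a ∈ D.roots.toFinset, D.rootMultiplicity a = D.natDegree := by
  have h1 : D.roots.card = D.natDegree := IsAlgClosed.card_roots_eq_natDegree
  rw [← h1, ← Multiset.toFinset_sum_count_eq]
  apply Finset.sum_congr rfl
  intro a _
  exact (count_roots D).symm

omit [IsAlgClosed k] [Fact p.Prime] [CharP k p] p in
lemma g_lower {D N G : k[X]} (hD : D ≠ 0) (hG : G ≠ 0)
    (g1 : derivative N * D - N * derivative D = G) (a : k) :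
    D.rootMultiplicity a ≤ G.rootMultiplicity a + 1 := by
  have h4 : (X - C a) ^ (D.rootMultiplicity a - 1) ∣ G := by
    rw [← g1]
    apply dvd_sub
    · apply Dvd.dvd.mul_left
      exact (pow_dvd_pow _ (Nat.sub_le _ _)).trans (pow_rootMultiplicity_dvd D a)
    · apply Dvd.dvd.mul_left
      exact pow_sub_one_dvd_derivative_of_pow_dvd (pow_rootMultiplicity_dvd D a)
  have h5 := (le_rootMultiplicity_iff hG).2 h4
  omega

/-- two points suffice when `m ≥ 3` -/
theorem coreA {s m : ℕ} (hs : 1 ≤ s) (hm : 3 ≤ m) (hpm : ¬ p ∣ m)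
    {D F N1 N2 M1 M2 G : k[X]} (hD : D.Monic) (hE : 1 ≤ D.natDegree)
    (hN1 : N1.natDegree ≤ D.natDegree) (hN2 : N2.natDegree ≤ D.natDegree)
    (c1 : IsCoprime N1 D) (c2 : IsCoprime N2 D)
    (e1 : N1 ^ (p ^ s * m) + F = M1 * D ^ (p ^ s * m - 1))
    (e2 : N2 ^ (p ^ s * m) + F = M2 * D ^ (p ^ s * m - 1))
    (g1 : derivative N1 * D - N1 * derivative D = G)
    (g2 : derivative N2 * D - N2 * derivative D = G) (hG : G ≠ 0) : N1 = N2 := by
  classical
  by_contra hne
  have hp : p.Prime := Fact.out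
  have hD0 : D ≠ 0 := hD.ne_zero
  have hW0 : N1 - N2 ≠ 0 := sub_ne_zero.2 hne
  have pd := pair_data p hs (by omega) hpm hD c1 c2 e1 e2 g1 g2 hG hne
  set q := p ^ s with hq
  have hq2 : 2 ≤ q := by
    calc 2 ≤ p := hp.two_le
      _ = p ^ 1 := (pow_one p).symm
      _ ≤ p ^ s := Nat.pow_le_pow_right hp.pos hs
  have hqm : 3 * q ≤ q * m := by rw [mul_comm]; exact Nat.mul_le_mul_left q hm
  have hGdeg : G.natDegree ≤ 2 * D.natDegree - 2 := by
    rw [← g1]; exact natDegree_wr hE hN1 le_rfl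
  let x : k → ℕ := fun a => if N1.eval a = N2.eval a then (N1 - N2).rootMultiplicity a else 0
  have hx : ∑ a ∈ D.roots.toFinset, x a ≤ D.natDegree := by
    refine le_trans (sum_le_natDegree hW0 _ x ?_)
      (le_trans (natDegree_sub_le _ _) (max_le hN1 hN2))
    intro a _
    simp only [x]
    split_ifs
    · exact pow_rootMultiplicity_dvd _ a
    · rw [pow_zero]; exact one_dvd _
  have hg : ∑ a ∈ D.roots.toFinset, G.rootMultiplicity a ≤ G.natDegree :=
    sum_le_natDegree hG _ _ (fun a _ => pow_rootMultiplicity_dvd _ a)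
  have hper : ∀ a ∈ D.roots.toFinset, 3 * D.rootMultiplicity a
      ≤ G.rootMultiplicity a + x a := by
    intro a ha
    have har : D.IsRoot a := (mem_roots hD0).1 (Multiset.mem_toFinset.1 ha)
    obtain ⟨_, _, h3, h4⟩ := pd a har
    have he1 : 1 ≤ D.rootMultiplicity a := (rootMultiplicity_pos hD0).2 har
    obtain ⟨e, he⟩ : ∃ e, e = D.rootMultiplicity a := ⟨_, rfl⟩
    obtain ⟨g, hgd⟩ : ∃ g, g = G.rootMultiplicity a := ⟨_, rfl⟩
    rw [← he] at h3 h4 he1 ⊢
    rw [← hgd] at h4 ⊢
    simp only [x]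
    split_ifs with hmono
    · obtain ⟨h5, _⟩ := h3 hmono
      obtain ⟨w, hw⟩ : ∃ w, w = (N1 - N2).rootMultiplicity a := ⟨_, rfl⟩
      rw [← hw] at h5 ⊢
      have h6 : e ≤ g + 1 := by rw [he, hgd]; exact g_lower hD0 hG g1 a
      -- 2 w ≥ 5 e
      have h7 : q * (5 * e) ≤ q * (2 * w) := by
        have b1 : q * (5 * e) = (5 * q) * e := by ring
        have b2 : q * (2 * w) = 2 * (q * w) := by ring
        have b3 : (5 * q) * e ≤ (2 * (q * m - 1)) * e := Nat.mul_le_mul_right e (by omega)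
        have b4 : (2 * (q * m - 1)) * e = 2 * ((q * m - 1) * e) := by ring
        omega
      have h8 := Nat.le_of_mul_le_mul_left h7 (by omega)
      omega
    · obtain ⟨h5, h6⟩ := h4 hmono
      have he2 : 2 ≤ e := hp.two_le.trans (Nat.le_of_dvd he1 h5)
      have h7 : q * (7 * e) ≤ q * (2 * (g + 1)) := by
        have b1 : q * (7 * e) = (7 * q) * e := by ring
        have b2 : q * (2 * (g + 1)) = 2 * (q * (g + 1)) := by ring
        have b3 : (7 * q) * e ≤ (2 * (q * m - 1) + 2 * q) * e := Nat.mul_le_mul_right e (by omega)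
        have b4 : (2 * (q * m - 1) + 2 * q) * e = 2 * ((q * m - 1) * e + q * e) := by ring
        omega
      have h8 := Nat.le_of_mul_le_mul_left h7 (by omega)
      omega
  have hsum := Finset.sum_le_sum hper
  rw [← Finset.mul_sum, Finset.sum_add_distrib, sum_e] at hsum
  omega

end Pool.Agent.H209R3.Uni
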