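import Pool.Agent.H209R3.Uni8

set_option autoImplicit false

namespace Pool.Agent.H209R3.Uni

open Polynomial

/-- ordered pairs of distinct indices -/
def Prs : Finset (Fin 6 × Fin 6) := Finset.univ.filter (fun ij => ij.1 ≠ ij.2)

lemma card_Prs : Prs.card = 30 := by decide

set_option maxRecDepth 100000 in
lemma count12 : ∀ σ : Fin 6 → Bool,
    12 ≤ (Prs.filter (fun ij : Fin 6 × Fin 6 => σ ij.1 = σ ij.2)).card := by decide

/-- arithmetic for mono pairs -/
lemma ar1 {p w e : ℕ} (hp : p.Prime) (hp2 : p ≠ 2) (he : 1 ≤ e) (hle : e ≤ w)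
    (hd : p ∣ w - e) (h : 5 * e ≤ 3 * w) : 8 * e + 3 ≤ 5 * w := by
  obtain ⟨t, ht⟩ := hd
  have hp3 : p = 3 ∨ 5 ≤ p := by
    have h2 := hp.two_le
    have h4 : p ≠ 4 := by rintro rfl; revert hp; decide
    omega
  have ht1 : 1 ≤ t := by
    rcases Nat.eq_zero_or_pos t with h0 | h0
    · rw [h0, mul_zero] at ht; omega
    · exact h0
  rcases hp3 with rfl | h5
  · omega
  · have : 5 * 1 ≤ p * t := Nat.mul_le_mul h5 ht1
    omega

lemma ar2 {p w e : ℕ} (hp : p.Prime) (hp2 : p ≠ 2) (he : 1 ≤ e) (hle : e ≤ w)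
    (hd : p ∣ w - e) (hde : p ∣ e) (h : 5 * e ≤ 3 * w) : 3 * e + 3 ≤ 2 * w := by
  obtain ⟨t, ht⟩ := hd
  obtain ⟨u, hu⟩ := hde
  have hp3 : p = 3 ∨ 5 ≤ p := by
    have h2 := hp.two_le
    have h4 : p ≠ 4 := by rintro rfl; revert hp; decide
    omega
  have ht1 : 1 ≤ t := by
    rcases Nat.eq_zero_or_pos t with h0 | h0
    · rw [h0, mul_zero] at ht; omega
    · exact h0
  rcases hp3 with rfl | h5
  · omega
  · have : 5 * 1 ≤ p * t := Nat.mul_le_mul h5 ht1
    omega

variable {k : Type*} [Field k] [IsAlgClosed k] (p : ℕ) [Fact p.Prime] [CharP k p]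

/-- no six points when `m = 2` -/
theorem coreB {s : ℕ} (hs : 1 ≤ s) (hp2 : p ≠ 2)
    {D F G : k[X]} {N M : Fin 6 → k[X]} (hD : D.Monic) (hE : 1 ≤ D.natDegree)
    (hN : ∀ i, (N i).natDegree ≤ D.natDegree)
    (c : ∀ i, IsCoprime (N i) D)
    (e : ∀ i, (N i) ^ (p ^ s * 2) + F = M i * D ^ (p ^ s * 2 - 1))
    (g : ∀ i, derivative (N i) * D - N i * derivative D = G) (hG : G ≠ 0) :
    ¬ Function.Injective N := by
  classical
  intro hinj
  have hp : p.Prime := Fact.out
  have hD0 : D ≠ 0 := hD.ne_zero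
  have hpm : ¬ p ∣ 2 := by
    intro h
    have := Nat.le_of_dvd (by norm_num) h
    have := hp.two_le
    omega
  have hp3 : 3 ≤ p := by have := hp.two_le; omega
  have h2k : (2 : k) ≠ 0 := by
    intro h0
    apply hpm
    rw [← CharP.cast_eq_zero_iff k p]
    exact_mod_cast h0
  have pd : ∀ i j, i ≠ j → _ := fun i j hij =>
    pair_data p hs le_rfl hpm hD (c i) (c j) (e i) (e j) (g i) (g j) hG (fun h => hij (hinj h))
  set q := p ^ s with hq
  have hq3 : 3 ≤ q := by
    calc 3 ≤ p := hp3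
      _ = p ^ 1 := (pow_one p).symm
      _ ≤ p ^ s := Nat.pow_le_pow_right hp.pos hs
  have hGdeg : G.natDegree ≤ 2 * D.natDegree - 2 := by
    rw [← g 0]; exact natDegree_wr hE (hN 0) le_rfl
  let x : Fin 6 × Fin 6 → k → ℕ := fun ij a =>
    if (N ij.1).eval a = (N ij.2).eval a then (N ij.1 - N ij.2).rootMultiplicity a else 0
  have hx : ∀ ij ∈ Prs, ∑ a ∈ D.roots.toFinset, x ij a ≤ D.natDegree := by
    intro ij hij
    have hne : ij.1 ≠ ij.2 := (Finset.mem_filter.1 hij).2
    have hW0 : N ij.1 - N ij.2 ≠ 0 := sub_ne_zero.2 (fun h => hne (hinj h))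
    refine le_trans (sum_le_natDegree hW0 _ (x ij) ?_)
      (le_trans (natDegree_sub_le _ _) (max_le (hN _) (hN _)))
    intro a _
    simp only [x]
    split_ifs
    · exact pow_rootMultiplicity_dvd _ a
    · rw [pow_zero]; exact one_dvd _
  have hg : ∑ a ∈ D.roots.toFinset, G.rootMultiplicity a ≤ G.natDegree :=
    sum_le_natDegree hG _ _ (fun a _ => pow_rootMultiplicity_dvd _ a)
  have hper : ∀ a ∈ D.roots.toFinset, 66 * D.rootMultiplicity a
      ≤ 18 * G.rootMultiplicity a + ∑ ij ∈ Prs, x ij a := by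
    intro a ha
    have har : D.IsRoot a := (mem_roots hD0).1 (Multiset.mem_toFinset.1 ha)
    have he1 : 1 ≤ D.rootMultiplicity a := (rootMultiplicity_pos hD0).2 har
    obtain ⟨ε, hε⟩ : ∃ ε, ε = D.rootMultiplicity a := ⟨_, rfl⟩
    obtain ⟨γ, hγ⟩ : ∃ γ, γ = G.rootMultiplicity a := ⟨_, rfl⟩
    rw [← hε] at he1 ⊢
    rw [← hγ]
    -- facts for mono pairs
    have hmonofact : ∀ ij ∈ Prs, (N ij.1).eval a = (N ij.2).eval a →
        ε ≤ (N ij.1 - N ij.2).rootMultiplicity a ∧
        p ∣ (N ij.1 - N ij.2).rootMultiplicity a - ε ∧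
        5 * ε ≤ 3 * (N ij.1 - N ij.2).rootMultiplicity a := by
      intro ij hij hm
      have hne : ij.1 ≠ ij.2 := (Finset.mem_filter.1 hij).2
      obtain ⟨_, _, h3, _⟩ := pd ij.1 ij.2 hne a har
      obtain ⟨h5, h6⟩ := h3 hm
      rw [← hε] at h5 h6
      obtain ⟨w, hw⟩ : ∃ w, w = (N ij.1 - N ij.2).rootMultiplicity a := ⟨_, rfl⟩
      rw [← hw] at h5 h6 ⊢
      have h7 : q * (5 * ε) ≤ q * (3 * w) := by
        have b1 : q * (5 * ε) = (5 * q) * ε := by ring
        have b2 : q * (3 * w) = 3 * (q * w) := by ring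
        have b3 : (5 * q) * ε ≤ (3 * (q * 2 - 1)) * ε := Nat.mul_le_mul_right ε (by omega)
        have b4 : (3 * (q * 2 - 1)) * ε = 3 * ((q * 2 - 1) * ε) := by ring
        omega
      have h8 := Nat.le_of_mul_le_mul_left h7 (by omega)
      exact ⟨by omega, h6, h8⟩
    have hglow : ε ≤ γ + 1 := by rw [hε, hγ]; exact g_lower hD0 hG (g 0) a
    by_cases hall : ∀ ij ∈ Prs, (N ij.1).eval a = (N ij.2).eval a
    · -- all mono
      have h1 : ∀ ij ∈ Prs, 8 * ε + 3 ≤ 5 * x ij a := by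
        intro ij hij
        obtain ⟨m1, m2, m3⟩ := hmonofact ij hij (hall ij hij)
        simp only [x]
        rw [if_pos (hall ij hij)]
        exact ar1 hp hp2 he1 m1 m2 m3
      have h2 := Finset.card_nsmul_le_sum Prs (fun ij => 5 * x ij a) (8 * ε + 3) h1
      rw [card_Prs, ← Finset.mul_sum, smul_eq_mul] at h2
      omega
    · push Not at hall
      obtain ⟨ij0, hij0, hmix⟩ := hall
      have hne0 : ij0.1 ≠ ij0.2 := (Finset.mem_filter.1 hij0).2
      obtain ⟨_, _, _, h4⟩ := pd ij0.1 ij0.2 hne0 a har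
      obtain ⟨h5, h6⟩ := h4 hmix
      rw [← hε] at h5 h6
      rw [← hγ] at h6
      have h8 : 8 * ε ≤ 3 * (γ + 1) := by
        have h7 : q * (8 * ε) ≤ q * (3 * (γ + 1)) := by
          have b1 : q * (8 * ε) = (8 * q) * ε := by ring
          have b2 : q * (3 * (γ + 1)) = 3 * (q * (γ + 1)) := by ring
          have b3 : (8 * q) * ε ≤ (3 * (q * 2 - 1) + 3 * q) * ε := Nat.mul_le_mul_right ε (by omega)
          have b4 : (3 * (q * 2 - 1) + 3 * q) * ε = 3 * ((q * 2 - 1) * ε + q * ε) := by ring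
          omega
        exact Nat.le_of_mul_le_mul_left h7 (by omega)
      -- sign function
      let σ : Fin 6 → Bool := fun i => decide ((N i).eval a = (N 0).eval a)
      have hσ : ∀ i j : Fin 6, σ i = σ j → (N i).eval a = (N j).eval a := by
        have hsq : ∀ i, (N i).eval a = (N 0).eval a ∨ (N i).eval a = - (N 0).eval a := by
          intro i
          by_cases hi : i = 0
          · left; rw [hi]
          · obtain ⟨_, h2, _, _⟩ := pd i 0 hi a har
            exact sq_eq_sq_iff_eq_or_eq_neg.1 h2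
        intro i j hij
        simp only [σ, decide_eq_decide] at hij
        rcases hsq i with hi | hi
        · rw [hi]; exact (hij.1 hi).symm
        · rcases hsq j with hj | hj
          · rw [hj]; exact hij.2 hj
          · rw [hi, hj]
      have h9 : ∀ ij ∈ Prs.filter (fun ij : Fin 6 × Fin 6 => σ ij.1 = σ ij.2),
          3 * ε + 3 ≤ 2 * x ij a := by
        intro ij hij
        obtain ⟨hij1, hij2⟩ := Finset.mem_filter.1 hij
        have hm := hσ ij.1 ij.2 hij2
        obtain ⟨m1, m2, m3⟩ := hmonofact ij hij1 hm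
        simp only [x]
        rw [if_pos hm]
        exact ar2 hp hp2 he1 m1 m2 h5 m3
      have h10 := Finset.card_nsmul_le_sum _ (fun ij => 2 * x ij a) (3 * ε + 3) h9
      rw [← Finset.mul_sum, smul_eq_mul] at h10
      have h11 := Nat.mul_le_mul_right (3 * ε + 3) (count12 σ)
      have h12 : ∑ ij ∈ Prs.filter (fun ij : Fin 6 × Fin 6 => σ ij.1 = σ ij.2), x ij a
          ≤ ∑ ij ∈ Prs, x ij a :=
        Finset.sum_le_sum_of_subset (Finset.filter_subset _ _)
      omega
  have hsum := Finset.sum_le_sum hper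
  rw [← Finset.mul_sum, Finset.sum_add_distrib, ← Finset.mul_sum, sum_e, Finset.sum_comm] at hsum
  have hx2 := Finset.sum_le_card_nsmul Prs (fun ij => ∑ a ∈ D.roots.toFinset, x ij a)
    D.natDegree hx
  rw [card_Prs, smul_eq_mul] at hx2
  omega

end Pool.Agent.H209R3.Uni
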