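import Mathlib

set_option autoImplicit false

namespace Pool.Agent.H209R3

section Vec
variable {R : Type*} [CommRing R]

/-- dot product of two triples -/
def dt (a b : Fin 3 → R) : R := a 0 * b 0 + a 1 * b 1 + a 2 * b 2

/-- cross product of two triples -/
def cr (a b : Fin 3 → R) : Fin 3 → R :=
  ![a 1 * b 2 - a 2 * b 1, a 2 * b 0 - a 0 * b 2, a 0 * b 1 - a 1 * b 0]

/-- two triples are parallel -/
def Par (a b : Fin 3 → R) : Prop := ∀ i j, a i * b j = a j * b i

/-- a unimodular triple -/
def Prim (a : Fin 3 → R) : Prop := ∃ c : Fin 3 → R, dt c a = 1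

lemma dt_comm (a b : Fin 3 → R) : dt a b = dt b a := by
  simp only [dt]; ring

lemma par_symm {a b : Fin 3 → R} (h : Par a b) : Par b a := by
  intro i j
  have := h i j
  linear_combination -this

lemma par_iff_cr (a b : Fin 3 → R) : Par a b ↔ cr a b = 0 := by
  constructor
  · intro h
    funext i
    fin_cases i
    · simpa [cr] using sub_eq_zero.2 (h 1 2)
    · simpa [cr] using sub_eq_zero.2 (h 2 0)
    · simpa [cr] using sub_eq_zero.2 (h 0 1)
  · intro h
    have h0 : a 1 * b 2 - a 2 * b 1 = 0 := by simpa [cr] using congrFun h 0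
    have h1 : a 2 * b 0 - a 0 * b 2 = 0 := by simpa [cr] using congrFun h 1
    have h2 : a 0 * b 1 - a 1 * b 0 = 0 := by simpa [cr] using congrFun h 2
    intro i j
    fin_cases i <;> fin_cases j <;> simp <;>
      first
        | linear_combination h0
        | linear_combination h1
        | linear_combination h2
        | linear_combination -h0
        | linear_combination -h1
        | linear_combination -h2

lemma par_trans [IsDomain R] {a b c : Fin 3 → R} (hc : c ≠ 0) (h1 : Par a c) (h2 : Par b c) :
    Par a b := by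
  obtain ⟨k, hk⟩ : ∃ k, c k ≠ 0 := by
    by_contra hcon
    push Not at hcon
    exact hc (funext hcon)
  intro i j
  have hk2 : c k * c k ≠ 0 := mul_ne_zero hk hk
  apply mul_right_cancel₀ hk2
  have e1 := h1 i k
  have e2 := h1 j k
  have e3 := h2 i k
  have e4 := h2 j k
  linear_combination (b j * c k) * e1 + (a k * c i) * e4 - (b i * c k) * e2 - (a k * c j) * e3

lemma prim_ne_zero [Nontrivial R] {a : Fin 3 → R} (h : Prim a) : a ≠ 0 := by
  rintro rfl
  obtain ⟨c, hc⟩ := h
  simp [dt] at hc

lemma prim_par {m w : Fin 3 → R} (hm : Prim m) (h : Par w m) :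
    ∃ l : R, ∀ i, w i = l * m i := by
  obtain ⟨c, hc⟩ := hm
  refine ⟨dt c w, fun i => ?_⟩
  simp only [dt] at hc ⊢
  have e0 := h i 0
  have e1 := h i 1
  have e2 := h i 2
  linear_combination (-(w i)) * hc + c 0 * e0 + c 1 * e1 + c 2 * e2

lemma cr_par {a b w : Fin 3 → R} (h1 : dt a w = 0) (h2 : dt b w = 0) : Par (cr a b) w := by
  rw [par_iff_cr]
  simp only [dt] at h1 h2
  funext i
  fin_cases i
  · simp only [cr, Fin.isValue, Matrix.cons_val]
    simp
    linear_combination (b 0) * h1 - (a 0) * h2
  · simp only [cr, Fin.isValue, Matrix.cons_val]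
    simp
    linear_combination (b 1) * h1 - (a 1) * h2
  · simp only [cr, Fin.isValue, Matrix.cons_val]
    simp
    linear_combination (b 2) * h1 - (a 2) * h2

lemma dt_cr_left (a b : Fin 3 → R) : dt a (cr a b) = 0 := by
  simp [dt, cr]; ring

lemma dt_cr_right (a b : Fin 3 → R) : dt b (cr a b) = 0 := by
  simp [dt, cr]; ring

lemma par_of_perp [IsDomain R] {a b u v : Fin 3 → R} (huv : ¬ Par u v)
    (h1 : dt a u = 0) (h2 : dt a v = 0) (h3 : dt b u = 0) (h4 : dt b v = 0) : Par a b := by
  by_contra hab
  rw [par_iff_cr] at hab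
  apply huv
  exact par_trans hab (par_symm (cr_par h1 h3)) (par_symm (cr_par h2 h4))

end Vec

end Pool.Agent.H209R3
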